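import Pool.Agent.X243.CD.Glob
import Pool.Agent.X243.Gen.Main

/-!
Polynomials with full symmetric Galois groups: constants which become squares modulo them.
-/

set_option autoImplicit false
set_option linter.all false

open Polynomial
open scoped Classical

namespace Pool.Agent.X243.CD

open Pool.Agent.TH115.GD Pool.Agent.X243.Tate Pool.Agent.X243.Sol Pool.Agent.X243.Gen
open Pool.Agent.W309.TD (SqStable)

section three

variable {L L' : Type} [Field L] [Field L'] [Algebra L L']

theorem sqStable_of_three (h2L : (2 : L) ≠ 0) [IsSepClosure L L'] {f : L[X]} (hsep : f.Separable)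
    (hspl : (f.map (algebraMap L L')).Splits) (hd : 0 < f.natDegree)
    (h : Three L (f.rootSet L')) : SqStable f := by
  rintro c ⟨a, ha⟩
  haveI : IsSepClosed L' := IsSepClosure.sep_closed L
  haveI : IsGalois L L' := IsSepClosure.isGalois
  haveI : NeZero (2 : L') := ⟨by
    rw [← map_ofNat (algebraMap L L') 2]
    exact (map_ne_zero_iff _ (algebraMap L L').injective).2 h2L⟩
  have hfm0 : f.map (algebraMap L L') ≠ 0 := hsep.map.ne_zero
  have hcard : Multiset.card (f.map (algebraMap L L')).roots = f.natDegree := by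
    rw [← hspl.natDegree_eq_card_roots, natDegree_map]
  obtain ⟨x, hx⟩ : ∃ x, x ∈ (f.map (algebraMap L L')).roots := by
    apply Multiset.card_pos_iff_exists_mem.1
    omega
  rw [mem_roots hfm0, IsRoot.def, eval_map_algebraMap] at hx
  have hZ : ∀ x, x ∈ f.rootSet L' ↔ aeval x f = 0 := by
    intro x
    rw [mem_rootSet]
    exact ⟨fun h => h.2, fun h => ⟨hsep.ne_zero, h⟩⟩
  have hsq : ∀ x : L', aeval x f = 0 → aeval x a ^ 2 = algebraMap L L' c := by
    intro x hx
    obtain ⟨q, hq⟩ := ha
    have h1 := congrArg (aeval x) hq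
    rw [map_sub, map_mul, hx, zero_mul, aeval_C, map_pow] at h1
    exact (sub_eq_zero.1 h1).symm
  by_contra hc
  obtain ⟨δ, hδe⟩ : ∃ δ, δ = aeval x a := ⟨_, rfl⟩
  have hδ : δ ^ 2 = algebraMap L L' c := by rw [hδe]; exact hsq x hx
  have hδ0 : δ ≠ 0 := by
    rintro rfl
    apply hc
    have : c = 0 := (algebraMap L L').injective (by rw [← hδ, map_zero]; ring)
    rw [this]
    exact IsSquare.zero
  have hsg : ∀ g : L' ≃ₐ[L] L', g δ = δ ∨ g δ = -δ := by
    intro g
    apply sq_eq_sq_iff_eq_or_eq_neg.1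
    rw [← map_pow, hδ, g.commutes]
  obtain ⟨τ, hτ⟩ : ∃ τ : L' ≃ₐ[L] L', τ δ ≠ δ := by
    by_contra hall
    push Not at hall
    have h1 : δ ∈ Set.range (algebraMap L L') := by
      rw [InfiniteGalois.mem_range_algebraMap_iff_fixed]
      exact hall
    obtain ⟨d, hd⟩ := h1
    apply hc
    refine ⟨d, (algebraMap L L').injective ?_⟩
    rw [map_mul, hd, ← hδ, sq]
  have hτ' : τ δ = -δ := (hsg τ).resolve_left hτ
  have hgal : ∀ (g : L' ≃ₐ[L] L') (x : L'), aeval (g x) a = g (aeval x a) :=
    fun g x => aeval_algHom_apply g x a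
  have hy : aeval (τ x) f = 0 := by
    have h1 : aeval (τ x) f = τ (aeval x f) := aeval_algHom_apply τ x f
    rw [h1, hx, map_zero]
  have e1 : aeval (τ x) a = -δ := by rw [hgal, ← hδe, hτ']
  have e2 : aeval (τ x) a = δ := by
    rcases eq_or_ne x (τ x) with h1 | h1
    · rw [← h1, hδe]
    · obtain ⟨g, z, g1, g2, g3⟩ := h x ((hZ x).2 hx) (τ x) ((hZ _).2 hy) h1
      have h2 : (g * g * g * g) x = τ x := by
        show g (g (g (g x))) = τ x
        rw [g1, g2, g3, g1]
      have h3 : (g * g * g * g) δ = δ := by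
        show g (g (g (g δ))) = δ
        rcases hsg g with h4 | h4
        · rw [h4, h4, h4, h4]
        · rw [h4, map_neg, h4, neg_neg, h4, map_neg, h4, neg_neg]
      rw [← h2, hgal, ← hδe, h3]
  have h3 : (2 : L') * δ = 0 := by linear_combination e1 - e2
  rcases mul_eq_zero.1 h3 with h4 | h4
  · exact two_ne_zero h4
  · exact hδ0 h4

end three

section good

variable {k : Type} [Field k]

theorem three_prop {F : k[X]} (hF : F.Separable) (h5 : 5 ≤ F.natDegree) (hfull : FullG F)
    (h2 : (2 : k) ≠ 0)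
    (L L' : Type) [Field L] [Field L'] [Algebra k L] [Algebra L L'] [Algebra k L']
    [IsScalarTower k L L'] [IsSepClosure L L'] (M : IntermediateField k L') [Normal k M]
    (hM : ∀ x : L, IsSeparable k x → algebraMap L L' x ∈ M)
    (hns : ¬ (F.map (algebraMap k M)).Splits) :
    Three L ((F.map (algebraMap k L)).rootSet L') ∧ (F.map (algebraMap k L)).Separable ∧
      ((F.map (algebraMap k L)).map (algebraMap L L')).Splits ∧
      0 < (F.map (algebraMap k L)).natDegree := by
  haveI : IsSepClosed L' := IsSepClosure.sep_closed L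
  haveI : IsGalois L L' := IsSepClosure.isGalois
  have h2L : (2 : L) ≠ 0 := by
    rw [← map_ofNat (algebraMap k L) 2]
    exact (map_ne_zero_iff _ (algebraMap k L).injective).2 h2
  have hsp := SplittingField.splits F
  haveI : FiniteDimensional k F.SplittingField := inferInstance
  haveI : IsGalois k F.SplittingField := IsGalois.of_separable_splitting_field hF
  obtain ⟨i, -⟩ : ∃ i : F.SplittingField →ₐ[k] L', i = i := ⟨IsSepClosed.lift, rfl⟩
  letI : Algebra F.SplittingField L' := i.toRingHom.toAlgebra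
  haveI : IsScalarTower k F.SplittingField L' :=
    IsScalarTower.of_algebraMap_eq fun x => (i.commutes x).symm
  have hsurj := hfull F.SplittingField hsp
  have hcard : Nat.card (F.rootSet F.SplittingField) = F.natDegree := by
    rw [Nat.card_eq_fintype_card, card_rootSet_eq_natDegree hF hsp]
  have hsepL : (F.map (algebraMap k L)).Separable := hF.map
  have hsplL : ((F.map (algebraMap k L)).map (algebraMap L L')).Splits := by
    rw [Polynomial.map_map, ← IsScalarTower.algebraMap_eq, IsScalarTower.algebraMap_eq k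
      F.SplittingField L', ← Polynomial.map_map]
    exact hsp.map _
  have hZ : (F.map (algebraMap k L)).rootSet L' =
      (algebraMap F.SplittingField L') '' F.rootSet F.SplittingField := by
    rw [hsp.image_rootSet_algebraMap]
    ext x
    rw [mem_rootSet, mem_rootSet, aeval_map_algebraMap]
    exact ⟨fun h => ⟨hF.ne_zero, h.2⟩, fun h => ⟨hsepL.ne_zero, h.2⟩⟩
  have h3 : Three L ((F.map (algebraMap k L)).rootSet L') := by
    intro x hx y hy hxy
    rw [hZ] at hx hy
    obtain ⟨x, hx, rfl⟩ := hx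
    obtain ⟨y, hy, rfl⟩ := hy
    obtain ⟨X', hX'⟩ : ∃ X' : F.rootSet F.SplittingField, X' = ⟨x, hx⟩ := ⟨_, rfl⟩
    obtain ⟨Y', hY'⟩ : ∃ Y' : F.rootSet F.SplittingField, Y' = ⟨y, hy⟩ := ⟨_, rfl⟩
    have hne : X' ≠ Y' := by
      intro h
      apply hxy
      rw [hX', hY'] at h
      rw [Subtype.mk.inj h]
    obtain ⟨Z', hZ1, hZ2⟩ : ∃ Z' : F.rootSet F.SplittingField, Z' ≠ X' ∧ Z' ≠ Y' := by
      by_contra hall
      push Not at hall
      have h4 : (Finset.univ : Finset (F.rootSet F.SplittingField)) ⊆ {X', Y'} := by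
        intro z _
        rw [Finset.mem_insert, Finset.mem_singleton]
        by_cases hz : z = X'
        · exact Or.inl hz
        · exact Or.inr (hall z hz)
      have h5' := Finset.card_le_card h4
      have h6 := Finset.card_le_two (a := X') (b := Y')
      rw [Finset.card_univ, ← Nat.card_eq_fintype_card, hcard] at h5'
      omega
    obtain ⟨σ, hσ, hc⟩ := even_fix (F := F) (E := F.SplittingField) (L' := L') hsp hsurj
      (by rw [hcard]; exact h5) M hns (Equiv.swap X' Y' * Equiv.swap Y' Z')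
      (Equiv.Perm.mul_mem_alternatingGroup_of_isSwap ⟨X', Y', hne, rfl⟩ ⟨Y', Z', hZ2.symm, rfl⟩)
    obtain ⟨g, hg'⟩ := lift_fix' (L := L) (L' := L') M hM hσ
    have hg : ∀ t : F.rootSet F.SplittingField, g (algebraMap F.SplittingField L' t) =
        algebraMap F.SplittingField L'
          ((Equiv.swap X' Y' * Equiv.swap Y' Z') t : F.rootSet F.SplittingField) := by
      intro t
      rw [hg', ← hc]
      rfl
    refine ⟨g, algebraMap F.SplittingField L' (Z' : F.SplittingField), ?_, ?_, ?_⟩
    · have h7 := hg X'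
      rw [Equiv.Perm.mul_apply, Equiv.swap_apply_of_ne_of_ne hne hZ1.symm,
        Equiv.swap_apply_left] at h7
      rw [hX', hY'] at h7
      exact h7
    · have h7 := hg Y'
      rw [Equiv.Perm.mul_apply, Equiv.swap_apply_left,
        Equiv.swap_apply_of_ne_of_ne hZ1 hZ2] at h7
      rw [hY'] at h7
      exact h7
    · have h7 := hg Z'
      rw [Equiv.Perm.mul_apply, Equiv.swap_apply_right, Equiv.swap_apply_right] at h7
      rw [hX'] at h7
      exact h7
  have hd : 0 < (F.map (algebraMap k L)).natDegree := by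
    rw [natDegree_map]
    omega
  exact ⟨h3, hsepL, hsplL, hd⟩


/-- Irreducible and no constants become squares. -/
theorem irr_stable {F : k[X]} (hF : F.Separable) (h5 : 5 ≤ F.natDegree) (hfull : FullG F)
    (h2 : (2 : k) ≠ 0)
    (L L' : Type) [Field L] [Field L'] [Algebra k L] [Algebra L L'] [Algebra k L']
    [IsScalarTower k L L'] [IsSepClosure L L'] (M : IntermediateField k L') [Normal k M]
    (hM : ∀ x : L, IsSeparable k x → algebraMap L L' x ∈ M)
    (hns : ¬ (F.map (algebraMap k M)).Splits) :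
    Irreducible (F.map (algebraMap k L)) ∧ SqStable (F.map (algebraMap k L)) := by
  have h2L : (2 : L) ≠ 0 := by
    rw [← map_ofNat (algebraMap k L) 2]
    exact (map_ne_zero_iff _ (algebraMap k L).injective).2 h2
  obtain ⟨h3, hsepL, hsplL, hd⟩ := three_prop hF h5 hfull h2 L L' M hM hns
  exact ⟨irr_of_three hsepL hsplL hd h3, sqStable_of_three h2L hsepL hsplL hd h3⟩

theorem sqStable_C {L : Type} [Field L] {f : L[X]} (h : SqStable f) {c : L} (hc : c ≠ 0) :
    SqStable (C c * f) := fun d ⟨p, hp⟩ => h d ⟨p, (dvd_mul_left _ _).trans hp⟩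

theorem irr_C {L : Type} [Field L] {f : L[X]} (h : Irreducible f) {c : L} (hc : c ≠ 0) :
    Irreducible (C c * f) :=
  ((associated_isUnit_mul_left_iff (isUnit_C.2 (isUnit_iff_ne_zero.2 hc))).2
    (Associated.refl f)).symm.irreducible h

open Pool.Agent.W309 in
/-- The conclusion for all the twists by constants. -/
theorem cd_ext (h2 : (2 : k) ≠ 0) {a b : k[X]} {N : ℕ} (hN : 5 ≤ N) (hb : FF N b)
    (hd : FF N (a ^ 2 - 4 * b)) {L L' : Type} [Field L] [Algebra k L] [Field L']
    [Algebra L L'] [IsSepClosure L L'] [Algebra k L'] [IsScalarTower k L L']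
    (M : IntermediateField k L') (hMn : Normal k M)
    (hM : ∀ x : L, IsSeparable k x → algebraMap L L' x ∈ M)
    (h1 : ¬ (b.map (algebraMap k M)).Splits)
    (h3 : ¬ ((a ^ 2 - 4 * b).map (algebraMap k M)).Splits)
    (K : Type) [Field K] [Algebra L[X] K] [IsFractionRing L[X] K] (c : L) (hc : c ≠ 0)
    (W : WeierstrassCurve K)
    (hW : W = crvT (algebraMap L[X] K (C c * a.map (algebraMap k L)))
      (algebraMap L[X] K (C (c ^ 2) * b.map (algebraMap k L)))) :
    Sha.PointsComplete W ∧ Sha.ShaTwoTrivial L[X] W ∧ Sha.ShaTateTrivial L[X] W := by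
  subst hW
  have h2L : (2 : L) ≠ 0 := by
    rw [← map_ofNat (algebraMap k L) 2]
    exact (map_ne_zero_iff _ (algebraMap k L).injective).2 h2
  obtain ⟨i1, n1⟩ := irr_stable hb.2.1 (by rw [hb.1.2]; exact hN) hb.2.2 h2 L L' M hM h1
  obtain ⟨i2, n2⟩ := irr_stable hd.2.1 (by rw [hd.1.2]; exact hN) hd.2.2 h2 L L' M hM h3
  have e : (C c * a.map (algebraMap k L)) ^ 2 - 4 * (C (c ^ 2) * b.map (algebraMap k L)) =
      C (c ^ 2) * (a ^ 2 - 4 * b).map (algebraMap k L) := by
    rw [Polynomial.map_sub, Polynomial.map_pow, Polynomial.map_mul, Polynomial.map_ofNat, C_pow]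
    ring
  have hc2 : c ^ 2 ≠ 0 := pow_ne_zero 2 hc
  exact oneT h2L (irr_C i1 hc2) (by rw [e]; exact irr_C i2 hc2) (sqStable_C n1 hc2)
    (by rw [e]; exact sqStable_C n2 hc2)

end good

end Pool.Agent.X243.CD
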