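import Pool.Agent.X243.CD.Tower
import Pool.Agent.X243.CD.Three
import Pool.Agent.X243.Gen.PullT2

/-!
Pullbacks with large Galois groups: points and the Tate-Shafarevich group over all extensions.
-/

set_option autoImplicit false
set_option linter.all false

open WeierstrassCurve WeierstrassCurve.Affine IsDedekindDomain Polynomial
open scoped Classical

namespace Pool.Agent.X243.CD

open Pool.Agent.TH115.GD Pool.Agent.X243.Gen Pool.Agent.X243.Tate Pool.Agent.X243.Sol
open Pool.Agent.Y160.T3 Pool.Agent.W309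
open Pool.Agent.W309.TD (Sq hp SqStable sqStable_of_odd)

variable {k K₀ : Type} [Field k] [Field K₀] [Algebra k[X] K₀] [IsFractionRing k[X] K₀]

/-- All conclusions for the pullback by `g` over `K = L(t)`. -/
def HoldsPull {k L : Type} [Field k] [Field L] [Algebra k L] (K₀ L' K F : Type) [Field K₀]
    [Algebra k[X] K₀] [Field L'] [Algebra L L'] [Field K] [Algebra L[X] K]
    [IsFractionRing L[X] K] [Field F] [Algebra L'[X] F] [IsFractionRing L'[X] F] [Algebra K F]
    (a b : k[X]) (g : L[X]) : Prop :=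
  TateAtTwo (F := F) L' (pullCurve K a b g) ∧ PointsFromBase K₀ K a b g ∧
    (NoInf a b → Sha.ShaTwoTrivial L[X] (pullCurve K a b g))

theorem hold_ext (h2 : (2 : k) ≠ 0) {a b : k[X]} (hB : BaseT K₀ a b)
    {g : k[X]} {n : ℕ} (h5 : 5 ≤ n) (hq : g.natDegree = n)
    (hf : ∀ ξ, (b * (a ^ 2 - 4 * b)).IsRoot ξ → FF n (g - C ξ))
    (hpar : Odd n ∨ NoInf a b)
    {L L' K F : Type} [Field L] [Algebra k L] [Field L']
    [Algebra L L'] [Algebra k L'] [IsScalarTower k L L'] [Field K] [Algebra L[X] K]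
    [IsFractionRing L[X] K]
    [Field F] [Algebra L'[X] F] [IsFractionRing L'[X] F] [Algebra K F] (hT : IsTower L L' K F)
    (M : IntermediateField k L') (hMn : Normal k M)
    (hM : ∀ x : L, IsSeparable k x → algebraMap L L' x ∈ M)
    (hns : ∀ ξ, (b * (a ^ 2 - 4 * b)).IsRoot ξ → ¬ ((g - C ξ).map (algebraMap k M)).Splits) :
    HoldsPull K₀ L' K F a b (g.map (algebraMap k L)) := by
  have hsc : IsSepClosure L L' := hT.sep
  have h1n : (1 : k[X]).natDegree ≤ n := by rw [natDegree_one]; omega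
  have e1 : ∀ ξ : k, g - C ξ * 1 = g - C ξ := fun ξ => by rw [mul_one]
  have key := pull_extT h2 hB h5 isCoprime_one_right hq h1n
    (fun ξ hξ => by rw [e1]; exact hf ξ hξ) hpar (Or.inl rfl) hT M hMn hM
    (fun ξ hξ => by rw [e1]; exact hns ξ hξ)
  rw [pb_one_comp, pb_one_comp] at key
  refine ⟨?_, mw_pull (n := n) h2 hB ?_ ?_ ?_ hpar⟩
  · have e2 : pullCurve K a b (g.map (algebraMap k L)) =
        crvT (algebraMap L[X] K ((a.comp g).map (algebraMap k L)))
          (algebraMap L[X] K ((b.comp g).map (algebraMap k L))) := by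
      unfold pullCurve
      rw [Polynomial.map_comp, Polynomial.map_comp]
    rw [e2]
    exact key.1
  · rw [natDegree_map, hq]
    omega
  · rw [natDegree_map, hq]
  · intro ξ hξ
    obtain ⟨f1, f2, f3⟩ := hf ξ hξ
    have e : (g - C ξ).map (algebraMap k L) =
        g.map (algebraMap k L) - C (algebraMap k L ξ) := by
      rw [Polynomial.map_sub, map_C]
    obtain ⟨i1, i2⟩ := irr_stable f2 (by rw [f1.2]; exact h5) f3 h2 L L' M hM (hns ξ hξ)
    rw [e] at i1 i2
    refine ⟨i1, ?_, i2⟩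
    rw [← e, natDegree_map, f1.2]

theorem hold_solv (h2 : (2 : k) ≠ 0) {a b : k[X]} (hB : BaseT K₀ a b)
    {g : k[X]} {n : ℕ} (h5 : 5 ≤ n) (hq : g.natDegree = n)
    (hf : ∀ ξ, (b * (a ^ 2 - 4 * b)).IsRoot ξ → FF n (g - C ξ))
    (hpar : Odd n ∨ NoInf a b)
    {L L' K F : Type} [Field L] [Algebra k L] [Field L']
    [Algebra L L'] [Algebra k L'] [IsScalarTower k L L'] [Field K] [Algebra L[X] K]
    [IsFractionRing L[X] K]
    [Field F] [Algebra L'[X] F] [IsFractionRing L'[X] F] [Algebra K F] (hT : IsTower L L' K F)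
    (hM : ∀ x : L, IsSeparable k x → Group.IsSolvable (minpoly k x).Gal) :
    HoldsPull K₀ L' K F a b (g.map (algebraMap k L)) := by
  have hsc : IsSepClosure L L' := hT.sep
  have : IsSepClosed L' := IsSepClosure.sep_closed L
  exact hold_ext h2 hB h5 hq hf hpar hT (solvM k L') (solvM_normal L')
    (fun x hx => mem_solvM hx (hM x hx))
    (fun ξ hξ => solvM_not_splits L' (hf ξ hξ).2.1 (by rw [(hf ξ hξ).1.2]; exact h5)
      (hf ξ hξ).2.2)

end Pool.Agent.X243.CD
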