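import Pool.Agent.X243.CD.RatMW

/-!
Points on the polynomial pullbacks of curves with all points of order two rational, without a parity
condition on the degrees.
-/

set_option autoImplicit false
set_option linter.all false

open WeierstrassCurve WeierstrassCurve.Affine IsDedekindDomain Polynomial
open scoped Classical

namespace Pool.Agent.X243.CD

open Pool.Agent.TH115.GD Pool.Agent.X243.Gen Pool.Agent.X243.Tate Pool.Agent.X243.Sol
open Pool.Agent.Y160.T3 Pool.Agent.W309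
open Pool.Agent.W309.TD (Sq hp SqStable sqStable_of_odd)

variable {k L K₀ K : Type} [Field k] [Field L] [Field K₀] [Algebra k[X] K₀] [IsFractionRing k[X] K₀]
  [Field K] [Algebra L[X] K] [IsFractionRing L[X] K]

theorem pulledF_of {K₀ K : Type} [Field K₀] [Field K] {ψ : K₀ →+* K} {a b : K}
    {P : Pt (crv a b) K} (h : PulledR ψ 1 P) : PulledF ψ P := by
  rcases h with h | ⟨x, y, hxy, hP⟩
  · exact Or.inl h
  · right
    have e2 : (1 : K) ^ 2 * ψ x = ψ x := by ring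
    have e3 : (1 : K) ^ 3 * ψ y = ψ y := by ring
    simp only [e2, e3] at hP hxy
    exact ⟨x, y, hxy, hP⟩

theorem pts_fullF [Algebra k L] (h2 : (2 : k) ≠ 0) {a b : k[X]} (hB : Base K₀ a b)
    (htwo : TwoOddFactors a b) {q : L[X]} (hq : 0 < q.natDegree) {n : ℕ} (hn : Odd n)
    (hirr : ∀ ξ, (a * b * (a - b)).IsRoot ξ → Irreducible (q - C (algebraMap k L ξ)) ∧
      (q - C (algebraMap k L ξ)).natDegree = n) :
    PointsFromBaseF K₀ K a b q := by
  obtain ⟨φ, hφ⟩ : ∃ φ : k →+* L, φ = algebraMap k L := ⟨_, rfl⟩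
  rw [← hφ] at hirr
  have h2L : (2 : L) ≠ 0 := by
    rw [← map_ofNat φ 2]
    exact (map_ne_zero_iff _ φ.injective).2 h2
  have e1 : ∀ ξ : k, q - C (φ ξ) * 1 = q - C (φ ξ) := fun ξ => by rw [mul_one]
  have hirr1 : ∀ ξ, (a * b * (a - b)).IsRoot ξ → Irreducible (q - C (φ ξ) * 1) ∧
      (q - C (φ ξ) * 1).natDegree = n := fun ξ h => by rw [e1]; exact hirr ξ h
  have hc0 : a - b ≠ 0 := sub_ne_zero.2 hB.hab
  have hne : ∀ g : k[X], g ≠ 0 → pb q 1 (g.map φ) ≠ 0 := fun g hg =>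
    pb_ne isCoprime_one_right hq ((Polynomial.map_ne_zero_iff φ.injective).2 hg)
  obtain ⟨ψ, hψ⟩ := exists_psi (K₀ := K₀) (K := K) φ (q := q) (r := 1) one_ne_zero hne
  have hψ' : ∀ g : k[X], algebraMap L[X] K (pb q 1 (g.map φ)) = ψ (algebraMap k[X] K₀ g) := by
    intro g
    rw [hψ, map_one, one_pow, one_mul]
  have hsub : pb q 1 (a.map φ) - pb q 1 (b.map φ) = pb q 1 ((a - b).map φ) := by
    rw [Polynomial.map_sub]
    exact pb_sub_one q _ _
  have na := hne a hB.ha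
  have nb := hne b hB.hb
  have nab : pb q 1 (a.map φ) ≠ pb q 1 (b.map φ) := by
    intro e
    apply hne _ hc0
    rw [← hsub, e, sub_self]
  have hC := completeR_pull (K₀ := K₀) (K := K) φ h2 hB.ha hB.hb hB.hab hB.sa hB.sb hB.sc
    hB.complete isCoprime_one_right hq hn hirr1 (Or.inl rfl) ψ hψ (ρ := 1) one_ne_zero
    (by rw [hψ', one_pow, one_mul]) (by rw [hψ', one_pow, one_mul])
  have hco := cop_pb φ isCoprime_one_right hq hB.ha hB.hb hB.sa hB.sb hB.co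
  have ra : ∀ ξ, a.IsRoot ξ → Irreducible (q - C (φ ξ) * 1) ∧
      (q - C (φ ξ) * 1).natDegree = n := fun ξ h =>
    hirr1 ξ (by rw [IsRoot.def, eval_mul, eval_mul, IsRoot.def.1 h, zero_mul, zero_mul])
  have rb : ∀ ξ, b.IsRoot ξ → Irreducible (q - C (φ ξ) * 1) ∧
      (q - C (φ ξ) * 1).natDegree = n := fun ξ h =>
    hirr1 ξ (by rw [IsRoot.def, eval_mul, eval_mul, IsRoot.def.1 h, mul_zero, zero_mul])
  have rc : ∀ ξ, (a - b).IsRoot ξ → Irreducible (q - C (φ ξ) * 1) ∧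
      (q - C (φ ξ) * 1).natDegree = n := fun ξ h =>
    hirr1 ξ (by rw [IsRoot.def, eval_mul, IsRoot.def.1 h, mul_zero])
  have two : (OddPl K (pb q 1 (a.map φ)) ∧ OddPl K (pb q 1 (b.map φ))) ∨
      (OddPl K (pb q 1 (a.map φ)) ∧ OddPl K (pb q 1 (a.map φ) - pb q 1 (b.map φ))) ∨
      (OddPl K (pb q 1 (b.map φ)) ∧ OddPl K (pb q 1 (a.map φ) - pb q 1 (b.map φ))) := by
    rw [hsub]
    rcases htwo with ⟨h1, h3⟩ | ⟨h1, h3⟩ | ⟨h1, h3⟩
    · exact Or.inl ⟨oddPl_of (odd_pb φ isCoprime_one_right hn hB.ha hB.sa ra h1),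
        oddPl_of (odd_pb φ isCoprime_one_right hn hB.hb hB.sb rb h3)⟩
    · exact Or.inr (Or.inl ⟨oddPl_of (odd_pb φ isCoprime_one_right hn hB.ha hB.sa ra h1),
        oddPl_of (odd_pb φ isCoprime_one_right hn hc0 hB.sc rc h3)⟩)
    · exact Or.inr (Or.inr ⟨oddPl_of (odd_pb φ isCoprime_one_right hn hB.hb hB.sb rb h1),
        oddPl_of (odd_pb φ isCoprime_one_right hn hc0 hB.sc rc h3)⟩)
  have key := fun P0 => ptsR h2L na nb nab hco hC two P0
  refine ⟨ψ, fun f => by rw [← hφ, ← pb_one_comp, hψ'], ?_⟩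
  have key2 : ∀ P0 : Pt (crv (algebraMap L[X] K (pb q 1 (a.map φ)))
      (algebraMap L[X] K (pb q 1 (b.map φ)))) K,
      ∃ Q P1 : Pt (crv (algebraMap L[X] K (pb q 1 (a.map φ)))
        (algebraMap L[X] K (pb q 1 (b.map φ)))) K, PulledF ψ P1 ∧ P0 = Q + Q + P1 := by
    intro P0
    obtain ⟨Q, P, hP, h⟩ := key P0
    exact ⟨Q, P, pulledF_of hP, h⟩
  rw [hφ, pb_one_comp, pb_one_comp] at key2
  exact key2

end Pool.Agent.X243.CD
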