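import Pool.Agent.X243.CD.Newton
import Mathlib.RingTheory.DedekindDomain.AdicValuation

/-!
Pure Newton polygons at the primes of a Dedekind domain.
-/

set_option autoImplicit false
set_option linter.all false

open WeierstrassCurve WeierstrassCurve.Affine IsDedekindDomain Polynomial
open scoped Classical

namespace Pool.Agent.X243.CD

section val

variable {O L : Type} [CommRing O] [IsDedekindDomain O] [Field L] [Algebra O L]
  [IsFractionRing O L] (V : HeightOneSpectrum O)

theorem pow_ne_of_val {b : NNReal} (hb : 1 < b) {c : L} {e : ℤ}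
    (hc : V.valuation L c = WithZero.exp e) {n : ℕ} (hn : n.Coprime e.natAbs) (x : L) (m : ℕ)
    (hm : 0 < m) (hmn : m < n) : V.adicAbv hb x ^ n ≠ V.adicAbv hb c ^ m := by
  intro h
  have h1 : WithZeroMulInt.toNNReal (ne_zero_of_lt hb) (V.valuation L x ^ n) =
      WithZeroMulInt.toNNReal (ne_zero_of_lt hb) (V.valuation L c ^ m) := by
    rw [map_pow, map_pow]
    exact NNReal.coe_injective (by push_cast; exact h)
  have h3 := (WithZeroMulInt.toNNReal_strictMono hb).injective h1
  rw [hc] at h3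
  have hn0 : n ≠ 0 := by omega
  have hx0 : V.valuation L x ≠ 0 := by
    intro h4
    rw [h4, zero_pow hn0] at h3
    exact pow_ne_zero m WithZero.exp_ne_zero h3.symm
  rw [← WithZero.exp_log hx0, ← WithZero.exp_nsmul, ← WithZero.exp_nsmul] at h3
  have h5 := WithZero.exp_injective h3
  rw [nsmul_eq_mul, nsmul_eq_mul] at h5
  have h6 : (n : ℤ) ∣ m * e := ⟨_, h5.symm⟩
  have h7 : IsCoprime (n : ℤ) e := by
    rw [Int.isCoprime_iff_gcd_eq_one]
    exact hn
  have h8 := Int.natCast_dvd_natCast.1 (h7.dvd_of_dvd_mul_right h6)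
  exact absurd (Nat.le_of_dvd hm h8) (by omega)

theorem pure_shift_val {c ξ : L} {e : ℤ} (he : 0 < e) (hc : V.valuation L c = WithZero.exp e)
    (hξ : V.valuation L ξ ≤ 1) {n : ℕ} (hn0 : 0 < n) (hn : n.Coprime e.natAbs) :
    ∃ w : AbsoluteValue L ℝ, Pure w (X ^ n + C c - C ξ) := by
  have hb : (1 : NNReal) < 2 := one_lt_two
  refine ⟨V.adicAbv hb, pure_shift (V.isNonarchimedean_adicAbv hb) ?_ ?_ hn0
    (fun x m hm hmn => pow_ne_of_val V hb hc hn x m hm hmn)⟩
  · show (1 : ℝ) < ((V.adicAbvDef hb c : NNReal) : ℝ)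
    have h1 : (1 : NNReal) < WithZeroMulInt.toNNReal (ne_zero_of_lt hb) (V.valuation L c) := by
      have h3 : (1 : WithZero (Multiplicative ℤ)) < WithZero.exp e := by
        rw [← WithZero.exp_zero, WithZero.exp_lt_exp]
        exact he
      have h4 := WithZeroMulInt.toNNReal_strictMono hb h3
      rw [map_one] at h4
      rw [hc]
      exact h4
    exact_mod_cast h1
  · show ((V.adicAbvDef hb ξ : NNReal) : ℝ) ≤ 1
    have h1 : WithZeroMulInt.toNNReal (ne_zero_of_lt hb) (V.valuation L ξ) ≤ 1 :=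
      (WithZeroMulInt.toNNReal_le_one_iff hb).2 hξ
    exact_mod_cast h1

end val

end Pool.Agent.X243.CD
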