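import Pool.Agent.X243.CD.FullMW
import Pool.Agent.X243.CD.FullPts
import Pool.Agent.X243.CD.NewtonV
import Pool.Agent.X243.CD.Ext

/-!
All conclusions for the pullbacks of curves with all points of order two rational.
-/

set_option autoImplicit false
set_option linter.all false

open WeierstrassCurve WeierstrassCurve.Affine IsDedekindDomain Polynomial
open scoped Classical

namespace Pool.Agent.X243.CD

open Pool.Agent.TH115.GD Pool.Agent.X243.Gen Pool.Agent.X243.Tate Pool.Agent.X243.Sol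
open Pool.Agent.Y160.T3 Pool.Agent.W309
open Pool.Agent.W309.TD (Sq hp SqStable sqStable_of_odd)

variable {k K₀ : Type} [Field k] [Field K₀] [Algebra k[X] K₀] [IsFractionRing k[X] K₀]

section odd

variable {L : Type} [Field L] [Algebra k L] {L' K F : Type} [Field L'] [Algebra L L']
    [Field K] [Algebra L[X] K] [IsFractionRing L[X] K] [Field F] [Algebra L'[X] F]
    [IsFractionRing L'[X] F] [Algebra K F]

theorem odd_holdF (hT : IsTower L L' K F) (h2 : (2 : k) ≠ 0) {a b : k[X]}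
    (hB : Base K₀ a b) {g : L[X]} (hq : 0 < g.natDegree) {n : ℕ} (hn : Odd n)
    (hirr : ∀ ξ, (a * b * (a - b)).IsRoot ξ → Irreducible (g - C (algebraMap k L ξ)) ∧
      (g - C (algebraMap k L ξ)).natDegree = n ∧ (g - C (algebraMap k L ξ)).Separable) :
    HoldsF K₀ L' K F a b g := by
  obtain ⟨h1, h3⟩ := odd_full (K₀ := K₀) hT h2 hB hq hn hirr
  exact ⟨h1, h3, fun ht => pts_fullF h2 hB ht hq hn fun ξ hξ => ⟨(hirr ξ hξ).1, (hirr ξ hξ).2.1⟩,
    fun hBo => (mw_fullF h2 hBo hq hn fun ξ hξ => ⟨(hirr ξ hξ).1, (hirr ξ hξ).2.1⟩).2⟩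

theorem kummer_holdF [Algebra.IsAlgebraic k L] {n : ℕ}
    (hn : Odd n) (hn0 : (n : k) ≠ 0) (hL : ∀ y : L, n.Coprime (minpoly k y).natDegree)
    (hT : IsTower L L' K F) (h2 : (2 : k) ≠ 0) {a b : k[X]}
    (hB : Base K₀ a b) {c : k}
    (hc : ∀ ξ, (a * b * (a - b)).IsRoot ξ → NoPower n (ξ - c)) :
    HoldsF K₀ L' K F a b (X ^ n + C (algebraMap k L c)) := by
  have hpos : 0 < (X ^ n + C (algebraMap k L c)).natDegree := by
    rw [natDegree_X_pow_add_C]
    exact hn.pos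
  refine odd_holdF hT h2 hB hpos hn fun ξ hξ => ?_
  have h1 := noPower_ext (hc ξ hξ) hL
  rw [map_sub] at h1
  obtain ⟨h3, h4, h5⟩ := kummer_irr hn h1
  refine ⟨h3, h4, h5 ?_⟩
  rw [← map_natCast (algebraMap k L) n]
  exact (map_ne_zero_iff _ (algebraMap k L).injective).2 hn0

theorem newton_holdF (hT : IsTower L L' K F) (h2 : (2 : k) ≠ 0)
    {a b : k[X]} (hB : Base K₀ a b) {g : L[X]} (hn : Odd g.natDegree)
    (hn0 : (g.natDegree : L) ≠ 0)
    (hw : ∀ ξ, (a * b * (a - b)).IsRoot ξ →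
      ∃ w : AbsoluteValue L ℝ, Pure w (g - C (algebraMap k L ξ))) :
    HoldsF K₀ L' K F a b g :=
  odd_holdF hT h2 hB hn.pos hn fun ξ hξ => pure_three hn rfl hn0 (hw ξ hξ)

end odd

section ext

variable {L L' K F : Type} [Field L] [Algebra k L] [Field L']
    [Algebra L L'] [Algebra k L'] [IsScalarTower k L L'] [Field K] [Algebra L[X] K]
    [IsFractionRing L[X] K]
    [Field F] [Algebra L'[X] F] [IsFractionRing L'[X] F] [Algebra K F]

theorem ext_holdF (h2 : (2 : k) ≠ 0) {a b : k[X]} (hB : Base K₀ a b)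
    {g : k[X]} {n : ℕ} (h5 : 5 ≤ n) (hn : Odd n) (hq : g.natDegree = n)
    (hf : ∀ ξ, (a * b * (a - b)).IsRoot ξ → FF n (g - C ξ)) (hT : IsTower L L' K F)
    (M : IntermediateField k L') (hMn : Normal k M)
    (hM : ∀ x : L, IsSeparable k x → algebraMap L L' x ∈ M)
    (hns : ∀ ξ, (a * b * (a - b)).IsRoot ξ → ¬ ((g - C ξ).map (algebraMap k M)).Splits) :
    HoldsF K₀ L' K F a b (g.map (algebraMap k L)) := by
  have hsc : IsSepClosure L L' := hT.sep
  refine odd_holdF hT h2 hB (n := n) ?_ hn fun ξ hξ => ?_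
  · rw [natDegree_map, hq]
    omega
  · obtain ⟨f1, f2, f3⟩ := hf ξ hξ
    have e : (g - C ξ).map (algebraMap k L) =
        g.map (algebraMap k L) - C (algebraMap k L ξ) := by
      rw [Polynomial.map_sub, map_C]
    obtain ⟨i1, i2⟩ := irr_stable f2 (by rw [f1.2]; exact h5) f3 h2 L L' M hM (hns ξ hξ)
    rw [← e]
    refine ⟨i1, ?_, f2.map⟩
    rw [natDegree_map, f1.2]

theorem solv_holdF (h2 : (2 : k) ≠ 0) {a b : k[X]} (hB : Base K₀ a b)
    {g : k[X]} {n : ℕ} (h5 : 5 ≤ n) (hn : Odd n) (hq : g.natDegree = n)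
    (hf : ∀ ξ, (a * b * (a - b)).IsRoot ξ → FF n (g - C ξ)) (hT : IsTower L L' K F)
    (hM : ∀ x : L, IsSeparable k x → Group.IsSolvable (minpoly k x).Gal) :
    HoldsF K₀ L' K F a b (g.map (algebraMap k L)) := by
  have hsc : IsSepClosure L L' := hT.sep
  have : IsSepClosed L' := IsSepClosure.sep_closed L
  exact ext_holdF h2 hB h5 hn hq hf hT (solvM k L') (solvM_normal L')
    (fun x hx => mem_solvM hx (hM x hx))
    (fun ξ hξ => solvM_not_splits L' (hf ξ hξ).2.1 (by rw [(hf ξ hξ).1.2]; exact h5)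
      (hf ξ hξ).2.2)

end ext

section examples

variable {k K : Type} [Field k] [Field K] [Algebra k[X] K] [IsFractionRing k[X] K]

theorem hasOdd_lin {c ξ : k} (hc : c ≠ 0) : HasOddFactor (C c * (X - C ξ)) := by
  refine ⟨X - C ξ, 0, irreducible_X_sub_C ξ, ?_, ?_, ?_⟩
  · rw [natDegree_X_sub_C]; exact odd_one
  · exact ⟨C c, by ring⟩
  · rintro ⟨q, hq⟩
    have h1 : (X - C ξ) * C c = (X - C ξ) * ((X - C ξ) * q) := by
      rw [mul_comm (X - C ξ) (C c), hq]; ring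
    have h3 := mul_left_cancel₀ (X_sub_C_ne_zero ξ) h1
    have h4 := congrArg (eval ξ) h3
    rw [eval_C, eval_mul, eval_sub, eval_X, eval_C, sub_self, zero_mul] at h4
    exact hc h4

theorem baseOdd1 (h2 : (2 : k) ≠ 0) : BaseOdd K (X : k[X]) (X - 1) := by
  have e : (X - 1 : k[X]).natDegree = 1 := by
    have h1 : (X - 1 : k[X]) = X - C 1 := by rw [C_1]
    rw [h1]; exact natDegree_X_sub_C _
  refine ⟨base1 h2, ?_, Or.inl ⟨?_, ?_⟩⟩
  · rw [e, natDegree_X, max_self]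
    exact odd_one
  · have := hasOdd_lin (k := k) (c := 1) (ξ := 0) one_ne_zero
    rwa [C_1, C_0, sub_zero, one_mul] at this
  · have := hasOdd_lin (k := k) (c := 1) (ξ := 1) one_ne_zero
    rwa [C_1, one_mul] at this

theorem baseOdd3 (h2 : (2 : k) ≠ 0) {c e m : k} (hc : c ≠ 0) (he : e ≠ 0) (he1 : e ≠ 1)
    (hm : c * e = m ^ 2) : BaseOdd K (C c - X : k[X]) (C c - C e * X) := by
  have hneg : (-1 : k) ≠ 0 := neg_ne_zero.2 one_ne_zero
  have ea : (C c - X : k[X]) = C (-1) * (X - C c) := by rw [C_neg, C_1]; ring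
  have eb : (C c - C e * X : k[X]) = C (-e) * (X - C (c / e)) := by
    have : C e * C (c / e) = (C c : k[X]) := by rw [← C_mul, mul_div_cancel₀ c he]
    rw [C_neg]
    linear_combination -this
  have d1 : (C c - X : k[X]).natDegree = 1 := by
    rw [ea, natDegree_C_mul hneg, natDegree_X_sub_C]
  have d2 : (C c - C e * X : k[X]).natDegree = 1 := by
    rw [eb, natDegree_C_mul (neg_ne_zero.2 he), natDegree_X_sub_C]
  refine ⟨base3 h2 hc he he1 hm, ?_, Or.inl ⟨?_, ?_⟩⟩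
  · rw [d1, d2, max_self]
    exact odd_one
  · rw [ea]; exact hasOdd_lin hneg
  · rw [eb]; exact hasOdd_lin (neg_ne_zero.2 he)

theorem two5 (h2 : (2 : k) ≠ 0) {β : k} (hβ : β ≠ 0) (hβ1 : β ≠ 1) (hβ2 : β ≠ -1) :
    Base K (C (β ^ 2) * X ^ 2 - 1) (C (β ^ 2 - 1) * X ^ 2) ∧
      TwoOddFactors (C (β ^ 2) * X ^ 2 - 1) (C (β ^ 2 - 1) * X ^ 2) := by
  obtain ⟨h1, h3, h4, h5⟩ := base5 (K := K) h2 hβ hβ1 hβ2
  refine ⟨h1, ?_⟩
  rcases h1.odd with h | h
  · rw [h3, max_self, h5] at h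
    exact absurd h (by decide)
  · exact h

end examples

end Pool.Agent.X243.CD
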