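import Mathlib.RingTheory.DedekindDomain.AdicValuation
import Mathlib.Algebra.Polynomial.Degree.Lemmas

/-!
Polynomials whose constant coefficient has a pole at a prime.
-/

set_option autoImplicit false

open Polynomial IsDedekindDomain

namespace Pool.Agent.X243.CD

/-- The coefficients of `f` are integral at the maximal ideal `V` except for the constant one, the
leading one is a unit at `V`, and the constant one has a pole of order `e > 0`, with `e` prime to the
degree. -/
structure PoleAt {O L : Type} [CommRing O] [IsDedekindDomain O] [Field L] [Algebra O L]
    [IsFractionRing O L] (V : HeightOneSpectrum O) (e : ℤ) (f : L[X]) : Prop where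
  deg : 0 < f.natDegree
  lead : V.valuation L f.leadingCoeff = 1
  int : ∀ i : ℕ, 0 < i → V.valuation L (f.coeff i) ≤ 1
  pos : 0 < e
  pole : V.valuation L (f.coeff 0) = WithZero.exp e
  cop : f.natDegree.Coprime e.natAbs

end Pool.Agent.X243.CD
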