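import Pool.Agent.X243.CD.RankOne
import Pool.Agent.X243.Gen.Main2

/-!
The Mordell-Weil group modulo two and the Tate-Shafarevich group for
`y² = x (x² + (w² - p - q) x + p q)` over all extensions.
-/

set_option autoImplicit false
set_option linter.all false

open WeierstrassCurve WeierstrassCurve.Affine IsDedekindDomain Polynomial
open scoped Classical

namespace Pool.Agent.X243.CD

open Pool.Agent.TH115.GD Pool.Agent.X243.Gen Pool.Agent.X243.Tate Pool.Agent.X243.Sol
open Pool.Agent.Y160.T3 Pool.Agent.W309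
open Pool.Agent.W309.TD (SqStable)

theorem ro_mw {k : Type} [Field k] (h2 : (2 : k) ≠ 0) {p q w : k[X]} {n : ℕ} (hn : 3 ≤ n)
    (hp : FF (2 * n) p) (hq : FF (2 * n) q)
    (hd : FF (4 * n) ((w ^ 2 - p - q) ^ 2 - 4 * (p * q)))
    (hco : IsCoprime p q) {L L' K F : Type} [Field L] [Algebra k L] [Field L']
    [Algebra L L'] [Algebra k L'] [IsScalarTower k L L'] [Field K] [Algebra L[X] K]
    [IsFractionRing L[X] K]
    [Field F] [Algebra L'[X] F] [IsFractionRing L'[X] F] [Algebra K F] (hT : IsTower L L' K F)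
    (M : IntermediateField k L') (hMn : Normal k M)
    (hM : ∀ x : L, IsSeparable k x → algebraMap L L' x ∈ M)
    (h1 : ¬ (p.map (algebraMap k M)).Splits) (h3 : ¬ (q.map (algebraMap k M)).Splits)
    (h4 : ¬ (((w ^ 2 - p - q) ^ 2 - 4 * (p * q)).map (algebraMap k M)).Splits) :
    (∀ P0 : Pt (crvT (algebraMap L[X] K ((w ^ 2 - p - q).map (algebraMap k L)))
        (algebraMap L[X] K ((p * q).map (algebraMap k L)))) K,
      ∃ Q P1 : Pt (crvT (algebraMap L[X] K ((w ^ 2 - p - q).map (algebraMap k L)))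
        (algebraMap L[X] K ((p * q).map (algebraMap k L)))) K,
        Special (algebraMap L[X] K (p.map (algebraMap k L)))
          (algebraMap L[X] K (q.map (algebraMap k L)))
          (algebraMap L[X] K (w.map (algebraMap k L))) P1 ∧
        P0 = Q + Q + P1) ∧
    Sha.ShaTwoTrivial L[X] (crvT (algebraMap L[X] K ((w ^ 2 - p - q).map (algebraMap k L)))
        (algebraMap L[X] K ((p * q).map (algebraMap k L)))) := by
  have hsc : IsSepClosure L L' := hT.sep
  have h2L : (2 : L) ≠ 0 := by
    rw [← map_ofNat (algebraMap k L) 2]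
    exact (map_ne_zero_iff _ (algebraMap k L).injective).2 h2
  obtain ⟨i1, n1⟩ := irr_stable hp.2.1 (by rw [hp.1.2]; omega) hp.2.2 h2 L L' M hM h1
  obtain ⟨i2, n2⟩ := irr_stable hq.2.1 (by rw [hq.1.2]; omega) hq.2.2 h2 L L' M hM h3
  obtain ⟨i3, n3⟩ := irr_stable hd.2.1 (by rw [hd.1.2]; omega) hd.2.2 h2 L L' M hM h4
  have hco' : IsCoprime (p.map (algebraMap k L)) (q.map (algebraMap k L)) :=
    hco.map (mapRingHom (algebraMap k L))
  have e : ((w ^ 2 - p - q) ^ 2 - 4 * (p * q)).map (algebraMap k L) =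
      ((w.map (algebraMap k L)) ^ 2 - p.map (algebraMap k L) - q.map (algebraMap k L)) ^ 2 -
        4 * (p.map (algebraMap k L) * q.map (algebraMap k L)) := by
    simp only [Polynomial.map_sub, Polynomial.map_pow, Polynomial.map_mul, Polynomial.map_ofNat]
  have e1 : (w ^ 2 - p - q).map (algebraMap k L) =
      (w.map (algebraMap k L)) ^ 2 - p.map (algebraMap k L) - q.map (algebraMap k L) := by
    simp only [Polynomial.map_sub, Polynomial.map_pow]
  rw [e] at i3 n3
  rw [e1, Polynomial.map_mul]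
  exact rank_one h2L i1 i2 hco' i3 n1 n3

theorem ro_mw_solv {k : Type} [Field k] (h2 : (2 : k) ≠ 0) {p q w : k[X]} {n : ℕ} (hn : 3 ≤ n)
    (hp : FF (2 * n) p) (hq : FF (2 * n) q)
    (hd : FF (4 * n) ((w ^ 2 - p - q) ^ 2 - 4 * (p * q)))
    (hco : IsCoprime p q) {L L' K F : Type} [Field L] [Algebra k L] [Field L']
    [Algebra L L'] [Algebra k L'] [IsScalarTower k L L'] [Field K] [Algebra L[X] K]
    [IsFractionRing L[X] K]
    [Field F] [Algebra L'[X] F] [IsFractionRing L'[X] F] [Algebra K F] (hT : IsTower L L' K F)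
    (hM : ∀ x : L, IsSeparable k x → Group.IsSolvable (minpoly k x).Gal) :
    (∀ P0 : Pt (crvT (algebraMap L[X] K ((w ^ 2 - p - q).map (algebraMap k L)))
        (algebraMap L[X] K ((p * q).map (algebraMap k L)))) K,
      ∃ Q P1 : Pt (crvT (algebraMap L[X] K ((w ^ 2 - p - q).map (algebraMap k L)))
        (algebraMap L[X] K ((p * q).map (algebraMap k L)))) K,
        Special (algebraMap L[X] K (p.map (algebraMap k L)))
          (algebraMap L[X] K (q.map (algebraMap k L)))
          (algebraMap L[X] K (w.map (algebraMap k L))) P1 ∧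
        P0 = Q + Q + P1) ∧
    Sha.ShaTwoTrivial L[X] (crvT (algebraMap L[X] K ((w ^ 2 - p - q).map (algebraMap k L)))
        (algebraMap L[X] K ((p * q).map (algebraMap k L)))) := by
  have hsc : IsSepClosure L L' := hT.sep
  have : IsSepClosed L' := IsSepClosure.sep_closed L
  exact ro_mw h2 hn hp hq hd hco hT (solvM k L') (solvM_normal L')
    (fun x hx => mem_solvM hx (hM x hx))
    (solvM_not_splits L' hp.2.1 (by rw [hp.1.2]; omega) hp.2.2)
    (solvM_not_splits L' hq.2.1 (by rw [hq.1.2]; omega) hq.2.2)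
    (solvM_not_splits L' hd.2.1 (by rw [hd.1.2]; omega) hd.2.2)

end Pool.Agent.X243.CD
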