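import Pool.Agent.X243.CD.NewtonV
import Pool.Agent.X243.CD.PoleDef
import Pool.Agent.X243.CD.RankOneExt

/-!
Polynomials with a pole of the constant coefficient; the surfaces of rank one with pure Newton polygons.
-/

set_option autoImplicit false
set_option linter.all false

open WeierstrassCurve WeierstrassCurve.Affine IsDedekindDomain Polynomial
open scoped Classical

namespace Pool.Agent.X243.CD

open Pool.Agent.TH115.GD Pool.Agent.X243.Gen Pool.Agent.X243.Tate Pool.Agent.X243.Sol
open Pool.Agent.Y160.T3 Pool.Agent.W309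
open Pool.Agent.W309.TD (Sq hp SqStable sqStable_of_odd)

section pole

variable {L : Type} [Field L]

theorem pure_pole {w : AbsoluteValue L ℝ} (hw : IsNonarchimedean w) {f : L[X]}
    (hn : 0 < f.natDegree) (hl : w f.leadingCoeff = 1) (hi : ∀ i : ℕ, 0 < i → w (f.coeff i) ≤ 1)
    (h0 : 1 < w (f.coeff 0))
    (hp : ∀ (x : L) (m : ℕ), 0 < m → m < f.natDegree → w x ^ f.natDegree ≠ w (f.coeff 0) ^ m) :
    Pure w f := by
  refine ⟨hw, ?_, fun i => ?_, fun x m hm hmn => ?_⟩
  · intro h
    rw [h, map_zero] at h0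
    linarith
  · rw [hl, one_pow, one_mul]
    rcases Nat.eq_zero_or_pos i with rfl | hi0
    · rw [pow_zero, mul_one]
    · by_cases hin : i ≤ f.natDegree
      · have h1 : w (f.coeff i) ^ f.natDegree ≤ 1 := pow_le_one₀ (w.nonneg _) (hi i hi0)
        have h3 : w (f.coeff 0) ^ i ≤ w (f.coeff 0) ^ f.natDegree :=
          pow_le_pow_right₀ h0.le hin
        calc w (f.coeff i) ^ f.natDegree * w (f.coeff 0) ^ i
            ≤ 1 * w (f.coeff 0) ^ i :=
              mul_le_mul_of_nonneg_right h1 (pow_nonneg (w.nonneg _) i)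
          _ ≤ w (f.coeff 0) ^ f.natDegree := by rw [one_mul]; exact h3
      · rw [coeff_eq_zero_of_natDegree_lt (by omega), map_zero, zero_pow hn.ne', zero_mul]
        exact pow_nonneg (w.nonneg _) _
  · rw [hl, one_pow, mul_one]
    exact hp x m hm hmn

variable {O : Type} [CommRing O] [IsDedekindDomain O] [Algebra O L] [IsFractionRing O L]
  {V : HeightOneSpectrum O} {e : ℤ} {f h : L[X]}

theorem PoleAt.pure (hf : PoleAt V e f) : ∃ w : AbsoluteValue L ℝ, Pure w f := by
  have hb : (1 : NNReal) < 2 := one_lt_two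
  have hval : ∀ x : L, V.adicAbv hb x =
      ((WithZeroMulInt.toNNReal (ne_zero_of_lt hb) (V.valuation L x) : NNReal) : ℝ) := fun _ => rfl
  refine ⟨V.adicAbv hb, pure_pole (V.isNonarchimedean_adicAbv hb) hf.deg ?_ ?_ ?_
    (fun x m hm hmn => pow_ne_of_val V hb hf.pole hf.cop x m hm hmn)⟩
  · rw [hval, hf.lead, map_one]
    rfl
  · intro i hi
    rw [hval]
    have h1 := (WithZeroMulInt.toNNReal_le_one_iff hb).2 (hf.int i hi)
    exact_mod_cast h1
  · rw [hval, hf.pole]
    have h3 : (1 : WithZero (Multiplicative ℤ)) < WithZero.exp e := by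
      rw [← WithZero.exp_zero, WithZero.exp_lt_exp]
      exact hf.pos
    have h4 := WithZeroMulInt.toNNReal_strictMono hb h3
    rw [map_one] at h4
    exact_mod_cast h4

/-- Polynomials with integral coefficients of smaller degree can be added. -/
theorem PoleAt.add (hf : PoleAt V e f) (hh : ∀ i : ℕ, V.valuation L (h.coeff i) ≤ 1)
    (hd : h.natDegree < f.natDegree) : PoleAt V e (f + h) := by
  have hdeg : (f + h).natDegree = f.natDegree := natDegree_add_eq_left_of_natDegree_lt hd
  have hl : (f + h).leadingCoeff = f.leadingCoeff :=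
    leadingCoeff_add_of_degree_lt' (degree_lt_degree hd)
  have h3 : (1 : WithZero (Multiplicative ℤ)) < WithZero.exp e := by
    rw [← WithZero.exp_zero, WithZero.exp_lt_exp]
    exact hf.pos
  refine ⟨by rw [hdeg]; exact hf.deg, by rw [hl]; exact hf.lead, fun i hi => ?_, hf.pos, ?_,
    by rw [hdeg]; exact hf.cop⟩
  · rw [coeff_add]
    exact (V.valuation L).map_add_le (hf.int i hi) (hh i)
  · rw [coeff_add, ← hf.pole]
    apply Valuation.map_add_eq_of_lt_left
    rw [hf.pole]
    exact lt_of_le_of_lt (hh 0) h3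

/-- Integral constants can be subtracted. -/
theorem PoleAt.sub_C (hf : PoleAt V e f) {ξ : L} (hξ : V.valuation L ξ ≤ 1) :
    PoleAt V e (f - C ξ) := by
  have h1 : PoleAt V e (f + C (-ξ)) := by
    refine hf.add (fun i => ?_) ?_
    · rw [coeff_C]
      split_ifs
      · rw [Valuation.map_neg]
        exact hξ
      · rw [map_zero]
        exact zero_le'
    · rw [natDegree_C]
      exact hf.deg
  rwa [C_neg, ← sub_eq_add_neg] at h1

end pole

section rank

variable {L : Type} [Field L] {L' K F : Type} [Field L'] [Algebra L L']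
    [Field K] [Algebra L[X] K] [IsFractionRing L[X] K] [Field F] [Algebra L'[X] F]
    [IsFractionRing L'[X] F] [Algebra K F]

theorem ro_odd (hT : IsTower L L' K F) (h2 : (2 : L) ≠ 0) {p q w : L[X]}
    (hp : Irreducible p) (hq : Irreducible q) (hco : IsCoprime p q)
    (hd : Irreducible ((w ^ 2 - p - q) ^ 2 - 4 * (p * q)))
    (sp : p.Separable) (sq : q.Separable)
    (sd : ((w ^ 2 - p - q) ^ 2 - 4 * (p * q)).Separable)
    (op : Odd p.natDegree) (od : Odd ((w ^ 2 - p - q) ^ 2 - 4 * (p * q)).natDegree) :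
    TateAtTwo (F := F) L' (crvT (algebraMap L[X] K (w ^ 2 - p - q)) (algebraMap L[X] K (p * q))) ∧
    (∃ P : Pt (crvT (algebraMap L[X] K (w ^ 2 - p - q)) (algebraMap L[X] K (p * q))) K,
      ∀ m : ℕ, 0 < m → m • P ≠ 0) ∧
    (∀ P0 : Pt (crvT (algebraMap L[X] K (w ^ 2 - p - q)) (algebraMap L[X] K (p * q))) K,
      ∃ Q P1 : Pt (crvT (algebraMap L[X] K (w ^ 2 - p - q)) (algebraMap L[X] K (p * q))) K,
        Special (algebraMap L[X] K p) (algebraMap L[X] K q) (algebraMap L[X] K w) P1 ∧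
        P0 = Q + Q + P1) ∧
    Sha.ShaTwoTrivial L[X]
      (crvT (algebraMap L[X] K (w ^ 2 - p - q)) (algebraMap L[X] K (p * q))) := by
  refine ⟨tate_one hT h2 hp hq sp sq hd sd (notNorm_mul hp (notNorm_of_odd op) hco hq.ne_zero)
    (notNorm_of_odd od), inf_order h2 hp hq hco hd, ?_⟩
  exact rank_one h2 hp hq hco hd (sqStable_of_odd hp op) (sqStable_of_odd hd od)

/-- The family `q = p + ω (2 e + ω)`, `w = ω`. -/
theorem ro_family (hT : IsTower L L' K F) (h2 : (2 : L) ≠ 0)
    {O : Type} [CommRing O] [IsDedekindDomain O] [Algebra O L] [IsFractionRing O L]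
    {V : HeightOneSpectrum O} {m : ℤ} {p e : L[X]} {ω : L} (hp : PoleAt V m p)
    (op : Odd p.natDegree) (hn0 : (p.natDegree : L) ≠ 0) (he : 2 * e.natDegree < p.natDegree)
    (hi : ∀ i : ℕ, V.valuation L (e.coeff i) ≤ 1) (hω : V.valuation L ω ≤ 1) (hω0 : ω ≠ 0)
    (h0 : 2 * e + C ω ≠ 0) :
    IsCoprime p (p + C ω * (2 * e + C ω)) ∧ Irreducible p ∧
      Irreducible (p + C ω * (2 * e + C ω)) ∧
      Irreducible ((C ω ^ 2 - p - (p + C ω * (2 * e + C ω))) ^ 2 -
        4 * (p * (p + C ω * (2 * e + C ω)))) ∧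
      p.Separable ∧ (p + C ω * (2 * e + C ω)).Separable ∧
      ((C ω ^ 2 - p - (p + C ω * (2 * e + C ω))) ^ 2 -
        4 * (p * (p + C ω * (2 * e + C ω)))).Separable ∧
      Odd ((C ω ^ 2 - p - (p + C ω * (2 * e + C ω))) ^ 2 -
        4 * (p * (p + C ω * (2 * e + C ω)))).natDegree := by
  obtain ⟨h, hh⟩ : ∃ h, h = C ω * (2 * e + C ω) := ⟨_, rfl⟩
  rw [← hh]
  have v2 : V.valuation L (2 : L) ≤ 1 := by
    have e : algebraMap O L 2 = 2 := map_ofNat _ 2
    rw [← e]
    exact V.valuation_le_one 2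
  have hh0 : h ≠ 0 := by rw [hh]; exact mul_ne_zero (C_ne_zero.2 hω0) h0
  have e2 : (2 * e : L[X]) = C 2 * e := by rw [C_ofNat]
  have hhd : h.natDegree < p.natDegree := by
    have h1 : h.natDegree ≤ e.natDegree := by
      rw [hh, natDegree_C_mul hω0, e2]
      refine (natDegree_add_le _ _).trans (max_le (natDegree_C_mul_le _ _) ?_)
      rw [natDegree_C]
      exact Nat.zero_le _
    omega
  have hhi : ∀ i : ℕ, V.valuation L (h.coeff i) ≤ 1 := by
    intro i
    rw [hh, coeff_C_mul, map_mul, e2, coeff_add, coeff_C_mul]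
    refine mul_le_one' hω ((V.valuation L).map_add_le ?_ ?_)
    · rw [map_mul]
      exact mul_le_one' v2 (hi i)
    · rw [coeff_C]
      split_ifs
      · exact hω
      · rw [map_zero]; exact zero_le'
  have hq := hp.add hhi hhd
  obtain ⟨s, hs⟩ : ∃ s, s = p + (-(e ^ 2)) := ⟨_, rfl⟩
  have hse : PoleAt V m s := by
    rw [hs]
    refine hp.add (fun i => ?_) ?_
    · rw [coeff_neg, Valuation.map_neg, pow_two, coeff_mul]
      refine (V.valuation L).map_sum_le fun x _ => ?_
      rw [map_mul]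
      exact mul_le_one' (hi _) (hi _)
    · rw [natDegree_neg, natDegree_pow]
      exact he
  have es : s.natDegree = p.natDegree := by
    rw [hs]
    refine natDegree_add_eq_left_of_natDegree_lt ?_
    rw [natDegree_neg, natDegree_pow]
    exact he
  have eq' : (p + h).natDegree = p.natDegree := natDegree_add_eq_left_of_natDegree_lt hhd
  have ed : (C ω ^ 2 - p - (p + h)) ^ 2 - 4 * (p * (p + h)) = C (-4 * ω ^ 2) * s := by
    have e3 : (C (-4 * ω ^ 2) : L[X]) = -4 * C ω ^ 2 := by
      rw [C_mul, C_pow, C_neg, C_ofNat]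
    rw [hs, hh, e3]
    ring
  have hc0 : (-4 * ω ^ 2 : L) ≠ 0 := by
    have h4 : (-4 : L) = -(2 * 2) := by norm_num
    rw [h4]
    exact mul_ne_zero (neg_ne_zero.2 (mul_ne_zero h2 h2)) (pow_ne_zero 2 hω0)
  obtain ⟨u1, hu1⟩ := hp.pure
  obtain ⟨u2, hu2⟩ := hq.pure
  obtain ⟨u3, hu3⟩ := hse.pure
  have ip := hu1.irreducible hp.deg
  have iq := hu2.irreducible hq.deg
  have is' := hu3.irreducible hse.deg
  have hd' := irr_C is' hc0
  have ndd : (C (-4 * ω ^ 2) * s).natDegree = p.natDegree := by rw [natDegree_C_mul hc0, es]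
  rw [ed]
  refine ⟨?_, ip, iq, hd', sep_of_cast ip hn0, sep_of_cast iq (by rw [eq']; exact hn0),
    sep_of_cast hd' (by rw [ndd]; exact hn0), by rw [ndd]; exact op⟩
  rw [ip.coprime_iff_not_dvd]
  intro hdv
  have h5 : p ∣ h := (dvd_add_right (dvd_refl p)).1 hdv
  exact absurd (natDegree_le_of_dvd h5 hh0) (by omega)

end rank

end Pool.Agent.X243.CD
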