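import Pool.Agent.X243.Gen.Pull5
import Pool.Agent.TH115.GD.Rk2

/-!
Rational elliptic surfaces with six fibres of type `I₂` have complete first descent.
-/

set_option autoImplicit false
set_option linter.all false

open Polynomial WeierstrassCurve WeierstrassCurve.Affine
open scoped Classical

namespace Pool.Agent.X243.CD

open Pool.Agent.TH115.GD Pool.Agent.X243.Gen Pool.Agent.X243.Tate Pool.Agent.X243.Sol
open Pool.Agent.Y160.T3

section rel

variable {k : Type} [Field k]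

/-- Equality up to squares. -/
def SR (u v : k[X]) : Prop := ∃ g h : k[X], g ≠ 0 ∧ h ≠ 0 ∧ g ^ 2 * u = h ^ 2 * v

theorem SR.mul {u v u' v' : k[X]} (h1 : SR u v) (h2 : SR u' v') : SR (u * u') (v * v') := by
  obtain ⟨g, h, hg, hh, e⟩ := h1
  obtain ⟨g', h', hg', hh', e'⟩ := h2
  refine ⟨g * g', h * h', mul_ne_zero hg hg', mul_ne_zero hh hh', ?_⟩
  linear_combination (g' ^ 2 * u') * e + (h ^ 2 * v) * e'

theorem SR.of_pow {f : k[X]} (hf : f ≠ 0) {m n : ℕ} (h : m % 2 = n % 2) :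
    SR (f ^ m) (f ^ n) := by
  refine ⟨f ^ (n / 2), f ^ (m / 2), pow_ne_zero _ hf, pow_ne_zero _ hf, ?_⟩
  rw [← pow_mul, ← pow_mul, ← pow_add, ← pow_add]
  congr 1
  omega

/-- The monomial with the exponents `m`. -/
noncomputable def mon (f : Fin 6 → k[X]) (m : Fin 6 → ℕ) : k[X] := ∏ i, f i ^ m i

theorem mon_sr {f : Fin 6 → k[X]} (hf : ∀ i, f i ≠ 0) {m n : Fin 6 → ℕ}
    (h : ∀ i, m i % 2 = n i % 2) : SR (mon f m) (mon f n) := by
  unfold mon
  rw [Fin.prod_univ_six, Fin.prod_univ_six]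
  exact (((((SR.of_pow (hf 0) (h 0)).mul (SR.of_pow (hf 1) (h 1))).mul
    (SR.of_pow (hf 2) (h 2))).mul (SR.of_pow (hf 3) (h 3))).mul
    (SR.of_pow (hf 4) (h 4))).mul (SR.of_pow (hf 5) (h 5))

theorem mon_add (f : Fin 6 → k[X]) (m n : Fin 6 → ℕ) :
    mon f (fun i => m i + n i) = mon f m * mon f n := by
  unfold mon
  rw [← Finset.prod_mul_distrib]
  exact Finset.prod_congr rfl fun i _ => pow_add _ _ _

variable {K : Type} [Field K] [Algebra k[X] K] [IsFractionRing k[X] K] {a b : k[X]}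

theorem ptFor_aux {u u' : k[X]} {d : K} (h : SR u u')
    (h1 : ∃ (c : k) (h : K), c ≠ 0 ∧ h ≠ 0 ∧ algebraMap k[X] K (C c * u) = h ^ 2 * d) :
    ∃ (c : k) (h : K), c ≠ 0 ∧ h ≠ 0 ∧ algebraMap k[X] K (C c * u') = h ^ 2 * d := by
  obtain ⟨c, w, hc, hw, e⟩ := h1
  obtain ⟨g, h, hg, hh, e1⟩ := h
  have hgK : algebraMap k[X] K g ≠ 0 := by simpa using hg
  have hhK : algebraMap k[X] K h ≠ 0 := by simpa using hh
  refine ⟨c, algebraMap k[X] K g * w / algebraMap k[X] K h, hc,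
    div_ne_zero (mul_ne_zero hgK hw) hhK, ?_⟩
  have e2 := congrArg (algebraMap k[X] K) e1
  rw [map_mul, map_mul, map_pow, map_pow] at e2
  rw [map_mul] at e ⊢
  rw [div_pow, mul_pow, div_mul_eq_mul_div, eq_div_iff (pow_ne_zero 2 hhK)]
  linear_combination (algebraMap k[X] K g) ^ 2 * e - algebraMap k[X] K (C c) * e2

theorem ptFor_sr {u v u' v' : k[X]} (h : PtFor K a b u v) (h0 : SR u u') (h1 : SR v v') :
    PtFor K a b u' v' := by
  obtain ⟨P, p1, p2⟩ := h
  exact ⟨P, ptFor_aux h0 p1, ptFor_aux h1 p2⟩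

theorem ptFor_mul (h2 : (2 : k) ≠ 0) (ha : a ≠ 0) (hb : b ≠ 0) (hab : a ≠ b) {u v u' v' : k[X]}
    (h : PtFor K a b u v) (h' : PtFor K a b u' v') : PtFor K a b (u * u') (v * v') := by
  have inj := IsFractionRing.injective k[X] K
  have h2K : (2 : K) ≠ 0 := tt h2
  have haK : algebraMap k[X] K a ≠ 0 := by simpa using ha
  have hbK : algebraMap k[X] K b ≠ 0 := by simpa using hb
  have habK : algebraMap k[X] K a ≠ algebraMap k[X] K b := fun h => hab (inj h)
  obtain ⟨P, ⟨c, w, hc, hw, e⟩, ⟨d, x, hd, hx, f⟩⟩ := h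
  obtain ⟨P', ⟨c', w', hc', hw', e'⟩, ⟨d', x', hd', hx', f'⟩⟩ := h'
  obtain ⟨u0, u1, hu0, hu1, f0, f1⟩ := d_add (K := K) (F := K) (Ω := Sep K)
    (crv (algebraMap k[X] K a) (algebraMap k[X] K b)) (isE _ _ (Sep K) h2K haK hbK habK) P P'
  have f0' : d0 (algebraMap k[X] K a) (algebraMap k[X] K b) (P + P') =
      u0 ^ 2 * (d0 (algebraMap k[X] K a) (algebraMap k[X] K b) P *
        d0 (algebraMap k[X] K a) (algebraMap k[X] K b) P') := f0
  have f1' : d1 (algebraMap k[X] K a) (algebraMap k[X] K b) (P + P') =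
      u1 ^ 2 * (d1 (algebraMap k[X] K a) (algebraMap k[X] K b) P *
        d1 (algebraMap k[X] K a) (algebraMap k[X] K b) P') := f1
  refine ⟨P + P', ⟨c * c', w * w' / u0, mul_ne_zero hc hc', div_ne_zero (mul_ne_zero hw hw') hu0,
    ?_⟩, ⟨d * d', x * x' / u1, mul_ne_zero hd hd', div_ne_zero (mul_ne_zero hx hx') hu1, ?_⟩⟩
  · have e3 : C (c * c') * (u * u') = (C c * u) * (C c' * u') := by rw [C_mul]; ring
    rw [e3, map_mul, e, e', f0']
    field_simp
  · have e3 : C (d * d') * (v * v') = (C d * v) * (C d' * v') := by rw [C_mul]; ring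
    rw [e3, map_mul, f, f', f1']
    field_simp

theorem ptFor_one : PtFor K a b 1 1 := by
  have := ptFor_zero (K := K) (a := a) (b := b) (c := 1) (c' := 1) one_ne_zero one_ne_zero
  rwa [C_1] at this

theorem ptFor_mon (h2 : (2 : k) ≠ 0) (ha : a ≠ 0) (hb : b ≠ 0) (hab : a ≠ b)
    {f : Fin 6 → k[X]} {M0 M1 : Fin 4 → Fin 6 → ℕ}
    (hG : ∀ j, PtFor K a b (mon f (M0 j)) (mon f (M1 j))) (e : Fin 4 → Fin 2) :
    PtFor K a b (mon f fun i => ∑ j, (e j : ℕ) * M0 j i)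
      (mon f fun i => ∑ j, (e j : ℕ) * M1 j i) := by
  have key : ∀ j, ∀ x : Fin 2, PtFor K a b (mon f fun i => (x : ℕ) * M0 j i)
      (mon f fun i => (x : ℕ) * M1 j i) := by
    intro j x
    fin_cases x
    · have e0 : ∀ M : Fin 6 → ℕ, (mon f fun i => ((0 : Fin 2) : ℕ) * M i) = 1 := by
        intro M
        unfold mon
        simp
      show PtFor K a b (mon f fun i => ((0 : Fin 2) : ℕ) * M0 j i)
        (mon f fun i => ((0 : Fin 2) : ℕ) * M1 j i)
      rw [e0, e0]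
      exact ptFor_one
    · have e1 : ∀ M : Fin 6 → ℕ, (mon f fun i => ((1 : Fin 2) : ℕ) * M i) = mon f M := by
        intro M
        unfold mon
        simp
      show PtFor K a b (mon f fun i => ((1 : Fin 2) : ℕ) * M0 j i)
        (mon f fun i => ((1 : Fin 2) : ℕ) * M1 j i)
      rw [e1, e1]
      exact hG j
  have hs : ∀ M : Fin 4 → Fin 6 → ℕ, (mon f fun i => ∑ j, (e j : ℕ) * M j i) =
      (mon f fun i => (e 0 : ℕ) * M 0 i) * (mon f fun i => (e 1 : ℕ) * M 1 i) *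
      (mon f fun i => (e 2 : ℕ) * M 2 i) * (mon f fun i => (e 3 : ℕ) * M 3 i) := by
    intro M
    rw [← mon_add, ← mon_add, ← mon_add]
    congr 1
    funext i
    rw [Fin.sum_univ_four]
  rw [hs, hs]
  exact ptFor_mul h2 ha hb hab (ptFor_mul h2 ha hb hab (ptFor_mul h2 ha hb hab (key 0 (e 0))
    (key 1 (e 1))) (key 2 (e 2))) (key 3 (e 3))

end rel

section rank2

variable {k K : Type} [Field k] [Field K] [Algebra k[X] K] [IsFractionRing k[X] K]

theorem lin_irr {u v : k} (hu : u ≠ 0) : Irreducible (C u * X + C v) ∧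
    (C u * X + C v).natDegree = 1 := by
  have h1 : (C u * X + C v).natDegree = 1 := natDegree_linear hu
  exact ⟨irreducible_of_degree_eq_one ((degree_eq_iff_natDegree_eq_of_pos one_pos).2 h1), h1⟩

/-- Rank two. -/
theorem rk2_base (h2 : (2 : k) ≠ 0) {α β μ : k} (hα : α ≠ 0) (hα1 : α ≠ 1) (hα2 : α ≠ -1)
    (hβ : β ≠ 0) (hμ : μ ≠ 0)
    (hsq : ((α + β) ^ 2 - 1) * ((α - β) ^ 2 - 1) = μ ^ 2) :
    Base K ((C α * X + C β) ^ 2 - X ^ 2) ((C α * X + C β) ^ 2 - 1) ∧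
      TwoOddFactors ((C α * X + C β) ^ 2 - X ^ 2) ((C α * X + C β) ^ 2 - 1) ∧
      ((C α * X + C β) ^ 2 - 1 : k[X]).natDegree =
        ((C α * X + C β) ^ 2 - X ^ 2 : k[X]).natDegree ∧
      (((C α * X + C β) ^ 2 - X ^ 2) - ((C α * X + C β) ^ 2 - 1) : k[X]).natDegree =
        ((C α * X + C β) ^ 2 - X ^ 2 : k[X]).natDegree ∧
      ((C α * X + C β) ^ 2 - X ^ 2 : k[X]).natDegree = 2 := by
  obtain ⟨q, hq⟩ : ∃ q : k[X], q = X := ⟨_, rfl⟩
  obtain ⟨r, hr⟩ : ∃ r : k[X], r = 1 := ⟨_, rfl⟩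
  obtain ⟨p, hp⟩ : ∃ p, p = C α * q + C β * r := ⟨_, rfl⟩
  have hα3 : α + 1 ≠ 0 := fun h => hα2 (by linear_combination h)
  have hα4 : α - 1 ≠ 0 := sub_ne_zero.2 hα1
  have e0 : (C α * X + C β : k[X]) = p := by rw [hp, hq, hr, mul_one]
  have eX : (X : k[X]) ^ 2 = q ^ 2 := by rw [hq]
  have e1r : ((1 : k[X])) = r ^ 2 := by rw [hr, one_pow]
  rw [e0, eX, e1r]
  have hco : IsCoprime q r := by rw [hr]; exact isCoprime_one_right
  have hsμ : (α + β) ^ 2 - 1 ≠ 0 := by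
    intro h
    rw [h, zero_mul] at hsq
    exact pow_ne_zero 2 hμ hsq.symm
  have hdμ : (α - β) ^ 2 - 1 ≠ 0 := by
    intro h
    rw [h, mul_zero] at hsq
    exact pow_ne_zero 2 hμ hsq.symm
  have hs1 : α + β + 1 ≠ 0 := by
    intro h
    apply hsμ
    linear_combination (α + β - 1) * h
  have hs2 : α + β - 1 ≠ 0 := by
    intro h
    apply hsμ
    linear_combination (α + β + 1) * h
  have hd1 : α - β + 1 ≠ 0 := by
    intro h
    apply hdμ
    linear_combination (α - β - 1) * h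
  have hd2 : α - β - 1 ≠ 0 := by
    intro h
    apply hdμ
    linear_combination (α - β + 1) * h
  -- the six forms
  have f1 : p + q = C (α + 1) * q + C β * r := by rw [hp, C_add, C_1]; ring
  have f2 : p - q = C (α - 1) * q + C β * r := by rw [hp, C_sub, C_1]; ring
  have f3 : p + r = C α * q + C (β + 1) * r := by rw [hp, C_add, C_1]; ring
  have f4 : p - r = C α * q + C (β - 1) * r := by rw [hp, C_sub, C_1]; ring
  have c12 : IsCoprime (p + q) (p - q) := coprime_forms hco (by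
    intro h; apply mul_ne_zero h2 hβ; linear_combination h) f1 f2
  have c13 : IsCoprime (p + q) (p + r) := coprime_forms hco (by
    intro h; apply hs1; linear_combination h) f1 f3
  have c14 : IsCoprime (p + q) (p - r) := coprime_forms hco (by
    intro h; apply hd1; linear_combination -h) f1 f4
  have c23 : IsCoprime (p - q) (p + r) := coprime_forms hco (by
    intro h; apply hd2; linear_combination h) f2 f3
  have c24 : IsCoprime (p - q) (p - r) := coprime_forms hco (by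
    intro h; apply hs2; linear_combination -h) f2 f4
  have c34 : IsCoprime (p + r) (p - r) := coprime_forms hco (by
    intro h; apply mul_ne_zero h2 hα; linear_combination -h) f3 f4
  have G1 : Irreducible (p + q) ∧ (p + q).natDegree = 1 := by
    have : p + q = C (α + 1) * X + C β := by rw [hp, hq, hr, C_add, C_1]; ring
    rw [this]; exact lin_irr hα3
  have G2 : Irreducible (p - q) ∧ (p - q).natDegree = 1 := by
    have : p - q = C (α - 1) * X + C β := by rw [hp, hq, hr, C_sub, C_1]; ring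
    rw [this]; exact lin_irr hα4
  have G3 : Irreducible (p + r) ∧ (p + r).natDegree = 1 := by
    have : p + r = C α * X + C (β + 1) := by rw [hp, hq, hr, C_add, C_1]; ring
    rw [this]; exact lin_irr hα
  have G4 : Irreducible (p - r) ∧ (p - r).natDegree = 1 := by
    have : p - r = C α * X + C (β - 1) := by rw [hp, hq, hr, C_sub, C_1]; ring
    rw [this]; exact lin_irr hα
  have G5 : Irreducible (q + r) ∧ (q + r).natDegree = 1 := by
    have : q + r = C 1 * X + C 1 := by rw [hq, hr, C_1]; ring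
    rw [this]; exact lin_irr one_ne_zero
  have G6 : Irreducible (q - r) ∧ (q - r).natDegree = 1 := by
    have : q - r = C 1 * X + C (-1) := by rw [hq, hr, C_neg, C_1]; ring
    rw [this]; exact lin_irr one_ne_zero
  have ea : p ^ 2 - q ^ 2 = (p + q) * (p - q) := by ring
  have eb : p ^ 2 - r ^ 2 = (p + r) * (p - r) := by ring
  have ec : (p ^ 2 - q ^ 2) - (p ^ 2 - r ^ 2) = C (-1) * ((q + r) * (q - r)) := by
    rw [C_neg, C_1]; ring
  have hm1 : (-1 : k) ≠ 0 := neg_ne_zero.2 one_ne_zero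
  have ha : p ^ 2 - q ^ 2 ≠ 0 := by
    rw [ea]; exact mul_ne_zero G1.1.ne_zero G2.1.ne_zero
  have hb : p ^ 2 - r ^ 2 ≠ 0 := by
    rw [eb]; exact mul_ne_zero G3.1.ne_zero G4.1.ne_zero
  have hab : p ^ 2 - q ^ 2 ≠ p ^ 2 - r ^ 2 := by
    rw [← sub_ne_zero, ec]
    exact mul_ne_zero (C_ne_zero.2 hm1) (mul_ne_zero G5.1.ne_zero G6.1.ne_zero)
  have da : (p ^ 2 - q ^ 2).natDegree = 1 + 1 := by
    rw [ea, natDegree_mul G1.1.ne_zero G2.1.ne_zero, G1.2, G2.2]
  have db : (p ^ 2 - r ^ 2).natDegree = 1 + 1 := by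
    rw [eb, natDegree_mul G3.1.ne_zero G4.1.ne_zero, G3.2, G4.2]
  have dc : ((p ^ 2 - q ^ 2) - (p ^ 2 - r ^ 2)).natDegree = 1 + 1 := by
    rw [ec, natDegree_C_mul hm1, natDegree_mul G5.1.ne_zero G6.1.ne_zero, G5.2, G6.2]
  have sp : ∀ f : k[X], f.natDegree = 1 → f.Splits := fun f hf =>
    Polynomial.Splits.of_natDegree_le_one hf.le
  have hodd : TwoOddFactors (p ^ 2 - q ^ 2) (p ^ 2 - r ^ 2) := by
    refine Or.inl ⟨?_, ?_⟩
    · rw [ea]
      exact odd_factor G1.1 (G1.2.symm ▸ odd_one) c12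
    · rw [eb]
      exact odd_factor G3.1 (G3.2.symm ▸ odd_one) c34
  refine ⟨⟨ha, hb, hab, ?_, ?_, ?_, ?_, Or.inr hodd, ?_⟩, hodd, by rw [da, db], by rw [da, dc],
    by rw [da]⟩
  · rw [ea, eb]
    exact IsCoprime.mul_left (c13.mul_right c14) (c23.mul_right c24)
  · rw [ea]; exact (sp _ G1.2).mul (sp _ G2.2)
  · rw [eb]; exact (sp _ G3.2).mul (sp _ G4.2)
  · rw [ec]; exact (Polynomial.Splits.C _).mul ((sp _ G5.2).mul (sp _ G6.2))
  · intro A B D hA hB hD _ _ _ dA dB dD hinf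
    rw [ea] at dA
    rw [eb] at dB
    rw [ec] at dD
    obtain ⟨c1, x0, x1, h1, rfl⟩ := dvd_irr2 (A := A) G1.1 G2.1
      (one_ne_zero (α := k)) (by rw [C_1, one_mul]; exact dA)
    obtain ⟨c2, y0, y1, h3, rfl⟩ := dvd_irr2 (A := B) G3.1 G4.1
      (one_ne_zero (α := k)) (by rw [C_1, one_mul]; exact dB)
    obtain ⟨c3, z0, z1, h4, rfl⟩ := dvd_irr2 G5.1 G6.1 hm1 dD
    have dmul : ∀ (c : k) (u v : k[X]) (x y : Fin 2), c ≠ 0 → u ≠ 0 → v ≠ 0 →
        u.natDegree = 1 → v.natDegree = 1 →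
        (C c * (u ^ (x : ℕ) * v ^ (y : ℕ))).natDegree = x + y := by
      intro c u v x y hc hu hv hu' hv'
      rw [natDegree_C_mul hc, natDegree_mul (pow_ne_zero _ hu) (pow_ne_zero _ hv), natDegree_pow,
        natDegree_pow, hu', hv', mul_one, mul_one]
    have hev : Even (max (p ^ 2 - q ^ 2).natDegree (p ^ 2 - r ^ 2).natDegree) := by
      rw [da, db, max_self]; exact ⟨1, rfl⟩
    obtain ⟨i1, i2, -⟩ := hinf hev
    have j1 := i1 (by rw [da, db])
    have j2 := i2 (by rw [da, db, max_self]) (by rw [dc, da, db, max_self])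
    rw [natDegree_mul hA.ne_zero hB.ne_zero, dmul _ _ _ _ _ h1 G1.1.ne_zero G2.1.ne_zero G1.2
      G2.2, dmul _ _ _ _ _ h3 G3.1.ne_zero G4.1.ne_zero G3.2 G4.2] at j1
    rw [natDegree_mul hA.ne_zero hD.ne_zero, dmul _ _ _ _ _ h1 G1.1.ne_zero G2.1.ne_zero G1.2
      G2.2, dmul _ _ _ _ _ h4 G5.1.ne_zero G6.1.ne_zero G5.2 G6.2] at j2
    have k1 : ((x0 : ℕ) + x1 + (y0 + y1)) % 2 = 0 := Nat.even_iff.1 j1
    have k2 : ((x0 : ℕ) + x1 + (z0 + z1)) % 2 = 0 := Nat.even_iff.1 j2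
    obtain ⟨f, hf⟩ : ∃ f : Fin 6 → k[X], f = ![p + q, p - q, p + r, p - r, q + r, q - r] :=
      ⟨_, rfl⟩
    have hpne : ∀ i, f i ≠ 0 := by
      rw [hf]
      intro i
      fin_cases i
      · exact G1.1.ne_zero
      · exact G2.1.ne_zero
      · exact G3.1.ne_zero
      · exact G4.1.ne_zero
      · exact G5.1.ne_zero
      · exact G6.1.ne_zero
    have T0 : PtFor K (p ^ 2 - q ^ 2) (p ^ 2 - r ^ 2) ((p + q) * (p - q) * (p + r) * (p - r))
        ((p + q) * (p - q)) := by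
      refine ptFor h2 ha hb hab (x := 0) (y := 0) (g := 1) (g' := 1) (c := 1) (c' := -1) (by ring)
        one_ne_zero hm1 one_ne_zero one_ne_zero ?_ ?_
      · rw [if_pos rfl, C_1]; ring
      · rw [if_neg ha.symm, C_neg, C_1]; ring
    have Ta : PtFor K (p ^ 2 - q ^ 2) (p ^ 2 - r ^ 2) ((p + q) * (p - q))
        ((p + q) * (p - q) * (q + r) * (q - r)) := by
      refine ptFor h2 ha hb hab (x := p ^ 2 - q ^ 2) (y := 0) (g := 1) (g' := 1) (c := 1)
        (c' := -1) (by ring) one_ne_zero hm1 one_ne_zero one_ne_zero ?_ ?_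
      · rw [if_neg ha, C_1]; ring
      · rw [if_pos rfl, C_neg, C_1]; ring
    -- the point `R`
    have nR0 : (p + q) * (p + r) ≠ 0 := mul_ne_zero G1.1.ne_zero G3.1.ne_zero
    have nR1 : (p + q) * (p + r) ≠ p ^ 2 - q ^ 2 := by
      intro h
      apply mul_ne_zero G1.1.ne_zero G5.1.ne_zero
      linear_combination h
    have hR : PtFor K (p ^ 2 - q ^ 2) (p ^ 2 - r ^ 2) ((p + q) * (p + r)) ((p + q) * (q + r)) := by
      refine ptFor h2 ha hb hab (x := (p + q) * (p + r)) (y := (p + q) * (p + r) * (q + r))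
        (g := 1) (g' := 1) (c := 1) (c' := 1) (by ring) one_ne_zero one_ne_zero one_ne_zero
        one_ne_zero ?_ ?_
      · rw [if_neg nR0, C_1]; ring
      · rw [if_neg nR1, C_1]; ring
    -- the point `S`
    obtain ⟨κ, hκ⟩ : ∃ κ, κ = (α + β - 1) / (α + β + 1) := ⟨_, rfl⟩
    obtain ⟨κ1, hκ1⟩ : ∃ κ1, κ1 = (β - α + 1) / (α + β + 1) := ⟨_, rfl⟩
    obtain ⟨κ2, hκ2⟩ : ∃ κ2, κ2 = (β - α - 1) / (α + β + 1) := ⟨_, rfl⟩
    obtain ⟨ρ, hρ⟩ : ∃ ρ, ρ = μ / (α + β + 1) ^ 2 := ⟨_, rfl⟩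
    have hκ0 : κ ≠ 0 := by rw [hκ]; exact div_ne_zero hs2 hs1
    have hκ10 : κ1 ≠ 0 := by
      rw [hκ1]
      exact div_ne_zero (by intro h; apply hd2; linear_combination -h) hs1
    have e1 : C κ * C α - C α + 1 = (C κ1 : k[X]) := by
      rw [← C_mul, ← C_sub, ← C_1, ← C_add]
      congr 1
      rw [hκ, hκ1]; field_simp; ring
    have e2 : C κ * C β + C κ - C β = (-C κ1 : k[X]) := by
      rw [← C_mul, ← C_add, ← C_sub, ← C_neg]
      congr 1
      rw [hκ, hκ1]; field_simp; ring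
    have e3 : C κ * C α + C κ - C α = (C κ2 : k[X]) := by
      rw [← C_mul, ← C_add, ← C_sub]
      congr 1
      rw [hκ, hκ2]; field_simp; ring
    have e4 : C κ * C β - C β + 1 = (-C κ2 : k[X]) := by
      rw [← C_mul, ← C_sub, ← C_1, ← C_add, ← C_neg]
      congr 1
      rw [hκ, hκ2]; field_simp; ring
    have e5 : (C ρ : k[X]) ^ 2 = C κ * C κ1 * C κ2 := by
      rw [← C_mul, ← C_mul, ← C_pow]
      congr 1
      rw [hρ, hκ, hκ1, hκ2]
      field_simp
      linear_combination -hsq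
    have g1 : C κ * ((p + q) * (p + r)) - (p ^ 2 - q ^ 2) = C κ1 * ((p + q) * (q - r)) := by
      rw [hp]
      linear_combination (C α * q + C β * r + q) * (q * e1 + r * e2)
    have g2 : C κ * ((p + q) * (p + r)) - (p ^ 2 - r ^ 2) = C κ2 * ((p + r) * (q - r)) := by
      rw [hp]
      linear_combination (C α * q + C β * r + r) * (q * e3 + r * e4)
    have nS0 : C κ * ((p + q) * (p + r)) ≠ 0 := mul_ne_zero (C_ne_zero.2 hκ0) nR0
    have nS1 : C κ * ((p + q) * (p + r)) ≠ p ^ 2 - q ^ 2 := by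
      rw [← sub_ne_zero, g1]
      exact mul_ne_zero (C_ne_zero.2 hκ10) (mul_ne_zero G1.1.ne_zero G6.1.ne_zero)
    have hS : PtFor K (p ^ 2 - q ^ 2) (p ^ 2 - r ^ 2) ((p + q) * (p + r)) ((p + q) * (q - r)) := by
      refine ptFor h2 ha hb hab (x := C κ * ((p + q) * (p + r)))
        (y := C ρ * ((p + q) * (p + r) * (q - r)))
        (g := 1) (g' := 1) (c := κ) (c' := κ1) ?_ hκ0 hκ10 one_ne_zero one_ne_zero ?_ ?_
      · rw [g1, g2]
        linear_combination ((p + q) * (p + r) * (q - r)) ^ 2 * e5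
      · rw [if_neg nS0]; ring
      · rw [if_neg nS1, g1]; ring
    obtain ⟨e, he0, he1⟩ := dec2 x0 x1 y0 y1 z0 z1 k1 k2
    have key := ptFor_mon (K := K) h2 ha hb hab (f := f)
      (M0 := ![![1, 1, 1, 1, 0, 0], ![1, 1, 0, 0, 0, 0], ![1, 0, 1, 0, 0, 0],
        ![1, 0, 1, 0, 0, 0]])
      (M1 := ![![1, 1, 0, 0, 0, 0], ![1, 1, 0, 0, 1, 1], ![1, 0, 0, 0, 1, 0],
        ![1, 0, 0, 0, 0, 1]]) (by
        rw [hf]
        intro j
        fin_cases j
        · simpa [mon, Fin.prod_univ_six] using T0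
        · simpa [mon, Fin.prod_univ_six] using Ta
        · simpa [mon, Fin.prod_univ_six] using hR
        · simpa [mon, Fin.prod_univ_six] using hS) e
    have key2 := ptFor_sr key (mon_sr hpne fun i => (he0 i).symm) (mon_sr hpne fun i => (he1 i).symm)
    have key3 := ptFor_const (mul_ne_zero h1 h3) (mul_ne_zero h1 h4) key2
    have t1 : C (c1 * c2) * mon f (fun i => (![(x0 : ℕ), x1, 0, 0, 0, 0] : Fin 6 → ℕ) i +
        (![0, 0, (y0 : ℕ), y1, 0, 0] : Fin 6 → ℕ) i) =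
        C c1 * ((p + q) ^ (x0 : ℕ) * (p - q) ^ (x1 : ℕ)) *
          (C c2 * ((p + r) ^ (y0 : ℕ) * (p - r) ^ (y1 : ℕ))) := by
      rw [C_mul, hf]
      simp [mon, Fin.prod_univ_six]
      ring
    have t2 : C (c1 * c3) * mon f (fun i => (![(x0 : ℕ), x1, 0, 0, 0, 0] : Fin 6 → ℕ) i +
        (![0, 0, 0, 0, (z0 : ℕ), z1] : Fin 6 → ℕ) i) =
        C c1 * ((p + q) ^ (x0 : ℕ) * (p - q) ^ (x1 : ℕ)) *
          (C c3 * ((q + r) ^ (z0 : ℕ) * (q - r) ^ (z1 : ℕ))) := by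
      rw [C_mul, hf]
      simp [mon, Fin.prod_univ_six]
      ring
    rw [t1, t2] at key3
    exact key3

end rank2

end Pool.Agent.X243.CD
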