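import Pool.Agent.X243.CD.Full
import Pool.Agent.X243.Gen.Main2

/-!
Complete two-descent for the curves `y ^ 2 = x (x - a) (x - b)`: the conclusion.
-/

set_option autoImplicit false
set_option linter.all false

open WeierstrassCurve WeierstrassCurve.Affine IsDedekindDomain Polynomial
open scoped Classical

namespace Pool.Agent.X243.CD

open Pool.Agent.TH115.GD Pool.Agent.X243.Tate Pool.Agent.X243.Sol Pool.Agent.X243.Gen
open Pool.Agent.W309.TD (SqStable)
open Pool.Agent.W309

section full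

variable {k K : Type} [Field k] [Field K] [Algebra k[X] K] [IsFractionRing k[X] K]

/-- **The criterion for curves with all the points of order two rational.** -/
theorem fullT {a b : k[X]} (h2 : (2 : k) ≠ 0) (ha : Irreducible a) (hb : Irreducible b)
    (hc : Irreducible (a - b)) (hco : IsCoprime a b) (hsb : SqStable b) (hsc : SqStable (a - b))
    (key : ∀ δ : k, δ ≠ 0 → ∀ z : k[X], ¬ a ∣ z ^ 2 - C δ * b) :
    Sha.PointsComplete (crv (algebraMap k[X] K a) (algebraMap k[X] K b)) ∧
    Sha.ShaTwoTrivial k[X] (crv (algebraMap k[X] K a) (algebraMap k[X] K b)) ∧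
    Sha.ShaTateTrivial k[X] (crv (algebraMap k[X] K a) (algebraMap k[X] K b)) := by
  have h2K : (2 : K) ≠ 0 := tt h2
  have haK : algebraMap k[X] K a ≠ 0 := by simpa using ha.ne_zero
  have hbK : algebraMap k[X] K b ≠ 0 := by simpa using hb.ne_zero
  have habK : algebraMap k[X] K a ≠ algebraMap k[X] K b := fun h =>
    hc.ne_zero (sub_eq_zero.2 (IsFractionRing.injective k[X] K h))
  have hL := isE (algebraMap k[X] K a) (algebraMap k[X] K b) (SeparableClosure K) h2K haK hbK habK
  have hD := descE (W := crv (algebraMap k[X] K a) (algebraMap k[X] K b))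
    (Ω' := fun v : HeightOneSpectrum k[X] => SeparableClosure (v.adicCompletion K))
    (F := fun v : HeightOneSpectrum k[X] => v.adicCompletion K) hL
    (fun v => isE (algebraMap k[X] K a) (algebraMap k[X] K b) _ h2K haK hbK habK)
    (globFull h2 ha hb hc hco hsb hsc key)
  have hhalf : Half (crv (algebraMap k[X] K a) (algebraMap k[X] K b)) (SeparableClosure K) :=
    halve_sep hL
  have hs := sha_of _ hhalf hD
  refine ⟨fun P0 => ?_, hs, tate_of _ hs⟩
  obtain ⟨Q, P, hP, h⟩ := pts_of _ hhalf hD P0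
  exact ⟨Q, P, hP, h⟩

end full

section ext

variable {k : Type} [Field k]

/-- The conclusion for all the twists by constants. -/
theorem cdf_ext (h2 : (2 : k) ≠ 0) {a b : k[X]} {N : ℕ} (hN : 5 ≤ N)
    (ha : FF N a) (hb : FF N b) (hc : FF N (a - b)) (hsg : SgnG a b)
    {L L' : Type} [Field L] [Algebra k L] [Field L']
    [Algebra L L'] [IsSepClosure L L'] [Algebra k L'] [IsScalarTower k L L']
    (M : IntermediateField k L') (hMn : Normal k M)
    (hM : ∀ x : L, IsSeparable k x → algebraMap L L' x ∈ M)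
    (h1 : ¬ (a.map (algebraMap k M)).Splits) (h3 : ¬ (b.map (algebraMap k M)).Splits)
    (h4 : ¬ ((a - b).map (algebraMap k M)).Splits)
    (K : Type) [Field K] [Algebra L[X] K] [IsFractionRing L[X] K] (c : L) (hc0 : c ≠ 0)
    (W : WeierstrassCurve K)
    (hW : W = crv (algebraMap L[X] K (C c * a.map (algebraMap k L)))
      (algebraMap L[X] K (C c * b.map (algebraMap k L)))) :
    Sha.PointsComplete W ∧ Sha.ShaTwoTrivial L[X] W ∧ Sha.ShaTateTrivial L[X] W := by
  subst hW
  have h2L : (2 : L) ≠ 0 := by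
    rw [← map_ofNat (algebraMap k L) 2]
    exact (map_ne_zero_iff _ (algebraMap k L).injective).2 h2
  obtain ⟨i1, n1⟩ := irr_stable ha.2.1 (by rw [ha.1.2]; exact hN) ha.2.2 h2 L L' M hM h1
  obtain ⟨i2, n2⟩ := irr_stable hb.2.1 (by rw [hb.1.2]; exact hN) hb.2.2 h2 L L' M hM h3
  obtain ⟨i3, n3⟩ := irr_stable hc.2.1 (by rw [hc.1.2]; exact hN) hc.2.2 h2 L L' M hM h4
  rw [Polynomial.map_sub] at i3 n3
  have key := key_extG h2 ha.2.1 (by rw [ha.1.2]; exact hN) ha.2.2 hsg L L' M hM h1
  have hco : IsCoprime (a.map (algebraMap k L)) (b.map (algebraMap k L)) := by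
    rw [i1.coprime_iff_not_dvd]
    intro hd
    refine key 1 one_ne_zero 0 ?_
    have e : (0 : L[X]) ^ 2 - C 1 * b.map (algebraMap k L) = -b.map (algebraMap k L) := by
      rw [C_1]
      ring
    rw [e]
    exact hd.neg_right
  have hu : IsUnit (C c : L[X]) := isUnit_C.2 (isUnit_iff_ne_zero.2 hc0)
  have e : C c * a.map (algebraMap k L) - C c * b.map (algebraMap k L) =
      C c * (a.map (algebraMap k L) - b.map (algebraMap k L)) := by ring
  refine fullT h2L (irr_C i1 hc0) (irr_C i2 hc0) (by rw [e]; exact irr_C i3 hc0)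
    ((isCoprime_mul_unit_left hu _ _).2 hco) (sqStable_C n2 hc0)
    (by rw [e]; exact sqStable_C n3 hc0) ?_
  intro δ hδ z hz
  refine key (δ * c) (mul_ne_zero hδ hc0) z ?_
  have h5 := (Dvd.intro_left _ rfl : a.map (algebraMap k L) ∣ C c * a.map (algebraMap k L)).trans hz
  rw [C_mul, mul_assoc]
  exact h5

theorem cdf_solv (h2 : (2 : k) ≠ 0) {a b : k[X]} {N : ℕ} (hN : 5 ≤ N)
    (ha : FF N a) (hb : FF N b) (hc : FF N (a - b)) (hsg : SgnG a b)
    {L : Type} [Field L] [Algebra k L]
    (hM : ∀ x : L, IsSeparable k x → Group.IsSolvable (minpoly k x).Gal)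
    (K : Type) [Field K] [Algebra L[X] K] [IsFractionRing L[X] K] (c : L) (hc0 : c ≠ 0)
    (W : WeierstrassCurve K)
    (hW : W = crv (algebraMap L[X] K (C c * a.map (algebraMap k L)))
      (algebraMap L[X] K (C c * b.map (algebraMap k L)))) :
    Sha.PointsComplete W ∧ Sha.ShaTwoTrivial L[X] W ∧ Sha.ShaTateTrivial L[X] W := by
  haveI i1 : IsSepClosure L (Sha.Sep L) := inferInstanceAs (IsSepClosure L (SeparableClosure L))
  haveI i2 : IsSepClosed (Sha.Sep L) := inferInstanceAs (IsSepClosed (SeparableClosure L))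
  exact cdf_ext (L' := Sha.Sep L) h2 hN ha hb hc hsg (solvM k (Sha.Sep L))
    (solvM_normal (Sha.Sep L)) (fun x hx => mem_solvM hx (hM x hx))
    (solvM_not_splits (Sha.Sep L) ha.2.1 (by rw [ha.1.2]; exact hN) ha.2.2)
    (solvM_not_splits (Sha.Sep L) hb.2.1 (by rw [hb.1.2]; exact hN) hb.2.2)
    (solvM_not_splits (Sha.Sep L) hc.2.1 (by rw [hc.1.2]; exact hN) hc.2.2) K c hc0 W hW

end ext

end Pool.Agent.X243.CD
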