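import Pool.Agent.X243.CD.RatMW
import Pool.Agent.X243.CD.NewtonV

/-!
Points on the pullbacks by rational functions of curves with all points of order two rational: the
conclusions.
-/

set_option autoImplicit false
set_option linter.all false

open WeierstrassCurve WeierstrassCurve.Affine IsDedekindDomain Polynomial
open scoped Classical

namespace Pool.Agent.X243.CD

open Pool.Agent.TH115.GD Pool.Agent.X243.Gen Pool.Agent.X243.Tate Pool.Agent.X243.Sol
open Pool.Agent.Y160.T3 Pool.Agent.W309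
open Pool.Agent.W309.TD (Sq hp SqStable sqStable_of_odd)

section main

variable {k L K₀ K : Type} [Field k] [Field L] [Field K₀] [Algebra k[X] K₀] [IsFractionRing k[X] K₀]
  [Field K] [Algebra L[X] K] [IsFractionRing L[X] K]

theorem pb_X' (q r : L[X]) : pb q r (X : L[X]) = q := by
  rw [pb_sum, natDegree_X, Finset.sum_range_succ, Finset.sum_range_one]
  simp

theorem rat_pts [Algebra k L] (h2 : (2 : k) ≠ 0) {a b : k[X]} (hB : Base K₀ a b)
    (htwo : TwoOddFactors a b) {q r : L[X]} (hco : IsCoprime q r) (hq : 0 < q.natDegree) {n : ℕ}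
    (hn : Odd n)
    (hirr : ∀ ξ, (a * b * (a - b)).IsRoot ξ → Irreducible (q - C (algebraMap k L ξ) * r) ∧
      (q - C (algebraMap k L ξ) * r).natDegree = n)
    {m : ℕ} (hm : a.natDegree = m + m) (hd1 : b.natDegree = a.natDegree)
    (hd3 : (a - b).natDegree = a.natDegree) :
    FromBase (k := k) K₀ K m q r (pb q r (a.map (algebraMap k L)))
      (pb q r (b.map (algebraMap k L))) := by
  obtain ⟨φ, hφ⟩ : ∃ φ : k →+* L, φ = algebraMap k L := ⟨_, rfl⟩
  rw [← hφ] at hirr ⊢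
  have hd : r = 1 ∨ (b.natDegree = a.natDegree ∧ (a - b).natDegree = a.natDegree ∧
      Even a.natDegree) := Or.inr ⟨hd1, hd3, m, hm⟩
  have h2L : (2 : L) ≠ 0 := by
    rw [← map_ofNat φ 2]
    exact (map_ne_zero_iff _ φ.injective).2 h2
  have hr0 : r ≠ 0 := by
    rintro rfl
    rw [isCoprime_zero_right] at hco
    have := natDegree_eq_zero_of_isUnit hco
    omega
  have hr0' : algebraMap L[X] K r ≠ 0 := by simpa using hr0
  have hc0 : a - b ≠ 0 := sub_ne_zero.2 hB.hab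
  have hne : ∀ g : k[X], g ≠ 0 → pb q r (g.map φ) ≠ 0 := fun g hg =>
    pb_ne hco hq ((Polynomial.map_ne_zero_iff φ.injective).2 hg)
  obtain ⟨ψ, hψ⟩ := exists_psi (K₀ := K₀) (K := K) φ (q := q) (r := r) hr0 hne
  have hsub : pb q r (a.map φ) - pb q r (b.map φ) = pb q r ((a - b).map φ) := by
    rw [Polynomial.map_sub]
    apply pb_sub_eq
    · rw [natDegree_map, natDegree_map, hd1]
    · rw [← Polynomial.map_sub, natDegree_map, natDegree_map, hd3]
  have na := hne a hB.ha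
  have nb := hne b hB.hb
  have nab : pb q r (a.map φ) ≠ pb q r (b.map φ) := by
    intro e
    apply hne _ hc0
    rw [← hsub, e, sub_self]
  have ρa : algebraMap L[X] K (pb q r (a.map φ)) =
      (algebraMap L[X] K r ^ m) ^ 2 * ψ (algebraMap k[X] K₀ a) := by
    rw [hψ, hm, ← pow_mul, mul_two]
  have ρb : algebraMap L[X] K (pb q r (b.map φ)) =
      (algebraMap L[X] K r ^ m) ^ 2 * ψ (algebraMap k[X] K₀ b) := by
    rw [hψ, hd1, hm, ← pow_mul, mul_two]
  have hC := completeR_pull (K₀ := K₀) (K := K) φ h2 hB.ha hB.hb hB.hab hB.sa hB.sb hB.sc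
    hB.complete hco hq hn hirr hd ψ hψ (pow_ne_zero m hr0') ρa ρb
  have hco' := cop_pb φ hco hq hB.ha hB.hb hB.sa hB.sb hB.co
  have ra : ∀ ξ, a.IsRoot ξ → Irreducible (q - C (φ ξ) * r) ∧
      (q - C (φ ξ) * r).natDegree = n := fun ξ h =>
    hirr ξ (by rw [IsRoot.def, eval_mul, eval_mul, IsRoot.def.1 h, zero_mul, zero_mul])
  have rb : ∀ ξ, b.IsRoot ξ → Irreducible (q - C (φ ξ) * r) ∧
      (q - C (φ ξ) * r).natDegree = n := fun ξ h =>
    hirr ξ (by rw [IsRoot.def, eval_mul, eval_mul, IsRoot.def.1 h, mul_zero, zero_mul])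
  have rc : ∀ ξ, (a - b).IsRoot ξ → Irreducible (q - C (φ ξ) * r) ∧
      (q - C (φ ξ) * r).natDegree = n := fun ξ h =>
    hirr ξ (by rw [IsRoot.def, eval_mul, IsRoot.def.1 h, mul_zero])
  have two : (OddPl K (pb q r (a.map φ)) ∧ OddPl K (pb q r (b.map φ))) ∨
      (OddPl K (pb q r (a.map φ)) ∧ OddPl K (pb q r (a.map φ) - pb q r (b.map φ))) ∨
      (OddPl K (pb q r (b.map φ)) ∧ OddPl K (pb q r (a.map φ) - pb q r (b.map φ))) := by
    rw [hsub]
    rcases htwo with ⟨h1, h3⟩ | ⟨h1, h3⟩ | ⟨h1, h3⟩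
    · exact Or.inl ⟨oddPl_of (odd_pb φ hco hn hB.ha hB.sa ra h1),
        oddPl_of (odd_pb φ hco hn hB.hb hB.sb rb h3)⟩
    · exact Or.inr (Or.inl ⟨oddPl_of (odd_pb φ hco hn hB.ha hB.sa ra h1),
        oddPl_of (odd_pb φ hco hn hc0 hB.sc rc h3)⟩)
    · exact Or.inr (Or.inr ⟨oddPl_of (odd_pb φ hco hn hB.hb hB.sb rb h1),
        oddPl_of (odd_pb φ hco hn hc0 hB.sc rc h3)⟩)
  refine ⟨ψ, fun c => ?_, ?_, fun P0 => ?_⟩
  · have h3 := hψ (C c)
    rw [map_C, pb_C, natDegree_C, pow_zero, one_mul] at h3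
    rw [← h3, hφ]
  · have h3 := hψ X
    rw [map_X, pb_X', natDegree_X, pow_one] at h3
    rw [h3, mul_div_cancel_left₀ _ hr0']
  · obtain ⟨Q, P, hP, h⟩ := ptsR h2L na nb nab hco' hC two P0
    exact ⟨Q, P, hP, h⟩

end main

section ext

variable {k K₀ : Type} [Field k] [Field K₀] [Algebra k[X] K₀] [IsFractionRing k[X] K₀]
  {L L' K F : Type} [Field L] [Algebra k L] [Field L']
    [Algebra L L'] [Algebra k L'] [IsScalarTower k L L'] [Field K] [Algebra L[X] K]
    [Field F] [Algebra L'[X] F] [IsFractionRing L'[X] F] [Algebra K F]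

theorem rat_ext (h2 : (2 : k) ≠ 0) {a b : k[X]} (hB : Base K₀ a b) (htwo : TwoOddFactors a b)
    {q r : k[X]} {n : ℕ} (h5 : 5 ≤ n) (hn : Odd n) (hco : IsCoprime q r) (hq : q.natDegree = n)
    (hf : ∀ ξ, (a * b * (a - b)).IsRoot ξ → FF n (q - C ξ * r))
    {m : ℕ} (hm : a.natDegree = m + m) (hd1 : b.natDegree = a.natDegree)
    (hd3 : (a - b).natDegree = a.natDegree) (hT : IsTower L L' K F)
    (M : IntermediateField k L') (hMn : Normal k M)
    (hM : ∀ x : L, IsSeparable k x → algebraMap L L' x ∈ M)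
    (hns : ∀ ξ, (a * b * (a - b)).IsRoot ξ → ¬ ((q - C ξ * r).map (algebraMap k M)).Splits) :
    FromBase (k := k) K₀ K m (q.map (algebraMap k L)) (r.map (algebraMap k L))
      ((pb q r a).map (algebraMap k L)) ((pb q r b).map (algebraMap k L)) := by
  haveI := hT.sep
  haveI := hT.fracK
  rw [pb_map, pb_map]
  have hco1 : IsCoprime (q.map (algebraMap k L)) (r.map (algebraMap k L)) :=
    hco.map (mapRingHom (algebraMap k L))
  refine rat_pts h2 hB htwo hco1 ?_ hn ?_ hm hd1 hd3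
  · rw [natDegree_map, hq]
    omega
  · intro ξ hξ
    obtain ⟨f1, f2, f3⟩ := hf ξ hξ
    obtain ⟨i1, -⟩ := three_gen f2 (by rw [f1.2]; exact h5) f3 h2 L L' M hM (hns ξ hξ)
    have e : (q - C ξ * r).map (algebraMap k L) =
        q.map (algebraMap k L) - C (algebraMap k L ξ) * r.map (algebraMap k L) := by
      rw [Polynomial.map_sub, Polynomial.map_mul, map_C]
    rw [← e]
    refine ⟨i1, ?_⟩
    rw [natDegree_map, f1.2]

theorem rat_solv (h2 : (2 : k) ≠ 0) {a b : k[X]} (hB : Base K₀ a b) (htwo : TwoOddFactors a b)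
    {q r : k[X]} {n : ℕ} (h5 : 5 ≤ n) (hn : Odd n) (hco : IsCoprime q r) (hq : q.natDegree = n)
    (hf : ∀ ξ, (a * b * (a - b)).IsRoot ξ → FF n (q - C ξ * r))
    {m : ℕ} (hm : a.natDegree = m + m) (hd1 : b.natDegree = a.natDegree)
    (hd3 : (a - b).natDegree = a.natDegree) (hT : IsTower L L' K F)
    (hM : ∀ x : L, IsSeparable k x → Group.IsSolvable (minpoly k x).Gal) :
    FromBase (k := k) K₀ K m (q.map (algebraMap k L)) (r.map (algebraMap k L))
      ((pb q r a).map (algebraMap k L)) ((pb q r b).map (algebraMap k L)) := by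
  haveI := hT.sep
  haveI : IsSepClosed L' := IsSepClosure.sep_closed L
  exact rat_ext h2 hB htwo h5 hn hco hq hf hm hd1 hd3 hT (solvM k L') (solvM_normal L')
    (fun x hx => mem_solvM hx (hM x hx))
    (fun ξ hξ => solvM_not_splits L' (hf ξ hξ).2.1 (by rw [(hf ξ hξ).1.2]; exact h5)
      (hf ξ hξ).2.2)

end ext

end Pool.Agent.X243.CD
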