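import Pool.Agent.X243.Gen.Pull3
import Pool.Agent.W309.TD.Stmt

/-!
Pullbacks of curves with all points of order two rational: definitions.
-/

set_option autoImplicit false
set_option linter.all false

open WeierstrassCurve WeierstrassCurve.Affine IsDedekindDomain Polynomial
open scoped Classical

namespace Pool.Agent.X243.CD

open Pool.Agent.TH115.GD Pool.Agent.X243.Gen

/-- The pullback of `y² = x (x - a) (x - b)` by `s = g(t)`, over `K = L(t)`. -/
noncomputable def pullFull {k L : Type} [Field k] [Field L] [Algebra k L] (K : Type) [Field K]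
    [Algebra L[X] K] (a b : k[X]) (g : L[X]) : WeierstrassCurve K :=
  crv (algebraMap L[X] K ((a.map (algebraMap k L)).comp g))
    (algebraMap L[X] K ((b.map (algebraMap k L)).comp g))

/-- The points with coordinates in the image of `ψ`. -/
def PulledF {K₀ K : Type} [Field K₀] [Field K] (ψ : K₀ →+* K) {a b : K} (P : Pt (crv a b) K) :
    Prop :=
  P = 0 ∨ ∃ x y h, P = Point.some (ψ x) (ψ y) h

/-- The Mordell-Weil group of the pullback is generated, modulo 2, by the pullbacks of the points of
the base: with the embedding `ψ : s ↦ g(t)` of `K₀ = k(s)` into `K = L(t)`, every point is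
`2 Q + P₁` with a point `P₁` with coordinates in the image of `ψ`. -/
def PointsFromBaseF {k L : Type} [Field k] [Field L] [Algebra k L] (K₀ K : Type) [Field K₀]
    [Algebra k[X] K₀] [Field K] [Algebra L[X] K] (a b : k[X]) (g : L[X]) : Prop :=
  ∃ ψ : K₀ →+* K, (∀ f : k[X], ψ (algebraMap k[X] K₀ f) =
      algebraMap L[X] K ((f.map (algebraMap k L)).comp g)) ∧
    ∀ P : Pt (pullFull K a b g) K, ∃ Q P1 : Pt (pullFull K a b g) K,
      PulledF ψ P1 ∧ P = Q + Q + P1

/-- The base: `Base`, and the maximum of the degrees is odd, and two of `a`, `b`, `a - b` have a root of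
odd multiplicity. -/
structure BaseOdd {k : Type} [Field k] (K₀ : Type) [Field K₀] [Algebra k[X] K₀] (a b : k[X]) :
    Prop where
  base : Base K₀ a b
  max : Odd (max a.natDegree b.natDegree)
  two : TwoOddFactors a b

/-- All conclusions for the pullback of `y² = x (x - a) (x - b)` by `s = g(t)` over `K = L(t)` (`L'` is a
separable closure of `L`, `F = L'(t)`). -/
def HoldsF {k L : Type} [Field k] [Field L] [Algebra k L] (K₀ L' K F : Type) [Field K₀]
    [Algebra k[X] K₀] [Field L'] [Algebra L L'] [Field K] [Algebra L[X] K]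
    [IsFractionRing L[X] K] [Field F] [Algebra L'[X] F] [IsFractionRing L'[X] F] [Algebra K F]
    (a b : k[X]) (g : L[X]) : Prop :=
  TateAtTwo (F := F) L' (pullFull K a b g) ∧
    Complete K ((a.map (algebraMap k L)).comp g) ((b.map (algebraMap k L)).comp g) ∧
    (TwoOddFactors a b → PointsFromBaseF K₀ K a b g) ∧
    (BaseOdd K₀ a b → Pool.Agent.W309.Sha.ShaTwoTrivial L[X] (pullFull K a b g))

end Pool.Agent.X243.CD
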