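import Pool.Agent.X243.CD.Tower
import Pool.Agent.X243.Gen.Pull6
import Pool.Agent.X243.CD.FullDef

/-!
Kummer pullbacks over finite fields, several primes.
-/

set_option autoImplicit false
set_option linter.all false

open WeierstrassCurve WeierstrassCurve.Affine IsDedekindDomain Polynomial
open scoped Classical

namespace Pool.Agent.X243.CD

open Pool.Agent.TH115.GD Pool.Agent.X243.Gen Pool.Agent.X243.Tate Pool.Agent.X243.Sol
open Pool.Agent.Y160.T3 Pool.Agent.W309
open Pool.Agent.W309.TD (Sq hp SqStable sqStable_of_odd)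

section shift

variable {k : Type} [Field k] [Fintype k]

/-- There are few powers. -/
theorem card_pow_le {ℓ : ℕ} (hℓ : ℓ.Prime) (hd : ℓ ∣ Fintype.card k - 1) :
    (Finset.univ.image fun x : k => x ^ ℓ).card ≤ (Fintype.card k - 1) / ℓ + 1 := by
  obtain ⟨m, hm⟩ := hd
  have hq : 1 < Fintype.card k := Fintype.one_lt_card
  have hm0 : 0 < m := by
    rcases Nat.eq_zero_or_pos m with h | h
    · rw [h, mul_zero] at hm; omega
    · exact h
  rw [hm, Nat.mul_div_cancel_left m hℓ.pos]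
  have hsub : (Finset.univ.image fun x : k => x ^ ℓ) ⊆
      insert 0 ((X ^ m - C 1 : k[X]).roots.toFinset) := by
    intro y hy
    rw [Finset.mem_image] at hy
    obtain ⟨x, -, rfl⟩ := hy
    rw [Finset.mem_insert]
    by_cases hx : x = 0
    · left
      rw [hx, zero_pow hℓ.ne_zero]
    · right
      rw [Multiset.mem_toFinset, mem_roots (X_pow_sub_C_ne_zero hm0 1), IsRoot.def, eval_sub,
        eval_pow, eval_X, eval_C, ← pow_mul, ← hm, FiniteField.pow_card_sub_one_eq_one x hx,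
        sub_self]
  refine (Finset.card_le_card hsub).trans ((Finset.card_insert_le _ _).trans ?_)
  refine Nat.succ_le_succ ((Multiset.toFinset_card_le _).trans ((card_roots' _).trans ?_))
  rw [natDegree_X_pow_sub_C]

theorem exists_shift_all {Λ : Finset ℕ} (hΛ : ∀ ℓ ∈ Λ, ℓ.Prime ∧ ℓ ∣ Fintype.card k - 1)
    (S : Finset k)
    (hS : S.card * ∑ ℓ ∈ Λ, ((Fintype.card k - 1) / ℓ + 1) < Fintype.card k) :
    ∃ c : k, ∀ ξ ∈ S, ∀ ℓ ∈ Λ, ∀ y : k, y ^ ℓ ≠ ξ - c := by
  by_contra hcon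
  push Not at hcon
  have h1 : (Finset.univ : Finset k) ⊆ Λ.biUnion fun ℓ =>
      (S ×ˢ (Finset.univ.image fun x : k => x ^ ℓ)).image fun z => z.1 - z.2 := by
    intro c _
    obtain ⟨ξ, hξ, ℓ, hℓ, y, hy⟩ := hcon c
    rw [Finset.mem_biUnion]
    refine ⟨ℓ, hℓ, ?_⟩
    rw [Finset.mem_image]
    refine ⟨(ξ, y ^ ℓ), ?_, ?_⟩
    · rw [Finset.mem_product]
      exact ⟨hξ, Finset.mem_image_of_mem _ (Finset.mem_univ y)⟩
    · show ξ - y ^ ℓ = c
      rw [hy]; ring
  have h2 := (Finset.card_le_card h1).trans Finset.card_biUnion_le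
  rw [Finset.card_univ] at h2
  have h3 : ∑ ℓ ∈ Λ, ((S ×ˢ (Finset.univ.image fun x : k => x ^ ℓ)).image
      fun z => z.1 - z.2).card ≤ ∑ ℓ ∈ Λ, S.card * ((Fintype.card k - 1) / ℓ + 1) := by
    refine Finset.sum_le_sum fun ℓ hℓ => ?_
    refine Finset.card_image_le.trans ?_
    rw [Finset.card_product]
    exact Nat.mul_le_mul_left _ (card_pow_le (hΛ ℓ hℓ).1 (hΛ ℓ hℓ).2)
  rw [← Finset.mul_sum] at h3
  omega

theorem cast_ne_of_primes {Λ : Finset ℕ} (hΛ : ∀ ℓ ∈ Λ, ℓ.Prime ∧ ℓ ∣ Fintype.card k - 1) {n : ℕ}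
    (hn : ∀ p : ℕ, p.Prime → p ∣ n → p ∈ Λ) : (n : k) ≠ 0 := by
  intro h0
  have hq : 1 < Fintype.card k := Fintype.one_lt_card
  have hco : Nat.Coprime n (Fintype.card k) := by
    refine Nat.coprime_of_dvd fun p hp h1 h3 => ?_
    have h4 := (hΛ p (hn p hp h1)).2
    have h5 : p ∣ Fintype.card k - (Fintype.card k - 1) := Nat.dvd_sub h3 h4
    have h6 : Fintype.card k - (Fintype.card k - 1) = 1 := by omega
    rw [h6] at h5
    exact hp.one_lt.ne' (Nat.dvd_one.1 h5)
  have h7 := Nat.isCoprime_iff_coprime.2 hco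
  obtain ⟨u, v, h8⟩ := h7
  have h9 := congrArg (Int.cast : ℤ → k) h8
  push_cast at h9
  rw [h0, mul_zero, zero_add, FiniteField.cast_card_eq_zero, mul_zero] at h9
  exact zero_ne_one h9

theorem odd_of_primes {Λ : Finset ℕ} (hΛ : ∀ ℓ ∈ Λ, ℓ ≠ 2) {n : ℕ}
    (hn : ∀ p : ℕ, p.Prime → p ∣ n → p ∈ Λ) : Odd n := by
  rw [← Nat.not_even_iff_odd]
  intro he
  exact hΛ 2 (hn 2 Nat.prime_two he.two_dvd) rfl

end shift

section full

variable {k K₀ : Type} [Field k] [Field K₀] [Algebra k[X] K₀] [IsFractionRing k[X] K₀]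

theorem odd_full {L : Type} [Field L] [Algebra k L] {L' K F : Type} [Field L'] [Algebra L L']
    [Field K] [Algebra L[X] K] [Field F] [Algebra L'[X] F] [IsFractionRing L'[X] F] [Algebra K F]
    (hT : IsTower L L' K F) (h2 : (2 : k) ≠ 0) {a b : k[X]}
    (hB : Base K₀ a b) {g : L[X]} (hq : 0 < g.natDegree) {n : ℕ} (hn : Odd n)
    (hirr : ∀ ξ, (a * b * (a - b)).IsRoot ξ → Irreducible (g - C (algebraMap k L ξ)) ∧
      (g - C (algebraMap k L ξ)).natDegree = n ∧ (g - C (algebraMap k L ξ)).Separable) :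
    TateAtTwo (F := F) L' (pullFull K a b g) ∧
      Complete K ((a.map (algebraMap k L)).comp g) ((b.map (algebraMap k L)).comp g) := by
  have key := pull_tate (K₀ := K₀) h2 hB hT (algebraMap k L) (q := g) (r := 1)
    isCoprime_one_right hq hn (fun ξ hξ => by
      rw [mul_one]
      exact hirr ξ hξ) (Or.inl rfl)
  rw [pb_one_comp, pb_one_comp] at key
  exact key

/-- **Kummer pullbacks.** -/
theorem kummer_full {L : Type} [Field L] [Algebra k L] [Algebra.IsAlgebraic k L] {n : ℕ}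
    (hn : Odd n) (hn0 : (n : k) ≠ 0) (hL : ∀ y : L, n.Coprime (minpoly k y).natDegree)
    {L' K F : Type} [Field L'] [Algebra L L']
    [Field K] [Algebra L[X] K] [Field F] [Algebra L'[X] F] [IsFractionRing L'[X] F] [Algebra K F]
    (hT : IsTower L L' K F) (h2 : (2 : k) ≠ 0) {a b : k[X]}
    (hB : Base K₀ a b) {c : k}
    (hc : ∀ ξ, (a * b * (a - b)).IsRoot ξ → NoPower n (ξ - c)) :
    TateAtTwo (F := F) L' (pullFull K a b (X ^ n + C (algebraMap k L c))) ∧
      Complete K ((a.map (algebraMap k L)).comp (X ^ n + C (algebraMap k L c)))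
        ((b.map (algebraMap k L)).comp (X ^ n + C (algebraMap k L c))) := by
  have hpos : 0 < (X ^ n + C (algebraMap k L c)).natDegree := by
    rw [natDegree_X_pow_add_C]
    exact hn.pos
  refine odd_full hT h2 hB hpos hn fun ξ hξ => ?_
  have h1 := noPower_ext (hc ξ hξ) hL
  rw [map_sub] at h1
  obtain ⟨h3, h4, h5⟩ := kummer_irr hn h1
  refine ⟨h3, h4, h5 ?_⟩
  rw [← map_natCast (algebraMap k L) n]
  exact (map_ne_zero_iff _ (algebraMap k L).injective).2 hn0

end full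

end Pool.Agent.X243.CD
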