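import Pool.Agent.TH115.ID.Kum
import Pool.Agent.TH115.GD.Cls
import Pool.Agent.W309.TD.Stmt

/-!
Complete two-descent over a field `K`: from locally trivial cocycles with values in the points of order
two to all classes of 2-power order, and to the points over `K`.
-/

set_option autoImplicit false
set_option linter.all false

open WeierstrassCurve WeierstrassCurve.Affine
open scoped Classical

namespace Pool.Agent.X243.CD

open Pool.Agent.TH115.GD

theorem rs_self {K Ω : Type} [Field K] [Field Ω] [Algebra K Ω] (σ : Ω ≃ₐ[K] Ω) :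
    rs K σ = σ.toAlgHom := AlgHom.ext fun _ => rfl

section gen

variable {K Ω : Type} [Field K] [Field Ω] [Algebra K Ω] [IsGalois K Ω]
  (W : WeierstrassCurve K) {V : Type} (F Ω' : V → Type)
  [∀ v, Field (F v)] [∀ v, Field (Ω' v)] [∀ v, Algebra K (F v)] [∀ v, Algebra (F v) (Ω' v)]
  [∀ v, Algebra K (Ω' v)] [∀ v, IsScalarTower K (F v) (Ω' v)]

variable (Ω) in
/-- Locally trivial cocycles with values in the points of order two come from the points in `S`. -/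
def Desc (S : Set (Pt W K)) : Prop :=
  ∀ f : (Ω ≃ₐ[K] Ω) → Pt W Ω, IsCoc (F := K) W f → (∀ σ, f σ + f σ = 0) →
    (∀ v, LocTriv (F := K) W (F v) (Ω' v) f) →
    ∃ (P : Pt W K) (H : Pt W Ω), P ∈ S ∧ H + H = act W (incl K K Ω) P ∧
      ∀ σ : Ω ≃ₐ[K] Ω, f σ = act W (rs K σ) H - H

variable {W F Ω'}

/-- The coboundary of a point is locally trivial. -/
theorem loc_cob (v : V) [IsSepClosed (Ω' v)] (H : Pt W Ω) :
    LocTriv (F := K) W (F v) (Ω' v) (fun σ : Ω ≃ₐ[K] Ω => act W (rs K σ) H - H) := by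
  obtain ⟨ι⟩ : Nonempty (Ω →ₐ[K] Ω' v) := ⟨IsSepClosed.lift⟩
  refine ⟨ι, act W (ι.restrictScalars K) H, fun τ σ hτ => ?_⟩
  have e : (ι.restrictScalars K).comp (rs K σ) = (rs K τ).comp (ι.restrictScalars K) :=
    AlgHom.ext fun x => (hτ x).symm
  rw [map_sub, act_act, act_act, e]

theorem points [∀ v, IsSepClosed (Ω' v)] (hhalf : ∀ Q : Pt W Ω, ∃ P : Pt W Ω, P + P = Q)
    {S : Set (Pt W K)} (hD : Desc Ω W F Ω' S) (P0 : Pt W K) :
    ∃ Q P : Pt W K, P ∈ S ∧ P0 = Q + Q + P := by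
  obtain ⟨H0, hH0⟩ := hhalf (act W (incl K K Ω) P0)
  have h2 : ∀ σ : Ω ≃ₐ[K] Ω, (act W (rs K σ) H0 - H0) + (act W (rs K σ) H0 - H0) = 0 := by
    intro σ
    rw [sub_add_sub_comm, ← map_add, hH0, rs_act_incl, sub_self]
  obtain ⟨P, H, hP, hH, hf⟩ := hD _ (cob_isCoc W H0) h2 (fun v => loc_cob v H0)
  obtain ⟨Q, hQ⟩ := fixed_point (K := K) (F := K) W (H0 - H) (fun σ => by
    have h3 := hf σ
    rw [map_sub]
    have : act W (rs K σ) H0 = H0 + (act W (rs K σ) H - H) := by rw [← h3]; abel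
    rw [this]
    abel)
  refine ⟨Q, P, hP, act_inj W (incl K K Ω) ?_⟩
  rw [map_add, map_add, hQ, ← hH0, ← hH]
  abel

theorem cocycles_two (hhalf : ∀ Q : Pt W Ω, ∃ P : Pt W Ω, P + P = Q)
    {S : Set (Pt W K)} (hD : Desc Ω W F Ω' S) {f : (Ω ≃ₐ[K] Ω) → Pt W Ω} (hf : IsCoc (F := K) W f)
    (h2 : ∃ Q : Pt W Ω, ∀ σ : Ω ≃ₐ[K] Ω, f σ + f σ = act W (rs K σ) Q - Q)
    (hloc : ∀ v, LocTriv (F := K) W (F v) (Ω' v) f) :
    ∃ Q : Pt W Ω, ∀ σ : Ω ≃ₐ[K] Ω, f σ = act W (rs K σ) Q - Q := by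
  obtain ⟨Q, hQ⟩ := h2
  obtain ⟨R, hR⟩ := hhalf Q
  have hc := hf.sub W (cob_isCoc W R)
  have h3 : ∀ σ : Ω ≃ₐ[K] Ω, (f σ - (act W (rs K σ) R - R)) + (f σ - (act W (rs K σ) R - R)) = 0 := by
    intro σ
    have h4 : (f σ - (act W (rs K σ) R - R)) + (f σ - (act W (rs K σ) R - R)) =
        (f σ + f σ) - (act W (rs K σ) (R + R) - (R + R)) := by
      rw [map_add]
      abel
    rw [h4, hR, hQ, sub_self]
  obtain ⟨P, H, hP, hH, hk⟩ := hD _ hc h3 (fun v => (hloc v).sub W R)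
  refine ⟨H + R, fun σ => ?_⟩
  have h5 := hk σ
  have h6 : f σ = (f σ - (act W (rs K σ) R - R)) + (act W (rs K σ) R - R) :=
    (sub_add_cancel _ _).symm
  rw [h6, h5, map_add]
  abel

theorem nsmul_coc {f : (Ω ≃ₐ[K] Ω) → Pt W Ω} (hf : IsCoc (F := K) W f) (n : ℕ) :
    IsCoc (F := K) W (fun σ => n • f σ) := by
  refine ⟨hf.lc.comp (fun P => n • P), fun σ τ => ?_⟩
  show n • f (σ * τ) = n • f σ + act W (rs K σ) (n • f τ)
  rw [hf.mul, nsmul_add, map_nsmul]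

theorem cocycles (hhalf : ∀ Q : Pt W Ω, ∃ P : Pt W Ω, P + P = Q)
    {S : Set (Pt W K)} (hD : Desc Ω W F Ω' S) {f : (Ω ≃ₐ[K] Ω) → Pt W Ω} (hf : IsCoc (F := K) W f)
    (m : ℕ) (h2 : ∃ Q : Pt W Ω, ∀ σ : Ω ≃ₐ[K] Ω, 2 ^ m • f σ = act W (rs K σ) Q - Q)
    (hloc : ∀ v, LocTriv (F := K) W (F v) (Ω' v) f) :
    ∃ Q : Pt W Ω, ∀ σ : Ω ≃ₐ[K] Ω, f σ = act W (rs K σ) Q - Q := by
  induction m with
  | zero =>
    simpa using h2
  | succ m ih =>
    apply ih
    refine cocycles_two hhalf hD (nsmul_coc hf (2 ^ m)) ?_ ?_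
    · obtain ⟨Q, hQ⟩ := h2
      refine ⟨Q, fun σ => ?_⟩
      rw [← hQ σ, ← two_nsmul, smul_smul, pow_succ']
    · intro v
      obtain ⟨ι, P, hP⟩ := hloc v
      refine ⟨ι, 2 ^ m • P, fun τ σ hc => ?_⟩
      rw [map_nsmul, hP τ σ hc, map_nsmul, nsmul_sub]

end gen

section oneT

variable {K Ω : Type} [Field K] [Field Ω] [Algebra K Ω] [IsGalois K Ω] [IsSepClosed Ω]
  {a b : K} {V : Type} (F Ω' : V → Type)
  [∀ v, Field (F v)] [∀ v, Field (Ω' v)] [∀ v, Algebra K (F v)] [∀ v, Algebra (F v) (Ω' v)]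
  [∀ v, Algebra K (Ω' v)] [∀ v, IsScalarTower K (F v) (Ω' v)] [∀ v, IsGalois (F v) (Ω' v)]
  [∀ v, IsSepClosed (Ω' v)]

/-- The first step of the descent: everywhere locally soluble elements come from the points in `S`. -/
def Glob0 (a b : K) (S : Set (Pt (crvT a b) K)) : Prop :=
  ∀ a0 : K, a0 ≠ 0 → (∀ v, LocT0 (F := K) a b (F v) a0) →
    ∃ (P : Pt (crvT a b) K) (c : K), P ∈ S ∧ c ≠ 0 ∧ a0 = c ^ 2 * dT b P

/-- The second step of the descent. -/
def Glob1 (a b : K) : Prop :=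
  ∀ a1 : K, a1 ≠ 0 → (∀ v, LocT1 (F := K) a b (F v) a1) →
    ∃ c : K, c ≠ 0 ∧ (a1 = c ^ 2 ∨ a1 = c ^ 2 * (a ^ 2 - 4 * b))

theorem ne_of_sq {a0 : K} {t0 : Ω} (n0 : t0 ≠ 0) (e0 : t0 ^ 2 = algebraMap K Ω a0) : a0 ≠ 0 := by
  rintro rfl
  rw [map_zero] at e0
  exact pow_ne_zero 2 n0 e0

theorem descT {α β : Ω} (hR : Roots a b Ω α β) {S : Set (Pt (crvT a b) K)}
    (h0 : Glob0 F a b S) (h1 : Glob1 F a b) : Desc Ω (crvT a b) F Ω' S := by
  intro f hf hf2 hloc
  obtain ⟨t0, a0, n0, e0, k0⟩ := kummer0 hR hf hf2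
  obtain ⟨P, c0, hP, hc0, hPe⟩ := h0 a0 (ne_of_sq n0 e0)
    (fun v => loc0T hR hf2 (hloc v) n0 e0 k0)
  obtain ⟨H, hH⟩ := halve_sep hR.E (act (crvT a b) (incl K K Ω) P)
  have hHr : ∀ σ : Ω ≃ₐ[K] Ω, act (crvT a b) (rs K σ) (H + H) = H + H := fun σ => by
    rw [hH]; exact rs_act_incl _ σ P
  have hdT : dT (algebraMap K Ω b) (act (crvT a b) (incl K K Ω) P) = algebraMap K Ω (dT b P) :=
    dT_act (crvT a b) (incl K K Ω) b P
  have hs0 := step0 hR hf2 n0 k0 hHr (c0 := c0) (by rw [e0, hH, hdT, hPe, map_mul, map_pow])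
  -- the second step
  have hf' := hf.sub (crvT a b) (cob_isCoc (crvT a b) H)
  obtain ⟨t1, a1, n1, e1, k1⟩ := kummer1 hR hf' hs0
  obtain ⟨c1, hc1, h3⟩ := h1 a1 (ne_of_sq n1 e1)
    (fun v => loc1T hR hs0 ((hloc v).sub (crvT a b) H) n1 e1 k1)
  obtain ⟨T, hT2, hT⟩ : ∃ T : Pt (crvT a b) Ω, T + T = 0 ∧ ∀ σ : Ω ≃ₐ[K] Ω,
      f σ - (act (crvT a b) (rs K σ) H - H) = act (crvT a b) (rs K σ) T - T := by
    rcases h3 with h3 | h3
    · refine ⟨0, add_zero 0, fun σ => ?_⟩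
      refine step1 hR hs0 n1 k1 (H := 0) (t := 1) (fun σ => ⟨Or.inl ?_, ?_⟩) (c1 := c1) ?_ σ
      · rw [map_zero, sub_zero]
      · rw [map_zero, sub_zero, map_one, s1_zero, mul_one]
      · rw [e1, h3, map_pow, one_pow, mul_one]
    · have hnα : ((crvT a b).baseChange Ω).toAffine.Nonsingular α 0 :=
        hR.E.nonsingular.2 (by ring)
      have hnβ : ((crvT a b).baseChange Ω).toAffine.Nonsingular β 0 :=
        hR.E.nonsingular.2 (by ring)
      have hTα : Point.some α 0 hnα + Point.some α 0 hnα = 0 := (add_self_eq_zero_iff hR.E hnα).2 rfl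
      have hTβ : Point.some β 0 hnβ + Point.some β 0 hnβ = 0 := (add_self_eq_zero_iff hR.E hnβ).2 rfl
      have hsα0 : s0 (Point.some α 0 hnα) = -1 := by simp [s0, hR.E.nea]
      have hsβ0 : s0 (Point.some β 0 hnβ) = -1 := by simp [s0, hR.E.neb]
      have hsα1 : s1 α (Point.some α 0 hnα) = 1 := by simp [s1]
      have hsβ1 : s1 α (Point.some β 0 hnβ) = -1 := by simp [s1, Ne.symm hR.E.neab]
      have hdiff : Point.some β 0 hnβ - Point.some α 0 hnα = pt0 hR.E := by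
        have e : Point.some β 0 hnβ - Point.some α 0 hnα =
            Point.some β 0 hnβ + Point.some α 0 hnα := by
          rw [sub_eq_add_neg, neg_eq_of_add_eq_zero_left hTα]
        have h4 : (Point.some β 0 hnβ + Point.some α 0 hnα) +
            (Point.some β 0 hnβ + Point.some α 0 hnα) = 0 := by
          rw [add_add_add_comm, hTβ, hTα, add_zero]
        rw [e]
        apply tor_ext hR.E h4 (pt0_two hR.E)
        · rw [(s_addA hR.E hTβ hTα).1, hsα0, hsβ0, s0_pt0]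
          ring
        · rw [(s_addA hR.E hTβ hTα).2, hsα1, hsβ1, s1_pt0]
          ring
      refine ⟨Point.some α 0 hnα, hTα, fun σ => ?_⟩
      refine step1 hR hs0 n1 k1 (H := Point.some α 0 hnα) (t := α - β) (fun σ => ?_) (c1 := c1) ?_ σ
      · obtain ⟨hn, hh⟩ := act_some (crvT a b) (rs K σ) hnα
        rw [hh]
        rcases hR.perm (rs K σ) with ⟨e, e'⟩ | ⟨e, e'⟩
        · have e2 : Point.some ((rs K σ) α) ((rs K σ) 0) hn = Point.some α 0 hnα := by
            simp only [e, map_zero]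
          have h5 : σ (α - β) = α - β := by
            have : (rs K σ) (α - β) = α - β := by rw [map_sub, e, e']
            exact this
          rw [e2, sub_self]
          refine ⟨Or.inl rfl, ?_⟩
          rw [h5, s1_zero, one_mul]
        · have e2 : Point.some ((rs K σ) α) ((rs K σ) 0) hn = Point.some β 0 hnβ := by
            simp only [e, map_zero]
          have h5 : σ (α - β) = β - α := by
            have : (rs K σ) (α - β) = β - α := by rw [map_sub, e, e']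
            exact this
          rw [e2, hdiff]
          refine ⟨Or.inr rfl, ?_⟩
          rw [h5, s1_pt0]
          ring
      · have h6 : (α - β) ^ 2 = algebraMap K Ω (a ^ 2 - 4 * b) := by
          have h7 : (α - β) ^ 2 = (α + β) ^ 2 - 4 * (α * β) := by ring
          rw [h7, hR.sum, hR.prod, map_sub, map_mul, map_pow, map_ofNat]
          ring
        rw [e1, h3, h6, map_mul, map_pow]
  refine ⟨P, H + T, hP, ?_, fun σ => ?_⟩
  · rw [add_add_add_comm, hT2, add_zero, hH]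
  · have h8 := hT σ
    have h9 : f σ = (f σ - (act (crvT a b) (rs K σ) H - H)) + (act (crvT a b) (rs K σ) H - H) :=
      (sub_add_cancel _ _).symm
    rw [h9, h8, map_add]
    abel

end oneT

end Pool.Agent.X243.CD
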