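import Pool.Agent.X243.CD.Base

/-!
Complete two-descent for the curves `y ^ 2 = x (x - a) (x - b)`, and the conclusions in terms of the
definitions of `Pool.Agent.W309.TD.Stmt`.
-/

set_option autoImplicit false
set_option linter.all false

open WeierstrassCurve WeierstrassCurve.Affine IsDedekindDomain
open scoped Classical

namespace Pool.Agent.X243.CD

open Pool.Agent.TH115.GD

/-- Every point over `Ω` is a double. -/
def Half {K : Type} [Field K] (W : WeierstrassCurve K) (Ω : Type) [Field Ω] [Algebra K Ω] : Prop :=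
  ∀ Q : Pt W Ω, ∃ P : Pt W Ω, P + P = Q

section full

variable {K Ω : Type} [Field K] [Field Ω] [Algebra K Ω] [IsGalois K Ω] [IsSepClosed Ω]
  (W : WeierstrassCurve K) {a b : K} {V : Type} (F Ω' : V → Type)
  [∀ v, Field (F v)] [∀ v, Field (Ω' v)] [∀ v, Algebra K (F v)] [∀ v, Algebra (F v) (Ω' v)]
  [∀ v, Algebra K (Ω' v)] [∀ v, IsScalarTower K (F v) (Ω' v)] [∀ v, IsGalois (F v) (Ω' v)]
  [∀ v, IsSepClosed (Ω' v)]

/-- Everywhere locally soluble pairs come from the points in `S`. -/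
def GlobE (W : WeierstrassCurve K) (a b : K) (S : Set (Pt W K)) : Prop :=
  ∀ a0 a1 : K, a0 ≠ 0 → a1 ≠ 0 → (∀ v, LocSol (F := K) W a b (F v) a0 a1) →
    ∃ (P : Pt W K) (c0 c1 : K), P ∈ S ∧ c0 ≠ 0 ∧ c1 ≠ 0 ∧ a0 = c0 ^ 2 * d0 a b P ∧
      a1 = c1 ^ 2 * d1 a b P

variable {W}

theorem descE (hL : IsE (W.baseChange Ω).toAffine (algebraMap K Ω a) (algebraMap K Ω b))
    (hL' : ∀ v, IsE (W.baseChange (Ω' v)).toAffine (algebraMap K (Ω' v) a)
      (algebraMap K (Ω' v) b))
    {S : Set (Pt W K)} (hG : GlobE F W a b S) : Desc Ω W F Ω' S := by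
  intro f hf hf2 hloc
  obtain ⟨t0, t1, a0, a1, n0, n1, e0, e1, k0, k1⟩ := kummer_rep W hL hf hf2
  obtain ⟨P, c0, c1, hP, hc0, hc1, h0, h1⟩ := hG a0 a1 (ne_of_sq n0 e0) (ne_of_sq n1 e1)
    (fun v => loc_rep W (hL' v) hf2 (hloc v) n0 n1 e0 e1 k0 k1)
  obtain ⟨H, hH⟩ := halve_sep hL (act W (incl K K Ω) P)
  have hHr : ∀ σ : Ω ≃ₐ[K] Ω, act W (rs K σ) (H + H) = H + H := fun σ => by
    rw [hH]; exact rs_act_incl _ σ P
  have hd0 : d0 (algebraMap K Ω a) (algebraMap K Ω b) (act W (incl K K Ω) P) =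
      algebraMap K Ω (d0 a b P) := d0_act W (incl K K Ω) a b P
  have hd1 : d1 (algebraMap K Ω a) (algebraMap K Ω b) (act W (incl K K Ω) P) =
      algebraMap K Ω (d1 a b P) := d1_act W (incl K K Ω) a b P
  refine ⟨P, H, hP, hH, fun σ => ?_⟩
  refine cob_of_rep W hL hf2 n0 n1 k0 k1 hHr (c0 := c0) (c1 := c1) ?_ ?_ σ
  · rw [e0, hH, hd0, h0, map_mul, map_pow]
  · rw [e1, hH, hd1, h1, map_mul, map_pow]

end full

section concl

variable {R K : Type} [CommRing R] [IsDedekindDomain R] [Field K] [Algebra R K]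
  [IsFractionRing R K] (W : WeierstrassCurve K)

open Pool.Agent.W309

/-- Locally trivial classes of 2-power order are trivial. -/
theorem sha_of (hhalf : Half W (SeparableClosure K))
    {S : Set (Pt W K)}
    (hD : Desc (SeparableClosure K) W (fun v : HeightOneSpectrum R => v.adicCompletion K)
      (fun v => SeparableClosure (v.adicCompletion K)) S) :
    Sha.ShaTwoTrivial R W := by
  intro f hf hl ht
  obtain ⟨m, Q, hm⟩ := ht
  obtain ⟨Q', hQ'⟩ := cocycles (W := W) (Ω := SeparableClosure K)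
    (F := fun v : HeightOneSpectrum R => v.adicCompletion K)
    (Ω' := fun v => SeparableClosure (v.adicCompletion K)) hhalf hD (f := f)
    ⟨hf.1, fun σ τ => by rw [rs_self]; exact hf.2 σ τ⟩ m
    ⟨Q, fun σ => by rw [rs_self]; exact hm σ⟩
    (fun v => by
      obtain ⟨ι, P, h⟩ := hl v
      exact ⟨ι, P, fun τ σ hτ => h τ σ hτ⟩)
  exact ⟨Q', fun σ => by rw [← rs_self]; exact hQ' σ⟩

theorem tate_of (h : Sha.ShaTwoTrivial R W) : Sha.ShaTateTrivial R W :=
  fun c h1 h2 h3 _ n => h (c n) (h1 n) (h2 n) (h3 n)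

/-- Points modulo 2. -/
theorem pts_of (hhalf : Half W (SeparableClosure K))
    {S : Set (Pt W K)}
    (hD : Desc (SeparableClosure K) W (fun v : HeightOneSpectrum R => v.adicCompletion K)
      (fun v => SeparableClosure (v.adicCompletion K)) S) (P0 : Sha.Points W K) :
    ∃ Q P : Sha.Points W K, P ∈ S ∧ P0 = Q + Q + P :=
  points (W := W) (Ω := SeparableClosure K)
    (F := fun v : HeightOneSpectrum R => v.adicCompletion K)
    (Ω' := fun v => SeparableClosure (v.adicCompletion K)) hhalf hD P0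

end concl

end Pool.Agent.X243.CD
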