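import Pool.Agent.X243.CD.Desc2

/-!
The Mordell-Weil group modulo two and the Tate-Shafarevich group for curves with a rational point of
order two and complete first descent.
-/

set_option autoImplicit false
set_option linter.all false

open WeierstrassCurve WeierstrassCurve.Affine IsDedekindDomain Polynomial
open scoped Classical

namespace Pool.Agent.X243.CD

open Pool.Agent.TH115.GD Pool.Agent.X243.Gen Pool.Agent.X243.Tate
open Pool.Agent.W309.TD (Sq hp SqStable even_rep noTwo_of_pid sq_unit unit_stable sq_transfer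
  sq_of_nonsq exp_neg_one_not_square)

theorem zc_evenI {F : Type} [Field F] {v : Valuation F (WithZero (Multiplicative ℤ))}
    {a b z ρ : F} (hρ : ρ ≠ 0) (ha : v a ≤ v ρ ^ 2) (hb : v b = v ρ ^ 4) (h : Zc a b z) :
    IsSquare (v z) := by
  have hv0 : v ρ ≠ 0 := (Valuation.ne_zero_iff v).2 hρ
  rcases h with h | h | ⟨h, y, hy⟩
  · rw [h, map_one]; exact ⟨1, (mul_one 1).symm⟩
  · rw [h, hb]; exact ⟨v ρ ^ 2, by rw [← pow_add]⟩
  · have h2 : IsSquare (v (z / ρ ^ 2)) := by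
      refine evA (a := a / ρ ^ 2) (b := b / ρ ^ 4) (y := y / ρ ^ 3) v ?_ ?_
        (div_ne_zero h (pow_ne_zero 2 hρ)) ?_
      · rw [map_div₀, map_pow]
        exact div_le_one_of_le₀ ha zero_le
      · rw [map_div₀, map_pow, hb, div_self (pow_ne_zero 4 hv0)]
      · field_simp
        linear_combination hy
    rw [map_div₀, map_pow] at h2
    have h3 : v z = v z / v ρ ^ 2 * (v ρ * v ρ) := by
      rw [← pow_two, div_mul_cancel₀ _ (pow_ne_zero 2 hv0)]
    rw [h3]
    exact h2.mul ⟨_, rfl⟩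

section pulled

variable {K₀ K : Type} [Field K₀] [Field K]

/-- The points with coordinates in the image of `ψ`. -/
def Pulled (ψ : K₀ →+* K) {a b : K} (P : Pt (crvT a b) K) : Prop :=
  P = 0 ∨ ∃ x y h, P = Point.some (ψ x) (ψ y) h

theorem dual_pulled {ψ : K₀ →+* K} {a b : K} {d₀ : K₀} (hd : a ^ 2 - 4 * b = ψ d₀)
    {R : Pt (crvT (-2 * a) (a ^ 2 - 4 * b)) K} {Q : Pt (crvT a b) K} (hR : Pulled ψ R)
    (h : DualPt R Q) : Pulled ψ Q := by
  rcases h with rfl | ⟨z, y, h1, h', hz, rfl, rfl⟩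
  · exact Or.inl rfl
  · rcases hR with hR | ⟨z₀, y₀, h3, hR⟩
    · exact absurd hR (Point.some_ne_zero _)
    · rw [Point.some.injEq] at hR
      obtain ⟨rfl, rfl⟩ := hR
      have ex : (ψ y₀) ^ 2 / (4 * (ψ z₀) ^ 2) = ψ (y₀ ^ 2 / (4 * z₀ ^ 2)) := by
        simp only [map_div₀, map_mul, map_pow, map_ofNat]
      have ey : ψ y₀ * ((ψ z₀) ^ 2 - (a ^ 2 - 4 * b)) / (8 * (ψ z₀) ^ 2) =
          ψ (y₀ * (z₀ ^ 2 - d₀) / (8 * z₀ ^ 2)) := by
        rw [hd]
        simp only [map_div₀, map_mul, map_pow, map_ofNat, map_sub]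
      exact Or.inr ⟨_, _, by rw [← ex, ← ey]; exact h', some_congr ex ey⟩

theorem pulled_cast {ψ : K₀ →+* K} {a b a' b' : K} (ea : a = a') (eb : b = b') {e : K}
    (h : ∃ (P : Pt (crvT a b) K) (c : K), Pulled ψ P ∧ c ≠ 0 ∧ e = c ^ 2 * dT b P) :
    ∃ (P : Pt (crvT a' b') K) (c : K), Pulled ψ P ∧ c ≠ 0 ∧ e = c ^ 2 * dT b' P := by
  subst ea eb
  exact h

end pulled

section glob

variable {k K K₀ : Type} [Field k] [Field K] [Algebra k[X] K] [IsFractionRing k[X] K] [Field K₀]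

/-- The consequences of local solubility. -/
structure LocOK (a b : k[X]) (I : k[X] → Prop) {π : k[X]} (hπ : Irreducible π) (e : K) : Prop where
  even : ∀ v : HeightOneSpectrum k[X], v.valuation K (algebraMap k[X] K b) = 1 →
      IsSquare (v.valuation K e)
  inf : ∀ (A : k[X]) (c : k) (h : K), A.Monic → c ≠ 0 → h ≠ 0 →
      e = algebraMap k[X] K (C c * A) * h ^ 2 → I A
  norm : NormSq (hp π hπ) (algebraMap k[X] K (a ^ 2 - 4 * b)) e

theorem emap' (a b : k[X]) : algebraMap k[X] K (a ^ 2 - 4 * b) =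
    (algebraMap k[X] K a) ^ 2 - 4 * algebraMap k[X] K b := by
  simp only [map_sub, map_mul, map_pow, map_ofNat]

/-- The places at infinity. -/
theorem inf_glob {a b : k[X]} (hb : b ≠ 0) {e : K}
    (h : LocZ (algebraMap k[X] K a) (algebraMap k[X] K b) K e) (A : k[X]) (c : k) (h' : K)
    (mA : A.Monic) (hc : c ≠ 0) (hh : h' ≠ 0) (eA : e = algebraMap k[X] K (C c * A) * h' ^ 2) :
    InfT a b A := by
  intro m hm1 hm2
  have hX0 : algebraMap k[X] K X ≠ 0 := by simp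
  have vX : ∀ m : ℕ, vInf k K ((algebraMap k[X] K X) ^ m) = WithZero.exp (m : ℤ) := by
    intro m
    rw [map_pow, vInf_poly X_ne_zero, natDegree_X, ← WithZero.exp_nsmul]
    simp
  obtain ⟨c', z, hc', ez, hz⟩ := h
  have e1 : e = c' ^ 2 * z := ez
  have hsq : IsSquare (vInf k K e) := by
    rw [e1, map_mul, map_pow, pow_two]
    refine IsSquare.mul ⟨_, rfl⟩ (zc_evenI (ρ := (algebraMap k[X] K X) ^ m)
      (pow_ne_zero m hX0) ?_ ?_ hz)
    · rw [vX, ← WithZero.exp_nsmul]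
      show vInf k K (algebraMap k[X] K a) ≤ _
      by_cases ha0 : a = 0
      · rw [ha0, map_zero, map_zero]
        exact zero_le
      · rw [vInf_poly ha0, WithZero.exp_le_exp]
        simp only [smul_eq_mul, nsmul_eq_mul]
        push_cast
        exact_mod_cast hm1
    · rw [vX, ← WithZero.exp_nsmul]
      show vInf k K (algebraMap k[X] K b) = _
      rw [vInf_poly hb, hm2]
      congr 1
  have hcA : C c * A ≠ 0 := mul_ne_zero (C_ne_zero.2 hc) mA.ne_zero
  rw [eA, mul_comm, map_mul, map_pow, pow_two] at hsq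
  have h3 := Pool.Agent.W309.TD.IsSquare.of_mul_left' ⟨_, rfl⟩
    (mul_ne_zero ((Valuation.ne_zero_iff _).2 hh) ((Valuation.ne_zero_iff _).2 hh)) hsq
  rw [vInf_poly hcA, isSquare_exp, natDegree_C_mul hc] at h3
  exact_mod_cast h3

theorem locOK_glob {a b : k[X]} (h2 : (2 : k) ≠ 0) (hb : b ≠ 0) (hd : a ^ 2 - 4 * b ≠ 0)
    {I : k[X] → Prop} (hI : ∀ A, InfT a b A → I A) {π : k[X]} (hπ : Irreducible π)
    (ho : ¬ IsSquare ((hp π hπ).valuation K (algebraMap k[X] K (a ^ 2 - 4 * b)))) {e : K}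
    (he : e ≠ 0) (h : LocZ (algebraMap k[X] K a) (algebraMap k[X] K b) K e) :
    LocOK a b I hπ e := by
  have inj := IsFractionRing.injective k[X] K
  refine ⟨?_, fun A c h' mA hc hh e1 => hI A (inf_glob hb h A c h' mA hc hh e1), ?_⟩
  · intro v hv
    obtain ⟨c, z, hc, ez, hz⟩ := h
    have e1 : e = c ^ 2 * z := ez
    rw [e1, map_mul, map_pow, pow_two]
    exact IsSquare.mul ⟨_, rfl⟩ (zc_even (v.valuation_le_one a) hv hz)
  · rw [emap'] at ho ⊢
    refine normSq_of_glob he (tt h2) ?_ ho h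
    rw [← emap', Ne, map_eq_zero_iff _ inj]
    exact hd

theorem locOK_loc {a b : k[X]} (h2 : (2 : k) ≠ 0) (hb : b ≠ 0) (hd : a ^ 2 - 4 * b ≠ 0)
    {I : k[X] → Prop} (hI : ∀ A, I A) {π : k[X]} (hπ : Irreducible π)
    (ho : ¬ IsSquare ((hp π hπ).valuation K (algebraMap k[X] K (a ^ 2 - 4 * b)))) {e : K}
    (he : e ≠ 0) (h : ∀ v : HeightOneSpectrum k[X],
      LocZ (algebraMap k[X] K a) (algebraMap k[X] K b) (v.adicCompletion K) e) :
    LocOK a b I hπ e := by
  have inj := IsFractionRing.injective k[X] K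
  refine ⟨fun v hv => fact_even v hv (h v), ?_, ?_⟩
  · intro A c h' _ _ _ _
    exact hI A
  · rw [emap'] at ho ⊢
    refine normSq_of_loc he (tt h2) ?_ ho (h _)
    rw [← emap', Ne, map_eq_zero_iff _ inj]
    exact hd

theorem val16 {b : k[X]} (h2 : (2 : k) ≠ 0) (v : HeightOneSpectrum k[X]) :
    v.valuation K (algebraMap k[X] K (16 * b)) = v.valuation K (algebraMap k[X] K b) := by
  have h16 : (16 : k) ≠ 0 := by
    have : (16 : k) = (2 * 2) * (2 * 2) := by norm_num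
    rw [this]
    exact mul_ne_zero (mul_ne_zero h2 h2) (mul_ne_zero h2 h2)
  have e16 : (16 : k[X]) = C (16 : k) := by rw [map_ofNat]
  rw [e16, map_mul, map_mul]
  have h3 : v.valuation K (algebraMap k[X] K (C (16 : k))) = 1 := by
    refine le_antisymm (v.valuation_le_one _) (not_lt.1 fun h' => ?_)
    have hm := (v.valuation_lt_one_iff_mem (K := K) (C (16 : k))).1 h'
    exact v.isPrime.ne_top (Ideal.eq_top_of_isUnit_mem _ hm
      (isUnit_C.2 (isUnit_iff_ne_zero.2 h16)))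
  rw [h3, one_mul]

/-- The data of a curve with complete first descents and places for the constants. -/
structure DescData (ψ : K₀ →+* K) (a b : k[X]) (I J : k[X] → Prop) : Prop where
  hb : b ≠ 0
  hd : a ^ 2 - 4 * b ≠ 0
  c1 : CompleteIn K a b I {P | Pulled ψ P}
  c2 : CompleteIn K (-2 * a) (a ^ 2 - 4 * b) J {P | Pulled ψ P}
  o1 : ∃ (π : k[X]) (hπ : Irreducible π), SqStable π ∧
    ¬ IsSquare ((hp π hπ).valuation K (algebraMap k[X] K (a ^ 2 - 4 * b)))
  o2 : ∃ (π : k[X]) (hπ : Irreducible π), SqStable π ∧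
    ¬ IsSquare ((hp π hπ).valuation K (algebraMap k[X] K b))
  pd : ∃ d₀ : K₀, algebraMap k[X] K (a ^ 2 - 4 * b) = ψ d₀

theorem conv1 {a b : k[X]} {e : K} {L : Type} [Field L] [Algebra K L]
    (h : LocT1 (F := K) (algebraMap k[X] K a) (algebraMap k[X] K b) L e) :
    LocZ (algebraMap k[X] K (-2 * a)) (algebraMap k[X] K (a ^ 2 - 4 * b)) L e := by
  have h3 := locz1 h
  have e1 : algebraMap k[X] K (-2 * a) = -2 * algebraMap k[X] K a := by
    simp only [map_mul, map_neg, map_ofNat]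
  rw [e1, emap']
  exact h3

/-- **The conclusion of the descent.** -/
theorem desc_data {ψ : K₀ →+* K} {a b : k[X]} {I J : k[X] → Prop} (h2 : (2 : k) ≠ 0)
    (D : DescData ψ a b I J)
    {Ω : Type} [Field Ω] [Algebra K Ω] [IsGalois K Ω] [IsSepClosed Ω]
    {V : Type} (F Ω' : V → Type)
    [∀ v, Field (F v)] [∀ v, Field (Ω' v)] [∀ v, Algebra K (F v)] [∀ v, Algebra (F v) (Ω' v)]
    [∀ v, Algebra K (Ω' v)] [∀ v, IsScalarTower K (F v) (Ω' v)] [∀ v, IsGalois (F v) (Ω' v)]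
    [∀ v, IsSepClosed (Ω' v)]
    (hF1 : ∀ (π : k[X]) (hπ : Irreducible π),
      ¬ IsSquare ((hp π hπ).valuation K (algebraMap k[X] K (a ^ 2 - 4 * b))) → ∀ e : K, e ≠ 0 →
      (∀ v, LocZ (algebraMap k[X] K a) (algebraMap k[X] K b) (F v) e) → LocOK a b I hπ e)
    (hF2 : ∀ (π : k[X]) (hπ : Irreducible π),
      ¬ IsSquare ((hp π hπ).valuation K (algebraMap k[X] K ((-2 * a) ^ 2 -
        4 * (a ^ 2 - 4 * b)))) → ∀ e : K, e ≠ 0 →
      (∀ v, LocZ (algebraMap k[X] K (-2 * a)) (algebraMap k[X] K (a ^ 2 - 4 * b)) (F v) e) →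
      LocOK (-2 * a) (a ^ 2 - 4 * b) J hπ e) :
    Desc Ω (crvT (algebraMap k[X] K a) (algebraMap k[X] K b)) F Ω'
      {P | ∃ P1 P2, Pulled ψ P1 ∧ Pulled ψ P2 ∧ P = P1 + P2} := by
  obtain ⟨hb, hd, c1, c2, ⟨π1, hπ1, s1, o1⟩, ⟨π2, hπ2, s2, o2⟩, ⟨d₀, hd₀⟩⟩ := D
  have inj := IsFractionRing.injective k[X] K
  have h2K : (2 : K) ≠ 0 := tt h2
  have hbK : algebraMap k[X] K b ≠ 0 := by simpa using hb
  have hdK : (algebraMap k[X] K a) ^ 2 - 4 * algebraMap k[X] K b ≠ 0 := by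
    rw [← emap', Ne, map_eq_zero_iff _ inj]
    exact hd
  obtain ⟨α, β, hR⟩ := exists_roots (Ω := Ω) h2K hbK hdK
  have g0 : Glob0 F (algebraMap k[X] K a) (algebraMap k[X] K b) {P | Pulled ψ P} := by
    intro e he hloc
    have hok := hF1 π1 hπ1 o1 e he (fun v => locz0 hbK (hloc v))
    exact coreIn h2 hb hd c1 hπ1 s1 he hok.even hok.inf hok.norm
  have e16 : (-2 * a) ^ 2 - 4 * (a ^ 2 - 4 * b) = 16 * b := by ring
  have hd2 : (-2 * a) ^ 2 - 4 * (a ^ 2 - 4 * b) ≠ 0 := by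
    rw [e16]
    have h16 : (16 : k[X]) ≠ 0 := by
      have h4 : (4 : k) ≠ 0 := by
        have : (4 : k) = 2 * 2 := by norm_num
        rw [this]
        exact mul_ne_zero h2 h2
      have e : (16 : k[X]) = C 4 * C 4 := by
        rw [C_ofNat]; norm_num
      rw [e]
      exact mul_ne_zero (C_ne_zero.2 h4) (C_ne_zero.2 h4)
    exact mul_ne_zero h16 hb
  have g1 : Glob1In F (algebraMap k[X] K a) (algebraMap k[X] K b) {P | Pulled ψ P} := by
    intro e he hloc
    have hok := hF2 π2 hπ2 (by rw [e16, val16 h2]; exact o2) e he (fun v => conv1 (hloc v))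
    have key := coreIn h2 hd hd2 c2 hπ2 s2 he hok.even hok.inf hok.norm
    have e1 : algebraMap k[X] K (-2 * a) = -2 * algebraMap k[X] K a := by
      simp only [map_mul, map_neg, map_ofNat]
    exact pulled_cast e1 (emap' a b) key
  have hD := descT2 (Ω' := Ω') (F := F) hR h2K hbK hdK g0 g1
  intro f hf hf2 hloc
  obtain ⟨P, H, ⟨P1, Q, R, hP1, hR', hdual, hPe⟩, hH, hfH⟩ := hD f hf hf2 hloc
  exact ⟨P, H, ⟨P1, Q, hP1, dual_pulled (by rw [← emap']; exact hd₀) hR' hdual, hPe⟩, hH, hfH⟩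

/-- The Mordell-Weil group modulo 2. -/
theorem pts_data {ψ : K₀ →+* K} {a b : k[X]} {I J : k[X] → Prop} (h2 : (2 : k) ≠ 0)
    (D : DescData ψ a b I J) (hI : ∀ A, InfT a b A → I A)
    (hJ : ∀ A, InfT (-2 * a) (a ^ 2 - 4 * b) A → J A)
    (P0 : Pt (crvT (algebraMap k[X] K a) (algebraMap k[X] K b)) K) :
    ∃ Q P1 P2 : Pt (crvT (algebraMap k[X] K a) (algebraMap k[X] K b)) K,
      Pulled ψ P1 ∧ Pulled ψ P2 ∧ P0 = Q + Q + (P1 + P2) := by
  have inj := IsFractionRing.injective k[X] K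
  have h2K : (2 : K) ≠ 0 := tt h2
  have hbK : algebraMap k[X] K b ≠ 0 := by simpa using D.hb
  have hdK : (algebraMap k[X] K a) ^ 2 - 4 * algebraMap k[X] K b ≠ 0 := by
    rw [← emap', Ne, map_eq_zero_iff _ inj]
    exact D.hd
  obtain ⟨α, β, hR⟩ := exists_roots (Ω := SeparableClosure K) h2K hbK hdK
  have hD := desc_data h2 D (Ω := SeparableClosure K) (V := Unit) (fun _ => K)
    (fun _ => SeparableClosure K)
    (fun π hπ ho e he h => locOK_glob h2 D.hb D.hd hI hπ ho he (h ()))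
    (fun π hπ ho e he h => by
      have e16 : (-2 * a) ^ 2 - 4 * (a ^ 2 - 4 * b) = 16 * b := by ring
      refine locOK_glob h2 D.hd ?_ hJ hπ ho he (h ())
      intro h0
      rw [h0, map_zero, map_zero] at ho
      exact ho ⟨0, (mul_zero 0).symm⟩)
  obtain ⟨Q, P, ⟨P1, P2, h1, h3, rfl⟩, hP⟩ := points (W := crvT (algebraMap k[X] K a)
    (algebraMap k[X] K b)) (Ω := SeparableClosure K) (F := fun _ : Unit => K)
    (Ω' := fun _ : Unit => SeparableClosure K) (halve_sep hR.E) hD P0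
  exact ⟨Q, P1, P2, h1, h3, hP⟩

open Pool.Agent.W309 in
/-- The Tate-Shafarevich group. -/
theorem sha_data {ψ : K₀ →+* K} {a b : k[X]} {I J : k[X] → Prop} (h2 : (2 : k) ≠ 0)
    (D : DescData ψ a b I J) (hI : ∀ A, I A) (hJ : ∀ A, J A) :
    Sha.ShaTwoTrivial k[X] (crvT (algebraMap k[X] K a) (algebraMap k[X] K b)) := by
  have inj := IsFractionRing.injective k[X] K
  have h2K : (2 : K) ≠ 0 := tt h2
  have hbK : algebraMap k[X] K b ≠ 0 := by simpa using D.hb
  have hdK : (algebraMap k[X] K a) ^ 2 - 4 * algebraMap k[X] K b ≠ 0 := by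
    rw [← emap', Ne, map_eq_zero_iff _ inj]
    exact D.hd
  obtain ⟨α, β, hR⟩ := exists_roots (Ω := SeparableClosure K) h2K hbK hdK
  have hD := desc_data h2 D (Ω := SeparableClosure K)
    (fun v : HeightOneSpectrum k[X] => v.adicCompletion K)
    (fun v : HeightOneSpectrum k[X] => SeparableClosure (v.adicCompletion K))
    (fun π hπ ho e he h => locOK_loc h2 D.hb D.hd hI hπ ho he h)
    (fun π hπ ho e he h => by
      refine locOK_loc h2 D.hd ?_ hJ hπ ho he h
      intro h0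
      rw [h0, map_zero, map_zero] at ho
      exact ho ⟨0, (mul_zero 0).symm⟩)
  exact sha_of _ (halve_sep hR.E) hD

end glob

end Pool.Agent.X243.CD
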