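import Pool.Agent.X243.CD.Norm

/-!
The two steps of the descent on a curve with a rational point of order two, with points of the curve and
of the isogenous curve.
-/

set_option autoImplicit false
set_option linter.all false

open WeierstrassCurve WeierstrassCurve.Affine IsDedekindDomain Polynomial
open scoped Classical

namespace Pool.Agent.X243.CD

open Pool.Agent.TH115.GD Pool.Agent.X243.Gen Pool.Agent.X243.Tate

theorem some_congr {F : Type*} [Field F] {W : Affine F} {x y x' y' : F} {h : W.Nonsingular x y}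
    {h' : W.Nonsingular x' y'} (ex : x = x') (ey : y = y') :
    Point.some x y h = Point.some x' y' h' := by
  subst ex ey
  rfl

/-- `Q` is the image of `R` under the dual isogeny `(z, y) ↦ (y² / 4 z², y (z² - d) / 8 z²)`. -/
def DualPt {K : Type} [Field K] {a b : K} (R : Pt (crvT (-2 * a) (a ^ 2 - 4 * b)) K)
    (Q : Pt (crvT a b) K) : Prop :=
  Q = 0 ∨ ∃ z y h h', z ≠ 0 ∧ R = Point.some z y h ∧
    Q = Point.some (y ^ 2 / (4 * z ^ 2)) (y * (z ^ 2 - (a ^ 2 - 4 * b)) / (8 * z ^ 2)) h'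

section half

variable {K Ω : Type} [Field K] [Field Ω] [Algebra K Ω] [IsSepClosed Ω] {a b : K} {α β : Ω}
  (hR : Roots a b Ω α β)

include hR

/-- Halves of points with square abscissa: from a point `(z, y)` of the isogenous curve. -/
theorem half_isog2 (h2K : (2 : K) ≠ 0) (hb : b ≠ 0) (hd : a ^ 2 - 4 * b ≠ 0) {z y : K} (hz : z ≠ 0)
    (hy : y ^ 2 = z * (z ^ 2 - 2 * a * z + (a ^ 2 - 4 * b))) :
    ∃ (H : Pt (crvT a b) Ω) (t : Ω), t ≠ 0 ∧ t ^ 2 = algebraMap K Ω z ∧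
      (∃ hQ : ((crvT a b).baseChange K).toAffine.Nonsingular (y ^ 2 / (4 * z ^ 2))
        (y * (z ^ 2 - (a ^ 2 - 4 * b)) / (8 * z ^ 2)),
        H + H = act (crvT a b) (incl K K Ω) (Point.some _ _ hQ)) ∧
      ∀ φ : Ω →ₐ[K] Ω, (act (crvT a b) φ H - H = 0 ∨ act (crvT a b) φ H - H = pt0 hR.E) ∧
        φ t = s1 α (act (crvT a b) φ H - H) * t := by
  have h2 := hR.E.two
  haveI : NeZero ((2 : ℕ) : Ω) := ⟨by exact_mod_cast h2⟩
  obtain ⟨s, hs⟩ := IsSepClosed.exists_pow_nat_eq (algebraMap K Ω z) 2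
  have hzΩ : algebraMap K Ω z ≠ 0 := (_root_.map_ne_zero _).2 hz
  have hs0 : s ≠ 0 := by
    rintro rfl
    rw [zero_pow two_ne_zero] at hs
    exact hzΩ hs.symm
  have hyΩ : algebraMap K Ω y ^ 2 = algebraMap K Ω z * (algebraMap K Ω z ^ 2 -
      2 * algebraMap K Ω a * algebraMap K Ω z + (algebraMap K Ω a ^ 2 - 4 * algebraMap K Ω b)) := by
    rw [← map_pow, hy]
    simp only [map_mul, map_add, map_sub, map_pow, map_ofNat]
  have hQ : ((crvT a b).baseChange K).toAffine.Nonsingular (y ^ 2 / (4 * z ^ 2))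
      (y * (z ^ 2 - (a ^ 2 - 4 * b)) / (8 * z ^ 2)) := by
    refine nonsT h2K hb hd ?_
    have h4 : (4 : K) ≠ 0 := by
      have : (4 : K) = 2 * 2 := by norm_num
      rw [this]
      exact mul_ne_zero h2K h2K
    have h8 : (8 : K) ≠ 0 := by
      have : (8 : K) = 2 * 4 := by norm_num
      rw [this]
      exact mul_ne_zero h2K h4
    obtain ⟨W, hW⟩ : ∃ W, W = z ^ 2 - 2 * a * z + (a ^ 2 - 4 * b) := ⟨_, rfl⟩
    rw [← hW] at hy
    have e1 : y ^ 2 / (4 * z ^ 2) = W / (4 * z) := by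
      rw [hy]
      field_simp
    have e2 : (y * (z ^ 2 - (a ^ 2 - 4 * b)) / (8 * z ^ 2)) ^ 2 =
        W * (z ^ 2 - (a ^ 2 - 4 * b)) ^ 2 / (64 * z ^ 3) := by
      have h64 : (64 : K) ≠ 0 := by
        have : (64 : K) = 8 * 8 := by norm_num
        rw [this]
        exact mul_ne_zero h8 h8
      rw [div_pow, mul_pow, hy, div_eq_div_iff (pow_ne_zero 2 (mul_ne_zero h8 (pow_ne_zero 2 hz)))
        (mul_ne_zero h64 (pow_ne_zero 3 hz))]
      ring
    have e3 : W ^ 2 + 4 * a * z * W + 16 * b * z ^ 2 = (z ^ 2 - (a ^ 2 - 4 * b)) ^ 2 := by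
      rw [hW]; ring
    rw [e1, e2, ← e3]
    have h64 : (64 : K) = 4 * (4 * 4) := by norm_num
    have h16 : (16 : K) = 4 * 4 := by norm_num
    rw [h64, h16]
    field_simp
  set A := algebraMap K Ω a with hA
  set B := algebraMap K Ω b with hB
  set Z := algebraMap K Ω z with hZ
  set Y := algebraMap K Ω y with hY
  set x := (Z - A + Y / s) / 2 with hx
  set x' := (Z - A - Y / s) / 2 with hx'
  have hsum : x + x' = Z - A := by rw [hx, hx']; field_simp; ring
  have hdif : x - x' = Y / s := by rw [hx, hx']; field_simp; ring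
  have hprod : x * x' = B := by
    rw [hx, hx']
    field_simp
    rw [hs]
    linear_combination -hyΩ + (Z - A) ^ 2 * hs
  have hB0 : B ≠ 0 := by
    rw [hB, ← hR.prod]
    exact mul_ne_zero hR.E.nea hR.E.neb
  have hx0 : x ≠ 0 := by
    intro h
    rw [h, zero_mul] at hprod
    exact hB0 hprod.symm
  have hq : x ^ 2 + A * x + B = Z * x := by linear_combination x * hsum - hprod
  have hn : ((crvT a b).baseChange Ω).toAffine.Nonsingular x (s * x) := by
    rw [hR.E.nonsingular]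
    have e : (x - α) * (x - β) = Z * x := by
      linear_combination hq - x * hR.sum + hR.prod
    rw [mul_assoc, e]
    linear_combination x ^ 2 * hs
  have hy0 : s * x ≠ 0 := mul_ne_zero hs0 hx0
  refine ⟨Point.some x (s * x) hn, s, hs0, hs, ⟨hQ, ?_⟩, fun φ => ?_⟩
  · have hne : Point.some x (s * x) hn + Point.some x (s * x) hn ≠ 0 := fun h =>
      hy0 ((add_self_eq_zero_iff hR.E hn).1 h)
    obtain ⟨X1, Y1, hQ1, f1, f2, f3, f4, f5⟩ := double hR.E hne
    obtain ⟨g1, g2⟩ := act_some (crvT a b) (incl K K Ω) hQ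
    rw [f1, g2]
    have hαβ : α * β = x * x' := by rw [hprod]; exact hR.prod
    have hαβs : α + β = x + x' - Z := by
      linear_combination hR.sum - hsum
    have hYd : s * (x - x') = Y := by
      rw [hdif]
      field_simp
    have r0e : r0 α β (Point.some x (s * x) hn) = Y / (2 * Z) := by
      simp only [r0, rt, sub_zero]
      rw [hαβ]
      rw [div_eq_div_iff (mul_ne_zero h2 hy0) (mul_ne_zero h2 hzΩ)]
      linear_combination (-2 * x * (x - x')) * hs + (2 * s * x) * hYd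
    have r1e : r1 α β (Point.some x (s * x) hn) * rg α β (Point.some x (s * x) hn) =
        (Z ^ 2 - (A ^ 2 - 4 * B)) / (4 * Z) := by
      simp only [r1, rg, rt]
      have e1 : (x - α) ^ 2 - α * (α - β) = x * (Z + β - α) := by
        linear_combination hαβ - x * hαβs
      have e2 : (x - β) ^ 2 - β * (β - α) = x * (Z + α - β) := by
        linear_combination hαβ - x * hαβs
      rw [e1, e2]
      have e3 : Z ^ 2 - (A ^ 2 - 4 * B) = (Z + β - α) * (Z + α - β) := by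
        have h5 : A ^ 2 = (α + β) ^ 2 := by
          rw [hR.sum]; ring
        rw [h5, hB, ← hR.prod]
        ring
      have h4 : (4 : Ω) ≠ 0 := by
        have : (4 : Ω) = 2 * 2 := by norm_num
        rw [this]
        exact mul_ne_zero h2 h2
      rw [e3, div_mul_div_comm, div_eq_div_iff
        (mul_ne_zero (mul_ne_zero h2 hy0) (mul_ne_zero h2 hy0)) (mul_ne_zero h4 hzΩ)]
      linear_combination (-4 * x ^ 2 * ((Z + β - α) * (Z + α - β))) * hs
    have h4Ω : (4 : Ω) = 2 * 2 := by norm_num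
    apply some_congr
    · rw [← f2, r0e]
      show _ = algebraMap K Ω (y ^ 2 / (4 * z ^ 2))
      rw [map_div₀, map_mul, map_pow, map_pow, map_ofNat, h4Ω, ← hZ, ← hY]
      field_simp
    · rw [← f5, mul_assoc, r1e, r0e]
      show _ = algebraMap K Ω (y * (z ^ 2 - (a ^ 2 - 4 * b)) / (8 * z ^ 2))
      have h8Ω : (8 : Ω) = 2 * (2 * 2) := by norm_num
      simp only [map_div₀, map_mul, map_sub, map_pow, map_ofNat]
      rw [← hZ, ← hY, ← hA, ← hB, h8Ω, h4Ω]
      field_simp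
  obtain ⟨h4, h5⟩ := act_some (crvT a b) φ hn
  have hφs : φ s = s ∨ φ s = -s := by
    apply sq_eq_sq_iff_eq_or_eq_neg.1
    rw [← map_pow, hs, φ.commutes]
  have hφx : φ x = (Z - A + Y / φ s) / 2 := by
    rw [hx, map_div₀, map_add, map_sub, map_div₀, map_ofNat, hZ, hA, hY, φ.commutes, φ.commutes,
      φ.commutes]
  rcases hφs with h | h
  · have hxx : φ x = x := by rw [hφx, h]
    have e : act (crvT a b) φ (Point.some x (s * x) hn) = Point.some x (s * x) hn := by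
      rw [h5]
      simp only [map_mul, hxx, h]
    rw [e, sub_self]
    refine ⟨Or.inl rfl, ?_⟩
    rw [h]
    show _ = 1 * _
    rw [one_mul]
  · have hxx : φ x = x' := by rw [hφx, h, hx', div_neg]; ring
    obtain ⟨h6, hQ, hadd⟩ := add_pt0 hR.E hn hy0
    have hx'' : x' = α * β / x := by
      rw [hR.prod, eq_div_iff hx0]
      linear_combination hprod
    have e : act (crvT a b) φ (Point.some x (s * x) hn) = Point.some x (s * x) hn + pt0 hR.E := by
      rw [h5, hadd]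
      have ey : φ (s * x) = -(α * β * (s * x)) / x ^ 2 := by
        rw [map_mul, hxx, h, hx'']
        field_simp
      simp only [hxx, hx'', ey]
    have e' : act (crvT a b) φ (Point.some x (s * x) hn) - Point.some x (s * x) hn = pt0 hR.E := by
      rw [e]; abel
    rw [e']
    refine ⟨Or.inr rfl, ?_⟩
    rw [s1_pt0, h]
    ring

theorem isog_half (h2K : (2 : K) ≠ 0) (hb : b ≠ 0) (hd : a ^ 2 - 4 * b ≠ 0)
    (R : Pt (crvT (-2 * a) (a ^ 2 - 4 * b)) K) :
    ∃ (H : Pt (crvT a b) Ω) (t : Ω) (Q : Pt (crvT a b) K), DualPt R Q ∧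
      H + H = act (crvT a b) (incl K K Ω) Q ∧ t ≠ 0 ∧
      t ^ 2 = algebraMap K Ω (dT (a ^ 2 - 4 * b) R) ∧
      ∀ φ : Ω →ₐ[K] Ω, (act (crvT a b) φ H - H = 0 ∨ act (crvT a b) φ H - H = pt0 hR.E) ∧
        φ t = s1 α (act (crvT a b) φ H - H) * t := by
  rcases R with _ | ⟨z, y, hzy⟩
  · refine ⟨0, 1, 0, Or.inl rfl, ?_, one_ne_zero, ?_, fun φ => ?_⟩
    · rw [map_zero, add_zero]
    · rw [one_pow]; exact (map_one _).symm
    · rw [map_zero, sub_zero]
      refine ⟨Or.inl rfl, ?_⟩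
      rw [map_one]
      show _ = 1 * _
      rw [one_mul]
  · by_cases hz : z = 0
    · obtain ⟨R, hRR, hsq, hne, -, hφ⟩ := sgn_root hR (Or.inl rfl : α = α ∨ α = β)
      refine ⟨R, _, 0, Or.inl rfl, by rw [map_zero]; exact hRR, hne, ?_, hφ⟩
      rw [hsq]
      simp only [dT, hz, if_true]
    · have hE : y ^ 2 = z * (z ^ 2 - 2 * a * z + (a ^ 2 - 4 * b)) := by
        have h3 := crvT_eq hzy
        have e1 : algebraMap K K (-2 * a) = -2 * a := rfl
        have e3 : algebraMap K K (a ^ 2 - 4 * b) = a ^ 2 - 4 * b := rfl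
        rw [e1, e3] at h3
        rw [h3]
        ring
      obtain ⟨H, t, ht0, htsq, ⟨hQ, hHQ⟩, hφ⟩ := half_isog2 hR h2K hb hd hz hE
      refine ⟨H, t, _, Or.inr ⟨z, y, hzy, hQ, hz, rfl, rfl⟩, hHQ, ht0, ?_, hφ⟩
      rw [htsq]
      simp only [dT, hz, if_false]

end half

section oneT

variable {K Ω : Type} [Field K] [Field Ω] [Algebra K Ω] [IsGalois K Ω] [IsSepClosed Ω]
  {a b : K} {V : Type} (F Ω' : V → Type)
  [∀ v, Field (F v)] [∀ v, Field (Ω' v)] [∀ v, Algebra K (F v)] [∀ v, Algebra (F v) (Ω' v)]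
  [∀ v, Algebra K (Ω' v)] [∀ v, IsScalarTower K (F v) (Ω' v)] [∀ v, IsGalois (F v) (Ω' v)]
  [∀ v, IsSepClosed (Ω' v)]

/-- The second step of the descent, with points of the isogenous curve in `S'`. -/
def Glob1In (a b : K) (S' : Set (Pt (crvT (-2 * a) (a ^ 2 - 4 * b)) K)) : Prop :=
  ∀ a1 : K, a1 ≠ 0 → (∀ v, LocT1 (F := K) a b (F v) a1) →
    ∃ (R : Pt (crvT (-2 * a) (a ^ 2 - 4 * b)) K) (c : K), R ∈ S' ∧ c ≠ 0 ∧
      a1 = c ^ 2 * dT (a ^ 2 - 4 * b) R

/-- The sums of points of `S` and of images of points of `S'`. -/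
def SumSet (S : Set (Pt (crvT a b) K)) (S' : Set (Pt (crvT (-2 * a) (a ^ 2 - 4 * b)) K)) :
    Set (Pt (crvT a b) K) :=
  {P | ∃ P1 Q R, P1 ∈ S ∧ R ∈ S' ∧ DualPt R Q ∧ P = P1 + Q}

theorem descT2 {α β : Ω} (hR : Roots a b Ω α β) (h2K : (2 : K) ≠ 0) (hb : b ≠ 0)
    (hd : a ^ 2 - 4 * b ≠ 0) {S : Set (Pt (crvT a b) K)}
    {S' : Set (Pt (crvT (-2 * a) (a ^ 2 - 4 * b)) K)}
    (h0 : Glob0 F a b S) (h1 : Glob1In F a b S') : Desc Ω (crvT a b) F Ω' (SumSet S S') := by
  intro f hf hf2 hloc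
  obtain ⟨t0, a0, n0, e0, k0⟩ := kummer0 hR hf hf2
  obtain ⟨P, c0, hP, hc0, hPe⟩ := h0 a0 (ne_of_sq n0 e0)
    (fun v => loc0T hR hf2 (hloc v) n0 e0 k0)
  obtain ⟨H, hH⟩ := halve_sep hR.E (act (crvT a b) (incl K K Ω) P)
  have hHr : ∀ σ : Ω ≃ₐ[K] Ω, act (crvT a b) (rs K σ) (H + H) = H + H := fun σ => by
    rw [hH]; exact rs_act_incl _ σ P
  have hdT : dT (algebraMap K Ω b) (act (crvT a b) (incl K K Ω) P) = algebraMap K Ω (dT b P) :=
    dT_act (crvT a b) (incl K K Ω) b P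
  have hs0 := step0 hR hf2 n0 k0 hHr (c0 := c0) (by rw [e0, hH, hdT, hPe, map_mul, map_pow])
  -- the second step
  have hf' := hf.sub (crvT a b) (cob_isCoc (crvT a b) H)
  obtain ⟨t1, a1, n1, e1, k1⟩ := kummer1 hR hf' hs0
  obtain ⟨R, c1, hRS, hc1, h3⟩ := h1 a1 (ne_of_sq n1 e1)
    (fun v => loc1T hR hs0 ((hloc v).sub (crvT a b) H) n1 e1 k1)
  obtain ⟨H', t, Q, hdual, hHQ, ht0, htsq, hφ⟩ := isog_half hR h2K hb hd R
  have hT : ∀ σ : Ω ≃ₐ[K] Ω,
      f σ - (act (crvT a b) (rs K σ) H - H) = act (crvT a b) (rs K σ) H' - H' := fun σ =>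
    step1 hR hs0 n1 k1 (H := H') (t := t) (fun σ => hφ (rs K σ)) (c1 := c1)
      (by rw [htsq, e1, h3, map_mul, map_pow]) σ
  refine ⟨P + Q, H + H', ⟨P, Q, R, hP, hRS, hdual, rfl⟩, ?_, fun σ => ?_⟩
  · rw [add_add_add_comm, hHQ, hH, map_add]
  · have h8 := hT σ
    have h9 : f σ = (f σ - (act (crvT a b) (rs K σ) H - H)) + (act (crvT a b) (rs K σ) H - H) :=
      (sub_add_cancel _ _).symm
    rw [h9, h8, map_add]
    abel

end oneT

end Pool.Agent.X243.CD
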