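import Pool.Agent.X243.CD.Three
import Pool.Agent.TH115.GD.Bnd

/-!
The global step over `k[X]` for the curves `y ^ 2 = x (x - a) (x - b)`.
-/

set_option autoImplicit false
set_option linter.all false

open WeierstrassCurve WeierstrassCurve.Affine IsDedekindDomain Polynomial
open scoped Classical

namespace Pool.Agent.X243.CD

open Pool.Agent.TH115.GD
open Pool.Agent.W309.TD (Sq hp SqStable even_rep noTwo_of_pid sq_unit unit_stable sq_transfer
  sq_of_nonsq exp_neg_one_not_square)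

section swap

variable {F : Type*} [Field F] {W : Affine F} {a b : F}

theorem isE_swap (h : IsE W a b) : IsE W b a where
  a1 := h.a1
  a2 := by rw [h.a2]; ring
  a3 := h.a3
  a4 := by rw [h.a4, mul_comm]
  a6 := h.a6
  two := h.two
  nea := h.neb
  neb := h.nea
  neab := h.neab.symm

theorem d0_swap (Q : W.Point) : d0 b a Q = d0 a b Q := by
  rcases Q with _ | ⟨x, y, hxy⟩
  · rfl
  · simp only [d0, mul_comm b a]

theorem prod_sq (h : IsE W a b) (Q : W.Point) : ∃ r : F, r ≠ 0 ∧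
    d0 a b Q * d1 a b Q * d1 b a Q = r ^ 2 := by
  have ha0 := h.nea
  have hb0 := h.neb
  have hab := sub_ne_zero.2 h.neab
  have hba := sub_ne_zero.2 h.neab.symm
  rcases Q with _ | ⟨x, y, hxy⟩
  · exact ⟨1, one_ne_zero, by simp [d0, d1]⟩
  have heq := h.nonsingular.1 hxy
  simp only [d0, d1]
  by_cases x0 : x = 0
  · rw [if_pos x0, if_neg (by rw [x0]; exact ha0.symm), if_neg (by rw [x0]; exact hb0.symm), x0]
    exact ⟨a * b, mul_ne_zero ha0 hb0, by ring⟩
  rw [if_neg x0]
  by_cases xa : x = a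
  · rw [if_pos xa, if_neg (by rw [xa]; exact h.neab), xa]
    exact ⟨a * (a - b), mul_ne_zero ha0 hab, by ring⟩
  rw [if_neg xa]
  by_cases xb : x = b
  · rw [if_pos xb, xb]
    exact ⟨b * (b - a), mul_ne_zero hb0 hba, by ring⟩
  rw [if_neg xb]
  refine ⟨y, ?_, heq.symm⟩
  rintro rfl
  rw [zero_pow two_ne_zero] at heq
  exact mul_ne_zero (mul_ne_zero x0 (sub_ne_zero.2 xa)) (sub_ne_zero.2 xb) heq.symm

variable {Γ : Type*} [LinearOrderedCommGroupWithZero Γ] {v : Valuation F Γ}

/-- The places which divide `a`. -/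
theorem sqA (h : IsE W a b) (hb : v b = 1) (ha : v a < 1) (hn : ¬ IsSquare (v a)) (Q : W.Point)
    (he : IsSquare (v (d0 a b Q))) : Sq v (d0 a b Q * d1 a b Q) := by
  have h1 := sqB (isE_swap h) hb ha hn Q (by rw [d0_swap]; exact he)
  obtain ⟨r, hr, e⟩ := prod_sq h Q
  have h2 := (Sq.sq (v := v) (div_ne_zero hr h1.ne)).mul h1
  have e2 : (r / d1 b a Q) ^ 2 * d1 b a Q = d0 a b Q * d1 a b Q := by
    have := h1.ne
    rw [div_pow, ← e]
    field_simp
  rwa [e2] at h2

end swap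

section gen

variable {K L : Type} [Field K] [Field L] [Algebra K L] {a b : K} (h2 : (2 : K) ≠ 0)
  (ha : a ≠ 0) (hb : b ≠ 0) (hab : a ≠ b)
  (w : Valuation L (WithZero (Multiplicative ℤ))) (v : Valuation K (WithZero (Multiplicative ℤ)))
  (hwv : ∀ x : K, w (algebraMap K L x) = v x) {a0 a1 : K}
  (hs : LocSol (F := K) (crv a b) a b L a0 a1)

include h2 ha hb hab hwv hs

theorem evE0 (va : v a = 1) (vb : v b = 1) : IsSquare (v a0) := by
  obtain ⟨Q, c0, c1, n0, n1, e0, e1⟩ := hs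
  have hL := isE a b L h2 ha hb hab
  have k0 := loc0 (v := w) hL (M := 1) ⟨1, (mul_one 1).symm⟩ one_ne_zero
    (by rw [hwv]; exact va) (by rw [hwv]; exact vb) Q
  rw [← hwv, e0, map_mul, map_pow, pow_two]
  exact IsSquare.mul ⟨_, rfl⟩ k0

theorem evE1 (va : v a = 1) (vb : v b ≤ 1) (vab : v (a - b) = 1) : IsSquare (v a1) := by
  obtain ⟨Q, c0, c1, n0, n1, e0, e1⟩ := hs
  have hL := isE a b L h2 ha hb hab
  have k0 := loc1 (v := w) hL (M := 1) ⟨1, (mul_one 1).symm⟩ one_ne_zero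
    (by rw [hwv]; exact va) (by rw [hwv]; exact vb) (by rw [← map_sub, hwv]; exact vab) Q
  rw [← hwv, e1, map_mul, map_pow, pow_two]
  exact IsSquare.mul ⟨_, rfl⟩ k0

theorem evEA (va : v a ≤ 1) (vb : v b = 1) (vab : v (a - b) = 1) : IsSquare (v (a0 * a1)) := by
  obtain ⟨Q, c0, c1, n0, n1, e0, e1⟩ := hs
  have hL := isE a b L h2 ha hb hab
  have k0 := locA (v := w) hL (M := 1) ⟨1, (mul_one 1).symm⟩ one_ne_zero
    (by rw [hwv]; exact va) (by rw [hwv]; exact vb) (by rw [← map_sub, hwv]; exact vab) Q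
  rw [← hwv, map_mul, e0, e1]
  have e : c0 ^ 2 * d0 (algebraMap K L a) (algebraMap K L b) Q *
      (c1 ^ 2 * d1 (algebraMap K L a) (algebraMap K L b) Q) =
      (c0 * c1) ^ 2 * (d0 (algebraMap K L a) (algebraMap K L b) Q *
        d1 (algebraMap K L a) (algebraMap K L b) Q) := by ring
  rw [e, map_mul, map_pow, pow_two]
  exact IsSquare.mul ⟨_, rfl⟩ k0

omit h2 ha hb hab hs in
theorem sq_back {x : K} {c d : L} (hc : c ≠ 0) (e : algebraMap K L x = c ^ 2 * d)
    (h : IsSquare (v x)) : IsSquare (w d) := by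
  rw [← hwv, e, map_mul, map_pow, pow_two] at h
  refine Pool.Agent.W309.TD.IsSquare.of_mul_left' ⟨_, rfl⟩ ?_ h
  exact mul_ne_zero ((Valuation.ne_zero_iff _).2 hc) ((Valuation.ne_zero_iff _).2 hc)

theorem sB (va : v a = 1) (vb : v b < 1) (hn : ¬ IsSquare (v b)) (he : IsSquare (v a0)) :
    Sq w (algebraMap K L a1) := by
  obtain ⟨Q, c0, c1, n0, n1, e0, e1⟩ := hs
  have hL := isE a b L h2 ha hb hab
  rw [e1]
  exact (Sq.sq n1).mul (sqB hL (by rw [hwv]; exact va) (by rw [hwv]; exact vb)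
    (by rw [hwv]; exact hn) Q (sq_back w v hwv n0 e0 he))

theorem sC (va : v a = 1) (vc : v (a - b) < 1) (hn : ¬ IsSquare (v (a - b)))
    (he : IsSquare (v a1)) : Sq w (algebraMap K L a0) := by
  obtain ⟨Q, c0, c1, n0, n1, e0, e1⟩ := hs
  have hL := isE a b L h2 ha hb hab
  rw [e0]
  exact (Sq.sq n0).mul (sqC hL (by rw [hwv]; exact va) (by rw [← map_sub, hwv]; exact vc)
    (by rw [← map_sub, hwv]; exact hn) Q (sq_back w v hwv n1 e1 he))

theorem sA (vb : v b = 1) (va : v a < 1) (hn : ¬ IsSquare (v a)) (he : IsSquare (v a0)) :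
    Sq w (algebraMap K L (a0 * a1)) := by
  obtain ⟨Q, c0, c1, n0, n1, e0, e1⟩ := hs
  have hL := isE a b L h2 ha hb hab
  have e : c0 ^ 2 * d0 (algebraMap K L a) (algebraMap K L b) Q *
      (c1 ^ 2 * d1 (algebraMap K L a) (algebraMap K L b) Q) =
      (c0 * c1) ^ 2 * (d0 (algebraMap K L a) (algebraMap K L b) Q *
        d1 (algebraMap K L a) (algebraMap K L b) Q) := by ring
  rw [map_mul, e0, e1, e]
  exact (Sq.sq (mul_ne_zero n0 n1)).mul (sqA hL (by rw [hwv]; exact vb) (by rw [hwv]; exact va)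
    (by rw [hwv]; exact hn) Q (sq_back w v hwv n0 e0 he))

end gen

section parity

variable {K : Type} [Field K] {v : Valuation K (WithZero (Multiplicative ℤ))}

theorem pv_mul {e f : K} (he : e ≠ 0) (hf : f ≠ 0) :
    IsSquare (v (e * f)) ↔ (IsSquare (v e) ↔ IsSquare (v f)) := by
  have he' := (Valuation.ne_zero_iff v).2 he
  have hf' := (Valuation.ne_zero_iff v).2 hf
  rw [map_mul]
  by_cases h1 : IsSquare (v e)
  · constructor
    · intro h
      exact ⟨fun _ => Pool.Agent.W309.TD.IsSquare.of_mul_left' h1 he' h, fun _ => h1⟩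
    · intro h
      exact h1.mul (h.1 h1)
  · constructor
    · intro h
      refine ⟨fun h' => absurd h' h1, fun h' => ?_⟩
      rw [mul_comm] at h
      exact absurd (Pool.Agent.W309.TD.IsSquare.of_mul_left' h' hf' h) h1
    · intro h
      exact sq_of_nonsq h1 (fun h' => h1 (h.2 h'))

end parity

section full

variable {k K : Type} [Field k] [Field K] [Algebra k[X] K] [IsFractionRing k[X] K]

/-- Everywhere locally soluble pairs. -/
def LS (a b : k[X]) (a0 a1 : K) : Prop :=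
  ∀ v : HeightOneSpectrum k[X], LocSol (F := K) (crv (algebraMap k[X] K a) (algebraMap k[X] K b))
    (algebraMap k[X] K a) (algebraMap k[X] K b) (v.adicCompletion K) a0 a1

variable {a b : k[X]} (h2 : (2 : k) ≠ 0) (ha : Irreducible a) (hb : Irreducible b)
  (hc : Irreducible (a - b)) (hco : IsCoprime a b)

include h2 ha hb hc hco

omit h2 ha hb in
theorem cdv : ¬ (a - b) ∣ a ∧ ¬ (a - b) ∣ b := by
  constructor
  · intro h
    have h3 : (a - b) ∣ b := by
      have h4 := dvd_sub h (dvd_refl (a - b))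
      rwa [sub_sub_cancel] at h4
    exact hc.not_isUnit (hco.isUnit_of_dvd' h h3)
  · intro h
    have h3 : (a - b) ∣ a := by
      have h4 := dvd_add h (dvd_refl (a - b))
      rwa [add_sub_cancel] at h4
    exact hc.not_isUnit (hco.isUnit_of_dvd' h3 h)

theorem full_core (hsb : SqStable b) (hsc : SqStable (a - b)) {a0 a1 : K} (n0 : a0 ≠ 0)
    (n1 : a1 ≠ 0) (hloc : LS a b a0 a1)
    (pA : IsSquare ((hp a ha).valuation K a0)) (pB : IsSquare ((hp b hb).valuation K a0))
    (pC : IsSquare ((hp (a - b) hc).valuation K a1)) :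
    ∃ s0 s1 : K, s0 ≠ 0 ∧ s1 ≠ 0 ∧ a0 = s0 ^ 2 ∧ a1 = s1 ^ 2 := by
  have h2K : (2 : K) ≠ 0 := tt h2
  have haK : algebraMap k[X] K a ≠ 0 := by simpa using ha.ne_zero
  have hbK : algebraMap k[X] K b ≠ 0 := by simpa using hb.ne_zero
  have habK : algebraMap k[X] K a ≠ algebraMap k[X] K b := fun h =>
    hc.ne_zero (sub_eq_zero.2 (IsFractionRing.injective k[X] K h))
  obtain ⟨nca, ncb⟩ := cdv hc hco
  have nab : ¬ a ∣ b := fun h => ha.not_isUnit (hco.isUnit_of_dvd' (dvd_refl a) h)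
  have nba : ¬ b ∣ a := fun h => hb.not_isUnit (hco.isUnit_of_dvd' h (dvd_refl b))
  have nac : ¬ a ∣ a - b := fun h => nab (by
    have : b = a - (a - b) := by ring
    rw [this]
    exact dvd_sub (dvd_refl _) h)
  have nbc : ¬ b ∣ a - b := fun h => nba (by
    have : a = b + (a - b) := by ring
    rw [this]
    exact dvd_add (dvd_refl _) h)
  have ev0 : ∀ v : HeightOneSpectrum k[X], IsSquare (v.valuation K a0) := by
    intro v
    by_cases hA : v = hp a ha
    · rw [hA]; exact pA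
    by_cases hB : v = hp b hb
    · rw [hB]; exact pB
    exact evE0 h2K haK hbK habK _ _ (w_eq v) (hloc v) (hp_ne ha hA) (hp_ne hb hB)
  have ev1 : ∀ v : HeightOneSpectrum k[X], IsSquare (v.valuation K a1) := by
    intro v
    by_cases hC : v = hp (a - b) hc
    · rw [hC]; exact pC
    have vc : v.valuation K (algebraMap k[X] K a - algebraMap k[X] K b) = 1 := by
      rw [← map_sub]
      exact hp_ne hc hC
    by_cases hA : v = hp a ha
    · have h3 := evEA h2K haK hbK habK _ _ (w_eq v) (hloc v) (v.valuation_le_one a)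
        (by rw [hA]; exact hp_one ha nab) vc
      rw [map_mul] at h3
      exact Pool.Agent.W309.TD.IsSquare.of_mul_left' (ev0 v) ((Valuation.ne_zero_iff _).2 n0) h3
    exact evE1 h2K haK hbK habK _ _ (w_eq v) (hloc v) (hp_ne ha hA) (v.valuation_le_one b) vc
  obtain ⟨s0, hs0, e0⟩ := glob_sq n0 ev0 hc hsc (sq_transfer _
    (sC h2K haK hbK habK _ _ (w_eq (hp (a - b) hc)) (hloc _) (hp_one hc nca)
      (by rw [← map_sub]; exact hp_lt hc (dvd_refl _)) (by rw [← map_sub]; exact hp_ns hc) (ev1 _)))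
  obtain ⟨s1, hs1, e1⟩ := glob_sq n1 ev1 hb hsb (sq_transfer _
    (sB h2K haK hbK habK _ _ (w_eq (hp b hb)) (hloc _) (hp_one hb nba)
      (hp_lt hb (dvd_refl _)) (hp_ns hb) (ev0 _)))
  exact ⟨s0, s1, hs0, hs1, e0, e1⟩

theorem full_nogo (key : ∀ δ : k, δ ≠ 0 → ∀ z : k[X], ¬ a ∣ z ^ 2 - C δ * b) {a0 a1 : K}
    (n0 : a0 ≠ 0) (n1 : a1 ≠ 0) (hloc : LS a b a0 a1)
    (pA : IsSquare ((hp a ha).valuation K a0)) (pB : ¬ IsSquare ((hp b hb).valuation K a0))
    (pC : IsSquare ((hp (a - b) hc).valuation K a1)) : False := by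
  have h2K : (2 : K) ≠ 0 := tt h2
  have haK : algebraMap k[X] K a ≠ 0 := by simpa using ha.ne_zero
  have hbK : algebraMap k[X] K b ≠ 0 := by simpa using hb.ne_zero
  have habK : algebraMap k[X] K a ≠ algebraMap k[X] K b := fun h =>
    hc.ne_zero (sub_eq_zero.2 (IsFractionRing.injective k[X] K h))
  have nab : ¬ a ∣ b := fun h => ha.not_isUnit (hco.isUnit_of_dvd' (dvd_refl a) h)
  have vAb := hp_one (K := K) ha nab
  have ev0 : ∀ v : HeightOneSpectrum k[X],
      IsSquare (v.valuation K (a0 * algebraMap k[X] K b)) := by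
    intro v
    by_cases hB : v = hp b hb
    · rw [map_mul, hB]
      exact sq_of_nonsq pB (hp_ns hb)
    rw [map_mul, hp_ne hb hB, mul_one]
    by_cases hA : v = hp a ha
    · rw [hA]; exact pA
    exact evE0 h2K haK hbK habK _ _ (w_eq v) (hloc v) (hp_ne ha hA) (hp_ne hb hB)
  have ev1 : ∀ v : HeightOneSpectrum k[X], IsSquare (v.valuation K a1) := by
    intro v
    by_cases hC : v = hp (a - b) hc
    · rw [hC]; exact pC
    have vc : v.valuation K (algebraMap k[X] K a - algebraMap k[X] K b) = 1 := by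
      rw [← map_sub]
      exact hp_ne hc hC
    by_cases hA : v = hp a ha
    · have h3 := evEA h2K haK hbK habK _ _ (w_eq v) (hloc v) (v.valuation_le_one a)
        (by rw [hA]; exact hp_one ha nab) vc
      rw [map_mul] at h3
      refine Pool.Agent.W309.TD.IsSquare.of_mul_left' ?_ ((Valuation.ne_zero_iff _).2 n0) h3
      rw [hA]; exact pA
    exact evE1 h2K haK hbK habK _ _ (w_eq v) (hloc v) (hp_ne ha hA) (v.valuation_le_one b) vc
  obtain ⟨u0, s0, hs0, e0⟩ := even_rep (R := k[X]) noTwo_of_pid (mul_ne_zero n0 hbK) ev0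
  obtain ⟨u1, s1, hs1, e1⟩ := even_rep (R := k[X]) noTwo_of_pid n1 ev1
  have hS := sq_transfer _ (sA h2K haK hbK habK _ _ (w_eq (hp a ha)) (hloc _) vAb
    (hp_lt ha (dvd_refl _)) (hp_ns ha) pA)
  have e3 : a0 * a1 = (s0 * s1 / algebraMap k[X] K b) ^ 2 *
      algebraMap k[X] K ((u0 : k[X]) * (u1 : k[X]) * b) := by
    have h3 : a0 = algebraMap k[X] K (u0 : k[X]) * s0 ^ 2 / algebraMap k[X] K b := by
      rw [← e0]
      field_simp
    rw [h3, e1, map_mul, map_mul]
    field_simp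
  rw [e3] at hS
  have hS2 := Sq.cancel (div_ne_zero (mul_ne_zero hs0 hs1) hbK) hS
  obtain ⟨c0, hc0, hc0u⟩ := Polynomial.isUnit_iff.1 u0.isUnit
  obtain ⟨c1, hc1, hc1u⟩ := Polynomial.isUnit_iff.1 u1.isUnit
  obtain ⟨z, hz⟩ := sq_unit _ hS2 (fun hm => by
    have h4 : a ∣ (u0 : k[X]) * (u1 : k[X]) * b := Ideal.mem_span_singleton.1 hm
    exact nab ((IsUnit.dvd_mul_left (u0.isUnit.mul u1.isUnit)).1 h4))
  have h4 : a ∣ (u0 : k[X]) * (u1 : k[X]) * b - z ^ 2 := Ideal.mem_span_singleton.1 hz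
  refine key (c0 * c1) (mul_ne_zero hc0.ne_zero hc1.ne_zero) z ?_
  have e5 : z ^ 2 - C (c0 * c1) * b = -((u0 : k[X]) * (u1 : k[X]) * b - z ^ 2) := by
    rw [C_mul, hc0u, hc1u]
    ring
  rw [e5]
  exact h4.neg_right

theorem globFull (hsb : SqStable b) (hsc : SqStable (a - b))
    (key : ∀ δ : k, δ ≠ 0 → ∀ z : k[X], ¬ a ∣ z ^ 2 - C δ * b) :
    GlobE (fun v : HeightOneSpectrum k[X] => v.adicCompletion K)
      (crv (algebraMap k[X] K a) (algebraMap k[X] K b)) (algebraMap k[X] K a)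
      (algebraMap k[X] K b) (TwoTor (crv (algebraMap k[X] K a) (algebraMap k[X] K b))) := by
  intro a0 a1 n0 n1 hloc
  have h2K : (2 : K) ≠ 0 := tt h2
  have haK : algebraMap k[X] K a ≠ 0 := by simpa using ha.ne_zero
  have hbK : algebraMap k[X] K b ≠ 0 := by simpa using hb.ne_zero
  have habK : algebraMap k[X] K a ≠ algebraMap k[X] K b := fun h =>
    hc.ne_zero (sub_eq_zero.2 (IsFractionRing.injective k[X] K h))
  have hcK : algebraMap k[X] K a - algebraMap k[X] K b ≠ 0 := sub_ne_zero.2 habK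
  have hcK' : algebraMap k[X] K b - algebraMap k[X] K a ≠ 0 := sub_ne_zero.2 habK.symm
  obtain ⟨nca, ncb⟩ := cdv hc hco
  have nab : ¬ a ∣ b := fun h => ha.not_isUnit (hco.isUnit_of_dvd' (dvd_refl a) h)
  have vAb := hp_one (K := K) ha nab
  have vCa := hp_one (K := K) hc nca
  have oA := hp_ns (K := K) ha
  have oC := hp_ns (K := K) hc
  rw [map_sub] at oC
  have sq1 : ∀ {m : WithZero (Multiplicative ℤ)}, m = 1 → IsSquare m := fun h => by
    rw [h]; exact ⟨1, (mul_one 1).symm⟩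
  obtain ⟨A, hA⟩ : ∃ A, A = algebraMap k[X] K a := ⟨_, rfl⟩
  obtain ⟨B, hB⟩ : ∃ B, B = algebraMap k[X] K b := ⟨_, rfl⟩
  have hL := isE (algebraMap k[X] K a) (algebraMap k[X] K b) K h2K haK hbK habK
  have fin : ∀ (T : Pt (crv (algebraMap k[X] K a) (algebraMap k[X] K b)) K) (δ0 δ1 : K),
      T + T = 0 → δ0 ≠ 0 → δ1 ≠ 0 →
      d0 (algebraMap k[X] K a) (algebraMap k[X] K b) T = δ0 →
      d1 (algebraMap k[X] K a) (algebraMap k[X] K b) T = δ1 →
      IsSquare ((hp a ha).valuation K (a0 * δ0)) →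
      IsSquare ((hp (a - b) hc).valuation K (a1 * δ1)) →
      ∃ (P : Pt (crv (algebraMap k[X] K a) (algebraMap k[X] K b)) K) (c0 c1 : K),
        P ∈ TwoTor (crv (algebraMap k[X] K a) (algebraMap k[X] K b)) ∧ c0 ≠ 0 ∧ c1 ≠ 0 ∧
        a0 = c0 ^ 2 * d0 (algebraMap k[X] K a) (algebraMap k[X] K b) P ∧
        a1 = c1 ^ 2 * d1 (algebraMap k[X] K a) (algebraMap k[X] K b) P := by
    intro T δ0 δ1 hT m0 m1 hd0 hd1 pA pC
    have hloc' : LS a b (a0 * δ0) (a1 * δ1) := by
      intro v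
      have h3 := locSol_pt (F := K) (L := v.adicCompletion K) h2K haK hbK habK T
      rw [hd0, hd1] at h3
      exact LocSol.mul h2K haK hbK habK (hloc v) h3
    by_cases pB : IsSquare ((hp b hb).valuation K (a0 * δ0))
    · obtain ⟨s0, s1, hs0, hs1, e0, e1⟩ := full_core h2 ha hb hc hco hsb hsc
        (mul_ne_zero n0 m0) (mul_ne_zero n1 m1) hloc' pA pB pC
      refine ⟨T, s0 / δ0, s1 / δ1, hT, div_ne_zero hs0 m0, div_ne_zero hs1 m1, ?_, ?_⟩
      · rw [hd0, div_pow, ← e0]
        field_simp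
      · rw [hd1, div_pow, ← e1]
        field_simp
    · exact absurd (full_nogo h2 ha hb hc hco key (mul_ne_zero n0 m0) (mul_ne_zero n1 m1)
        hloc' pA pB pC) id
  have hn0 : ((crv (algebraMap k[X] K a) (algebraMap k[X] K b)).baseChange K).toAffine.Nonsingular
      0 0 := hL.nonsingular.2 (by ring)
  have hna : ((crv (algebraMap k[X] K a) (algebraMap k[X] K b)).baseChange K).toAffine.Nonsingular
      (algebraMap k[X] K a) 0 := hL.nonsingular.2 (by
        show (0 : K) ^ 2 = algebraMap k[X] K a * (algebraMap k[X] K a - algebraMap k[X] K a) *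
          (algebraMap k[X] K a - algebraMap k[X] K b)
        ring)
  have hnb : ((crv (algebraMap k[X] K a) (algebraMap k[X] K b)).baseChange K).toAffine.Nonsingular
      (algebraMap k[X] K b) 0 := hL.nonsingular.2 (by
        show (0 : K) ^ 2 = algebraMap k[X] K b * (algebraMap k[X] K b - algebraMap k[X] K a) *
          (algebraMap k[X] K b - algebraMap k[X] K b)
        ring)
  by_cases pA : IsSquare ((hp a ha).valuation K a0)
  · by_cases pC : IsSquare ((hp (a - b) hc).valuation K a1)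
    · exact fin 0 1 1 (add_zero 0) one_ne_zero one_ne_zero rfl rfl (by rw [mul_one]; exact pA)
        (by rw [mul_one]; exact pC)
    · -- `(b, 0)`
      refine fin (Point.some (algebraMap k[X] K b) 0 hnb) (algebraMap k[X] K b)
        (algebraMap k[X] K b - algebraMap k[X] K a) ((add_self_eq_zero_iff hL hnb).2 rfl) hbK hcK'
        (by simp only [d0]; rw [if_neg hbK]) (by simp only [d1]; rw [if_neg habK.symm]) ?_ ?_
      · rw [pv_mul n0 hbK]
        exact ⟨fun _ => sq1 vAb, fun _ => pA⟩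
      · rw [pv_mul n1 hcK', Valuation.map_sub_swap]
        exact ⟨fun h => absurd h pC, fun h => absurd h oC⟩
  · by_cases pC : IsSquare ((hp (a - b) hc).valuation K a1)
    · -- `(0, 0)`
      refine fin (Point.some 0 0 hn0) (algebraMap k[X] K a * algebraMap k[X] K b)
        (-algebraMap k[X] K a) ((add_self_eq_zero_iff hL hn0).2 rfl) (mul_ne_zero haK hbK)
        (neg_ne_zero.2 haK) (by simp only [d0]; rw [if_pos trivial])
        (by simp only [d1]; rw [if_neg haK.symm, zero_sub]) ?_ ?_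
      · rw [pv_mul n0 (mul_ne_zero haK hbK), pv_mul haK hbK]
        constructor
        · intro h; exact absurd h pA
        · intro h; exact absurd (h.2 (sq1 vAb)) oA
      · rw [pv_mul n1 (neg_ne_zero.2 haK), Valuation.map_neg]
        exact ⟨fun _ => sq1 vCa, fun _ => pC⟩
    · -- `(a, 0)`
      refine fin (Point.some (algebraMap k[X] K a) 0 hna) (algebraMap k[X] K a)
        (algebraMap k[X] K a * (algebraMap k[X] K a - algebraMap k[X] K b))
        ((add_self_eq_zero_iff hL hna).2 rfl) haK (mul_ne_zero haK hcK)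
        (by simp only [d0]; rw [if_neg haK]) (by simp only [d1]; rw [if_pos trivial]) ?_ ?_
      · rw [pv_mul n0 haK]
        exact ⟨fun h => absurd h pA, fun h => absurd h oA⟩
      · rw [pv_mul n1 (mul_ne_zero haK hcK), pv_mul haK hcK]
        constructor
        · intro h; exact absurd h pC
        · intro h; exact absurd (h.1 (sq1 vCa)) oC

end full

end Pool.Agent.X243.CD
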