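import Pool.Agent.X243.CD.Concl
import Pool.Agent.X243.Gen.PullT2

/-!
Mordell-Weil groups of pullbacks of elliptic curves with complete first descent.
-/

set_option autoImplicit false
set_option linter.all false

open WeierstrassCurve WeierstrassCurve.Affine IsDedekindDomain Polynomial
open scoped Classical

namespace Pool.Agent.X243.CD

open Pool.Agent.TH115.GD Pool.Agent.X243.Gen Pool.Agent.X243.Tate Pool.Agent.X243.Sol
open Pool.Agent.Y160.T3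
open Pool.Agent.W309.TD (Sq hp SqStable sqStable_of_odd)

section point

variable {K₀ K : Type} [Field K₀] [Field K]

theorem pt_pulled (ψ : K₀ →+* K) {a₀ b₀ : K₀} {a b : K} (ha : a = ψ a₀)
    (hb : b = ψ b₀) (h2 : (2 : K₀) ≠ 0) (hb₀ : b₀ ≠ 0) (hd₀ : a₀ ^ 2 - 4 * b₀ ≠ 0)
    (P : Pt (crvT a₀ b₀) K₀) :
    ∃ Q : Pt (crvT a b) K, Pulled ψ Q ∧ ψ (dT b₀ P) = dT b Q := by
  have hinj := ψ.injective
  have h2' : (2 : K) ≠ 0 := by
    rw [← map_ofNat ψ 2]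
    exact (map_ne_zero_iff _ hinj).2 h2
  have hb' : b ≠ 0 := by rw [hb]; exact (map_ne_zero_iff _ hinj).2 hb₀
  have hd' : a ^ 2 - 4 * b ≠ 0 := by
    have e : a ^ 2 - 4 * b = ψ (a₀ ^ 2 - 4 * b₀) := by
      rw [ha, hb, map_sub, map_mul, map_pow, map_ofNat]
    rw [e]
    exact (map_ne_zero_iff _ hinj).2 hd₀
  cases P with
  | zero =>
    refine ⟨0, Or.inl rfl, ?_⟩
    show ψ 1 = 1
    rw [map_one]
  | some x y hn =>
    have hy : y ^ 2 = x * (x ^ 2 + a₀ * x + b₀) := crvT_eq hn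
    have hQ : ((crvT a b).baseChange K).toAffine.Nonsingular (ψ x) (ψ y) := by
      refine nonsT h2' hb' hd' ?_
      have h3 := congrArg ψ hy
      rw [map_pow, map_mul, map_add, map_add, map_pow, map_mul] at h3
      rw [ha, hb]
      exact h3
    refine ⟨Point.some _ _ hQ, Or.inr ⟨x, y, hQ, rfl⟩, ?_⟩
    by_cases hx : x = 0
    · show ψ (if x = 0 then b₀ else x) = (if ψ x = 0 then b else ψ x)
      rw [if_pos hx, if_pos (by rw [hx, map_zero]), hb]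
    · show ψ (if x = 0 then b₀ else x) = (if ψ x = 0 then b else ψ x)
      rw [if_neg hx, if_neg ((map_ne_zero_iff _ hinj).2 hx)]

end point

section main

variable {k L K₀ K : Type} [Field k] [Field L] [Field K₀] [Algebra k[X] K₀] [IsFractionRing k[X] K₀]
  [Field K] [Algebra L[X] K] [IsFractionRing L[X] K]

theorem complete_pulled (φ : k →+* L) (h2 : (2 : k) ≠ 0) {a b : k[X]} (hb : b ≠ 0)
    (hd0 : a ^ 2 - 4 * b ≠ 0) (hsb : b.Splits) (hC : CompleteT K₀ a b) {q : L[X]}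
    {n : ℕ} (hqn : q.natDegree ≤ n)
    (hirr : ∀ ξ, b.IsRoot ξ → Irreducible (q - C (φ ξ) * 1) ∧ (q - C (φ ξ) * 1).natDegree = n)
    {Z : Prop} (hZ : Z → ∀ m, a.natDegree ≤ 2 * m → b.natDegree ≠ 4 * m) (hpar : Odd n ∨ Z)
    (ψ : K₀ →+* K) (hψ : ∀ g : k[X], algebraMap L[X] K (pb q 1 (g.map φ)) =
      ψ (algebraMap k[X] K₀ g)) :
    CompleteIn K (pb q 1 (a.map φ)) (pb q 1 (b.map φ))
      (fun A => Z ∨ InfT (pb q 1 (a.map φ)) (pb q 1 (b.map φ)) A) {P | Pulled ψ P} := by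
  have Db := natDegree_pb φ hb hsb hirr
  have inj₀ := IsFractionRing.injective k[X] K₀
  have h2₀ : (2 : K₀) ≠ 0 := by
    have h3 : algebraMap k[X] K₀ (C 2) ≠ 0 := by simpa using h2
    rwa [C_ofNat, map_ofNat] at h3
  intro A mA sA dA hinf
  obtain ⟨cA, hcA, A₀, mA₀, sA₀, dA₀, eA⟩ := dvd_pb' φ hb hsb (fun ξ h => (hirr ξ h).1) sA dA
  have nA : A.natDegree = n * A₀.natDegree := by
    rw [eA, natDegree_C_mul hcA]
    exact natDegree_pb φ mA₀.ne_zero (hsb.of_dvd hb dA₀) fun ξ h => hirr ξ (h.dvd dA₀)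
  have hinf₀ : InfT a b A₀ := by
    intro m hm1 hm2
    rcases hinf with hv | hinf
    · exact absurd hm2 (hZ hv m hm1)
    rcases hpar with hn | hv
    · have h1 := hinf (n * m) ((natDegree_pb_le hqn (by rw [natDegree_one]; exact Nat.zero_le n) _).trans (by
        rw [natDegree_map]
        calc n * a.natDegree ≤ n * (2 * m) := Nat.mul_le_mul_left _ hm1
          _ = 2 * (n * m) := by ring)) (by rw [Db, hm2]; ring)
      rw [nA] at h1
      rcases Nat.even_mul.1 h1 with h5 | h5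
      · exact absurd h5 (Nat.not_even_iff_odd.2 hn)
      · exact h5
    · exact absurd hm2 (hZ hv m hm1)
  obtain ⟨P, c1, h1, hc1, hh1, e1⟩ := hC A₀ mA₀ sA₀ dA₀ hinf₀
  have hdK : (algebraMap k[X] K₀ a) ^ 2 - 4 * algebraMap k[X] K₀ b ≠ 0 := by
    have e : (algebraMap k[X] K₀ a) ^ 2 - 4 * algebraMap k[X] K₀ b =
        algebraMap k[X] K₀ (a ^ 2 - 4 * b) := by
      rw [map_sub, map_mul, map_pow, map_ofNat]
    rw [e, Ne, map_eq_zero_iff _ inj₀]
    exact hd0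
  obtain ⟨Q, hQ, eu⟩ := pt_pulled ψ (hψ a) (hψ b) h2₀ (by simpa using hb) hdK P
  have hψC : ∀ c : k, ψ (algebraMap k[X] K₀ (C c)) = algebraMap L[X] K (C (φ c)) := by
    intro c
    have := hψ (C c)
    rw [map_C, pb_C] at this
    exact this.symm
  refine ⟨Q, hQ, φ c1 * cA⁻¹, ψ h1, mul_ne_zero ((map_ne_zero_iff _ φ.injective).2 hc1)
    (inv_ne_zero hcA), (map_ne_zero_iff _ ψ.injective).2 hh1, ?_⟩
  have k1 : C (φ c1 * cA⁻¹) * A = C (φ c1) * pb q 1 (A₀.map φ) := by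
    rw [eA]
    have k3 : C cA⁻¹ * C cA = (1 : L[X]) := by
      rw [← C_mul, inv_mul_cancel₀ hcA, C_1]
    rw [C_mul]
    linear_combination C (φ c1) * pb q 1 (A₀.map φ) * k3
  rw [k1, map_mul, hψ, ← hψC]
  have k4 := congrArg ψ e1
  rw [map_mul (algebraMap k[X] K₀) (C c1) A₀, map_mul ψ (algebraMap k[X] K₀ (C c1)),
    map_mul ψ (h1 ^ 2), map_pow, eu] at k4
  exact k4

/-- A place of odd valuation. -/
theorem odd_place {π g : L[X]} (hπ : Irreducible π) (hg : ¬ π ∣ g) (j : ℕ) :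
    ¬ IsSquare ((hp π hπ).valuation K (algebraMap L[X] K (π ^ (2 * j + 1) * g))) := by
  intro h
  have hπK : algebraMap L[X] K π ≠ 0 := by simpa using hπ.ne_zero
  rw [map_mul, map_mul, hp_one hπ hg, mul_one, pow_succ, map_mul, map_mul, map_pow, map_pow,
    pow_mul, sq, ← sq] at h
  have h3 : IsSquare (((hp π hπ).valuation K (algebraMap L[X] K π)) ^ (2 * j)) :=
    ⟨((hp π hπ).valuation K (algebraMap L[X] K π)) ^ j, by rw [← pow_add]; congr 1; ring⟩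
  rw [← pow_mul] at h
  have h4 := Pool.Agent.W309.TD.IsSquare.of_mul_left' h3
    (pow_ne_zero _ ((Valuation.ne_zero_iff _).2 hπK)) h
  exact hp_ns hπ h4

theorem odd_pb_place (φ : k →+* L) {q : L[X]} (hq : 0 < q.natDegree) {g : k[X]} (hg : g ≠ 0)
    (hs : g.Splits) (hirr : ∀ ξ, g.IsRoot ξ → Irreducible (q - C (φ ξ) * 1) ∧
      SqStable (q - C (φ ξ) * 1)) {ξ : k} (hξ : Odd (g.rootMultiplicity ξ)) :
    ∃ (π : L[X]) (hπ : Irreducible π), SqStable π ∧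
      ¬ IsSquare ((hp π hπ).valuation K (algebraMap L[X] K (pb q 1 (g.map φ)))) := by
  obtain ⟨g', hg', hnd⟩ := exists_eq_pow_rootMultiplicity_mul_and_not_dvd g hg ξ
  have hroot : g.IsRoot ξ := (rootMultiplicity_pos hg).1 hξ.pos
  have hg'0 : g' ≠ 0 := by
    rintro rfl
    rw [mul_zero] at hg'
    exact hg hg'
  obtain ⟨i1, i2⟩ := hirr ξ hroot
  obtain ⟨j, hj⟩ := hξ
  have e : pb q 1 (g.map φ) = (q - C (φ ξ) * 1) ^ (2 * j + 1) * pb q 1 (g'.map φ) := by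
    conv_lhs => rw [hg']
    rw [Polynomial.map_mul, Polynomial.map_pow, Polynomial.map_sub, map_X, map_C, pb_mul,
      pb_pow, pb_lin, hj]
  refine ⟨q - C (φ ξ) * 1, i1, i2, ?_⟩
  rw [e]
  refine odd_place i1 ?_ j
  intro h4
  obtain ⟨ξ', hξ', h5⟩ := root_of_prime φ hg'0 (hs.of_dvd hg ⟨_, by rw [mul_comm]; exact hg'⟩)
    i1.prime h4
  have hne : ξ ≠ ξ' := by
    rintro rfl
    exact hnd (dvd_iff_isRoot.2 hξ')
  exact i1.not_isUnit (form_cop φ isCoprime_one_right hne dvd_rfl h5)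

/-- **The descent data of a pullback.** -/
theorem data_pull (φ : k →+* L) (h2 : (2 : k) ≠ 0) {a b : k[X]} (hB : BaseT K₀ a b) {q : L[X]}
    (hq : 0 < q.natDegree) {n : ℕ} (hqn : q.natDegree ≤ n)
    (hirr : ∀ ξ, (b * (a ^ 2 - 4 * b)).IsRoot ξ → Irreducible (q - C (φ ξ)) ∧
      (q - C (φ ξ)).natDegree = n ∧ SqStable (q - C (φ ξ)))
    (hpar : Odd n ∨ NoInf a b) :
    ∃ ψ : K₀ →+* K, (∀ f : k[X], ψ (algebraMap k[X] K₀ f) =
      algebraMap L[X] K ((f.map φ).comp q)) ∧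
      DescData ψ ((a.map φ).comp q) ((b.map φ).comp q)
        (fun A => NoInf a b ∨ InfT ((a.map φ).comp q) ((b.map φ).comp q) A)
        (fun A => NoInf a b ∨ InfT (-2 * (a.map φ).comp q) ((a.map φ).comp q ^ 2 -
          4 * (b.map φ).comp q) A) := by
  obtain ⟨hb, hd0, sb, sd, ⟨ξb, ob⟩, ⟨ξd, od⟩, c1, c2⟩ := hB
  have h4 : (4 : k) ≠ 0 := by
    have : (4 : k) = 2 * 2 := by norm_num
    rw [this]
    exact mul_ne_zero h2 h2
  have e1 : ∀ ξ : k, q - C (φ ξ) * 1 = q - C (φ ξ) := fun ξ => by rw [mul_one]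
  have hne : ∀ g : k[X], g ≠ 0 → pb q 1 (g.map φ) ≠ 0 := fun g hg =>
    pb_ne isCoprime_one_right hq ((Polynomial.map_ne_zero_iff φ.injective).2 hg)
  obtain ⟨ψ, hψ⟩ := exists_psi (K₀ := K₀) (K := K) φ (q := q) (r := 1) one_ne_zero hne
  have hψ' : ∀ g : k[X], algebraMap L[X] K (pb q 1 (g.map φ)) = ψ (algebraMap k[X] K₀ g) := by
    intro g
    rw [hψ, map_one, one_pow, one_mul]
  have rb : ∀ ξ, b.IsRoot ξ → Irreducible (q - C (φ ξ) * 1) ∧
      (q - C (φ ξ) * 1).natDegree = n ∧ SqStable (q - C (φ ξ) * 1) := by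
    intro ξ h
    rw [e1]
    exact hirr ξ (by rw [IsRoot.def, eval_mul, IsRoot.def.1 h, zero_mul])
  have rd : ∀ ξ, (a ^ 2 - 4 * b).IsRoot ξ → Irreducible (q - C (φ ξ) * 1) ∧
      (q - C (φ ξ) * 1).natDegree = n ∧ SqStable (q - C (φ ξ) * 1) := by
    intro ξ h
    rw [e1]
    exact hirr ξ (by rw [IsRoot.def, eval_mul, IsRoot.def.1 h, mul_zero])
  have hsub : pb q 1 (a.map φ) ^ 2 - 4 * pb q 1 (b.map φ) = pb q 1 ((a ^ 2 - 4 * b).map φ) := by
    simp only [pb_one_comp]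
    simp
  have h2a : (-2 * pb q 1 (a.map φ) : L[X]) = pb q 1 ((-2 * a).map φ) := by
    simp only [pb_one_comp]
    simp
  have na2 : (-2 * a : k[X]).natDegree = a.natDegree := by
    have h3 : (-2 * a : k[X]) = C (-2) * a := by rw [C_neg, C_ofNat]
    rw [h3, natDegree_C_mul (neg_ne_zero.2 h2)]
  have hd1 : (-2 * a) ^ 2 - 4 * (a ^ 2 - 4 * b) ≠ 0 := by
    have e : (-2 * a) ^ 2 - 4 * (a ^ 2 - 4 * b) = C 4 * (C 4 * b) := by
      rw [C_ofNat]; ring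
    rw [e]
    exact mul_ne_zero (C_ne_zero.2 h4) (mul_ne_zero (C_ne_zero.2 h4) hb)
  have key1 := complete_pulled (K₀ := K₀) (K := K) φ h2 hb hd0 sb c1 hqn
    (fun ξ h => ⟨(rb ξ h).1, (rb ξ h).2.1⟩) (Z := NoInf a b) (fun h m hm => (h m hm).1) hpar ψ hψ'
  have key2 := complete_pulled (K₀ := K₀) (K := K) φ h2 hd0 hd1 sd c2 hqn
    (fun ξ h => ⟨(rd ξ h).1, (rd ξ h).2.1⟩) (Z := NoInf a b)
    (fun h m hm => (h m (by rwa [na2] at hm)).2) hpar ψ hψ'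
  rw [← hsub, ← h2a] at key2
  refine ⟨ψ, fun f => by rw [← pb_one_comp, hψ'], ?_⟩
  rw [← pb_one_comp, ← pb_one_comp]
  refine ⟨hne b hb, ?_, key1, key2, ?_, ?_, ⟨_, by rw [hsub]; exact hψ' _⟩⟩
  · rw [hsub]; exact hne _ hd0
  · rw [hsub]
    exact odd_pb_place φ hq hd0 sd (fun ξ h => ⟨(rd ξ h).1, (rd ξ h).2.2⟩) od
  · exact odd_pb_place φ hq hb sb (fun ξ h => ⟨(rb ξ h).1, (rb ξ h).2.2⟩) ob

end main

end Pool.Agent.X243.CD
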