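import Pool.Agent.X243.CD.Full
import Pool.Agent.X243.CD.Pull

/-!
The Mordell-Weil group modulo two and the Tate-Shafarevich group for curves with all points of order two
rational and complete first descent.
-/

set_option autoImplicit false
set_option linter.all false

open WeierstrassCurve WeierstrassCurve.Affine IsDedekindDomain Polynomial
open scoped Classical

namespace Pool.Agent.X243.CD

open Pool.Agent.TH115.GD Pool.Agent.X243.Gen Pool.Agent.X243.Tate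
open Pool.Agent.W309.TD (Sq hp SqStable even_rep noTwo_of_pid sq_unit unit_stable sq_transfer
  sq_of_nonsq exp_neg_one_not_square sqStable_of_odd)

section split

variable {k : Type} [Field k]

/-- Squarefree polynomials with prime divisors among those of two polynomials. -/
theorem sqf_split {M x y : k[X]} (mM : M.Monic) (sM : Squarefree M)
    (h : ∀ π : k[X], Irreducible π → π ∣ M → π ∣ x ∨ π ∣ y) :
    ∃ A B : k[X], A.Monic ∧ B.Monic ∧ Squarefree A ∧ Squarefree B ∧ A ∣ x ∧ B ∣ y ∧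
      M = A * B := by
  have hg0 : EuclideanDomain.gcd M x ≠ 0 := by
    intro h0
    exact mM.ne_zero (EuclideanDomain.gcd_eq_zero_iff.1 h0).1
  obtain ⟨A, hA⟩ : ∃ A, A = normalize (EuclideanDomain.gcd M x) := ⟨_, rfl⟩
  have mA : A.Monic := by rw [hA]; exact monic_normalize hg0
  have dAM : A ∣ M := by rw [hA]; exact normalize_dvd_iff.2 (EuclideanDomain.gcd_dvd_left M x)
  have dAx : A ∣ x := by rw [hA]; exact normalize_dvd_iff.2 (EuclideanDomain.gcd_dvd_right M x)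
  obtain ⟨B, hB⟩ := dAM
  have mB : B.Monic := mA.of_mul_monic_left (by rw [← hB]; exact mM)
  have sA : Squarefree A := sM.squarefree_of_dvd ⟨B, hB⟩
  have sB : Squarefree B := sM.squarefree_of_dvd ⟨A, by rw [hB, mul_comm]⟩
  refine ⟨A, B, mA, mB, sA, sB, dAx, sqf_dvd sB mB.ne_zero fun π hπ hd => ?_, hB⟩
  have hdM : π ∣ M := hd.trans ⟨A, by rw [hB, mul_comm]⟩
  rcases h π hπ hdM with h1 | h1
  · exfalso
    have h3 : π ∣ A := by
      rw [hA]
      exact (EuclideanDomain.dvd_gcd hdM h1).trans (dvd_normalize_iff.2 dvd_rfl)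
    apply hπ.not_isUnit
    apply sM π
    rw [hB]
    exact mul_dvd_mul h3 hd
  · exact h1

end split

section elt

variable {k K : Type} [Field k] [Field K] [Algebra k[X] K] [IsFractionRing k[X] K]

/-- The squarefree part of an element. -/
theorem elt_sqf {e : K} (he : e ≠ 0) : ∃ (M : k[X]) (c : k) (w : K), M.Monic ∧ Squarefree M ∧
    c ≠ 0 ∧ w ≠ 0 ∧ e = algebraMap k[X] K (C c * M) * w ^ 2 := by
  obtain ⟨n, m, hm, hnm⟩ := IsFractionRing.div_surjective (A := k[X]) e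
  have hm0 : m ≠ 0 := nonZeroDivisors.ne_zero hm
  have hmK : algebraMap k[X] K m ≠ 0 := by simpa using hm0
  have hn0 : n ≠ 0 := by
    rintro rfl
    rw [map_zero, zero_div] at hnm
    exact he hnm.symm
  obtain ⟨A, h, c0, mA, sA, hc0, hh, eA⟩ := sqf_part _ (n * m) (mul_ne_zero hn0 hm0) le_rfl
  have hhK : algebraMap k[X] K h ≠ 0 := by simpa using hh
  refine ⟨A, c0, algebraMap k[X] K h / algebraMap k[X] K m, mA, sA, hc0, div_ne_zero hhK hmK, ?_⟩
  have h3 := congrArg (algebraMap k[X] K) eA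
  rw [map_mul, map_mul _ (C c0 * A), map_pow] at h3
  rw [← hnm]
  field_simp
  rw [← h3]

theorem val_const (v : HeightOneSpectrum k[X]) {c : k} (hc : c ≠ 0) :
    v.valuation K (algebraMap k[X] K (C c)) = 1 := by
  refine le_antisymm (v.valuation_le_one _) (not_lt.1 fun h' => ?_)
  have hm := (v.valuation_lt_one_iff_mem (K := K) (C c)).1 h'
  exact v.isPrime.ne_top (Ideal.eq_top_of_isUnit_mem _ hm
    (isUnit_C.2 (isUnit_iff_ne_zero.2 hc)))

theorem even_const {e s : K} {c : k} (hc : c ≠ 0) (h : e = algebraMap k[X] K (C c) * s ^ 2)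
    (v : HeightOneSpectrum k[X]) : IsSquare (v.valuation K e) := by
  rw [h, map_mul, map_pow, val_const v hc, one_mul]
  exact ⟨_, pow_two _⟩

theorem val_sqf {M : k[X]} (sM : Squarefree M) (mM : M ≠ 0) {c : k} (hc : c ≠ 0) {w e : K}
    (hw : w ≠ 0) (he : e = algebraMap k[X] K (C c * M) * w ^ 2) {π : k[X]} (hπ : Irreducible π) :
    IsSquare ((hp π hπ).valuation K e) ↔ ¬ π ∣ M := by
  have hu0 : IsUnit (C c : k[X]) := isUnit_C.2 (isUnit_iff_ne_zero.2 hc)
  constructor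
  · intro h3 hπM
    obtain ⟨A', hA'⟩ := hπM
    have hA'0 : ¬ π ∣ A' := by
      intro h4
      obtain ⟨A'', hA''⟩ := h4
      apply hπ.not_isUnit
      apply sM π
      rw [hA', hA'']
      exact ⟨A'', by ring⟩
    have e3 : e = w ^ 2 * (algebraMap k[X] K (C c * A') * algebraMap k[X] K π) := by
      rw [he, hA', ← map_mul]
      have : C c * (π * A') = C c * A' * π := by ring
      rw [this]; ring
    have hcA : ¬ π ∣ C c * A' := fun h5 => hA'0 (hu0.dvd_mul_left.1 h5)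
    rw [e3, map_mul, map_pow, pow_two] at h3
    have h4 := Pool.Agent.W309.TD.IsSquare.of_mul_left' ⟨_, rfl⟩
      (mul_ne_zero ((Valuation.ne_zero_iff _).2 hw) ((Valuation.ne_zero_iff _).2 hw)) h3
    rw [map_mul, hp_one hπ hcA, one_mul] at h4
    exact hp_ns hπ h4
  · intro h
    rw [he, map_mul, map_pow, hp_one hπ (fun h5 => h (hu0.dvd_mul_left.1 h5)), one_mul]
    exact ⟨_, pow_two _⟩

/-- There is a place of odd valuation with constants which stay nonsquares. -/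
def OddPl (K : Type) [Field K] [Algebra k[X] K] [IsFractionRing k[X] K] (g : k[X]) : Prop :=
  ∃ (π : k[X]) (hπ : Irreducible π), SqStable π ∧
    ¬ IsSquare ((hp π hπ).valuation K (algebraMap k[X] K g))

theorem oddPl_of {g : k[X]} (h : HasOddFactor g) : OddPl K g := by
  obtain ⟨π, m, hπ, ho, ⟨g', hg'⟩, hnd⟩ := h
  refine ⟨π, hπ, sqStable_of_odd hπ ho, ?_⟩
  rw [hg']
  refine odd_place hπ ?_ m
  rintro ⟨g'', hg''⟩
  apply hnd
  rw [hg', hg'']
  exact ⟨g'', by ring⟩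

/-- The first descent is complete, with points of the set `S`. -/
def CompleteInF (K : Type) [Field K] [Algebra k[X] K] (a b : k[X])
    (S : Set (Pt (crv (algebraMap k[X] K a) (algebraMap k[X] K b)) K)) : Prop :=
  ∀ A B D : k[X], A.Monic → B.Monic → D.Monic → Squarefree A → Squarefree B → Squarefree D →
    A ∣ a → B ∣ b → D ∣ a - b →
    ∃ P : Pt (crv (algebraMap k[X] K a) (algebraMap k[X] K b)) K, P ∈ S ∧
      (∃ (c : k) (h : K), c ≠ 0 ∧ h ≠ 0 ∧ algebraMap k[X] K (C c * (A * B)) =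
        h ^ 2 * d0 (algebraMap k[X] K a) (algebraMap k[X] K b) P) ∧
      (∃ (c : k) (h : K), c ≠ 0 ∧ h ≠ 0 ∧ algebraMap k[X] K (C c * (A * D)) =
        h ^ 2 * d1 (algebraMap k[X] K a) (algebraMap k[X] K b) P)

theorem const_of {e δ w h : K} {M : k[X]} {c c' : k} (hc' : c' ≠ 0) (hM : M ≠ 0)
    (hδ : δ ≠ 0) (hw : w ≠ 0)
    (h1 : e = algebraMap k[X] K (C c * M) * w ^ 2)
    (h3 : algebraMap k[X] K (C c' * M) = h ^ 2 * δ) :
    e * δ = algebraMap k[X] K (C (c / c')) * (h * w * δ) ^ 2 := by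
  have h4 : algebraMap k[X] K (C (c / c')) * algebraMap k[X] K (C c') =
      algebraMap k[X] K (C c) := by
    rw [← map_mul, ← C_mul, div_mul_cancel₀ _ hc']
  rw [map_mul] at h1 h3
  rw [h1, ← h4]
  linear_combination (algebraMap k[X] K (C (c / c')) * δ * w ^ 2) * h3

theorem sq_div {e t s : K} (ht : t ≠ 0) (h1 : e * t ^ 2 = s ^ 2) : e = (s / t) ^ 2 := by
  rw [div_pow, ← h1]
  field_simp

/-- **The core of the full descent.** -/
theorem coreF {a b : k[X]} (h2 : (2 : k) ≠ 0) (ha : a ≠ 0) (hb : b ≠ 0) (hab : a ≠ b)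
    (hco : IsCoprime a b)
    {S : Set (Pt (crv (algebraMap k[X] K a) (algebraMap k[X] K b)) K)}
    (hC : CompleteInF K a b S)
    (htwo : (OddPl K a ∧ OddPl K b) ∨ (OddPl K a ∧ OddPl K (a - b)) ∨
      (OddPl K b ∧ OddPl K (a - b))) {a0 a1 : K} (n0 : a0 ≠ 0) (n1 : a1 ≠ 0)
    (hloc : LS a b a0 a1) :
    ∃ (P : Pt (crv (algebraMap k[X] K a) (algebraMap k[X] K b)) K) (c0 c1 : K), P ∈ S ∧
      c0 ≠ 0 ∧ c1 ≠ 0 ∧ a0 = c0 ^ 2 * d0 (algebraMap k[X] K a) (algebraMap k[X] K b) P ∧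
      a1 = c1 ^ 2 * d1 (algebraMap k[X] K a) (algebraMap k[X] K b) P := by
  have inj := IsFractionRing.injective k[X] K
  have h2K : (2 : K) ≠ 0 := tt h2
  have haK : algebraMap k[X] K a ≠ 0 := by simpa using ha
  have hbK : algebraMap k[X] K b ≠ 0 := by simpa using hb
  have habK : algebraMap k[X] K a ≠ algebraMap k[X] K b := fun h => hab (inj h)
  have cab : ∀ π : k[X], Irreducible π → π ∣ a → ¬ π ∣ b := fun π hπ h1 h3 =>
    hπ.not_isUnit (hco.isUnit_of_dvd' h1 h3)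
  have cac : ∀ π : k[X], Irreducible π → π ∣ a → ¬ π ∣ a - b := fun π hπ h1 h3 =>
    cab π hπ h1 (by
      have : b = a - (a - b) := by ring
      rw [this]
      exact dvd_sub h1 h3)
  have cbc : ∀ π : k[X], Irreducible π → π ∣ b → ¬ π ∣ a - b := fun π hπ h1 h3 =>
    cab π hπ (by
      have : a = b + (a - b) := by ring
      rw [this]
      exact dvd_add h1 h3) h1
  have one : ∀ (π : k[X]) (hπ : Irreducible π) (g : k[X]), ¬ π ∣ g →
      (hp π hπ).valuation K (algebraMap k[X] K g) = 1 := fun π hπ g h => hp_one hπ h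
  -- squarefree parts
  obtain ⟨M0, c0, w0, mM0, sM0, hc0, hw0, e0⟩ := elt_sqf (k := k) n0
  obtain ⟨M1, c1, w1, mM1, sM1, hc1, hw1, e1⟩ := elt_sqf (k := k) n1
  have v0 := fun (π : k[X]) (hπ : Irreducible π) => val_sqf sM0 mM0.ne_zero hc0 hw0 e0 hπ
  have v1 := fun (π : k[X]) (hπ : Irreducible π) => val_sqf sM1 mM1.ne_zero hc1 hw1 e1 hπ
  have sp0 : ∀ π : k[X], Irreducible π → π ∣ M0 → π ∣ a ∨ π ∣ b := by
    intro π hπ hd
    by_contra hcon
    push Not at hcon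
    exact (v0 π hπ).1 (evE0 h2K haK hbK habK _ _ (w_eq (hp π hπ)) (hloc _)
      (one π hπ a hcon.1) (one π hπ b hcon.2)) hd
  have sp1 : ∀ π : k[X], Irreducible π → π ∣ M1 → π ∣ a ∨ π ∣ a - b := by
    intro π hπ hd
    by_contra hcon
    push Not at hcon
    refine (v1 π hπ).1 (evE1 h2K haK hbK habK _ _ (w_eq (hp π hπ)) (hloc _)
      (one π hπ a hcon.1) ((hp π hπ).valuation_le_one b) ?_) hd
    rw [← map_sub]
    exact one π hπ _ hcon.2
  have spA : ∀ π : k[X], Irreducible π → π ∣ a → (π ∣ M0 ↔ π ∣ M1) := by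
    intro π hπ hd
    have h3 := evEA h2K haK hbK habK _ _ (w_eq (hp π hπ)) (hloc _) ((hp π hπ).valuation_le_one a)
      (one π hπ b (cab π hπ hd)) (by rw [← map_sub]; exact one π hπ _ (cac π hπ hd))
    rw [pv_mul n0 n1, v0 π hπ, v1 π hπ] at h3
    exact not_iff_not.1 h3
  obtain ⟨A, B, mA, mB, sA', sB', dA, dB, eM0⟩ := sqf_split mM0 sM0 sp0
  obtain ⟨A', D, mA', mD, sA'', sD, dA', dD, eM1⟩ := sqf_split mM1 sM1 sp1
  have eAA : A' = A := by
    apply eq_of_monic_of_dvd_of_natDegree_le mA mA'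
    · refine sqf_dvd sA' mA.ne_zero fun π hπ hd => ?_
      have h3 : π ∣ M1 := (spA π hπ (hd.trans dA)).1 (by rw [eM0]; exact hd.mul_right B)
      rw [eM1] at h3
      rcases hπ.prime.dvd_or_dvd h3 with h4 | h4
      · exact h4
      · exact absurd (h4.trans dD) (cac π hπ (hd.trans dA))
    · refine natDegree_le_of_dvd (sqf_dvd sA'' mA'.ne_zero fun π hπ hd => ?_) mA.ne_zero
      have h3 : π ∣ M0 := (spA π hπ (hd.trans dA')).2 (by rw [eM1]; exact hd.mul_right D)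
      rw [eM0] at h3
      rcases hπ.prime.dvd_or_dvd h3 with h4 | h4
      · exact h4
      · exact absurd (h4.trans dB) (cab π hπ (hd.trans dA'))
  rw [eAA] at eM1
  obtain ⟨P, hPS, ⟨γ0, h0, hγ0, hh0, f0⟩, ⟨γ1, h1, hγ1, hh1, f1⟩⟩ :=
    hC A B D mA mB mD sA' sB' sD dA dB dD
  have hE := isE (algebraMap k[X] K a) (algebraMap k[X] K b) K h2K haK hbK habK
  have k0 : d0 (algebraMap k[X] K a) (algebraMap k[X] K b) P ≠ 0 := d0_ne hE P
  have k1 : d1 (algebraMap k[X] K a) (algebraMap k[X] K b) P ≠ 0 := d1_ne hE P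
  have hloc' : LS a b (a0 * d0 (algebraMap k[X] K a) (algebraMap k[X] K b) P)
      (a1 * d1 (algebraMap k[X] K a) (algebraMap k[X] K b) P) := by
    intro v
    exact LocSol.mul h2K haK hbK habK (hloc v)
      (locSol_pt (F := K) (L := v.adicCompletion K) h2K haK hbK habK P)
  obtain ⟨δ0, hδ0⟩ : ∃ δ, δ = d0 (algebraMap k[X] K a) (algebraMap k[X] K b) P := ⟨_, rfl⟩
  obtain ⟨δ1, hδ1⟩ : ∃ δ, δ = d1 (algebraMap k[X] K a) (algebraMap k[X] K b) P := ⟨_, rfl⟩
  rw [← hδ0] at k0 f0 hloc'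
  rw [← hδ1] at k1 f1 hloc'
  rw [eM0] at e0
  rw [eM1] at e1
  have g0 := const_of hγ0 (mul_ne_zero mA.ne_zero mB.ne_zero) k0 hw0 e0 f0
  have g1 := const_of hγ1 (mul_ne_zero mA.ne_zero mD.ne_zero) k1 hw1 e1 f1
  have m0 : a0 * δ0 ≠ 0 := mul_ne_zero n0 k0
  have m1 : a1 * δ1 ≠ 0 := mul_ne_zero n1 k1
  have ev0 : ∀ v : HeightOneSpectrum k[X], IsSquare (v.valuation K (a0 * δ0)) := fun v =>
    even_const (div_ne_zero hc0 hγ0) g0 v
  have ev1 : ∀ v : HeightOneSpectrum k[X], IsSquare (v.valuation K (a1 * δ1)) := fun v =>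
    even_const (div_ne_zero hc1 hγ1) g1 v
  have lt : ∀ (π : k[X]) (hπ : Irreducible π) (g : k[X]),
      ¬ IsSquare ((hp π hπ).valuation K (algebraMap k[X] K g)) → π ∣ g := by
    intro π hπ g h
    by_contra hd
    rw [one π hπ g hd] at h
    exact h ⟨1, (mul_one 1).symm⟩
  have pA : OddPl K a → ∃ s : K, s ≠ 0 ∧ (a0 * δ0) * (a1 * δ1) = s ^ 2 := by
    rintro ⟨π, hπ, hs, ho⟩
    have hd := lt π hπ a ho
    exact glob_sq (mul_ne_zero m0 m1) (fun v => by
      rw [map_mul]; exact (ev0 v).mul (ev1 v)) hπ hs (sq_transfer _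
      (sA h2K haK hbK habK _ _ (w_eq (hp π hπ)) (hloc' _) (one π hπ b (cab π hπ hd))
        (hp_lt hπ hd) ho (ev0 _)))
  have pB : OddPl K b → ∃ s : K, s ≠ 0 ∧ a1 * δ1 = s ^ 2 := by
    rintro ⟨π, hπ, hs, ho⟩
    have hd := lt π hπ b ho
    exact glob_sq m1 ev1 hπ hs (sq_transfer _
      (sB h2K haK hbK habK _ _ (w_eq (hp π hπ)) (hloc' _)
        (one π hπ a (fun h => cab π hπ h hd)) (hp_lt hπ hd) ho (ev0 _)))
  have pC : OddPl K (a - b) → ∃ s : K, s ≠ 0 ∧ a0 * δ0 = s ^ 2 := by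
    rintro ⟨π, hπ, hs, ho⟩
    have hd := lt π hπ (a - b) ho
    exact glob_sq m0 ev0 hπ hs (sq_transfer _
      (sC h2K haK hbK habK _ _ (w_eq (hp π hπ)) (hloc' _)
        (one π hπ a (fun h => cac π hπ h hd)) (by rw [← map_sub]; exact hp_lt hπ hd)
        (by rw [← map_sub]; exact ho) (ev1 _)))
  obtain ⟨s0, s1, hs0, hs1, q0, q1⟩ : ∃ s0 s1 : K, s0 ≠ 0 ∧ s1 ≠ 0 ∧ a0 * δ0 = s0 ^ 2 ∧
      a1 * δ1 = s1 ^ 2 := by
    rcases htwo with ⟨hA, hB⟩ | ⟨hA, hCC⟩ | ⟨hB, hCC⟩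
    · obtain ⟨s, hs, e⟩ := pA hA
      obtain ⟨t, ht, e'⟩ := pB hB
      refine ⟨s / t, t, div_ne_zero hs ht, ht, sq_div ht ?_, e'⟩
      rw [← e', e]
    · obtain ⟨s, hs, e⟩ := pA hA
      obtain ⟨t, ht, e'⟩ := pC hCC
      refine ⟨t, s / t, ht, div_ne_zero hs ht, e', sq_div ht ?_⟩
      rw [← e', mul_comm, e]
    · obtain ⟨s, hs, e⟩ := pB hB
      obtain ⟨t, ht, e'⟩ := pC hCC
      exact ⟨t, s, ht, hs, e', e⟩
  refine ⟨P, s0 / δ0, s1 / δ1, hPS, div_ne_zero hs0 k0, div_ne_zero hs1 k1, ?_, ?_⟩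
  · rw [← hδ0, div_pow, ← q0]
    field_simp
  · rw [← hδ1, div_pow, ← q1]
    field_simp

end elt

end Pool.Agent.X243.CD
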