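import Pool.Agent.X243.CD.FullCore
import Pool.Agent.X243.CD.FinK

/-!
The Mordell-Weil group modulo two and the Tate-Shafarevich group for pullbacks of curves with all points
of order two rational.
-/

set_option autoImplicit false
set_option linter.all false

open WeierstrassCurve WeierstrassCurve.Affine IsDedekindDomain Polynomial
open scoped Classical

namespace Pool.Agent.X243.CD

open Pool.Agent.TH115.GD Pool.Agent.X243.Gen Pool.Agent.X243.Tate Pool.Agent.X243.Sol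
open Pool.Agent.Y160.T3 Pool.Agent.W309
open Pool.Agent.W309.TD (Sq hp SqStable sqStable_of_odd)

section point

variable {K₀ K : Type} [Field K₀] [Field K]

theorem pt_pulledF (ψ : K₀ →+* K) {a₀ b₀ : K₀} {a b : K} (ha : a = ψ a₀)
    (hb : b = ψ b₀) (h2 : (2 : K₀) ≠ 0) (ha₀ : a₀ ≠ 0) (hb₀ : b₀ ≠ 0) (hab : a₀ ≠ b₀)
    (P : Pt (crv a₀ b₀) K₀) :
    ∃ Q : Pt (crv a b) K, PulledF ψ Q ∧ ψ (d0 a₀ b₀ P) = d0 a b Q ∧
      ψ (d1 a₀ b₀ P) = d1 a b Q := by
  have hinj := ψ.injective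
  have h2' : (2 : K) ≠ 0 := by
    rw [← map_ofNat ψ 2]
    exact (map_ne_zero_iff _ hinj).2 h2
  have ha' : a ≠ 0 := by rw [ha]; exact (map_ne_zero_iff _ hinj).2 ha₀
  have hb' : b ≠ 0 := by rw [hb]; exact (map_ne_zero_iff _ hinj).2 hb₀
  have hab' : a ≠ b := by
    rw [ha, hb]
    exact fun e => hab (hinj e)
  have hE₀ := isE a₀ b₀ K₀ h2 ha₀ hb₀ hab
  have hE := isE a b K h2' ha' hb' hab'
  cases P with
  | zero =>
    refine ⟨0, Or.inl rfl, ?_, ?_⟩
    · show ψ 1 = 1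
      rw [map_one]
    · show ψ 1 = 1
      rw [map_one]
  | some x y hn =>
    have hy : y ^ 2 = x * (x - a₀) * (x - b₀) := by
      have h1 := hn
      rw [hE₀.nonsingular] at h1
      exact h1
    have hQ : ((crv a b).baseChange K).toAffine.Nonsingular (ψ x) (ψ y) := by
      rw [hE.nonsingular]
      have h3 := congrArg ψ hy
      rw [map_pow, map_mul, map_mul, map_sub, map_sub] at h3
      show (ψ y) ^ 2 = (ψ x) * (ψ x - a) * (ψ x - b)
      rw [ha, hb]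
      exact h3
    refine ⟨Point.some _ _ hQ, Or.inr ⟨x, y, hQ, rfl⟩, ?_, ?_⟩
    · by_cases hx : x = 0
      · show ψ (if x = 0 then a₀ * b₀ else x) = (if ψ x = 0 then a * b else ψ x)
        rw [if_pos hx, if_pos (by rw [hx, map_zero]), ha, hb, map_mul]
      · show ψ (if x = 0 then a₀ * b₀ else x) = (if ψ x = 0 then a * b else ψ x)
        rw [if_neg hx, if_neg ((map_ne_zero_iff _ hinj).2 hx)]
    · by_cases hx : x = a₀
      · show ψ (if x = a₀ then a₀ * (a₀ - b₀) else x - a₀) =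
          (if ψ x = a then a * (a - b) else ψ x - a)
        rw [if_pos hx, if_pos (by rw [hx, ha]), ha, hb, map_mul, map_sub]
      · have hx' : ψ x ≠ a := by
          rw [ha]
          exact fun e => hx (hinj e)
        show ψ (if x = a₀ then a₀ * (a₀ - b₀) else x - a₀) =
          (if ψ x = a then a * (a - b) else ψ x - a)
        rw [if_neg hx, if_neg hx', ha, map_sub]

end point

section main

variable {k L K₀ K : Type} [Field k] [Field L] [Field K₀] [Algebra k[X] K₀] [IsFractionRing k[X] K₀]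
  [Field K] [Algebra L[X] K] [IsFractionRing L[X] K]

theorem completeInF_pull (φ : k →+* L) (h2 : (2 : k) ≠ 0) {a b : k[X]} (hB : Base K₀ a b)
    (hmax : Odd (max a.natDegree b.natDegree)) {q : L[X]}
    (hirr : ∀ ξ, (a * b * (a - b)).IsRoot ξ → Irreducible (q - C (φ ξ) * 1))
    (ψ : K₀ →+* K) (hψ : ∀ g : k[X], algebraMap L[X] K (pb q 1 (g.map φ)) =
      ψ (algebraMap k[X] K₀ g)) :
    CompleteInF K (pb q 1 (a.map φ)) (pb q 1 (b.map φ)) {P | PulledF ψ P} := by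
  obtain ⟨ha, hb, hab, co, sa, sb, sc, odd, hC⟩ := hB
  have hc0 : a - b ≠ 0 := sub_ne_zero.2 hab
  have inj₀ := IsFractionRing.injective k[X] K₀
  have h2₀ : (2 : K₀) ≠ 0 := by
    have h3 : algebraMap k[X] K₀ (C 2) ≠ 0 := by simpa using h2
    rwa [C_ofNat, map_ofNat] at h3
  have ra : ∀ ξ, a.IsRoot ξ → Irreducible (q - C (φ ξ) * 1) := fun ξ h =>
    hirr ξ (by rw [IsRoot.def, eval_mul, eval_mul, IsRoot.def.1 h, zero_mul, zero_mul])
  have rb : ∀ ξ, b.IsRoot ξ → Irreducible (q - C (φ ξ) * 1) := fun ξ h =>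
    hirr ξ (by rw [IsRoot.def, eval_mul, eval_mul, IsRoot.def.1 h, mul_zero, zero_mul])
  have rc : ∀ ξ, (a - b).IsRoot ξ → Irreducible (q - C (φ ξ) * 1) := fun ξ h =>
    hirr ξ (by rw [IsRoot.def, eval_mul, IsRoot.def.1 h, mul_zero])
  have hsub : pb q 1 (a.map φ) - pb q 1 (b.map φ) = pb q 1 ((a - b).map φ) := by
    rw [Polynomial.map_sub]
    exact pb_sub_one q _ _
  intro A B D mA mB mD sA sB sD dA dB dD
  rw [hsub] at dD
  obtain ⟨cA, hcA, A₀, mA₀, sA₀, dA₀, eA⟩ := dvd_pb' φ ha sa ra sA dA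
  obtain ⟨cB, hcB, B₀, mB₀, sB₀, dB₀, eB⟩ := dvd_pb' φ hb sb rb sB dB
  obtain ⟨cD, hcD, D₀, mD₀, sD₀, dD₀, eD⟩ := dvd_pb' φ hc0 sc rc sD dD
  have hinf₀ : InfCond a b A₀ B₀ D₀ := fun hev => absurd hev (Nat.not_even_iff_odd.2 hmax)
  obtain ⟨P, ⟨c1, h1, hc1, hh1, e1⟩, ⟨c3, h3, hc3, hh3, e3⟩⟩ :=
    hC A₀ B₀ D₀ mA₀ mB₀ mD₀ sA₀ sB₀ sD₀ dA₀ dB₀ dD₀ hinf₀
  obtain ⟨Q, hQ, eu, ev⟩ := pt_pulledF ψ (hψ a) (hψ b) h2₀
    (by simpa using ha) (by simpa using hb) (fun e => hab (inj₀ e)) P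
  have hψC : ∀ c : k, ψ (algebraMap k[X] K₀ (C c)) = algebraMap L[X] K (C (φ c)) := by
    intro c
    have := hψ (C c)
    rw [map_C, pb_C] at this
    exact this.symm
  refine ⟨Q, hQ, ?_, ?_⟩
  · refine ⟨φ c1 * (cA * cB)⁻¹, ψ h1, mul_ne_zero ((map_ne_zero_iff _ φ.injective).2 hc1)
      (inv_ne_zero (mul_ne_zero hcA hcB)), (map_ne_zero_iff _ ψ.injective).2 hh1, ?_⟩
    have k1 : C (φ c1 * (cA * cB)⁻¹) * (A * B) = C (φ c1) * pb q 1 ((A₀ * B₀).map φ) := by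
      rw [eA, eB, Polynomial.map_mul, pb_mul]
      have k3 : C (cA * cB)⁻¹ * (C cA * C cB) = (1 : L[X]) := by
        rw [← C_mul, ← C_mul, inv_mul_cancel₀ (mul_ne_zero hcA hcB), C_1]
      rw [C_mul]
      linear_combination C (φ c1) * (pb q 1 (A₀.map φ) * pb q 1 (B₀.map φ)) * k3
    rw [k1, map_mul, hψ, ← hψC]
    have k4 := congrArg ψ e1
    rw [map_mul (algebraMap k[X] K₀) (C c1) (A₀ * B₀), map_mul ψ (algebraMap k[X] K₀ (C c1)),
      map_mul ψ (h1 ^ 2), map_pow, eu] at k4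
    exact k4
  · refine ⟨φ c3 * (cA * cD)⁻¹, ψ h3, mul_ne_zero ((map_ne_zero_iff _ φ.injective).2 hc3)
      (inv_ne_zero (mul_ne_zero hcA hcD)), (map_ne_zero_iff _ ψ.injective).2 hh3, ?_⟩
    have k1 : C (φ c3 * (cA * cD)⁻¹) * (A * D) = C (φ c3) * pb q 1 ((A₀ * D₀).map φ) := by
      rw [eA, eD, Polynomial.map_mul, pb_mul]
      have k3 : C (cA * cD)⁻¹ * (C cA * C cD) = (1 : L[X]) := by
        rw [← C_mul, ← C_mul, inv_mul_cancel₀ (mul_ne_zero hcA hcD), C_1]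
      rw [C_mul]
      linear_combination C (φ c3) * (pb q 1 (A₀.map φ) * pb q 1 (D₀.map φ)) * k3
    rw [k1, map_mul, hψ, ← hψC]
    have k4 := congrArg ψ e3
    rw [map_mul (algebraMap k[X] K₀) (C c3) (A₀ * D₀), map_mul ψ (algebraMap k[X] K₀ (C c3)),
      map_mul ψ (h3 ^ 2), map_pow, ev] at k4
    exact k4

/-- **The conclusion for pullbacks.** -/
theorem mw_fullF [Algebra k L] (h2 : (2 : k) ≠ 0) {a b : k[X]}
    (hB : BaseOdd K₀ a b) {q : L[X]} (hq : 0 < q.natDegree) {n : ℕ} (hn : Odd n)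
    (hirr : ∀ ξ, (a * b * (a - b)).IsRoot ξ → Irreducible (q - C (algebraMap k L ξ)) ∧
      (q - C (algebraMap k L ξ)).natDegree = n) :
    PointsFromBaseF K₀ K a b q ∧ Sha.ShaTwoTrivial L[X] (pullFull K a b q) := by
  obtain ⟨hB, hmax, htwo⟩ := hB
  obtain ⟨φ, hφ⟩ : ∃ φ : k →+* L, φ = algebraMap k L := ⟨_, rfl⟩
  rw [← hφ] at hirr
  have h2L : (2 : L) ≠ 0 := by
    rw [← map_ofNat φ 2]
    exact (map_ne_zero_iff _ φ.injective).2 h2
  have e1 : ∀ ξ : k, q - C (φ ξ) * 1 = q - C (φ ξ) := fun ξ => by rw [mul_one]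
  have hirr1 : ∀ ξ, (a * b * (a - b)).IsRoot ξ → Irreducible (q - C (φ ξ) * 1) ∧
      (q - C (φ ξ) * 1).natDegree = n := fun ξ h => by rw [e1]; exact hirr ξ h
  have hc0 : a - b ≠ 0 := sub_ne_zero.2 hB.hab
  have hne : ∀ g : k[X], g ≠ 0 → pb q 1 (g.map φ) ≠ 0 := fun g hg =>
    pb_ne isCoprime_one_right hq ((Polynomial.map_ne_zero_iff φ.injective).2 hg)
  obtain ⟨ψ, hψ⟩ := exists_psi (K₀ := K₀) (K := K) φ (q := q) (r := 1) one_ne_zero hne
  have hψ' : ∀ g : k[X], algebraMap L[X] K (pb q 1 (g.map φ)) = ψ (algebraMap k[X] K₀ g) := by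
    intro g
    rw [hψ, map_one, one_pow, one_mul]
  have hsub : pb q 1 (a.map φ) - pb q 1 (b.map φ) = pb q 1 ((a - b).map φ) := by
    rw [Polynomial.map_sub]
    exact pb_sub_one q _ _
  have na := hne a hB.ha
  have nb := hne b hB.hb
  have nab : pb q 1 (a.map φ) ≠ pb q 1 (b.map φ) := by
    intro e
    apply hne _ hc0
    rw [← hsub, e, sub_self]
  have hC := completeInF_pull φ h2 hB hmax (fun ξ h => (hirr1 ξ h).1) ψ hψ'
  have hco := cop_pb φ isCoprime_one_right hq hB.ha hB.hb hB.sa hB.sb hB.co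
  have ra : ∀ ξ, a.IsRoot ξ → Irreducible (q - C (φ ξ) * 1) ∧
      (q - C (φ ξ) * 1).natDegree = n := fun ξ h =>
    hirr1 ξ (by rw [IsRoot.def, eval_mul, eval_mul, IsRoot.def.1 h, zero_mul, zero_mul])
  have rb : ∀ ξ, b.IsRoot ξ → Irreducible (q - C (φ ξ) * 1) ∧
      (q - C (φ ξ) * 1).natDegree = n := fun ξ h =>
    hirr1 ξ (by rw [IsRoot.def, eval_mul, eval_mul, IsRoot.def.1 h, mul_zero, zero_mul])
  have rc : ∀ ξ, (a - b).IsRoot ξ → Irreducible (q - C (φ ξ) * 1) ∧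
      (q - C (φ ξ) * 1).natDegree = n := fun ξ h =>
    hirr1 ξ (by rw [IsRoot.def, eval_mul, IsRoot.def.1 h, mul_zero])
  have two : (OddPl K (pb q 1 (a.map φ)) ∧ OddPl K (pb q 1 (b.map φ))) ∨
      (OddPl K (pb q 1 (a.map φ)) ∧ OddPl K (pb q 1 (a.map φ) - pb q 1 (b.map φ))) ∨
      (OddPl K (pb q 1 (b.map φ)) ∧ OddPl K (pb q 1 (a.map φ) - pb q 1 (b.map φ))) := by
    rw [hsub]
    rcases htwo with ⟨h1, h3⟩ | ⟨h1, h3⟩ | ⟨h1, h3⟩
    · exact Or.inl ⟨oddPl_of (odd_pb φ isCoprime_one_right hn hB.ha hB.sa ra h1),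
        oddPl_of (odd_pb φ isCoprime_one_right hn hB.hb hB.sb rb h3)⟩
    · exact Or.inr (Or.inl ⟨oddPl_of (odd_pb φ isCoprime_one_right hn hB.ha hB.sa ra h1),
        oddPl_of (odd_pb φ isCoprime_one_right hn hc0 hB.sc rc h3)⟩)
    · exact Or.inr (Or.inr ⟨oddPl_of (odd_pb φ isCoprime_one_right hn hB.hb hB.sb rb h1),
        oddPl_of (odd_pb φ isCoprime_one_right hn hc0 hB.sc rc h3)⟩)
  have h2K : (2 : K) ≠ 0 := tt h2L
  have inj := IsFractionRing.injective L[X] K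
  have haK : algebraMap L[X] K (pb q 1 (a.map φ)) ≠ 0 := by simpa using na
  have hbK : algebraMap L[X] K (pb q 1 (b.map φ)) ≠ 0 := by simpa using nb
  have habK : algebraMap L[X] K (pb q 1 (a.map φ)) ≠ algebraMap L[X] K (pb q 1 (b.map φ)) :=
    fun h => nab (inj h)
  have hL := isE (algebraMap L[X] K (pb q 1 (a.map φ))) (algebraMap L[X] K (pb q 1 (b.map φ)))
    (SeparableClosure K) h2K haK hbK habK
  have hD := descE (W := crv (algebraMap L[X] K (pb q 1 (a.map φ)))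
      (algebraMap L[X] K (pb q 1 (b.map φ))))
    (Ω' := fun v : HeightOneSpectrum L[X] => SeparableClosure (v.adicCompletion K))
    (F := fun v : HeightOneSpectrum L[X] => v.adicCompletion K) hL
    (fun v => isE _ _ _ h2K haK hbK habK)
    (fun a0 a1 n0 n1 hloc => coreF h2L na nb nab hco hC two n0 n1 hloc)
  have hhalf : Half (crv (algebraMap L[X] K (pb q 1 (a.map φ)))
      (algebraMap L[X] K (pb q 1 (b.map φ)))) (SeparableClosure K) := halve_sep hL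
  have ecrv : pullFull K a b q = crv (algebraMap L[X] K (pb q 1 (a.map φ)))
      (algebraMap L[X] K (pb q 1 (b.map φ))) := by
    unfold pullFull
    rw [pb_one_comp, pb_one_comp, hφ]
  have hs := sha_of _ hhalf hD
  constructor
  · refine ⟨ψ, fun f => by rw [← hφ, ← pb_one_comp, hψ'], ?_⟩
    rw [hφ, pb_one_comp, pb_one_comp] at hD hhalf
    intro P0
    obtain ⟨Q, P, hP, h⟩ := pts_of _ hhalf hD P0
    exact ⟨Q, P, hP, h⟩
  · rw [ecrv]
    exact hs

end main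

end Pool.Agent.X243.CD
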