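import Pool.Agent.X243.CD.Val
import Pool.Agent.W309.TD.Stmt

/-!
The global steps over `k[X]` for the curves with one rational point of order two.
-/

set_option autoImplicit false
set_option linter.all false

open WeierstrassCurve WeierstrassCurve.Affine IsDedekindDomain Polynomial
open scoped Classical

namespace Pool.Agent.X243.CD

open Pool.Agent.TH115.GD
open Pool.Agent.W309.TD (Sq hp SqStable even_rep noTwo_of_pid sq_unit unit_stable sq_transfer
  sq_of_nonsq exp_neg_one_not_square)

section places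

variable {k K : Type} [Field k] [Field K] [Algebra k[X] K] [IsFractionRing k[X] K]

theorem hp_lt {π : k[X]} (hπ : Irreducible π) {p : k[X]} (h : π ∣ p) :
    (hp π hπ).valuation K (algebraMap k[X] K p) < 1 :=
  ((hp π hπ).valuation_lt_one_iff_mem (K := K) p).2 (Ideal.mem_span_singleton.2 h)

theorem hp_one {π : k[X]} (hπ : Irreducible π) {p : k[X]} (h : ¬ π ∣ p) :
    (hp π hπ).valuation K (algebraMap k[X] K p) = 1 := by
  refine le_antisymm ((hp π hπ).valuation_le_one p) (not_lt.1 fun h' => h ?_)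
  exact Ideal.mem_span_singleton.1 (((hp π hπ).valuation_lt_one_iff_mem (K := K) p).1 h')

theorem hp_ns {π : k[X]} (hπ : Irreducible π) :
    ¬ IsSquare ((hp π hπ).valuation K (algebraMap k[X] K π)) := by
  rw [HeightOneSpectrum.valuation_of_algebraMap, (hp π hπ).intValuation_singleton hπ.ne_zero rfl]
  exact exp_neg_one_not_square

theorem hp_ne {π : k[X]} (hπ : Irreducible π) {v : HeightOneSpectrum k[X]} (hv : v ≠ hp π hπ) :
    v.valuation K (algebraMap k[X] K π) = 1 := by
  refine le_antisymm (v.valuation_le_one π) (not_lt.1 fun h' => hv ?_)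
  have hmem := (v.valuation_lt_one_iff_mem (K := K) π).1 h'
  apply HeightOneSpectrum.ext
  have hle : (hp π hπ).asIdeal ≤ v.asIdeal := by
    show Ideal.span {π} ≤ v.asIdeal
    rw [Ideal.span_singleton_le_iff_mem]
    exact hmem
  exact (((hp π hπ).isMaximal.eq_of_le v.isPrime.ne_top hle).symm)

/-- An element with even valuations which is a square at a place of odd type is a square. -/
theorem glob_sq {e : K} (he : e ≠ 0)
    (hev : ∀ v : HeightOneSpectrum k[X], IsSquare (v.valuation K e))
    {π : k[X]} (hπ : Irreducible π) (hs : SqStable π) (h : Sq ((hp π hπ).valuation K) e) :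
    ∃ s : K, s ≠ 0 ∧ e = s ^ 2 := by
  obtain ⟨w, s, hs0, hes⟩ := even_rep (R := k[X]) noTwo_of_pid he hev
  have h1 : Sq ((hp π hπ).valuation K) (s ^ 2 * algebraMap k[X] K (w : k[X])) := by
    rw [mul_comm, ← hes]
    exact h
  have h2 := Sq.cancel hs0 h1
  obtain ⟨b, hb⟩ := unit_stable (v := hp π hπ) rfl hs w (sq_unit _ h2 (fun hm =>
    (hp π hπ).isPrime.ne_top (Ideal.eq_top_of_isUnit_mem _ hm w.isUnit)))
  have e1 : e = (algebraMap k[X] K b * s) ^ 2 := by
    rw [hes, hb, map_pow]
    ring
  refine ⟨algebraMap k[X] K b * s, ?_, e1⟩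
  intro h0
  apply he
  rw [e1, h0]
  ring

/-- Local solubility in a form which is common to both steps. -/
def LocZ (a b : K) (L : Type) [Field L] [Algebra K L] (a0 : K) : Prop :=
  ∃ c z : L, c ≠ 0 ∧ algebraMap K L a0 = c ^ 2 * z ∧ Zc (algebraMap K L a) (algebraMap K L b) z

theorem locz0 {a b a0 : K} (hb : b ≠ 0) {L : Type} [Field L] [Algebra K L]
    (h : LocT0 (F := K) a b L a0) : LocZ a b L a0 := by
  obtain ⟨Q, c, hc, e⟩ := h
  refine ⟨c, _, hc, e, ?_⟩
  rcases Q with _ | ⟨x, y, hxy⟩
  · exact Or.inl rfl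
  · simp only [dT]
    split_ifs with hx
    · exact Or.inr (Or.inl rfl)
    · exact Or.inr (Or.inr ⟨hx, y, crvT_eq hxy⟩)

theorem locz1 {a b a1 : K} {L : Type} [Field L] [Algebra K L]
    (h : LocT1 (F := K) a b L a1) : LocZ (-2 * a) (a ^ 2 - 4 * b) L a1 := by
  obtain ⟨c, z, hc, e, hz⟩ := h
  refine ⟨c, z, hc, e, ?_⟩
  rcases hz with hz | hz | ⟨hz, w, hw⟩
  · exact Or.inl hz
  · exact Or.inr (Or.inl hz)
  · refine Or.inr (Or.inr ⟨hz, 2 * w * z, ?_⟩)
    simp only [map_mul, map_sub, map_pow, map_neg, map_ofNat]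
    linear_combination (-z) * hw

section facts

variable (v : HeightOneSpectrum k[X]) {e : K}

theorem w_eq (x : K) : Valued.v (R := v.adicCompletion K) (Γ₀ := WithZero (Multiplicative ℤ))
    (algebraMap K (v.adicCompletion K) x) = v.valuation K x :=
  HeightOneSpectrum.adicCompletion.valued_coe K v x

theorem fact_even {a b : k[X]} (hb : v.valuation K (algebraMap k[X] K b) = 1)
    (h : LocZ (algebraMap k[X] K a) (algebraMap k[X] K b) (v.adicCompletion K) e) :
    IsSquare (v.valuation K e) := by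
  obtain ⟨c, z, hc, e1, hz⟩ := h
  rw [← w_eq v e, e1, map_mul, map_pow, pow_two]
  refine IsSquare.mul ⟨_, rfl⟩ ?_
  refine zc_even (v := Valued.v (R := v.adicCompletion K) (Γ₀ := WithZero (Multiplicative ℤ)))
    ?_ ?_ hz
  · rw [w_eq]; exact v.valuation_le_one a
  · rw [w_eq]; exact hb

theorem fact_sq {a b : k[X]} (h2 : (2 : k) ≠ 0) (hb : v.valuation K (algebraMap k[X] K b) = 1)
    (hd : v.valuation K (algebraMap k[X] K (a ^ 2 - 4 * b)) < 1)
    (hn : ¬ IsSquare (v.valuation K (algebraMap k[X] K (a ^ 2 - 4 * b))))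
    (h : LocZ (algebraMap k[X] K a) (algebraMap k[X] K b) (v.adicCompletion K) e) :
    Sq (v.valuation K) e := by
  obtain ⟨c, z, hc, e1, hz⟩ := h
  apply sq_transfer
  rw [e1]
  refine (Sq.sq hc).mul ?_
  have e2 : (algebraMap K (v.adicCompletion K) (algebraMap k[X] K a)) ^ 2 -
      4 * algebraMap K (v.adicCompletion K) (algebraMap k[X] K b) =
      algebraMap K (v.adicCompletion K) (algebraMap k[X] K (a ^ 2 - 4 * b)) := by
    simp only [map_sub, map_mul, map_pow, map_ofNat]
  refine zc_sq ?_ ?_ ?_ ?_ ?_ hz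
  · have h3 : (2 : v.adicCompletion K) = algebraMap K (v.adicCompletion K)
        (algebraMap k[X] K (C (2 : k))) := by
      rw [map_ofNat, map_ofNat, map_ofNat]
    rw [h3, w_eq]
    refine le_antisymm (v.valuation_le_one _) (not_lt.1 fun h' => ?_)
    have hm := (v.valuation_lt_one_iff_mem (K := K) (C (2 : k))).1 h'
    exact v.isPrime.ne_top (Ideal.eq_top_of_isUnit_mem _ hm (isUnit_C.2 (isUnit_iff_ne_zero.2 h2)))
  · rw [w_eq]; exact v.valuation_le_one a
  · rw [w_eq]; exact hb
  · rw [e2, w_eq]; exact hd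
  · rw [e2, w_eq]; exact hn

theorem fact_zero {b : k[X]} (hb : v.valuation K (algebraMap k[X] K b) < 1)
    (hn : ¬ IsSquare (v.valuation K (algebraMap k[X] K b)))
    (h : LocZ 0 (algebraMap k[X] K b) (v.adicCompletion K) e) :
    Sq (v.valuation K) e ∨ Sq (v.valuation K) (e * algebraMap k[X] K b) := by
  obtain ⟨c, z, hc, e1, hz⟩ := h
  rw [map_zero] at hz
  rcases zc_zero (v := Valued.v (R := v.adicCompletion K) (Γ₀ := WithZero (Multiplicative ℤ)))
    (by rw [w_eq]; exact hb) (by rw [w_eq]; exact hn) hz with h3 | h3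
  · left
    apply sq_transfer
    rw [e1]
    exact (Sq.sq hc).mul h3
  · right
    apply sq_transfer
    rw [map_mul, e1, mul_assoc]
    exact (Sq.sq hc).mul h3

end facts

/-- **The core of the descent.** -/
theorem core {a b : k[X]} (h2 : (2 : k) ≠ 0) (hb : Irreducible b)
    (hd : Irreducible (a ^ 2 - 4 * b)) (hsd : SqStable (a ^ 2 - 4 * b)) {e : K} (he : e ≠ 0)
    (hloc : ∀ v : HeightOneSpectrum k[X],
      LocZ (algebraMap k[X] K a) (algebraMap k[X] K b) (v.adicCompletion K) e) :
    ∃ c : K, c ≠ 0 ∧ (e = c ^ 2 ∨ e = c ^ 2 * algebraMap k[X] K b) := by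
  have h4 : (4 : k) ≠ 0 := by
    have : (4 : k) = 2 * 2 := by norm_num
    rw [this]
    exact mul_ne_zero h2 h2
  have hC4 : (4 : k[X]) = C (4 : k) := by rw [map_ofNat]
  have hu4 : IsUnit (4 : k[X]) := by
    rw [hC4]
    exact isUnit_C.2 (isUnit_iff_ne_zero.2 h4)
  have hbK : algebraMap k[X] K b ≠ 0 := by simpa using hb.ne_zero
  -- parity away from `b`
  have hev : ∀ v : HeightOneSpectrum k[X], v ≠ hp b hb → IsSquare (v.valuation K e) :=
    fun v hv => fact_even v (hp_ne hb hv) (hloc v)
  -- `b` is a square at the zeros of `d` or `a = 0`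
  have fin : ∀ e' : K, e' ≠ 0 → (e' = e ∨ e' = e * algebraMap k[X] K b) →
      (∀ v : HeightOneSpectrum k[X], IsSquare (v.valuation K e')) → ∃ s : K, s ≠ 0 ∧ e' = s ^ 2 := by
    intro e' he' hee' hev'
    by_cases hba : b ∣ a
    · -- `a = 0`
      have ha0 : a = 0 := by
        obtain ⟨a1, ha1⟩ := hba
        by_contra ha0
        have h5 : a ^ 2 - 4 * b = b * (b * a1 ^ 2 - 4) := by rw [ha1]; ring
        rw [h5] at hd
        rcases hd.isUnit_or_isUnit rfl with h6 | h6
        · exact hb.not_isUnit h6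
        · have h7 : (b * a1 ^ 2 - 4).natDegree = 0 := natDegree_eq_zero_of_isUnit h6
          have h8 : (b * a1 ^ 2).natDegree = 0 := by
            have h9 : b * a1 ^ 2 = (b * a1 ^ 2 - 4) + C 4 := by rw [← hC4]; ring
            rw [h9, natDegree_add_C, h7]
          have ha10 : a1 ≠ 0 := by
            rintro rfl
            exact ha0 (by rw [ha1, mul_zero])
          rw [natDegree_mul hb.ne_zero (pow_ne_zero 2 ha10)] at h8
          have := hb.natDegree_pos
          omega
      subst ha0
      have hsb : SqStable b := by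
        intro c ⟨p, hp⟩
        apply hsd c
        refine ⟨p, ?_⟩
        have h5 : (0 : k[X]) ^ 2 - 4 * b = (-4) * b := by ring
        rw [h5]
        exact (hu4.neg.mul_left_dvd).2 hp
      have hz : Sq ((hp b hb).valuation K) e ∨ Sq ((hp b hb).valuation K) (e * algebraMap k[X] K b) := by
        have h5 := hloc (hp b hb)
        rw [map_zero] at h5
        exact fact_zero (hp b hb) (hp_lt hb dvd_rfl) (hp_ns hb) h5
      refine glob_sq he' hev' hb hsb ?_
      have hodd := hp_ns (K := K) hb
      have h6 := hev' (hp b hb)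
      rcases hee' with rfl | rfl
      · rcases hz with h7 | h7
        · exact h7
        · exfalso
          apply hodd
          have h8 := h7.even
          rw [map_mul] at h8
          exact Pool.Agent.W309.TD.IsSquare.of_mul_left' h6 ((Valuation.ne_zero_iff _).2 he') h8
      · rcases hz with h7 | h7
        · exfalso
          apply hodd
          rw [map_mul] at h6
          exact Pool.Agent.W309.TD.IsSquare.of_mul_left' h7.even ((Valuation.ne_zero_iff _).2 he) h6
        · exact h7
    · have hdb : ¬ (a ^ 2 - 4 * b) ∣ b := by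
        intro h5
        have h6 : Associated (a ^ 2 - 4 * b) b := hd.associated_of_dvd hb h5
        apply hba
        have h7 : b ∣ a ^ 2 - 4 * b := h6.symm.dvd
        have h8 : b ∣ a ^ 2 := by
          have : a ^ 2 = (a ^ 2 - 4 * b) + b * 4 := by ring
          rw [this]
          exact dvd_add h7 (dvd_mul_right _ _)
        exact hb.prime.dvd_of_dvd_pow h8
      have hvb := hp_one (K := K) hd hdb
      have hsq : Sq ((hp _ hd).valuation K) e :=
        fact_sq (hp _ hd) h2 hvb (hp_lt hd dvd_rfl) (hp_ns hd) (hloc _)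
      refine glob_sq he' hev' hd hsd ?_
      rcases hee' with rfl | rfl
      · exact hsq
      · refine hsq.mul ?_
        have h4K : algebraMap k[X] K (C (4 : k)) ≠ 0 := by
          rw [Ne, map_eq_zero_iff _ (IsFractionRing.injective k[X] K), C_eq_zero]
          exact h4
        have hK4 : (4 : K) ≠ 0 := by rwa [map_ofNat, map_ofNat] at h4K
        have h2K : (2 : K) ≠ 0 := by
          intro h0
          apply hK4
          have : (4 : K) = 2 * 2 := by norm_num
          rw [this, h0, mul_zero]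
        apply Sq.of_near hbK (u := (algebraMap k[X] K a) ^ 2 / (4 * algebraMap k[X] K b))
          (c := algebraMap k[X] K a / 2)
        · field_simp
          ring
        · have e1 : (algebraMap k[X] K a) ^ 2 / (4 * algebraMap k[X] K b) - 1 =
              algebraMap k[X] K (a ^ 2 - 4 * b) / algebraMap k[X] K (C 4 * b) := by
            simp only [map_sub, map_mul, map_pow, map_ofNat]
            field_simp
          have e2 : (hp _ hd).valuation K (algebraMap k[X] K (C 4 * b)) = 1 :=
            hp_one hd (fun h5 => hdb ((isUnit_C.2 (isUnit_iff_ne_zero.2 h4)).dvd_mul_left.1 h5))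
          rw [e1, map_div₀, e2, div_one]
          exact hp_lt hd dvd_rfl
  by_cases h5 : IsSquare ((hp b hb).valuation K e)
  · obtain ⟨s, hs, e1⟩ := fin e he (Or.inl rfl) (fun v => by
      by_cases hv : v = hp b hb
      · rw [hv]; exact h5
      · exact hev v hv)
    exact ⟨s, hs, Or.inl e1⟩
  · obtain ⟨s, hs, e1⟩ := fin (e * algebraMap k[X] K b) (mul_ne_zero he hbK) (Or.inr rfl)
      (fun v => by
        rw [map_mul]
        by_cases hv : v = hp b hb
        · rw [hv]
          exact sq_of_nonsq h5 (hp_ns hb)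
        · rw [hp_ne hb hv, mul_one]
          exact hev v hv)
    refine ⟨s / algebraMap k[X] K b, div_ne_zero hs hbK, Or.inr ?_⟩
    rw [div_pow, ← e1]
    field_simp

end places

section concl

variable {k K : Type} [Field k] [Field K] [Algebra k[X] K] [IsFractionRing k[X] K]

open Pool.Agent.W309

/-- The point `(0, 0)`. -/
theorem nonsing_T (a : K) {b : K} (hb : b ≠ 0) :
    ((crvT a b).baseChange K).toAffine.Nonsingular 0 0 := by
  rw [Affine.nonsingular_zero]
  refine ⟨map_zero _, Or.inr ?_⟩
  show algebraMap K K b ≠ 0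
  exact hb

theorem dbl_T (a : K) {b : K} (hb : b ≠ 0) :
    (Point.some 0 0 (nonsing_T a hb) : Pt (crvT a b) K) + Point.some 0 0 (nonsing_T a hb) = 0 := by
  apply Point.add_of_Y_eq rfl
  simp only [Affine.negY]
  have e1 : ((crvT a b).baseChange K).toAffine.a₁ = 0 := map_zero _
  have e3 : ((crvT a b).baseChange K).toAffine.a₃ = 0 := map_zero _
  rw [e1, e3]
  ring

/-- The points of order two. -/
def TwoTor (W : WeierstrassCurve K) : Set (Pt W K) := {P | P + P = 0}

theorem glob0 {a b : k[X]} (h2 : (2 : k) ≠ 0) (hb : Irreducible b)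
    (hd : Irreducible (a ^ 2 - 4 * b)) (hsd : SqStable (a ^ 2 - 4 * b)) :
    Glob0 (fun v : HeightOneSpectrum k[X] => v.adicCompletion K) (algebraMap k[X] K a)
      (algebraMap k[X] K b) (TwoTor (crvT (algebraMap k[X] K a) (algebraMap k[X] K b))) := by
  have hbK : algebraMap k[X] K b ≠ 0 := by simpa using hb.ne_zero
  intro a0 ha0 hloc
  obtain ⟨c, hc, h⟩ := core h2 hb hd hsd ha0 (fun v => locz0 hbK (hloc v))
  rcases h with h | h
  · refine ⟨0, c, add_zero 0, hc, ?_⟩
    have : dT (algebraMap k[X] K b) (0 : Pt (crvT (algebraMap k[X] K a) (algebraMap k[X] K b)) K) = 1 :=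
      rfl
    rw [this, mul_one, h]
  · refine ⟨Point.some 0 0 (nonsing_T _ hbK), c, dbl_T _ hbK, hc, ?_⟩
    simp only [dT, if_true]
    exact h

theorem glob1 {a b : k[X]} (h2 : (2 : k) ≠ 0) (hb : Irreducible b)
    (hd : Irreducible (a ^ 2 - 4 * b)) (hsb : SqStable b) :
    Glob1 (fun v : HeightOneSpectrum k[X] => v.adicCompletion K) (algebraMap k[X] K a)
      (algebraMap k[X] K b) := by
  intro a1 ha1 hloc
  have h16 : (16 : k) ≠ 0 := by
    have : (16 : k) = (2 * 2) * (2 * 2) := by norm_num
    rw [this]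
    exact mul_ne_zero (mul_ne_zero h2 h2) (mul_ne_zero h2 h2)
  have hu : IsUnit (16 : k[X]) := by
    have : (16 : k[X]) = C (16 : k) := by rw [map_ofNat]
    rw [this]
    exact isUnit_C.2 (isUnit_iff_ne_zero.2 h16)
  obtain ⟨a', ha'⟩ : ∃ a', a' = -2 * a := ⟨_, rfl⟩
  obtain ⟨d, hd'⟩ : ∃ d, d = a ^ 2 - 4 * b := ⟨_, rfl⟩
  have e : a' ^ 2 - 4 * d = b * 16 := by rw [ha', hd']; ring
  have hass : Associated b (a' ^ 2 - 4 * d) := by
    rw [e]
    exact (associated_mul_isUnit_right_iff hu).2 (Associated.refl b)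
  obtain ⟨c, hc, h⟩ := core h2 (a := a') (b := d) (by rw [hd']; exact hd) (hass.irreducible hb)
    (fun c ⟨p, hp⟩ => hsb c ⟨p, (hass.dvd_iff_dvd_left).2 hp⟩) ha1 (fun v => by
      have h3 := locz1 (hloc v)
      have e1 : algebraMap k[X] K a' = -2 * algebraMap k[X] K a := by
        rw [ha']
        simp only [map_mul, map_neg, map_ofNat]
      have e2 : algebraMap k[X] K d =
          (algebraMap k[X] K a) ^ 2 - 4 * algebraMap k[X] K b := by
        rw [hd']
        simp only [map_sub, map_mul, map_pow, map_ofNat]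
      rw [e1, e2]
      exact h3)
  refine ⟨c, hc, ?_⟩
  rcases h with h | h
  · exact Or.inl h
  · right
    rw [h, hd']
    simp only [map_sub, map_mul, map_pow, map_ofNat]

/-- **The criterion for curves with a rational point of order two.** -/
theorem oneT {a b : k[X]} (h2 : (2 : k) ≠ 0) (hb : Irreducible b)
    (hd : Irreducible (a ^ 2 - 4 * b)) (hsb : SqStable b) (hsd : SqStable (a ^ 2 - 4 * b)) :
    Sha.PointsComplete (crvT (algebraMap k[X] K a) (algebraMap k[X] K b)) ∧
    Sha.ShaTwoTrivial k[X] (crvT (algebraMap k[X] K a) (algebraMap k[X] K b)) ∧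
    Sha.ShaTateTrivial k[X] (crvT (algebraMap k[X] K a) (algebraMap k[X] K b)) := by
  have h2K : (2 : K) ≠ 0 := tt h2
  have hbK : algebraMap k[X] K b ≠ 0 := by simpa using hb.ne_zero
  have hdK : (algebraMap k[X] K a) ^ 2 - 4 * algebraMap k[X] K b ≠ 0 := by
    have e2 : algebraMap k[X] K (a ^ 2 - 4 * b) =
        (algebraMap k[X] K a) ^ 2 - 4 * algebraMap k[X] K b := by
      simp only [map_sub, map_mul, map_pow, map_ofNat]
    rw [← e2, Ne, map_eq_zero_iff _ (IsFractionRing.injective k[X] K)]
    exact hd.ne_zero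
  obtain ⟨α, β, hR⟩ := exists_roots (Ω := SeparableClosure K) h2K hbK hdK
  have hD := descT (Ω' := fun v : HeightOneSpectrum k[X] => SeparableClosure (v.adicCompletion K))
    (F := fun v : HeightOneSpectrum k[X] => v.adicCompletion K) hR
    (glob0 h2 hb hd hsd) (glob1 h2 hb hd hsb)
  have hhalf : Half (crvT (algebraMap k[X] K a) (algebraMap k[X] K b)) (SeparableClosure K) :=
    halve_sep hR.E
  have hs := sha_of _ hhalf hD
  refine ⟨fun P0 => ?_, hs, tate_of _ hs⟩
  obtain ⟨Q, P, hP, h⟩ := pts_of _ hhalf hD P0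
  exact ⟨Q, P, hP, h⟩

end concl

end Pool.Agent.X243.CD
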