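import Mathlib.Algebra.Polynomial.Degree.Lemmas
import Mathlib.Algebra.Order.Ring.IsNonarchimedean
import Mathlib.Data.Real.Basic

/-!
Pure Newton polygons without interior lattice points.
-/

set_option autoImplicit false

open Polynomial

namespace Pool.Agent.X243.CD

/-- The Newton polygon of `f` for the nonarchimedean absolute value `w` is a segment, and this segment has
no interior lattice points: for `0 < m < n = deg f` there is no `x` in `L` with
`w(x) ^ n = (w(f(0)) / w(leading coefficient)) ^ m`. -/
structure Pure {L : Type} [Field L] (w : AbsoluteValue L ℝ) (f : L[X]) : Prop where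
  na : IsNonarchimedean w
  zero : f.coeff 0 ≠ 0
  seg : ∀ i : ℕ, w (f.coeff i) ^ f.natDegree * w (f.coeff 0) ^ i ≤
    w f.leadingCoeff ^ i * w (f.coeff 0) ^ f.natDegree
  prim : ∀ (x : L) (m : ℕ), 0 < m → m < f.natDegree →
    w x ^ f.natDegree * w f.leadingCoeff ^ m ≠ w (f.coeff 0) ^ m

end Pool.Agent.X243.CD
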