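import Pool.Agent.X243.CD.FinK
import Mathlib.RingTheory.Polynomial.GaussNorm
import Pool.Agent.X243.CD.PureDef

/-!
Pure Newton polygons without interior lattice points: irreducibility (Dumas), and pullbacks.
-/

set_option autoImplicit false
set_option linter.all false

open WeierstrassCurve WeierstrassCurve.Affine IsDedekindDomain Polynomial
open scoped Classical

namespace Pool.Agent.X243.CD

open Pool.Agent.TH115.GD Pool.Agent.X243.Gen Pool.Agent.X243.Tate Pool.Agent.X243.Sol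
open Pool.Agent.Y160.T3 Pool.Agent.W309
open Pool.Agent.W309.TD (Sq hp SqStable sqStable_of_odd)

section dumas

variable {L : Type} [Field L]

theorem Pure.irreducible {w : AbsoluteValue L ℝ} {f : L[X]} (h : Pure w f)
    (hn : 0 < f.natDegree) : Irreducible f := by
  have hf : f ≠ 0 := by
    rintro rfl
    exact h.zero (coeff_zero 0)
  obtain ⟨n, hnn⟩ : ∃ n, n = f.natDegree := ⟨_, rfl⟩
  obtain ⟨A, hA⟩ : ∃ A, A = w f.leadingCoeff := ⟨_, rfl⟩
  obtain ⟨B, hB⟩ : ∃ B, B = w (f.coeff 0) := ⟨_, rfl⟩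
  have hA0 : 0 < A := by rw [hA]; exact w.pos (leadingCoeff_ne_zero.2 hf)
  have hB0 : 0 < B := by rw [hB]; exact w.pos h.zero
  have hn0 : n ≠ 0 := by omega
  obtain ⟨c, hc⟩ : ∃ c, c = (B / A) ^ ((n : ℝ)⁻¹) := ⟨_, rfl⟩
  have hc0 : 0 < c := by rw [hc]; exact Real.rpow_pos_of_pos (div_pos hB0 hA0) _
  have hcn : c ^ n = B / A := by
    rw [hc]; exact Real.rpow_inv_natCast_pow (div_pos hB0 hA0).le hn0
  have hle : f.gaussNorm w c ≤ B := by
    obtain ⟨i, hi⟩ := f.exists_eq_gaussNorm w c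
    rw [hi]
    have h1 : (w (f.coeff i) * c ^ i) ^ n ≤ B ^ n := by
      rw [mul_pow, ← pow_mul, mul_comm i n, pow_mul, hcn, div_pow, mul_div_assoc',
        div_le_iff₀ (pow_pos hA0 i)]
      have := h.seg i
      rw [← hA, ← hB, ← hnn] at this
      linarith
    exact le_of_pow_le_pow_left₀ hn0 hB0.le h1
  refine ⟨fun hu => ?_, fun p q hpq => ?_⟩
  · have := natDegree_eq_zero_of_isUnit hu
    omega
  have hp0 : p ≠ 0 := by rintro rfl; exact hf (by rw [hpq, zero_mul])
  have hq0 : q ≠ 0 := by rintro rfl; exact hf (by rw [hpq, mul_zero])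
  have hdeg : n = p.natDegree + q.natDegree := by rw [hnn, hpq, natDegree_mul hp0 hq0]
  by_contra hcon
  push Not at hcon
  have hm0 : 0 < p.natDegree := by
    rcases Nat.eq_zero_or_pos p.natDegree with h1 | h1
    · exfalso
      refine hcon.1 ?_
      rw [eq_C_of_natDegree_eq_zero h1]
      refine isUnit_C.2 (isUnit_iff_ne_zero.2 fun h3 => hp0 ?_)
      rw [eq_C_of_natDegree_eq_zero h1, h3, C_0]
    · exact h1
  have hm1 : 0 < q.natDegree := by
    rcases Nat.eq_zero_or_pos q.natDegree with h1 | h1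
    · exfalso
      refine hcon.2 ?_
      rw [eq_C_of_natDegree_eq_zero h1]
      refine isUnit_C.2 (isUnit_iff_ne_zero.2 fun h3 => hq0 ?_)
      rw [eq_C_of_natDegree_eq_zero h1, h3, C_0]
    · exact h1
  have hmul := gaussNorm_mul h.na hc0 p q
  rw [← hpq] at hmul
  have e0 : w (p.coeff 0) * w (q.coeff 0) = B := by
    rw [hB, hpq, mul_coeff_zero, map_mul]
  have e1 : w p.leadingCoeff * w q.leadingCoeff = A := by
    rw [hA, hpq, leadingCoeff_mul, map_mul]
  have g0 := p.le_gaussNorm w hc0.le 0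
  have g1 := q.le_gaussNorm w hc0.le 0
  have g2 := p.le_gaussNorm w hc0.le p.natDegree
  have g3 := q.le_gaussNorm w hc0.le q.natDegree
  rw [pow_zero, mul_one] at g0 g1
  rw [coeff_natDegree] at g2 g3
  obtain ⟨P, hP⟩ : ∃ P, P = p.gaussNorm w c := ⟨_, rfl⟩
  obtain ⟨Q, hQ⟩ : ∃ Q, Q = q.gaussNorm w c := ⟨_, rfl⟩
  rw [← hP] at g0 g2
  rw [← hQ] at g1 g3
  rw [← hP, ← hQ] at hmul
  have hPQ : P * Q ≤ B := by rw [← hmul]; exact hle
  have wp0 : 0 < w (p.coeff 0) := by
    refine w.pos fun h1 => ?_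
    rw [h1, map_zero, zero_mul] at e0
    exact hB0.ne e0
  have wq0 : 0 < w (q.coeff 0) := by
    refine w.pos fun h1 => ?_
    rw [h1, map_zero, mul_zero] at e0
    exact hB0.ne e0
  have wlp : 0 < w p.leadingCoeff := w.pos (leadingCoeff_ne_zero.2 hp0)
  have wlq : 0 < w q.leadingCoeff := w.pos (leadingCoeff_ne_zero.2 hq0)
  have hQ0 : 0 < Q := lt_of_lt_of_le wq0 g1
  have k0 : P ≤ w (p.coeff 0) := by
    by_contra hlt
    push Not at hlt
    have : B < P * Q := by
      calc B = w (p.coeff 0) * w (q.coeff 0) := e0.symm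
        _ ≤ w (p.coeff 0) * Q := mul_le_mul_of_nonneg_left g1 wp0.le
        _ < P * Q := mul_lt_mul_of_pos_right hlt hQ0
    linarith
  have hBA : B = A * c ^ n := by rw [hcn]; field_simp
  have k1 : P ≤ w p.leadingCoeff * c ^ p.natDegree := by
    by_contra hlt
    push Not at hlt
    have : B < P * Q := by
      calc B = (w p.leadingCoeff * c ^ p.natDegree) * (w q.leadingCoeff * c ^ q.natDegree) := by
            rw [hBA, ← e1, hdeg, pow_add]; ring
        _ ≤ (w p.leadingCoeff * c ^ p.natDegree) * Q :=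
            mul_le_mul_of_nonneg_left g3 (mul_pos wlp (pow_pos hc0 _)).le
        _ < P * Q := mul_lt_mul_of_pos_right hlt hQ0
    linarith
  have key : w (p.coeff 0) = w p.leadingCoeff * c ^ p.natDegree := by
    rw [← le_antisymm g0 k0 |>.symm] at *
    linarith [le_antisymm g2 k1]
  refine h.prim (p.coeff 0 / p.leadingCoeff) p.natDegree hm0 (by omega) ?_
  rw [← hA, ← hB, ← hnn, map_div₀, key, mul_div_cancel_left₀ _ wlp.ne', ← pow_mul,
    mul_comm p.natDegree n, pow_mul, hcn, div_pow]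
  field_simp

theorem sep_of_cast {f : L[X]} (hf : Irreducible f) (hn : (f.natDegree : L) ≠ 0) :
    f.Separable := by
  rw [separable_iff_derivative_ne_zero hf]
  intro h0
  have hpos : 0 < f.natDegree := hf.natDegree_pos
  have h1 := congrArg (fun p : L[X] => p.coeff (f.natDegree - 1)) h0
  simp only [coeff_derivative, coeff_zero] at h1
  rw [Nat.sub_add_cancel hpos, coeff_natDegree] at h1
  rcases mul_eq_zero.1 h1 with h3 | h3
  · exact hf.ne_zero (leadingCoeff_eq_zero.1 h3)
  · apply hn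
    rw [← h3, ← Nat.cast_succ, Nat.succ_eq_add_one, Nat.sub_add_cancel hpos]

end dumas

section pull

variable {k K₀ : Type} [Field k] [Field K₀] [Algebra k[X] K₀] [IsFractionRing k[X] K₀]
variable {L : Type} [Field L] [Algebra k L] {L' K F : Type} [Field L'] [Algebra L L']
    [Field K] [Algebra L[X] K] [Field F] [Algebra L'[X] F] [IsFractionRing L'[X] F] [Algebra K F]

theorem pure_three {g : L[X]} {n : ℕ} (hn : Odd n) (hgn : g.natDegree = n) (hn0 : (n : L) ≠ 0)
    {ξ : L} (h : ∃ w : AbsoluteValue L ℝ, Pure w (g - C ξ)) :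
    Irreducible (g - C ξ) ∧ (g - C ξ).natDegree = n ∧ (g - C ξ).Separable := by
  obtain ⟨w, hw⟩ := h
  have h1 : (g - C ξ).natDegree = n := by rw [natDegree_sub_C, hgn]
  have h3 := hw.irreducible (by rw [h1]; exact hn.pos)
  exact ⟨h3, h1, sep_of_cast h3 (by rw [h1]; exact hn0)⟩

theorem newton_pull (hT : IsTower L L' K F) [IsFractionRing L[X] K] (h2 : (2 : k) ≠ 0)
    {a b : k[X]} (hB : BaseT K₀ a b) {g : L[X]} (hn : Odd g.natDegree)
    (hn0 : (g.natDegree : L) ≠ 0)
    (hw : ∀ ξ, (b * (a ^ 2 - 4 * b)).IsRoot ξ →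
      ∃ w : AbsoluteValue L ℝ, Pure w (g - C (algebraMap k L ξ))) :
    TateAtTwo (F := F) L' (pullCurve K a b g) ∧ PointsFromBase K₀ K a b g ∧
      (NoInf a b → Sha.ShaTwoTrivial L[X] (pullCurve K a b g)) :=
  odd_pull hT h2 hB hn fun ξ hξ => pure_three hn rfl hn0 (hw ξ hξ)

theorem newton_full (hT : IsTower L L' K F) (h2 : (2 : k) ≠ 0)
    {a b : k[X]} (hB : Base K₀ a b) {g : L[X]} (hn : Odd g.natDegree)
    (hn0 : (g.natDegree : L) ≠ 0)
    (hw : ∀ ξ, (a * b * (a - b)).IsRoot ξ →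
      ∃ w : AbsoluteValue L ℝ, Pure w (g - C (algebraMap k L ξ))) :
    TateAtTwo (F := F) L' (pullFull K a b g) ∧
      Complete K ((a.map (algebraMap k L)).comp g) ((b.map (algebraMap k L)).comp g) :=
  odd_full hT h2 hB hn.pos hn fun ξ hξ => pure_three hn rfl hn0 (hw ξ hξ)

/-- Shifts by an element of large absolute value. -/
theorem pure_shift {w : AbsoluteValue L ℝ} (hw : IsNonarchimedean w) {c ξ : L} (hc : 1 < w c)
    (hξ : w ξ ≤ 1) {n : ℕ} (hn : 0 < n)
    (hp : ∀ (x : L) (m : ℕ), 0 < m → m < n → w x ^ n ≠ w c ^ m) :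
    Pure w (X ^ n + C c - C ξ) := by
  have e : (X ^ n + C c - C ξ : L[X]) = X ^ n + C (c - ξ) := by rw [C_sub]; ring
  have hcξ : w (c - ξ) = w c := by
    have h1 : w (c - ξ) ≤ w c := by
      have := hw c (-ξ)
      rw [← sub_eq_add_neg, w.map_neg] at this
      exact this.trans (max_le le_rfl (hξ.trans hc.le))
    refine le_antisymm h1 ?_
    have h3 := hw (c - ξ) ξ
    rw [sub_add_cancel] at h3
    rcases le_max_iff.1 h3 with h4 | h4
    · exact h4
    · linarith
  have hdeg : (X ^ n + C (c - ξ) : L[X]).natDegree = n := natDegree_X_pow_add_C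
  have hmon : (X ^ n + C (c - ξ) : L[X]).leadingCoeff = 1 := leadingCoeff_X_pow_add_C hn
  have h0 : (X ^ n + C (c - ξ) : L[X]).coeff 0 = c - ξ := by
    rw [coeff_add, coeff_X_pow, if_neg hn.ne, coeff_C_zero, zero_add]
  have hc0 : 0 < w (c - ξ) := by rw [hcξ]; linarith
  rw [e]
  refine ⟨hw, ?_, fun i => ?_, fun x m hm hmn => ?_⟩
  · rw [h0]
    intro h
    rw [h, map_zero] at hc0
    exact lt_irrefl _ hc0
  · rw [hdeg, hmon, h0, map_one, one_pow, one_mul]
    by_cases hi0 : i = 0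
    · rw [hi0, h0, pow_zero, mul_one]
    · by_cases hin : i = n
      · have h5 : (X ^ n + C (c - ξ) : L[X]).coeff n = 1 := by
          rw [coeff_add, coeff_X_pow, if_pos rfl, coeff_C, if_neg hn.ne', add_zero]
        rw [hin, h5, map_one, one_pow, one_mul]
      · have h5 : (X ^ n + C (c - ξ) : L[X]).coeff i = 0 := by
          rw [coeff_add, coeff_X_pow, if_neg hin, coeff_C, if_neg hi0, add_zero]
        rw [h5, map_zero, zero_pow hn.ne', zero_mul]
        exact (pow_pos hc0 n).le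
  · rw [hdeg] at hmn
    rw [hdeg, hmon, h0, map_one, one_pow, mul_one, hcξ]
    exact hp x m hm hmn

end pull

end Pool.Agent.X243.CD
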