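import Pool.Agent.X243.CD.Three
import Pool.Agent.X243.Gen.PullT

/-!
Complete two-descent for curves with a rational point of order two and complete first descent.
-/

set_option autoImplicit false
set_option linter.all false

open WeierstrassCurve WeierstrassCurve.Affine IsDedekindDomain Polynomial
open scoped Classical

namespace Pool.Agent.X243.CD

open Pool.Agent.TH115.GD Pool.Agent.X243.Gen
open Pool.Agent.W309.TD (Sq hp SqStable even_rep noTwo_of_pid sq_unit unit_stable sq_transfer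
  sq_of_nonsq exp_neg_one_not_square)

section nm

variable {F : Type*} [Field F]

/-- Norms from `F(√d)`. -/
def Nm (d x : F) : Prop := ∃ s r : F, x = s ^ 2 - d * r ^ 2

theorem Nm.mul {d x y : F} (hx : Nm d x) (hy : Nm d y) : Nm d (x * y) := by
  obtain ⟨s, r, rfl⟩ := hx
  obtain ⟨s', r', rfl⟩ := hy
  exact ⟨s * s' + d * (r * r'), s * r' + r * s', by ring⟩

theorem Nm.sq (d c : F) : Nm d (c ^ 2) := ⟨c, 0, by ring⟩

theorem Nm.map {F' : Type*} [Field F'] (φ : F →+* F') {d x : F} (h : Nm d x) :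
    Nm (φ d) (φ x) := by
  obtain ⟨s, r, rfl⟩ := h
  exact ⟨φ s, φ r, by simp only [map_sub, map_mul, map_pow]⟩

theorem zc_nm {a b z : F} (h2 : (2 : F) ≠ 0) (hd : a ^ 2 - 4 * b ≠ 0) (h : Zc a b z) :
    Nm (a ^ 2 - 4 * b) z := by
  rcases h with h | h | ⟨h, y, hy⟩
  · rw [h]; exact ⟨1, 0, by ring⟩
  · rw [h]
    refine ⟨a / 2, 1 / 2, ?_⟩
    field_simp
    ring
  · have h5 : (2 * y) ^ 2 = z * ((2 * z + a) ^ 2 - (a ^ 2 - 4 * b)) := by
      linear_combination 4 * hy
    obtain ⟨T, hT⟩ : ∃ T, T = 2 * z + a := ⟨_, rfl⟩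
    obtain ⟨D, hD⟩ : ∃ D, D = a ^ 2 - 4 * b := ⟨_, rfl⟩
    rw [← hT, ← hD] at h5
    rw [← hD] at hd ⊢
    by_cases h0 : T ^ 2 - D = 0
    · have h4 : D = T ^ 2 := by linear_combination -h0
      have h3 : T ≠ 0 := by
        rintro rfl
        apply hd
        rw [h4]; ring
      refine ⟨(z + 1) / 2, (z - 1) / (2 * T), ?_⟩
      rw [h4]
      field_simp
      ring
    · refine ⟨2 * y * T / (T ^ 2 - D), 2 * y / (T ^ 2 - D), ?_⟩
      obtain ⟨N, hN⟩ : ∃ N, N = T ^ 2 - D := ⟨_, rfl⟩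
      rw [← hN] at h0 h5 ⊢
      have e : (2 * y * T / N) ^ 2 - D * (2 * y / N) ^ 2 = (2 * y) ^ 2 * (T ^ 2 - D) / N ^ 2 := by
        field_simp
      rw [e, h5, ← hN]
      field_simp

variable {v : Valuation F (WithZero (Multiplicative ℤ))}

theorem nm_sq {d x : F} (hn : ¬ IsSquare (v d)) (hx : x ≠ 0) (he : IsSquare (v x))
    (h : Nm d x) : Sq v x := by
  obtain ⟨s, r, e⟩ := h
  by_cases hr : r = 0
  · rw [hr] at e
    have e' : x = s ^ 2 := by rw [e]; ring
    rw [e']
    apply Sq.sq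
    rintro rfl
    apply hx
    rw [e']; ring
  have hdr : ¬ IsSquare (v (d * r ^ 2)) := by
    intro h3
    apply hn
    rw [mul_comm, map_mul, map_pow, pow_two] at h3
    exact Pool.Agent.W309.TD.IsSquare.of_mul_left' ⟨v r, rfl⟩
      (mul_ne_zero (v.ne_zero_iff.2 hr) (v.ne_zero_iff.2 hr)) h3
  rcases lt_trichotomy (v (s ^ 2)) (v (d * r ^ 2)) with h3 | h3 | h3
  · exfalso
    apply hdr
    rw [← v.map_sub_eq_of_lt_right h3, ← e]
    exact he
  · exfalso
    apply hdr
    rw [← h3, map_pow, pow_two]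
    exact ⟨_, rfl⟩
  · refine ⟨s, ?_⟩
    have e1 : x - s ^ 2 = -(d * r ^ 2) := by rw [e]; ring
    have e2 : v x = v (s ^ 2) := by rw [e, v.map_sub_eq_of_lt_left h3]
    rw [e1, v.map_neg, e2]
    exact h3

end nm

section part

variable {k : Type} [Field k]

/-- The squarefree part. -/
theorem sqf_part : ∀ (n : ℕ) (p : k[X]), p ≠ 0 → p.natDegree ≤ n →
    ∃ (A h : k[X]) (c : k), A.Monic ∧ Squarefree A ∧ c ≠ 0 ∧ h ≠ 0 ∧ p = C c * A * h ^ 2 := by
  intro n
  induction n using Nat.strong_induction_on with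
  | _ n ih =>
    intro p hp hn
    by_cases hs : Squarefree p
    · have hl : p.leadingCoeff ≠ 0 := leadingCoeff_ne_zero.2 hp
      refine ⟨C p.leadingCoeff⁻¹ * p, 1, p.leadingCoeff, ?_, ?_, hl, one_ne_zero, ?_⟩
      · rw [Monic, leadingCoeff_mul, leadingCoeff_C, inv_mul_cancel₀ hl]
      · have hu : IsUnit (C p.leadingCoeff⁻¹ : k[X]) :=
          isUnit_C.2 (isUnit_iff_ne_zero.2 (inv_ne_zero hl))
        intro x hx
        exact hs x ((hu.dvd_mul_left).1 hx)
      · rw [← mul_assoc, ← C_mul, mul_inv_cancel₀ hl, C_1]; ring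
    · unfold Squarefree at hs
      push Not at hs
      obtain ⟨x, ⟨q, hq⟩, hx⟩ := hs
      have hx0 : x ≠ 0 := by
        rintro rfl
        apply hp
        rw [hq]; ring
      have hq0 : q ≠ 0 := by
        rintro rfl
        apply hp
        rw [hq]; ring
      have hxd : 0 < x.natDegree := by
        rcases Nat.eq_zero_or_pos x.natDegree with h | h
        · exfalso
          apply hx
          rw [eq_C_of_natDegree_eq_zero h]
          apply isUnit_C.2
          apply isUnit_iff_ne_zero.2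
          intro h0
          apply hx0
          rw [eq_C_of_natDegree_eq_zero h, h0, C_0]
        · exact h
      have hdeg : p.natDegree = x.natDegree + x.natDegree + q.natDegree := by
        rw [hq, natDegree_mul (mul_ne_zero hx0 hx0) hq0, natDegree_mul hx0 hx0]
      obtain ⟨A, h, c, hA, hA', hc, hh, e⟩ := ih q.natDegree (by omega) q hq0 le_rfl
      refine ⟨A, x * h, c, hA, hA', hc, mul_ne_zero hx0 hh, ?_⟩
      rw [hq, e]; ring

theorem sqf_dvd {A b : k[X]} (hA : Squarefree A) (h0 : A ≠ 0)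
    (h : ∀ π : k[X], Irreducible π → π ∣ A → π ∣ b) : A ∣ b := by
  rcases eq_or_ne b 0 with rfl | hb
  · exact dvd_zero A
  rw [UniqueFactorizationMonoid.dvd_iff_normalizedFactors_le_normalizedFactors h0 hb]
  have hn := (UniqueFactorizationMonoid.squarefree_iff_nodup_normalizedFactors h0).1 hA
  rw [Multiset.le_iff_subset hn]
  intro π hπ
  have h1 := UniqueFactorizationMonoid.irreducible_of_normalized_factor π hπ
  have h3 := UniqueFactorizationMonoid.normalize_normalized_factor π hπ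
  have h4 := h π h1 (UniqueFactorizationMonoid.dvd_of_mem_normalizedFactors hπ)
  obtain ⟨q, hq, hqa⟩ := UniqueFactorizationMonoid.exists_mem_normalizedFactors_of_dvd hb h1 h4
  have h5 := UniqueFactorizationMonoid.normalize_normalized_factor q hq
  have h6 : π = q := by
    rw [← h3, ← h5]
    exact normalize_eq_normalize hqa.dvd hqa.symm.dvd
  rw [h6]
  exact hq

end part

section core

variable {k K : Type} [Field k] [Field K] [Algebra k[X] K] [IsFractionRing k[X] K]

/-- Elements of the form `e x` with a norm `x` and even valuation are squares to first order. -/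
def NormSq (v : HeightOneSpectrum k[X]) (d e : K) : Prop :=
  ∀ x : K, x ≠ 0 → Nm d x → IsSquare (v.valuation K (e * x)) → Sq (v.valuation K) (e * x)

theorem normSq_of_loc {v : HeightOneSpectrum k[X]} {a b e : K} (he : e ≠ 0) (h2 : (2 : K) ≠ 0)
    (hd0 : a ^ 2 - 4 * b ≠ 0)
    (hn : ¬ IsSquare (v.valuation K (a ^ 2 - 4 * b))) (h : LocZ a b (v.adicCompletion K) e) :
    NormSq v (a ^ 2 - 4 * b) e := by
  intro x hx hnx hev
  obtain ⟨c, z, hc, e1, hz⟩ := h
  apply sq_transfer
  have inj := (algebraMap K (v.adicCompletion K)).injective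
  have emap : (algebraMap K (v.adicCompletion K) a) ^ 2 - 4 * algebraMap K (v.adicCompletion K) b =
      algebraMap K (v.adicCompletion K) (a ^ 2 - 4 * b) := by
    simp only [map_sub, map_mul, map_pow, map_ofNat]
  apply nm_sq (d := algebraMap K (v.adicCompletion K) (a ^ 2 - 4 * b))
  · rw [w_eq]; exact hn
  · exact (map_ne_zero_iff _ inj).2 (mul_ne_zero he hx)
  · rw [w_eq]; exact hev
  · rw [map_mul, e1]
    refine ((Nm.sq _ c).mul ?_).mul (hnx.map (algebraMap K (v.adicCompletion K)))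
    rw [← emap]
    refine zc_nm ?_ ?_ hz
    · rw [← map_ofNat (algebraMap K (v.adicCompletion K)) 2]
      exact (map_ne_zero_iff _ inj).2 h2
    · rw [emap]
      exact (map_ne_zero_iff _ inj).2 hd0

theorem normSq_of_glob {v : HeightOneSpectrum k[X]} {a b e : K} (he : e ≠ 0) (h2 : (2 : K) ≠ 0)
    (hd0 : a ^ 2 - 4 * b ≠ 0)
    (hn : ¬ IsSquare (v.valuation K (a ^ 2 - 4 * b))) (h : LocZ a b K e) :
    NormSq v (a ^ 2 - 4 * b) e := by
  intro x hx hnx hev
  obtain ⟨c, z, hc, e1, hz⟩ := h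
  apply nm_sq hn (mul_ne_zero he hx) hev
  have e2 : e = c ^ 2 * z := e1
  rw [e2]
  exact ((Nm.sq _ c).mul (zc_nm h2 hd0 hz)).mul hnx

theorem dT_zc {a b : K} (P : Pt (crvT a b) K) : Zc a b (dT b P) := by
  rcases P with _ | ⟨x, y, hxy⟩
  · exact Or.inl rfl
  · simp only [dT]
    split_ifs with hx
    · exact Or.inr (Or.inl rfl)
    · exact Or.inr (Or.inr ⟨hx, y, crvT_eq hxy⟩)

theorem dT_ne {a b : K} (hb : b ≠ 0) (P : Pt (crvT a b) K) : dT b P ≠ 0 := by
  rcases P with _ | ⟨x, y, hxy⟩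
  · exact one_ne_zero
  · simp only [dT]
    split_ifs with hx
    · exact hb
    · exact hx

/-- The first descent is complete for the divisors with `I`, with points of the set `S`. -/
def CompleteIn (K : Type) [Field K] [Algebra k[X] K] (a b : k[X]) (I : k[X] → Prop)
    (S : Set (Pt (crvT (algebraMap k[X] K a) (algebraMap k[X] K b)) K)) : Prop :=
  ∀ A : k[X], A.Monic → Squarefree A → A ∣ b → I A →
    ∃ P : Pt (crvT (algebraMap k[X] K a) (algebraMap k[X] K b)) K, P ∈ S ∧
      ∃ (c : k) (h : K), c ≠ 0 ∧ h ≠ 0 ∧ algebraMap k[X] K (C c * A) =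
        h ^ 2 * dT (algebraMap k[X] K b) P

/-- **The core of the descent.** -/
theorem coreIn {a b : k[X]} (h2 : (2 : k) ≠ 0) (hb : b ≠ 0) (hd : a ^ 2 - 4 * b ≠ 0)
    {S : Set (Pt (crvT (algebraMap k[X] K a) (algebraMap k[X] K b)) K)} {I : k[X] → Prop}
    (hC : CompleteIn K a b I S) {π : k[X]} (hπ : Irreducible π) (hs : SqStable π)
    {e : K} (he : e ≠ 0)
    (hE : ∀ v : HeightOneSpectrum k[X], v.valuation K (algebraMap k[X] K b) = 1 →
      IsSquare (v.valuation K e))
    (hI : ∀ (A : k[X]) (c : k) (h : K), A.Monic → c ≠ 0 → h ≠ 0 →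
      e = algebraMap k[X] K (C c * A) * h ^ 2 → I A)
    (hN : NormSq (hp π hπ) (algebraMap k[X] K (a ^ 2 - 4 * b)) e) :
    ∃ (P : Pt (crvT (algebraMap k[X] K a) (algebraMap k[X] K b)) K) (c : K), P ∈ S ∧ c ≠ 0 ∧
      e = c ^ 2 * dT (algebraMap k[X] K b) P := by
  have inj := IsFractionRing.injective k[X] K
  have h2K : (2 : K) ≠ 0 := tt h2
  have hbK : algebraMap k[X] K b ≠ 0 := by simpa using hb
  have emap : (algebraMap k[X] K a) ^ 2 - 4 * algebraMap k[X] K b =
      algebraMap k[X] K (a ^ 2 - 4 * b) := by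
    simp only [map_sub, map_mul, map_pow, map_ofNat]
  have hdK : (algebraMap k[X] K a) ^ 2 - 4 * algebraMap k[X] K b ≠ 0 := by
    rw [emap, Ne, map_eq_zero_iff _ inj]
    exact hd
  -- the squarefree part
  obtain ⟨n, m, hm, hnm⟩ := IsFractionRing.div_surjective (A := k[X]) e
  have hm0 : m ≠ 0 := nonZeroDivisors.ne_zero hm
  have hmK : algebraMap k[X] K m ≠ 0 := by simpa using hm0
  have hn0 : n ≠ 0 := by
    rintro rfl
    rw [map_zero, zero_div] at hnm
    exact he hnm.symm
  obtain ⟨A, h, c0, mA, sA, hc0, hh, eA⟩ := sqf_part _ (n * m) (mul_ne_zero hn0 hm0) le_rfl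
  have hhK : algebraMap k[X] K h ≠ 0 := by simpa using hh
  have e1 : e = algebraMap k[X] K (C c0 * A) * (algebraMap k[X] K h / algebraMap k[X] K m) ^ 2 := by
    have h3 := congrArg (algebraMap k[X] K) eA
    rw [map_mul, map_mul _ (C c0 * A), map_pow] at h3
    rw [← hnm]
    field_simp
    rw [← h3]
  have hw0 : algebraMap k[X] K h / algebraMap k[X] K m ≠ 0 := div_ne_zero hhK hmK
  have hu0 : IsUnit (C c0 : k[X]) := isUnit_C.2 (isUnit_iff_ne_zero.2 hc0)
  have hAb : A ∣ b := by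
    refine sqf_dvd sA mA.ne_zero fun ρ hρ hρA => ?_
    by_contra hcon
    have h3 := hE (hp ρ hρ) (hp_one hρ hcon)
    obtain ⟨A', hA'⟩ := hρA
    have hA'0 : ¬ ρ ∣ A' := by
      intro h4
      obtain ⟨A'', hA''⟩ := h4
      apply hρ.not_isUnit
      apply sA ρ
      rw [hA', hA'']
      exact ⟨A'', by ring⟩
    have e3 : e = (algebraMap k[X] K h / algebraMap k[X] K m) ^ 2 *
        (algebraMap k[X] K (C c0 * A') * algebraMap k[X] K ρ) := by
      rw [e1, hA', ← map_mul]
      have : C c0 * (ρ * A') = C c0 * A' * ρ := by ring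
      rw [this]; ring
    have hcA : ¬ ρ ∣ C c0 * A' := fun h5 => hA'0 (hu0.dvd_mul_left.1 h5)
    rw [e3, map_mul, map_pow, pow_two] at h3
    have h4 := Pool.Agent.W309.TD.IsSquare.of_mul_left' ⟨_, rfl⟩
      (mul_ne_zero ((Valuation.ne_zero_iff _).2 hw0) ((Valuation.ne_zero_iff _).2 hw0)) h3
    rw [map_mul, hp_one hρ hcA, one_mul] at h4
    exact hp_ns hρ h4
  obtain ⟨P, hPS, c, h', hc, hh', eP⟩ := hC A mA sA hAb (hI A c0 _ mA hc0 hw0 e1)
  obtain ⟨α, hα⟩ : ∃ α, α = dT (algebraMap k[X] K b) P := ⟨_, rfl⟩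
  have hα0 : α ≠ 0 := by rw [hα]; exact dT_ne hbK P
  rw [← hα] at eP
  -- `e α` is a constant times a square
  have hcK : algebraMap k[X] K (C c) ≠ 0 := by simpa using hc
  have e2 : e * α = algebraMap k[X] K (C (c0 / c)) *
      (h' * (algebraMap k[X] K h / algebraMap k[X] K m) * α) ^ 2 := by
    have h3 : algebraMap k[X] K (C (c0 / c)) * algebraMap k[X] K (C c) =
        algebraMap k[X] K (C c0) := by
      rw [← map_mul, ← C_mul, div_mul_cancel₀ _ hc]
    rw [map_mul] at eP
    rw [e1, map_mul, ← h3]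
    linear_combination (algebraMap k[X] K (C (c0 / c)) * α *
      (algebraMap k[X] K h / algebraMap k[X] K m) ^ 2) * eP
  have heα : e * α ≠ 0 := mul_ne_zero he hα0
  have hev : ∀ v : HeightOneSpectrum k[X], IsSquare (v.valuation K (e * α)) := by
    intro v
    rw [e2, map_mul, map_pow, pow_two]
    have h3 : v.valuation K (algebraMap k[X] K (C (c0 / c))) = 1 := by
      refine le_antisymm (v.valuation_le_one _) (not_lt.1 fun h' => ?_)
      have hm := (v.valuation_lt_one_iff_mem (K := K) (C (c0 / c))).1 h'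
      exact v.isPrime.ne_top (Ideal.eq_top_of_isUnit_mem _ hm
        (isUnit_C.2 (isUnit_iff_ne_zero.2 (div_ne_zero hc0 hc))))
    rw [h3, one_mul]
    exact ⟨_, rfl⟩
  have hSq := hN α hα0 (by rw [← emap, hα]; exact zc_nm h2K hdK (dT_zc P)) (hev _)
  obtain ⟨s, hs0, es⟩ := glob_sq heα hev hπ hs hSq
  refine ⟨P, s / α, hPS, div_ne_zero hs0 hα0, ?_⟩
  rw [← hα, div_pow, ← es]
  field_simp

end core

end Pool.Agent.X243.CD
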