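import Pool.Agent.TH115.ID.Defs

/-!
Special points on `y² = x (x² + (w² - p - q) x + p q)`.
-/

set_option autoImplicit false
set_option linter.all false

open WeierstrassCurve WeierstrassCurve.Affine
open scoped Classical

namespace Pool.Agent.X243.CD

open Pool.Agent.TH115.GD

/-- The points `0`, `(0, 0)`, `(p, p w)`, `(q, q w)`. -/
def Special {K : Type} [Field K] (p q w : K) {a b : K} (P : Pt (crvT a b) K) : Prop :=
  P = 0 ∨ ∃ x h, (x = 0 ∨ x = p ∨ x = q) ∧ P = Point.some x (x * w) h

end Pool.Agent.X243.CD
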