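import Pool.Agent.X243.CD.Pull
import Pool.Agent.X243.CD.Three
import Pool.Agent.X243.CD.RankOneDef

/-!
The Mordell-Weil group modulo two and the Tate-Shafarevich group for
`y² = x (x² + (w² - p - q) x + p q)`.
-/

set_option autoImplicit false
set_option linter.all false

open WeierstrassCurve WeierstrassCurve.Affine IsDedekindDomain Polynomial
open scoped Classical

namespace Pool.Agent.X243.CD

open Pool.Agent.TH115.GD Pool.Agent.X243.Gen Pool.Agent.X243.Tate Pool.Agent.W309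
open Pool.Agent.W309.TD (Sq hp SqStable even_rep noTwo_of_pid sq_unit unit_stable sq_transfer
  sq_of_nonsq exp_neg_one_not_square)

section tor

variable {K : Type} [Field K]

/-- The points `0` and `(0, 0)`. -/
def TorT {a b : K} (P : Pt (crvT a b) K) : Prop := P = 0 ∨ ∃ y h, P = Point.some 0 y h

theorem tor_cast {a b a' b' : K} (ea : a = a') (eb : b = b') {e : K}
    (h : ∃ (P : Pt (crvT a b) K) (c : K), TorT P ∧ c ≠ 0 ∧ e = c ^ 2 * dT b P) :
    ∃ (P : Pt (crvT a' b') K) (c : K), TorT P ∧ c ≠ 0 ∧ e = c ^ 2 * dT b' P := by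
  subst ea eb
  exact h

theorem dual_tor {a b : K} {R : Pt (crvT (-2 * a) (a ^ 2 - 4 * b)) K} {Q : Pt (crvT a b) K}
    (hR : TorT R) (h : DualPt R Q) : Q = 0 := by
  rcases h with rfl | ⟨z, y, h1, h', hz, rfl, rfl⟩
  · rfl
  · exfalso
    rcases hR with hR | ⟨y', h3, hR⟩
    · exact absurd hR (Point.some_ne_zero _)
    · rw [Point.some.injEq] at hR
      exact hz hR.1

end tor

section sets

variable {k K : Type} [Field k] [Field K] [Algebra k[X] K] [IsFractionRing k[X] K]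

/-- The descent with a set of points, when the dual descent needs only points of order two. -/
theorem desc_sets {a b : k[X]} (h2 : (2 : k) ≠ 0) (hb : b ≠ 0) (hd : a ^ 2 - 4 * b ≠ 0)
    {S : Set (Pt (crvT (algebraMap k[X] K a) (algebraMap k[X] K b)) K)}
    (c1 : CompleteIn K a b (fun _ => True) S)
    (c2 : CompleteIn K (-2 * a) (a ^ 2 - 4 * b) (fun _ => True) {P | TorT P})
    (o1 : ∃ (π : k[X]) (hπ : Irreducible π), SqStable π ∧
      ¬ IsSquare ((hp π hπ).valuation K (algebraMap k[X] K (a ^ 2 - 4 * b))))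
    (o2 : ∃ (π : k[X]) (hπ : Irreducible π), SqStable π ∧
      ¬ IsSquare ((hp π hπ).valuation K (algebraMap k[X] K b))) :
    Desc (SeparableClosure K) (crvT (algebraMap k[X] K a) (algebraMap k[X] K b))
      (fun v : HeightOneSpectrum k[X] => v.adicCompletion K)
      (fun v => SeparableClosure (v.adicCompletion K)) S := by
  obtain ⟨π1, hπ1, s1, o1⟩ := o1
  obtain ⟨π2, hπ2, s2, o2⟩ := o2
  have inj := IsFractionRing.injective k[X] K
  have h2K : (2 : K) ≠ 0 := tt h2
  have hbK : algebraMap k[X] K b ≠ 0 := by simpa using hb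
  have hdK : (algebraMap k[X] K a) ^ 2 - 4 * algebraMap k[X] K b ≠ 0 := by
    rw [← emap', Ne, map_eq_zero_iff _ inj]
    exact hd
  obtain ⟨α, β, hR⟩ := exists_roots (Ω := SeparableClosure K) h2K hbK hdK
  have g0 : Glob0 (fun v : HeightOneSpectrum k[X] => v.adicCompletion K)
      (algebraMap k[X] K a) (algebraMap k[X] K b) S := by
    intro e he hloc
    have hok := locOK_loc (I := fun _ => True) h2 hb hd (fun _ => trivial) hπ1 o1 he
      (fun v => locz0 hbK (hloc v))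
    exact coreIn h2 hb hd c1 hπ1 s1 he hok.even hok.inf hok.norm
  have e16 : (-2 * a) ^ 2 - 4 * (a ^ 2 - 4 * b) = 16 * b := by ring
  have hd2 : (-2 * a) ^ 2 - 4 * (a ^ 2 - 4 * b) ≠ 0 := by
    rw [e16]
    have h16 : (16 : k[X]) ≠ 0 := by
      have h4 : (4 : k) ≠ 0 := by
        have : (4 : k) = 2 * 2 := by norm_num
        rw [this]
        exact mul_ne_zero h2 h2
      have e : (16 : k[X]) = C 4 * C 4 := by
        rw [C_ofNat]; norm_num
      rw [e]
      exact mul_ne_zero (C_ne_zero.2 h4) (C_ne_zero.2 h4)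
    exact mul_ne_zero h16 hb
  have g1 : Glob1In (fun v : HeightOneSpectrum k[X] => v.adicCompletion K)
      (algebraMap k[X] K a) (algebraMap k[X] K b) {P | TorT P} := by
    intro e he hloc
    have hok := locOK_loc (I := fun _ => True) h2 hd hd2 (fun _ => trivial) hπ2
      (by rw [e16, val16 h2]; exact o2) he (fun v => conv1 (hloc v))
    have key := coreIn h2 hd hd2 c2 hπ2 s2 he hok.even hok.inf hok.norm
    have e1 : algebraMap k[X] K (-2 * a) = -2 * algebraMap k[X] K a := by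
      simp only [map_mul, map_neg, map_ofNat]
    exact tor_cast e1 (emap' a b) key
  have hD := descT2 (Ω' := fun v : HeightOneSpectrum k[X] => SeparableClosure (v.adicCompletion K))
    (F := fun v : HeightOneSpectrum k[X] => v.adicCompletion K) hR h2K hbK hdK g0 g1
  intro f hf hf2 hloc
  obtain ⟨P, H, ⟨P1, Q, R, hP1, hR', hdual, hPe⟩, hH, hfH⟩ := hD f hf hf2 hloc
  have hQ := dual_tor hR' hdual
  refine ⟨P, H, ?_, hH, hfH⟩
  rw [hPe, hQ, add_zero]
  exact hP1

/-- **The criterion.** -/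
theorem rank_one {p q w : k[X]} (h2 : (2 : k) ≠ 0) (hp' : Irreducible p) (hq' : Irreducible q)
    (hco : IsCoprime p q) (hd' : Irreducible ((w ^ 2 - p - q) ^ 2 - 4 * (p * q)))
    (sp : SqStable p) (sd : SqStable ((w ^ 2 - p - q) ^ 2 - 4 * (p * q))) :
    (∀ P0 : Pt (crvT (algebraMap k[X] K (w ^ 2 - p - q)) (algebraMap k[X] K (p * q))) K,
      ∃ Q P1 : Pt (crvT (algebraMap k[X] K (w ^ 2 - p - q)) (algebraMap k[X] K (p * q))) K,
        Special (algebraMap k[X] K p) (algebraMap k[X] K q) (algebraMap k[X] K w) P1 ∧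
        P0 = Q + Q + P1) ∧
    Sha.ShaTwoTrivial k[X]
      (crvT (algebraMap k[X] K (w ^ 2 - p - q)) (algebraMap k[X] K (p * q))) := by
  obtain ⟨a, ha⟩ : ∃ a, a = w ^ 2 - p - q := ⟨_, rfl⟩
  obtain ⟨b, hb⟩ : ∃ b, b = p * q := ⟨_, rfl⟩
  rw [← ha, ← hb] at hd' sd ⊢
  have inj := IsFractionRing.injective k[X] K
  have h2K : (2 : K) ≠ 0 := tt h2
  have hb0 : b ≠ 0 := by rw [hb]; exact mul_ne_zero hp'.ne_zero hq'.ne_zero
  have hd0 := hd'.ne_zero
  have hbK : algebraMap k[X] K b ≠ 0 := by simpa using hb0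
  have hdK : (algebraMap k[X] K a) ^ 2 - 4 * algebraMap k[X] K b ≠ 0 := by
    rw [← emap', Ne, map_eq_zero_iff _ inj]
    exact hd0
  have hpK : algebraMap k[X] K p ≠ 0 := by simpa using hp'.ne_zero
  have hqK : algebraMap k[X] K q ≠ 0 := by simpa using hq'.ne_zero
  have hE : ∀ x : k[X], (x = 0 ∨ x = p ∨ x = q) →
      ((crvT (algebraMap k[X] K a) (algebraMap k[X] K b)).baseChange K).toAffine.Nonsingular
        (algebraMap k[X] K x) (algebraMap k[X] K x * algebraMap k[X] K w) := by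
    intro x hx
    refine nonsT h2K hbK hdK ?_
    have e : (x * w) ^ 2 = x * (x ^ 2 + a * x + b) := by
      rw [ha, hb]
      rcases hx with rfl | rfl | rfl <;> ring
    have := congrArg (algebraMap k[X] K) e
    simpa only [map_pow, map_mul, map_add] using this
  have c1 : CompleteIn K a b (fun _ => True) {P | Special (algebraMap k[X] K p)
      (algebraMap k[X] K q) (algebraMap k[X] K w) P} := by
    intro A mA sA dA _
    rw [hb] at dA
    have dA' : A ∣ C (1 : k) * (p * q) := by rw [C_1, one_mul]; exact dA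
    obtain ⟨c, x, y, hc, rfl⟩ := dvd_irr2 hp' hq' one_ne_zero dA'
    have hcc : C c⁻¹ * C c = (1 : k[X]) := by rw [← C_mul, inv_mul_cancel₀ hc, C_1]
    fin_cases x <;> fin_cases y
    · refine ⟨0, Or.inl rfl, c⁻¹, 1, inv_ne_zero hc, one_ne_zero, ?_⟩
      show algebraMap k[X] K (C c⁻¹ * (C c * (p ^ 0 * q ^ 0))) = 1 ^ 2 * 1
      rw [pow_zero, pow_zero, mul_one, mul_one, hcc, map_one]; ring
    · refine ⟨Point.some _ _ (hE q (Or.inr (Or.inr rfl))), Or.inr ⟨_, _, Or.inr (Or.inr rfl), rfl⟩,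
        c⁻¹, 1, inv_ne_zero hc, one_ne_zero, ?_⟩
      show algebraMap k[X] K (C c⁻¹ * (C c * (p ^ 0 * q ^ 1))) = 1 ^ 2 *
        (if algebraMap k[X] K q = 0 then algebraMap k[X] K b else algebraMap k[X] K q)
      rw [if_neg hqK, ← mul_assoc, hcc]; ring_nf
    · refine ⟨Point.some _ _ (hE p (Or.inr (Or.inl rfl))), Or.inr ⟨_, _, Or.inr (Or.inl rfl), rfl⟩,
        c⁻¹, 1, inv_ne_zero hc, one_ne_zero, ?_⟩
      show algebraMap k[X] K (C c⁻¹ * (C c * (p ^ 1 * q ^ 0))) = 1 ^ 2 *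
        (if algebraMap k[X] K p = 0 then algebraMap k[X] K b else algebraMap k[X] K p)
      rw [if_neg hpK, ← mul_assoc, hcc]; ring_nf
    · refine ⟨Point.some _ _ (hE 0 (Or.inl rfl)), Or.inr ⟨_, _, Or.inl (map_zero _), rfl⟩,
        c⁻¹, 1, inv_ne_zero hc, one_ne_zero, ?_⟩
      show algebraMap k[X] K (C c⁻¹ * (C c * (p ^ 1 * q ^ 1))) = 1 ^ 2 *
        (if algebraMap k[X] K 0 = 0 then algebraMap k[X] K b else algebraMap k[X] K 0)
      rw [if_pos (map_zero _), ← mul_assoc, hcc, hb]; ring_nf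
  have hd2K : (algebraMap k[X] K (-2 * a)) ^ 2 - 4 * algebraMap k[X] K (a ^ 2 - 4 * b) ≠ 0 := by
    have e : (algebraMap k[X] K (-2 * a)) ^ 2 - 4 * algebraMap k[X] K (a ^ 2 - 4 * b) =
        2 ^ 4 * algebraMap k[X] K b := by
      simp only [map_sub, map_mul, map_pow, map_ofNat, map_neg]
      ring
    rw [e]
    exact mul_ne_zero (pow_ne_zero 4 h2K) hbK
  have hdK' : algebraMap k[X] K (a ^ 2 - 4 * b) ≠ 0 := by
    rw [Ne, map_eq_zero_iff _ inj]
    exact hd0
  have c2 : CompleteIn K (-2 * a) (a ^ 2 - 4 * b) (fun _ => True) {P | TorT P} := by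
    intro A mA sA dA _
    obtain ⟨c, x, hc, rfl⟩ := dvd_irr hd' dA
    have hcc : C c⁻¹ * C c = (1 : k[X]) := by rw [← C_mul, inv_mul_cancel₀ hc, C_1]
    fin_cases x
    · refine ⟨0, Or.inl rfl, c⁻¹, 1, inv_ne_zero hc, one_ne_zero, ?_⟩
      show algebraMap k[X] K (C c⁻¹ * (C c * (a ^ 2 - 4 * b) ^ 0)) = 1 ^ 2 * 1
      rw [pow_zero, mul_one, hcc, map_one]; ring
    · have hns : ((crvT (algebraMap k[X] K (-2 * a))
          (algebraMap k[X] K (a ^ 2 - 4 * b))).baseChange K).toAffine.Nonsingular 0 0 := by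
        refine nonsT h2K hdK' hd2K ?_
        ring
      refine ⟨Point.some _ _ hns, Or.inr ⟨_, _, rfl⟩, c⁻¹, 1, inv_ne_zero hc, one_ne_zero, ?_⟩
      show algebraMap k[X] K (C c⁻¹ * (C c * (a ^ 2 - 4 * b) ^ 1)) = 1 ^ 2 *
        (if (0 : K) = 0 then algebraMap k[X] K (a ^ 2 - 4 * b) else 0)
      rw [if_pos rfl, ← mul_assoc, hcc]; ring_nf
  have o1 : ∃ (π : k[X]) (hπ : Irreducible π), SqStable π ∧
      ¬ IsSquare ((hp π hπ).valuation K (algebraMap k[X] K (a ^ 2 - 4 * b))) :=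
    ⟨_, hd', sd, hp_ns hd'⟩
  have o2 : ∃ (π : k[X]) (hπ : Irreducible π), SqStable π ∧
      ¬ IsSquare ((hp π hπ).valuation K (algebraMap k[X] K b)) := by
    refine ⟨p, hp', sp, ?_⟩
    have h3 := odd_place (K := K) (g := q) hp'
      (fun h => hp'.not_isUnit (hco.isUnit_of_dvd' dvd_rfl h)) 0
    rw [mul_zero, zero_add, pow_one, ← hb] at h3
    exact h3
  have hD := desc_sets (K := K) h2 hb0 hd0 c1 c2 o1 o2
  obtain ⟨α, β, hR⟩ := exists_roots (Ω := SeparableClosure K) h2K hbK hdK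
  have hhalf : Half (crvT (algebraMap k[X] K a) (algebraMap k[X] K b)) (SeparableClosure K) :=
    halve_sep hR.E
  refine ⟨fun P0 => ?_, sha_of _ hhalf hD⟩
  obtain ⟨Q, P, hP, h⟩ := pts_of _ hhalf hD P0
  exact ⟨Q, P, hP, h⟩

end sets

end Pool.Agent.X243.CD
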