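import Pool.Agent.TH115.GD.Defs

/-!
Points on pullbacks by rational functions: definitions.
-/

set_option autoImplicit false
set_option linter.all false

open WeierstrassCurve WeierstrassCurve.Affine Polynomial
open scoped Classical

namespace Pool.Agent.X243.CD

open Pool.Agent.TH115.GD

/-- The points `(ρ² x, ρ³ y)` with `x`, `y` in the image of `ψ`. -/
def PulledR {K₀ K : Type} [Field K₀] [Field K] (ψ : K₀ →+* K) (ρ : K) {a b : K}
    (P : Pt (crv a b) K) : Prop :=
  P = 0 ∨ ∃ x y h, P = Point.some (ρ ^ 2 * ψ x) (ρ ^ 3 * ψ y) h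

/-- Every point of `y² = x (x - A) (x - B)` over `K = L(t)` is `2 Q + P₁` with a point `P₁` which is
`(r^(2 m) x, r^(3 m) y)` for elements `x`, `y` of the image of `K₀ = k(s)` under `s ↦ q / r` (or the
point at infinity). -/
def FromBase {k L : Type} [Field k] [Field L] [Algebra k L] (K₀ K : Type) [Field K₀]
    [Algebra k[X] K₀] [Field K] [Algebra L[X] K] (m : ℕ) (q r A B : L[X]) : Prop :=
  ∃ ψ : K₀ →+* K, (∀ c : k, ψ (algebraMap k[X] K₀ (C c)) =
      algebraMap L[X] K (C (algebraMap k L c))) ∧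
    ψ (algebraMap k[X] K₀ X) = algebraMap L[X] K q / algebraMap L[X] K r ∧
    ∀ P : Pt (crv (algebraMap L[X] K A) (algebraMap L[X] K B)) K,
      ∃ Q P1 : Pt (crv (algebraMap L[X] K A) (algebraMap L[X] K B)) K,
        PulledR ψ (algebraMap L[X] K r ^ m) P1 ∧ P = Q + Q + P1

end Pool.Agent.X243.CD
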