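import Pool.Agent.X243.CD.FullMW
import Pool.Agent.X243.CD.RatDef
import Mathlib.FieldTheory.RatFunc.Valuation

/-!
Points on the pullbacks by rational functions of curves with all points of order two rational.
-/

set_option autoImplicit false
set_option linter.all false

open WeierstrassCurve WeierstrassCurve.Affine IsDedekindDomain Polynomial
open scoped Classical

namespace Pool.Agent.X243.CD

open Pool.Agent.TH115.GD Pool.Agent.X243.Gen Pool.Agent.X243.Tate Pool.Agent.X243.Sol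
open Pool.Agent.Y160.T3
open Pool.Agent.W309.TD (Sq hp SqStable even_rep noTwo_of_pid sq_unit unit_stable sq_transfer
  sq_of_nonsq exp_neg_one_not_square sqStable_of_odd)

section inf

variable {k K : Type} [Field k] [Field K] [Algebra k[X] K] [IsFractionRing k[X] K]

/-- The valuation at infinity. -/
theorem exists_inf (k K : Type) [Field k] [Field K] [Algebra k[X] K] [IsFractionRing k[X] K] :
    ∃ V : Valuation K (WithZero (Multiplicative ℤ)), ∀ p : k[X], p ≠ 0 →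
      V (algebraMap k[X] K p) = WithZero.exp (p.natDegree : ℤ) := by
  obtain ⟨θ, -⟩ : ∃ θ : K ≃ₐ[k[X]] RatFunc k, θ = θ :=
    ⟨IsLocalization.algEquiv (nonZeroDivisors k[X]) K (RatFunc k), rfl⟩
  refine ⟨(RatFunc.inftyValuation k).comap (θ : K →+* RatFunc k), fun p hp => ?_⟩
  show RatFunc.inftyValuation k (θ (algebraMap k[X] K p)) = _
  rw [AlgEquiv.commutes]
  exact RatFunc.inftyValuation.polynomial k hp

theorem even_of_exp {n : ℤ} (h : IsSquare (WithZero.exp n : WithZero (Multiplicative ℤ))) :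
    Even n := by
  obtain ⟨r, hr⟩ := h
  have hr0 : r ≠ 0 := by
    rintro rfl
    rw [mul_zero] at hr
    exact WithZero.exp_ne_zero hr
  rw [← WithZero.exp_log hr0, ← WithZero.exp_add] at hr
  exact ⟨_, WithZero.exp_injective hr⟩

theorem even_deg {V : Valuation K (WithZero (Multiplicative ℤ))}
    (hV : ∀ p : k[X], p ≠ 0 → V (algebraMap k[X] K p) = WithZero.exp (p.natDegree : ℤ))
    {e w : K} {M : k[X]} {c : k} (hM : M ≠ 0) (hc : c ≠ 0) (hw : w ≠ 0)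
    (he : e = algebraMap k[X] K (C c * M) * w ^ 2) (h : IsSquare (V e)) :
    Even M.natDegree := by
  have hw' := (Valuation.ne_zero_iff V).2 hw
  rw [he, map_mul, map_pow, pow_two, mul_comm] at h
  have h1 := Pool.Agent.W309.TD.IsSquare.of_mul_left' ⟨_, rfl⟩ (mul_ne_zero hw' hw') h
  rw [hV _ (mul_ne_zero (C_ne_zero.2 hc) hM), natDegree_C_mul hc] at h1
  exact (Int.even_coe_nat _).1 (even_of_exp h1)

/-- The condition at infinity for points. -/
theorem inf_pt (h2 : (2 : k) ≠ 0) {a b : k[X]} (ha : a ≠ 0) (hb : b ≠ 0) (hab : a ≠ b)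
    (P : Pt (crv (algebraMap k[X] K a) (algebraMap k[X] K b)) K)
    (A B D : k[X]) (c0 c1 : k) (w0 w1 : K) (mA : A.Monic) (mB : B.Monic) (mD : D.Monic)
    (hc0 : c0 ≠ 0) (hc1 : c1 ≠ 0) (hw0 : w0 ≠ 0) (hw1 : w1 ≠ 0)
    (e0 : d0 (algebraMap k[X] K a) (algebraMap k[X] K b) P =
      algebraMap k[X] K (C c0 * (A * B)) * w0 ^ 2)
    (e1 : d1 (algebraMap k[X] K a) (algebraMap k[X] K b) P =
      algebraMap k[X] K (C c1 * (A * D)) * w1 ^ 2) : InfCond a b A B D := by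
  have inj := IsFractionRing.injective k[X] K
  have h2K : (2 : K) ≠ 0 := tt h2
  have haK : algebraMap k[X] K a ≠ 0 := by simpa using ha
  have hbK : algebraMap k[X] K b ≠ 0 := by simpa using hb
  have habK : algebraMap k[X] K a ≠ algebraMap k[X] K b := fun h => hab (inj h)
  have hE := isE (algebraMap k[X] K a) (algebraMap k[X] K b) K h2K haK hbK habK
  obtain ⟨V, hV⟩ := exists_inf k K
  intro hev
  obtain ⟨N, hN⟩ : ∃ N, N = max a.natDegree b.natDegree := ⟨_, rfl⟩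
  rw [← hN] at hev ⊢
  obtain ⟨m, hm⟩ := hev
  have hM : IsSquare (WithZero.exp (N : ℤ) : WithZero (Multiplicative ℤ)) := by
    refine ⟨WithZero.exp (m : ℤ), ?_⟩
    rw [← WithZero.exp_add, hm]
    push_cast
    rfl
  have hM0 : (WithZero.exp (N : ℤ) : WithZero (Multiplicative ℤ)) ≠ 0 := WithZero.exp_ne_zero
  have hle : ∀ p : k[X], p ≠ 0 → p.natDegree ≤ N →
      V (algebraMap k[X] K p) ≤ WithZero.exp (N : ℤ) := by
    intro p hp hpN
    rw [hV p hp, WithZero.exp_le_exp]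
    exact_mod_cast hpN
  have hsub : V (algebraMap k[X] K a - algebraMap k[X] K b) =
      WithZero.exp ((a - b).natDegree : ℤ) := by
    rw [← map_sub]
    exact hV _ (sub_ne_zero.2 hab)
  refine ⟨fun h => ?_, fun h h' => ?_, fun h h' => ?_⟩
  · have hbN : b.natDegree = N := by rw [hN, h, max_self]
    have haN : a.natDegree = N := by rw [h, hbN]
    have k0 := loc0 (v := V) hE hM hM0 (by
      show V (algebraMap k[X] K a) = _
      rw [hV a ha, haN]) (by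
      show V (algebraMap k[X] K b) = _
      rw [hV b hb, hbN]) P
    exact even_deg hV (mul_ne_zero mA.ne_zero mB.ne_zero) hc0 hw0 e0 k0
  · have k0 := loc1 (v := V) hE hM hM0 (by
      show V (algebraMap k[X] K a) = _
      rw [hV a ha, h]) (hle b hb (by rw [hN]; exact le_max_right _ _)) (by
      show V (algebraMap k[X] K a - algebraMap k[X] K b) = _
      rw [hsub, h']) P
    exact even_deg hV (mul_ne_zero mA.ne_zero mD.ne_zero) hc1 hw1 e1 k0
  · have k0 := locA (v := V) hE hM hM0 (hle a ha (by rw [hN]; exact le_max_left _ _)) (by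
      show V (algebraMap k[X] K b) = _
      rw [hV b hb, h]) (by
      show V (algebraMap k[X] K a - algebraMap k[X] K b) = _
      rw [hsub, h']) P
    have e3 : d0 (algebraMap k[X] K a) (algebraMap k[X] K b) P *
        d1 (algebraMap k[X] K a) (algebraMap k[X] K b) P =
        algebraMap k[X] K (C (c0 * c1) * (B * D)) * (algebraMap k[X] K A * w0 * w1) ^ 2 := by
      rw [e0, e1, C_mul]
      simp only [map_mul]
      ring
    exact even_deg hV (mul_ne_zero mB.ne_zero mD.ne_zero) (mul_ne_zero hc0 hc1)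
      (mul_ne_zero (mul_ne_zero (by simpa using mA.ne_zero) hw0) hw1) e3 k0

/-- The first descent is complete, with points of the set `S`. -/
def CompleteInR (K : Type) [Field K] [Algebra k[X] K] (a b : k[X])
    (S : Set (Pt (crv (algebraMap k[X] K a) (algebraMap k[X] K b)) K)) : Prop :=
  ∀ A B D : k[X], A.Monic → B.Monic → D.Monic → Squarefree A → Squarefree B → Squarefree D →
    A ∣ a → B ∣ b → D ∣ a - b → InfCond a b A B D →
    ∃ P : Pt (crv (algebraMap k[X] K a) (algebraMap k[X] K b)) K, P ∈ S ∧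
      (∃ (c : k) (h : K), c ≠ 0 ∧ h ≠ 0 ∧ algebraMap k[X] K (C c * (A * B)) =
        h ^ 2 * d0 (algebraMap k[X] K a) (algebraMap k[X] K b) P) ∧
      (∃ (c : k) (h : K), c ≠ 0 ∧ h ≠ 0 ∧ algebraMap k[X] K (C c * (A * D)) =
        h ^ 2 * d1 (algebraMap k[X] K a) (algebraMap k[X] K b) P)

/-- **The core of the full descent, with the condition at infinity.** -/
theorem coreR {a b : k[X]} (h2 : (2 : k) ≠ 0) (ha : a ≠ 0) (hb : b ≠ 0) (hab : a ≠ b)
    (hco : IsCoprime a b)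
    {S : Set (Pt (crv (algebraMap k[X] K a) (algebraMap k[X] K b)) K)}
    (hC : CompleteInR K a b S)
    (htwo : (OddPl K a ∧ OddPl K b) ∨ (OddPl K a ∧ OddPl K (a - b)) ∨
      (OddPl K b ∧ OddPl K (a - b))) {a0 a1 : K} (n0 : a0 ≠ 0) (n1 : a1 ≠ 0)
    (hloc : LS a b a0 a1)
    (hinf : ∀ (A B D : k[X]) (c0 c1 : k) (w0 w1 : K), A.Monic → B.Monic → D.Monic → c0 ≠ 0 →
      c1 ≠ 0 → w0 ≠ 0 → w1 ≠ 0 → a0 = algebraMap k[X] K (C c0 * (A * B)) * w0 ^ 2 →
      a1 = algebraMap k[X] K (C c1 * (A * D)) * w1 ^ 2 → InfCond a b A B D) :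
    ∃ (P : Pt (crv (algebraMap k[X] K a) (algebraMap k[X] K b)) K) (c0 c1 : K), P ∈ S ∧
      c0 ≠ 0 ∧ c1 ≠ 0 ∧ a0 = c0 ^ 2 * d0 (algebraMap k[X] K a) (algebraMap k[X] K b) P ∧
      a1 = c1 ^ 2 * d1 (algebraMap k[X] K a) (algebraMap k[X] K b) P := by
  have inj := IsFractionRing.injective k[X] K
  have h2K : (2 : K) ≠ 0 := tt h2
  have haK : algebraMap k[X] K a ≠ 0 := by simpa using ha
  have hbK : algebraMap k[X] K b ≠ 0 := by simpa using hb
  have habK : algebraMap k[X] K a ≠ algebraMap k[X] K b := fun h => hab (inj h)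
  have cab : ∀ π : k[X], Irreducible π → π ∣ a → ¬ π ∣ b := fun π hπ h1 h3 =>
    hπ.not_isUnit (hco.isUnit_of_dvd' h1 h3)
  have cac : ∀ π : k[X], Irreducible π → π ∣ a → ¬ π ∣ a - b := fun π hπ h1 h3 =>
    cab π hπ h1 (by
      have : b = a - (a - b) := by ring
      rw [this]
      exact dvd_sub h1 h3)
  have cbc : ∀ π : k[X], Irreducible π → π ∣ b → ¬ π ∣ a - b := fun π hπ h1 h3 =>
    cab π hπ (by
      have : a = b + (a - b) := by ring
      rw [this]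
      exact dvd_add h1 h3) h1
  have one : ∀ (π : k[X]) (hπ : Irreducible π) (g : k[X]), ¬ π ∣ g →
      (hp π hπ).valuation K (algebraMap k[X] K g) = 1 := fun π hπ g h => hp_one hπ h
  -- squarefree parts
  obtain ⟨M0, c0, w0, mM0, sM0, hc0, hw0, e0⟩ := elt_sqf (k := k) n0
  obtain ⟨M1, c1, w1, mM1, sM1, hc1, hw1, e1⟩ := elt_sqf (k := k) n1
  have v0 := fun (π : k[X]) (hπ : Irreducible π) => val_sqf sM0 mM0.ne_zero hc0 hw0 e0 hπ
  have v1 := fun (π : k[X]) (hπ : Irreducible π) => val_sqf sM1 mM1.ne_zero hc1 hw1 e1 hπ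
  have sp0 : ∀ π : k[X], Irreducible π → π ∣ M0 → π ∣ a ∨ π ∣ b := by
    intro π hπ hd
    by_contra hcon
    push Not at hcon
    exact (v0 π hπ).1 (evE0 h2K haK hbK habK _ _ (w_eq (hp π hπ)) (hloc _)
      (one π hπ a hcon.1) (one π hπ b hcon.2)) hd
  have sp1 : ∀ π : k[X], Irreducible π → π ∣ M1 → π ∣ a ∨ π ∣ a - b := by
    intro π hπ hd
    by_contra hcon
    push Not at hcon
    refine (v1 π hπ).1 (evE1 h2K haK hbK habK _ _ (w_eq (hp π hπ)) (hloc _)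
      (one π hπ a hcon.1) ((hp π hπ).valuation_le_one b) ?_) hd
    rw [← map_sub]
    exact one π hπ _ hcon.2
  have spA : ∀ π : k[X], Irreducible π → π ∣ a → (π ∣ M0 ↔ π ∣ M1) := by
    intro π hπ hd
    have h3 := evEA h2K haK hbK habK _ _ (w_eq (hp π hπ)) (hloc _) ((hp π hπ).valuation_le_one a)
      (one π hπ b (cab π hπ hd)) (by rw [← map_sub]; exact one π hπ _ (cac π hπ hd))
    rw [pv_mul n0 n1, v0 π hπ, v1 π hπ] at h3
    exact not_iff_not.1 h3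
  obtain ⟨A, B, mA, mB, sA', sB', dA, dB, eM0⟩ := sqf_split mM0 sM0 sp0
  obtain ⟨A', D, mA', mD, sA'', sD, dA', dD, eM1⟩ := sqf_split mM1 sM1 sp1
  have eAA : A' = A := by
    apply eq_of_monic_of_dvd_of_natDegree_le mA mA'
    · refine sqf_dvd sA' mA.ne_zero fun π hπ hd => ?_
      have h3 : π ∣ M1 := (spA π hπ (hd.trans dA)).1 (by rw [eM0]; exact hd.mul_right B)
      rw [eM1] at h3
      rcases hπ.prime.dvd_or_dvd h3 with h4 | h4
      · exact h4
      · exact absurd (h4.trans dD) (cac π hπ (hd.trans dA))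
    · refine natDegree_le_of_dvd (sqf_dvd sA'' mA'.ne_zero fun π hπ hd => ?_) mA.ne_zero
      have h3 : π ∣ M0 := (spA π hπ (hd.trans dA')).2 (by rw [eM1]; exact hd.mul_right D)
      rw [eM0] at h3
      rcases hπ.prime.dvd_or_dvd h3 with h4 | h4
      · exact h4
      · exact absurd (h4.trans dB) (cab π hπ (hd.trans dA'))
  rw [eAA] at eM1
  obtain ⟨P, hPS, ⟨γ0, h0, hγ0, hh0, f0⟩, ⟨γ1, h1, hγ1, hh1, f1⟩⟩ :=
    hC A B D mA mB mD sA' sB' sD dA dB dD (hinf A B D c0 c1 w0 w1 mA mB mD hc0 hc1 hw0 hw1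
      (by rw [← eM0]; exact e0) (by rw [← eM1]; exact e1))
  have hE := isE (algebraMap k[X] K a) (algebraMap k[X] K b) K h2K haK hbK habK
  have k0 : d0 (algebraMap k[X] K a) (algebraMap k[X] K b) P ≠ 0 := d0_ne hE P
  have k1 : d1 (algebraMap k[X] K a) (algebraMap k[X] K b) P ≠ 0 := d1_ne hE P
  have hloc' : LS a b (a0 * d0 (algebraMap k[X] K a) (algebraMap k[X] K b) P)
      (a1 * d1 (algebraMap k[X] K a) (algebraMap k[X] K b) P) := by
    intro v
    exact LocSol.mul h2K haK hbK habK (hloc v)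
      (locSol_pt (F := K) (L := v.adicCompletion K) h2K haK hbK habK P)
  obtain ⟨δ0, hδ0⟩ : ∃ δ, δ = d0 (algebraMap k[X] K a) (algebraMap k[X] K b) P := ⟨_, rfl⟩
  obtain ⟨δ1, hδ1⟩ : ∃ δ, δ = d1 (algebraMap k[X] K a) (algebraMap k[X] K b) P := ⟨_, rfl⟩
  rw [← hδ0] at k0 f0 hloc'
  rw [← hδ1] at k1 f1 hloc'
  rw [eM0] at e0
  rw [eM1] at e1
  have g0 := const_of hγ0 (mul_ne_zero mA.ne_zero mB.ne_zero) k0 hw0 e0 f0
  have g1 := const_of hγ1 (mul_ne_zero mA.ne_zero mD.ne_zero) k1 hw1 e1 f1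
  have m0 : a0 * δ0 ≠ 0 := mul_ne_zero n0 k0
  have m1 : a1 * δ1 ≠ 0 := mul_ne_zero n1 k1
  have ev0 : ∀ v : HeightOneSpectrum k[X], IsSquare (v.valuation K (a0 * δ0)) := fun v =>
    even_const (div_ne_zero hc0 hγ0) g0 v
  have ev1 : ∀ v : HeightOneSpectrum k[X], IsSquare (v.valuation K (a1 * δ1)) := fun v =>
    even_const (div_ne_zero hc1 hγ1) g1 v
  have lt : ∀ (π : k[X]) (hπ : Irreducible π) (g : k[X]),
      ¬ IsSquare ((hp π hπ).valuation K (algebraMap k[X] K g)) → π ∣ g := by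
    intro π hπ g h
    by_contra hd
    rw [one π hπ g hd] at h
    exact h ⟨1, (mul_one 1).symm⟩
  have pA : OddPl K a → ∃ s : K, s ≠ 0 ∧ (a0 * δ0) * (a1 * δ1) = s ^ 2 := by
    rintro ⟨π, hπ, hs, ho⟩
    have hd := lt π hπ a ho
    exact glob_sq (mul_ne_zero m0 m1) (fun v => by
      rw [map_mul]; exact (ev0 v).mul (ev1 v)) hπ hs (sq_transfer _
      (sA h2K haK hbK habK _ _ (w_eq (hp π hπ)) (hloc' _) (one π hπ b (cab π hπ hd))
        (hp_lt hπ hd) ho (ev0 _)))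
  have pB : OddPl K b → ∃ s : K, s ≠ 0 ∧ a1 * δ1 = s ^ 2 := by
    rintro ⟨π, hπ, hs, ho⟩
    have hd := lt π hπ b ho
    exact glob_sq m1 ev1 hπ hs (sq_transfer _
      (sB h2K haK hbK habK _ _ (w_eq (hp π hπ)) (hloc' _)
        (one π hπ a (fun h => cab π hπ h hd)) (hp_lt hπ hd) ho (ev0 _)))
  have pC : OddPl K (a - b) → ∃ s : K, s ≠ 0 ∧ a0 * δ0 = s ^ 2 := by
    rintro ⟨π, hπ, hs, ho⟩
    have hd := lt π hπ (a - b) ho
    exact glob_sq m0 ev0 hπ hs (sq_transfer _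
      (sC h2K haK hbK habK _ _ (w_eq (hp π hπ)) (hloc' _)
        (one π hπ a (fun h => cac π hπ h hd)) (by rw [← map_sub]; exact hp_lt hπ hd)
        (by rw [← map_sub]; exact ho) (ev1 _)))
  obtain ⟨s0, s1, hs0, hs1, q0, q1⟩ : ∃ s0 s1 : K, s0 ≠ 0 ∧ s1 ≠ 0 ∧ a0 * δ0 = s0 ^ 2 ∧
      a1 * δ1 = s1 ^ 2 := by
    rcases htwo with ⟨hA, hB⟩ | ⟨hA, hCC⟩ | ⟨hB, hCC⟩
    · obtain ⟨s, hs, e⟩ := pA hA
      obtain ⟨t, ht, e'⟩ := pB hB
      refine ⟨s / t, t, div_ne_zero hs ht, ht, sq_div ht ?_, e'⟩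
      rw [← e', e]
    · obtain ⟨s, hs, e⟩ := pA hA
      obtain ⟨t, ht, e'⟩ := pC hCC
      refine ⟨t, s / t, ht, div_ne_zero hs ht, e', sq_div ht ?_⟩
      rw [← e', mul_comm, e]
    · obtain ⟨s, hs, e⟩ := pB hB
      obtain ⟨t, ht, e'⟩ := pC hCC
      exact ⟨t, s, ht, hs, e', e⟩
  refine ⟨P, s0 / δ0, s1 / δ1, hPS, div_ne_zero hs0 k0, div_ne_zero hs1 k1, ?_, ?_⟩
  · rw [← hδ0, div_pow, ← q0]
    field_simp
  · rw [← hδ1, div_pow, ← q1]
    field_simp

/-- Points modulo two. -/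
theorem ptsR {a b : k[X]} (h2 : (2 : k) ≠ 0) (ha : a ≠ 0) (hb : b ≠ 0) (hab : a ≠ b)
    (hco : IsCoprime a b)
    {S : Set (Pt (crv (algebraMap k[X] K a) (algebraMap k[X] K b)) K)}
    (hC : CompleteInR K a b S)
    (htwo : (OddPl K a ∧ OddPl K b) ∨ (OddPl K a ∧ OddPl K (a - b)) ∨
      (OddPl K b ∧ OddPl K (a - b)))
    (P0 : Pt (crv (algebraMap k[X] K a) (algebraMap k[X] K b)) K) :
    ∃ Q P : Pt (crv (algebraMap k[X] K a) (algebraMap k[X] K b)) K, P ∈ S ∧ P0 = Q + Q + P := by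
  have inj := IsFractionRing.injective k[X] K
  have h2K : (2 : K) ≠ 0 := tt h2
  have haK : algebraMap k[X] K a ≠ 0 := by simpa using ha
  have hbK : algebraMap k[X] K b ≠ 0 := by simpa using hb
  have habK : algebraMap k[X] K a ≠ algebraMap k[X] K b := fun h => hab (inj h)
  have hE := isE (algebraMap k[X] K a) (algebraMap k[X] K b) K h2K haK hbK habK
  have n0 : d0 (algebraMap k[X] K a) (algebraMap k[X] K b) P0 ≠ 0 := d0_ne hE P0
  have n1 : d1 (algebraMap k[X] K a) (algebraMap k[X] K b) P0 ≠ 0 := d1_ne hE P0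
  obtain ⟨P, c0, c1, hPS, hc0, hc1, e0, e1⟩ := coreR h2 ha hb hab hco hC htwo n0 n1
    (fun v => locSol_pt (F := K) (L := v.adicCompletion K) h2K haK hbK habK P0)
    (fun A B D c0 c1 w0 w1 mA mB mD hc0 hc1 hw0 hw1 e0 e1 =>
      inf_pt h2 ha hb hab P0 A B D c0 c1 w0 w1 mA mB mD hc0 hc1 hw0 hw1 e0 e1)
  have m0 : d0 (algebraMap k[X] K a) (algebraMap k[X] K b) P ≠ 0 := d0_ne hE P
  have m1 : d1 (algebraMap k[X] K a) (algebraMap k[X] K b) P ≠ 0 := d1_ne hE P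
  obtain ⟨u0, u1, hu0, hu1, f0, f1⟩ := d_add (K := K) (F := K) (Ω := Sep K)
    (crv (algebraMap k[X] K a) (algebraMap k[X] K b)) (isE _ _ (Sep K) h2K haK hbK habK) P0 P
  obtain ⟨R, hR⟩ := half_F (K := K) (F := K) h2K haK hbK habK (P0 + P)
    ⟨u0 * c0 * d0 (algebraMap k[X] K a) (algebraMap k[X] K b) P,
      mul_ne_zero (mul_ne_zero hu0 hc0) m0, by
        have f0' : d0 (algebraMap K K (algebraMap k[X] K a)) (algebraMap K K (algebraMap k[X] K b))
            (P0 + P) = u0 ^ 2 * (d0 (algebraMap k[X] K a) (algebraMap k[X] K b) P0 *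
              d0 (algebraMap k[X] K a) (algebraMap k[X] K b) P) := f0
        rw [f0', e0]
        ring⟩
    ⟨u1 * c1 * d1 (algebraMap k[X] K a) (algebraMap k[X] K b) P,
      mul_ne_zero (mul_ne_zero hu1 hc1) m1, by
        have f1' : d1 (algebraMap K K (algebraMap k[X] K a)) (algebraMap K K (algebraMap k[X] K b))
            (P0 + P) = u1 ^ 2 * (d1 (algebraMap k[X] K a) (algebraMap k[X] K b) P0 *
              d1 (algebraMap k[X] K a) (algebraMap k[X] K b) P) := f1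
        rw [f1', e1]
        ring⟩
  refine ⟨R - P, P, hPS, ?_⟩
  have e3 : R - P + (R - P) + P = R + R - P := by abel
  rw [e3, hR]
  abel

end inf

section point

variable {K₀ K : Type} [Field K₀] [Field K]

theorem pt_pulledR (ψ : K₀ →+* K) {a₀ b₀ : K₀} {a b ρ : K} (hρ : ρ ≠ 0) (ha : a = ρ ^ 2 * ψ a₀)
    (hb : b = ρ ^ 2 * ψ b₀) (h2 : (2 : K₀) ≠ 0) (ha₀ : a₀ ≠ 0) (hb₀ : b₀ ≠ 0) (hab : a₀ ≠ b₀)
    (P : Pt (crv a₀ b₀) K₀) :
    ∃ Q : Pt (crv a b) K, PulledR ψ ρ Q ∧ (∃ h : K, h ≠ 0 ∧ ψ (d0 a₀ b₀ P) = h ^ 2 * d0 a b Q) ∧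
      (∃ h : K, h ≠ 0 ∧ ψ (d1 a₀ b₀ P) = h ^ 2 * d1 a b Q) := by
  have hinj := ψ.injective
  have h2' : (2 : K) ≠ 0 := by
    rw [← map_ofNat ψ 2]
    exact (map_ne_zero_iff _ hinj).2 h2
  have hρ2 : ρ ^ 2 ≠ 0 := pow_ne_zero 2 hρ
  have ha' : a ≠ 0 := by rw [ha]; exact mul_ne_zero hρ2 ((map_ne_zero_iff _ hinj).2 ha₀)
  have hb' : b ≠ 0 := by rw [hb]; exact mul_ne_zero hρ2 ((map_ne_zero_iff _ hinj).2 hb₀)
  have hab' : a ≠ b := by
    rw [ha, hb]
    intro e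
    exact hab (hinj (mul_left_cancel₀ hρ2 e))
  have hE₀ := isE a₀ b₀ K₀ h2 ha₀ hb₀ hab
  have hE := isE a b K h2' ha' hb' hab'
  cases P with
  | zero =>
    refine ⟨0, Or.inl rfl, ⟨1, one_ne_zero, ?_⟩, ⟨1, one_ne_zero, ?_⟩⟩
    · show ψ 1 = 1 ^ 2 * 1
      rw [map_one]; ring
    · show ψ 1 = 1 ^ 2 * 1
      rw [map_one]; ring
  | some x y hn =>
    have hy : y ^ 2 = x * (x - a₀) * (x - b₀) := by
      have h1 := hn
      rw [hE₀.nonsingular] at h1
      exact h1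
    have hQ : ((crv a b).baseChange K).toAffine.Nonsingular (ρ ^ 2 * ψ x) (ρ ^ 3 * ψ y) := by
      rw [hE.nonsingular]
      have h3 := congrArg ψ hy
      rw [map_pow, map_mul, map_mul, map_sub, map_sub] at h3
      show (ρ ^ 3 * ψ y) ^ 2 = (ρ ^ 2 * ψ x) * (ρ ^ 2 * ψ x - a) * (ρ ^ 2 * ψ x - b)
      rw [ha, hb]
      linear_combination ρ ^ 6 * h3
    refine ⟨Point.some _ _ hQ, Or.inr ⟨x, y, hQ, rfl⟩, ?_, ?_⟩
    · by_cases hx : x = 0
      · refine ⟨(ρ ^ 2)⁻¹, inv_ne_zero hρ2, ?_⟩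
        show ψ (if x = 0 then a₀ * b₀ else x) = _ * (if ρ ^ 2 * ψ x = 0 then a * b else ρ ^ 2 * ψ x)
        rw [if_pos hx, if_pos (by rw [hx, map_zero, mul_zero]), ha, hb, map_mul]
        field_simp
      · refine ⟨ρ⁻¹, inv_ne_zero hρ, ?_⟩
        have hx' : ψ x ≠ 0 := (map_ne_zero_iff _ hinj).2 hx
        show ψ (if x = 0 then a₀ * b₀ else x) = _ * (if ρ ^ 2 * ψ x = 0 then a * b else ρ ^ 2 * ψ x)
        rw [if_neg hx, if_neg (mul_ne_zero hρ2 hx')]
        field_simp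
    · by_cases hx : x = a₀
      · refine ⟨(ρ ^ 2)⁻¹, inv_ne_zero hρ2, ?_⟩
        show ψ (if x = a₀ then a₀ * (a₀ - b₀) else x - a₀) =
          _ * (if ρ ^ 2 * ψ x = a then a * (a - b) else ρ ^ 2 * ψ x - a)
        rw [if_pos hx, if_pos (by rw [hx, ha]), ha, hb, map_mul, map_sub]
        field_simp
      · refine ⟨ρ⁻¹, inv_ne_zero hρ, ?_⟩
        have hx' : ρ ^ 2 * ψ x ≠ a := by
          rw [ha]
          intro e
          exact hx (hinj (mul_left_cancel₀ hρ2 e))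
        show ψ (if x = a₀ then a₀ * (a₀ - b₀) else x - a₀) =
          _ * (if ρ ^ 2 * ψ x = a then a * (a - b) else ρ ^ 2 * ψ x - a)
        rw [if_neg hx, if_neg hx', ha, map_sub]
        field_simp

end point

section main

variable {k L K₀ K : Type} [Field k] [Field L] [Field K₀] [Algebra k[X] K₀] [IsFractionRing k[X] K₀]
  [Field K] [Algebra L[X] K] [IsFractionRing L[X] K]

theorem completeR_pull (φ : k →+* L) (h2 : (2 : k) ≠ 0) {a b : k[X]} (ha : a ≠ 0) (hb : b ≠ 0)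
    (hab : a ≠ b) (hsa : a.Splits) (hsb : b.Splits) (hsc : (a - b).Splits)
    (hC : Complete K₀ a b) {q r : L[X]} (hco : IsCoprime q r) (hq : 0 < q.natDegree) {n : ℕ}
    (hn : Odd n)
    (hirr : ∀ ξ, (a * b * (a - b)).IsRoot ξ →
      Irreducible (q - C (φ ξ) * r) ∧ (q - C (φ ξ) * r).natDegree = n)
    (hd : r = 1 ∨ (b.natDegree = a.natDegree ∧ (a - b).natDegree = a.natDegree ∧
      Even a.natDegree))
    (ψ : K₀ →+* K) (hψ : ∀ g : k[X], algebraMap L[X] K (pb q r (g.map φ)) =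
      (algebraMap L[X] K r) ^ g.natDegree * ψ (algebraMap k[X] K₀ g)) {ρ : K} (hρ : ρ ≠ 0)
    (ρa : algebraMap L[X] K (pb q r (a.map φ)) = ρ ^ 2 * ψ (algebraMap k[X] K₀ a))
    (ρb : algebraMap L[X] K (pb q r (b.map φ)) = ρ ^ 2 * ψ (algebraMap k[X] K₀ b)) :
    CompleteInR K (pb q r (a.map φ)) (pb q r (b.map φ)) {P | PulledR ψ ρ P} := by
  have hc0 : a - b ≠ 0 := sub_ne_zero.2 hab
  have ra : ∀ ξ, a.IsRoot ξ → Irreducible (q - C (φ ξ) * r) ∧ (q - C (φ ξ) * r).natDegree = n := by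
    intro ξ h
    apply hirr
    rw [IsRoot.def, eval_mul, eval_mul, IsRoot.def.1 h, zero_mul, zero_mul]
  have rb : ∀ ξ, b.IsRoot ξ → Irreducible (q - C (φ ξ) * r) ∧ (q - C (φ ξ) * r).natDegree = n := by
    intro ξ h
    apply hirr
    rw [IsRoot.def, eval_mul, eval_mul, IsRoot.def.1 h, mul_zero, zero_mul]
  have rc : ∀ ξ, (a - b).IsRoot ξ →
      Irreducible (q - C (φ ξ) * r) ∧ (q - C (φ ξ) * r).natDegree = n := by
    intro ξ h
    apply hirr
    rw [IsRoot.def, eval_mul, IsRoot.def.1 h, mul_zero]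
  have hnpos : 0 < n := hn.pos
  have hr0 : r ≠ 0 := by
    rintro rfl
    rw [isCoprime_zero_right] at hco
    have := natDegree_eq_zero_of_isUnit hco
    omega
  have hsub : pb q r (a.map φ) - pb q r (b.map φ) = pb q r ((a - b).map φ) := by
    rw [Polynomial.map_sub]
    rcases hd with rfl | ⟨h1, h3, -⟩
    · exact pb_sub_one q _ _
    · apply pb_sub_eq
      · rw [natDegree_map, natDegree_map, h1]
      · rw [← Polynomial.map_sub, natDegree_map, natDegree_map, h3]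
  have Da := natDegree_pb φ ha hsa ra
  have Db := natDegree_pb φ hb hsb rb
  have Dc := natDegree_pb φ hc0 hsc rc
  have hr0' : algebraMap L[X] K r ≠ 0 := by simpa using hr0
  have inj₀ := IsFractionRing.injective k[X] K₀
  have h2₀ : (2 : K₀) ≠ 0 := by
    have h3 : algebraMap k[X] K₀ (C 2) ≠ 0 := by simpa using h2
    rwa [C_ofNat, map_ofNat] at h3
  intro A B D mA mB mD sA sB sD dA dB dD hinf
  rw [hsub] at dD
  obtain ⟨cA, hcA, A₀, mA₀, sA₀, dA₀, eA⟩ := dvd_pb' φ ha hsa (fun ξ h => (ra ξ h).1) sA dA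
  obtain ⟨cB, hcB, B₀, mB₀, sB₀, dB₀, eB⟩ := dvd_pb' φ hb hsb (fun ξ h => (rb ξ h).1) sB dB
  obtain ⟨cD, hcD, D₀, mD₀, sD₀, dD₀, eD⟩ := dvd_pb' φ hc0 hsc (fun ξ h => (rc ξ h).1) sD dD
  have nA : A.natDegree = n * A₀.natDegree := by
    rw [eA, natDegree_C_mul hcA]
    exact natDegree_pb φ mA₀.ne_zero (hsa.of_dvd ha dA₀) fun ξ h => ra ξ (h.dvd dA₀)
  have nB : B.natDegree = n * B₀.natDegree := by
    rw [eB, natDegree_C_mul hcB]
    exact natDegree_pb φ mB₀.ne_zero (hsb.of_dvd hb dB₀) fun ξ h => rb ξ (h.dvd dB₀)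
  have nD : D.natDegree = n * D₀.natDegree := by
    rw [eD, natDegree_C_mul hcD]
    exact natDegree_pb φ mD₀.ne_zero (hsc.of_dvd hc0 dD₀) fun ξ h => rc ξ (h.dvd dD₀)
  have hpar : ∀ {U V U₀ V₀ : ℕ}, U = n * U₀ → V = n * V₀ → Even (U + V) → Even (U₀ + V₀) := by
    intro U V U₀ V₀ h1 h3 h4
    rw [h1, h3, ← mul_add] at h4
    rcases Nat.even_mul.1 h4 with h5 | h5
    · exact absurd h5 (Nat.not_even_iff_odd.2 hn)
    · exact h5
  have hmax : max (pb q r (a.map φ)).natDegree (pb q r (b.map φ)).natDegree =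
      n * max a.natDegree b.natDegree := by
    rw [Da, Db, Nat.mul_max_mul_left]
  have hinf₀ : InfCond a b A₀ B₀ D₀ := by
    intro hev
    obtain ⟨i1, i2, i3⟩ := hinf (by rw [hmax]; exact hev.mul_left n)
    refine ⟨fun h => ?_, fun h h' => ?_, fun h h' => ?_⟩
    · have h1 := i1 (by rw [Da, Db, h])
      rw [natDegree_mul mA.ne_zero mB.ne_zero] at h1
      rw [natDegree_mul mA₀.ne_zero mB₀.ne_zero]
      exact hpar nA nB h1
    · have h1 := i2 (by rw [hmax, Da, ← h]) (by rw [hmax, hsub, Dc, h'])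
      rw [natDegree_mul mA.ne_zero mD.ne_zero] at h1
      rw [natDegree_mul mA₀.ne_zero mD₀.ne_zero]
      exact hpar nA nD h1
    · have h1 := i3 (by rw [hmax, Db, ← h]) (by rw [hmax, hsub, Dc, h'])
      rw [natDegree_mul mB.ne_zero mD.ne_zero] at h1
      rw [natDegree_mul mB₀.ne_zero mD₀.ne_zero]
      exact hpar nB nD h1
  -- the powers of `r` are squares
  have sqAB : ∃ w : K, w ≠ 0 ∧ (algebraMap L[X] K r) ^ (A₀ * B₀).natDegree = w ^ 2 := by
    rcases hd with h1 | ⟨h1, h3, h4⟩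
    · exact ⟨1, one_ne_zero, by rw [h1, map_one, one_pow, one_pow]⟩
    · obtain ⟨i1, -, -⟩ := hinf₀ (by rw [h1, max_self]; exact h4)
      obtain ⟨m, hm⟩ := i1 h1.symm
      exact ⟨_, pow_ne_zero m hr0', by rw [hm, ← pow_mul, mul_two]⟩
  have sqAD : ∃ w : K, w ≠ 0 ∧ (algebraMap L[X] K r) ^ (A₀ * D₀).natDegree = w ^ 2 := by
    rcases hd with h1 | ⟨h1, h3, h4⟩
    · exact ⟨1, one_ne_zero, by rw [h1, map_one, one_pow, one_pow]⟩
    · obtain ⟨-, i2, -⟩ := hinf₀ (by rw [h1, max_self]; exact h4)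
      obtain ⟨m, hm⟩ := i2 (by rw [h1, max_self]) (by rw [h1, max_self, h3])
      exact ⟨_, pow_ne_zero m hr0', by rw [hm, ← pow_mul, mul_two]⟩
  obtain ⟨P, ⟨c1, h1, hc1, hh1, e1⟩, ⟨c3, h3, hc3, hh3, e3⟩⟩ :=
    hC A₀ B₀ D₀ mA₀ mB₀ mD₀ sA₀ sB₀ sD₀ dA₀ dB₀ dD₀ hinf₀
  obtain ⟨Q, hQS, ⟨u, hu, eu⟩, ⟨v, hv, ev⟩⟩ := pt_pulledR ψ hρ ρa ρb h2₀
    (by simpa using ha) (by simpa using hb) (fun e => hab (inj₀ e)) P
  have hψC : ∀ c : k, ψ (algebraMap k[X] K₀ (C c)) = algebraMap L[X] K (C (φ c)) := by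
    intro c
    have := hψ (C c)
    rw [map_C, pb_C, natDegree_C, pow_zero, one_mul] at this
    exact this.symm
  refine ⟨Q, hQS, ?_, ?_⟩
  · obtain ⟨w, hw, ew⟩ := sqAB
    refine ⟨φ c1 * (cA * cB)⁻¹, w * (ψ h1 * u), mul_ne_zero ((map_ne_zero_iff _ φ.injective).2 hc1)
      (inv_ne_zero (mul_ne_zero hcA hcB)), mul_ne_zero hw (mul_ne_zero
      ((map_ne_zero_iff _ ψ.injective).2 hh1) hu), ?_⟩
    have k1 : C (φ c1 * (cA * cB)⁻¹) * (A * B) = C (φ c1) * pb q r ((A₀ * B₀).map φ) := by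
      rw [eA, eB, Polynomial.map_mul, pb_mul]
      have k3 : C (cA * cB)⁻¹ * (C cA * C cB) = (1 : L[X]) := by
        rw [← C_mul, ← C_mul, inv_mul_cancel₀ (mul_ne_zero hcA hcB), C_1]
      rw [C_mul]
      linear_combination C (φ c1) * (pb q r (A₀.map φ) * pb q r (B₀.map φ)) * k3
    rw [k1, map_mul, hψ, ew, ← hψC]
    have k4 := congrArg ψ e1
    rw [map_mul (algebraMap k[X] K₀) (C c1) (A₀ * B₀), map_mul ψ (algebraMap k[X] K₀ (C c1)),
      map_mul ψ (h1 ^ 2), map_pow, eu] at k4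
    linear_combination w ^ 2 * k4
  · obtain ⟨w, hw, ew⟩ := sqAD
    refine ⟨φ c3 * (cA * cD)⁻¹, w * (ψ h3 * v), mul_ne_zero ((map_ne_zero_iff _ φ.injective).2 hc3)
      (inv_ne_zero (mul_ne_zero hcA hcD)), mul_ne_zero hw (mul_ne_zero
      ((map_ne_zero_iff _ ψ.injective).2 hh3) hv), ?_⟩
    have k1 : C (φ c3 * (cA * cD)⁻¹) * (A * D) = C (φ c3) * pb q r ((A₀ * D₀).map φ) := by
      rw [eA, eD, Polynomial.map_mul, pb_mul]
      have k3 : C (cA * cD)⁻¹ * (C cA * C cD) = (1 : L[X]) := by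
        rw [← C_mul, ← C_mul, inv_mul_cancel₀ (mul_ne_zero hcA hcD), C_1]
      rw [C_mul]
      linear_combination C (φ c3) * (pb q r (A₀.map φ) * pb q r (D₀.map φ)) * k3
    rw [k1, map_mul, hψ, ew, ← hψC]
    have k4 := congrArg ψ e3
    rw [map_mul (algebraMap k[X] K₀) (C c3) (A₀ * D₀), map_mul ψ (algebraMap k[X] K₀ (C c3)),
      map_mul ψ (h3 ^ 2), map_pow, ev] at k4
    linear_combination w ^ 2 * k4

end main

end Pool.Agent.X243.CD
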