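import Pool.Agent.X243.CD.Pull
import Pool.Agent.TH115.ID.Gener

/-!
Pullbacks of odd degree, and Kummer towers.
-/

set_option autoImplicit false
set_option linter.all false

open WeierstrassCurve WeierstrassCurve.Affine IsDedekindDomain Polynomial
open scoped Classical

namespace Pool.Agent.X243.CD

open Pool.Agent.TH115.GD Pool.Agent.X243.Gen Pool.Agent.X243.Tate Pool.Agent.X243.Sol
open Pool.Agent.Y160.T3 Pool.Agent.W309
open Pool.Agent.W309.TD (Sq hp SqStable sqStable_of_odd)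

section power

/-- `x` is not an `ℓ`-th power for any prime divisor `ℓ` of `n`. -/
def NoPower {L : Type} [Field L] (n : ℕ) (x : L) : Prop :=
  ∀ ℓ : ℕ, ℓ.Prime → ℓ ∣ n → ∀ y : L, y ^ ℓ ≠ x

variable {k L : Type} [Field k] [Field L] [Algebra k L]

theorem noPower_ext {n : ℕ} {x : k} (h : NoPower n x) [Algebra.IsAlgebraic k L]
    (hL : ∀ y : L, n.Coprime (minpoly k y).natDegree) : NoPower n (algebraMap k L x) := by
  intro ℓ hℓ hd y hy
  have hx0 : x ≠ 0 := by
    rintro rfl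
    exact h ℓ hℓ hd 0 (zero_pow hℓ.ne_zero)
  have hint : IsIntegral k y := Algebra.IsIntegral.isIntegral y
  obtain ⟨g, hg⟩ : ∃ g, g = IntermediateField.AdjoinSimple.gen k y := ⟨_, rfl⟩
  have hgp : g ^ ℓ = algebraMap k (IntermediateField.adjoin k {y}) x := by
    apply Subtype.ext
    show ((g ^ ℓ : IntermediateField.adjoin k {y}) : L) = algebraMap k L x
    rw [← hy, hg]
    rfl
  have hN := congrArg (Algebra.norm k) hgp
  rw [map_pow, Algebra.norm_algebraMap, IntermediateField.adjoin.finrank hint] at hN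
  have hco : Nat.Coprime ℓ (minpoly k y).natDegree := Nat.Coprime.coprime_dvd_left hd (hL y)
  obtain ⟨N, hNe⟩ : ∃ N, N = Algebra.norm k g := ⟨_, rfl⟩
  rw [← hNe] at hN
  obtain ⟨m, hm⟩ : ∃ m, m = (minpoly k y).natDegree := ⟨_, rfl⟩
  rw [← hm] at hN hco
  -- `x` is a power
  obtain ⟨u, v, huv⟩ : ∃ u v : ℤ, u * ℓ + v * m = 1 := by
    have h3 := Nat.isCoprime_iff_coprime.2 hco
    obtain ⟨u, v, h4⟩ := h3
    exact ⟨u, v, h4⟩
  apply h ℓ hℓ hd (x ^ u * N ^ v)
  have hN0 : N ≠ 0 := by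
    rintro rfl
    rw [zero_pow hℓ.ne_zero] at hN
    exact pow_ne_zero _ hx0 hN.symm
  have e1 : (x ^ u * N ^ v) ^ ℓ = x ^ (u * ℓ) * (N ^ ℓ) ^ v := by
    rw [mul_pow, ← zpow_natCast (x ^ u) ℓ, ← zpow_mul, ← zpow_natCast (N ^ v) ℓ, ← zpow_mul,
      ← zpow_natCast N ℓ, ← zpow_mul, mul_comm v (ℓ : ℤ)]
  rw [e1, hN, ← zpow_natCast x m, ← zpow_mul, ← zpow_add₀ hx0, mul_comm (m : ℤ) v, huv, zpow_one]

theorem kummer_irr {n : ℕ} (hn : Odd n) {c ξ : L} (h : NoPower n (ξ - c)) :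
    Irreducible (X ^ n + C c - C ξ : L[X]) ∧ (X ^ n + C c - C ξ : L[X]).natDegree = n ∧
      ((n : L) ≠ 0 → (X ^ n + C c - C ξ : L[X]).Separable) := by
  have e : (X ^ n + C c - C ξ : L[X]) = X ^ n - C (ξ - c) := by rw [C_sub]; ring
  rw [e]
  refine ⟨X_pow_sub_C_irreducible_of_odd hn h, natDegree_X_pow_sub_C, fun hn0 => ?_⟩
  by_cases h1 : n = 1
  · rw [h1, pow_one]
    exact separable_X_sub_C
  · obtain ⟨ℓ, hℓ, hd⟩ := Nat.exists_prime_and_dvd h1
    refine separable_X_pow_sub_C _ hn0 fun h0 => h ℓ hℓ hd 0 ?_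
    rw [h0, zero_pow hℓ.ne_zero]

end power

section concl

variable {k K₀ : Type} [Field k] [Field K₀] [Algebra k[X] K₀] [IsFractionRing k[X] K₀]

/-- The pullback of `y² = x (x² + a x + b)` by `s = g(t)`, over `K = L(t)`. -/
noncomputable def pullCurve {k L : Type} [Field k] [Field L] [Algebra k L] (K : Type) [Field K]
    [Algebra L[X] K] (a b : k[X]) (g : L[X]) : WeierstrassCurve K :=
  crvT (algebraMap L[X] K ((a.map (algebraMap k L)).comp g))
    (algebraMap L[X] K ((b.map (algebraMap k L)).comp g))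

/-- The Mordell-Weil group of the pullback is generated, modulo 2, by the pullbacks of the points of
the base: with the embedding `ψ : s ↦ g(t)` of `K₀ = k(s)` into `K = L(t)`, every point is
`2 Q + P₁ + P₂` with points `P₁`, `P₂` with coordinates in the image of `ψ`. -/
def PointsFromBase {L : Type} [Field L] [Algebra k L] (K₀ K : Type) [Field K₀] [Algebra k[X] K₀]
    [Field K] [Algebra L[X] K] (a b : k[X]) (g : L[X]) : Prop :=
  ∃ ψ : K₀ →+* K, (∀ f : k[X], ψ (algebraMap k[X] K₀ f) =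
      algebraMap L[X] K ((f.map (algebraMap k L)).comp g)) ∧
    ∀ P : Pt (pullCurve K a b g) K, ∃ Q P1 P2 : Pt (pullCurve K a b g) K,
      Pulled ψ P1 ∧ Pulled ψ P2 ∧ P = Q + Q + (P1 + P2)

/-- **Pullbacks which are unramified enough.** -/
theorem mw_pull {L : Type} [Field L] [Algebra k L] {K : Type} [Field K] [Algebra L[X] K]
    [IsFractionRing L[X] K] (h2 : (2 : k) ≠ 0) {a b : k[X]} (hB : BaseT K₀ a b) {g : L[X]}
    (hq : 0 < g.natDegree) {n : ℕ} (hqn : g.natDegree ≤ n)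
    (hirr : ∀ ξ, (b * (a ^ 2 - 4 * b)).IsRoot ξ → Irreducible (g - C (algebraMap k L ξ)) ∧
      (g - C (algebraMap k L ξ)).natDegree = n ∧ SqStable (g - C (algebraMap k L ξ)))
    (hpar : Odd n ∨ NoInf a b) :
    PointsFromBase K₀ K a b g ∧ (NoInf a b → Sha.ShaTwoTrivial L[X] (pullCurve K a b g)) := by
  have h2L : (2 : L) ≠ 0 := by
    rw [← map_ofNat (algebraMap k L) 2]
    exact (map_ne_zero_iff _ (algebraMap k L).injective).2 h2
  obtain ⟨ψ, hψ, D⟩ := data_pull (K₀ := K₀) (K := K) (algebraMap k L) h2 hB hq hqn hirr hpar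
  refine ⟨⟨ψ, hψ, fun P => ?_⟩, fun hI => ?_⟩
  · exact pts_data h2L D (fun A h => Or.inr h) (fun A h => Or.inr h) P
  · exact sha_data h2L D (fun A => Or.inl hI) (fun A => Or.inl hI)

theorem odd_pull {L : Type} [Field L] [Algebra k L] {L' K F : Type} [Field L'] [Algebra L L']
    [Field K] [Algebra L[X] K] [Field F] [Algebra L'[X] F] [IsFractionRing L'[X] F] [Algebra K F]
    (hT : IsTower L L' K F) [IsFractionRing L[X] K] (h2 : (2 : k) ≠ 0) {a b : k[X]}
    (hB : BaseT K₀ a b) {g : L[X]} {n : ℕ} (hn : Odd n)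
    (hirr : ∀ ξ, (b * (a ^ 2 - 4 * b)).IsRoot ξ → Irreducible (g - C (algebraMap k L ξ)) ∧
      (g - C (algebraMap k L ξ)).natDegree = n ∧ (g - C (algebraMap k L ξ)).Separable) :
    TateAtTwo (F := F) L' (pullCurve K a b g) ∧ PointsFromBase K₀ K a b g ∧
      (NoInf a b → Sha.ShaTwoTrivial L[X] (pullCurve K a b g)) := by
  obtain ⟨ξb, ob⟩ := hB.ob
  have hroot : b.IsRoot ξb := (rootMultiplicity_pos hB.hb).1 ob.pos
  obtain ⟨-, hgn, -⟩ := hirr ξb (by rw [IsRoot.def, eval_mul, IsRoot.def.1 hroot, zero_mul])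
  rw [natDegree_sub_C] at hgn
  have hq : 0 < g.natDegree := by rw [hgn]; exact hn.pos
  refine ⟨?_, mw_pull h2 hB hq hgn.le (fun ξ hξ => ?_) (Or.inl hn)⟩
  · have key := pull_tateT (K₀ := K₀) h2 hB hT (algebraMap k L) (q := g) (r := 1)
      isCoprime_one_right hq hgn.le (by rw [natDegree_one]; exact Nat.zero_le n)
      (fun ξ hξ => by
        rw [mul_one]
        obtain ⟨h1, h3, h5⟩ := hirr ξ hξ
        exact ⟨h1, h3, h5, notNorm_of_odd (by rw [h3]; exact hn)⟩) (Or.inl hn) (Or.inl rfl)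
    have := key.1
    rw [pb_one_comp, pb_one_comp] at this
    exact this
  · obtain ⟨h1, h3, -⟩ := hirr ξ hξ
    exact ⟨h1, h3, sqStable_of_odd h1 (by rw [h3]; exact hn)⟩

/-- **Kummer pullbacks.** -/
theorem kummer_pull {L : Type} [Field L] [Algebra k L] [Algebra.IsAlgebraic k L] {n : ℕ}
    (hn : Odd n) (hn0 : (n : k) ≠ 0) (hL : ∀ y : L, n.Coprime (minpoly k y).natDegree)
    {L' K F : Type} [Field L'] [Algebra L L']
    [Field K] [Algebra L[X] K] [Field F] [Algebra L'[X] F] [IsFractionRing L'[X] F] [Algebra K F]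
    (hT : IsTower L L' K F) [IsFractionRing L[X] K] (h2 : (2 : k) ≠ 0) {a b : k[X]}
    (hB : BaseT K₀ a b) {c : k}
    (hc : ∀ ξ, (b * (a ^ 2 - 4 * b)).IsRoot ξ → NoPower n (ξ - c)) :
    TateAtTwo (F := F) L' (pullCurve K a b (X ^ n + C (algebraMap k L c))) ∧
      PointsFromBase K₀ K a b (X ^ n + C (algebraMap k L c)) ∧
      (NoInf a b → Sha.ShaTwoTrivial L[X]
        (pullCurve K a b (X ^ n + C (algebraMap k L c)))) := by
  refine odd_pull hT h2 hB hn fun ξ hξ => ?_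
  have h1 := noPower_ext (hc ξ hξ) hL
  rw [map_sub] at h1
  obtain ⟨h3, h4, h5⟩ := kummer_irr hn h1
  refine ⟨h3, h4, h5 ?_⟩
  rw [← map_natCast (algebraMap k L) n]
  exact (map_ne_zero_iff _ (algebraMap k L).injective).2 hn0

end concl

end Pool.Agent.X243.CD
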