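import Pool.Agent.X243.CD.Base2
import Pool.Agent.TH115.ID.Val

/-!
Local analysis for the complete two-descent: the places where the discriminant has odd valuation.
-/

set_option autoImplicit false
set_option linter.all false

open WeierstrassCurve WeierstrassCurve.Affine IsDedekindDomain
open scoped Classical

namespace Pool.Agent.X243.CD

open Pool.Agent.TH115.GD
open Pool.Agent.W309.TD (Sq val_one_add near_mul)

section zc

variable {F : Type*} [Field F]

/-- The values of the coordinate `x` of the points of `y ^ 2 = x (x ^ 2 + a x + b)`, modulo squares. -/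
def Zc (a b z : F) : Prop :=
  z = 1 ∨ z = b ∨ (z ≠ 0 ∧ ∃ y : F, y ^ 2 = z * (z ^ 2 + a * z + b))

theorem Zc.map {F' : Type*} [Field F'] (φ : F →+* F') {a b z : F} (h : Zc a b z) :
    Zc (φ a) (φ b) (φ z) := by
  rcases h with h | h | ⟨h, y, hy⟩
  · exact Or.inl (by rw [h, map_one])
  · exact Or.inr (Or.inl (by rw [h]))
  · refine Or.inr (Or.inr ⟨(map_ne_zero φ).2 h, φ y, ?_⟩)
    rw [← map_pow, hy]
    simp only [map_mul, map_add, map_pow]

variable {Γ : Type*} [LinearOrderedCommGroupWithZero Γ] {v : Valuation F Γ}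

theorem zc_even {v : Valuation F (WithZero (Multiplicative ℤ))} {a b z : F} (ha : v a ≤ 1)
    (hb : v b = 1) (h : Zc a b z) : IsSquare (v z) := by
  rcases h with h | h | ⟨h, y, hy⟩
  · rw [h, map_one]; exact ⟨1, (mul_one 1).symm⟩
  · rw [h, hb]; exact ⟨1, (mul_one 1).symm⟩
  · exact evA v ha hb h hy

/-- At the places where `a ^ 2 - 4 b` has odd positive order. -/
theorem zc_sq {a b z : F} (h2 : v 2 = 1) (ha : v a ≤ 1) (hb : v b = 1)
    (hd : v (a ^ 2 - 4 * b) < 1) (hn : ¬ IsSquare (v (a ^ 2 - 4 * b))) (h : Zc a b z) :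
    Sq v z := by
  have h4 : v 4 = 1 := by
    have : (4 : F) = 2 * 2 := by norm_num
    rw [this, map_mul, h2, mul_one]
  have h20 : (2 : F) ≠ 0 := by
    intro h; rw [h, map_zero] at h2; exact zero_ne_one h2
  have h40 : (4 : F) ≠ 0 := by
    intro h; rw [h, map_zero] at h4; exact zero_ne_one h4
  have hb0 : b ≠ 0 := by
    intro h; rw [h, map_zero] at hb; exact zero_ne_one hb
  obtain ⟨d, hdd⟩ : ∃ d, d = a ^ 2 - 4 * b := ⟨_, rfl⟩
  rw [← hdd] at hd hn
  have hva2 : v (a ^ 2) = 1 := by
    have e : a ^ 2 - 4 * b = d := hdd.symm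
    have h5 : v (a ^ 2 - 4 * b) < v (4 * b) := by rw [e, map_mul, h4, hb, mul_one]; exact hd
    have h6 := v.map_eq_of_sub_lt h5
    rw [h6, map_mul, h4, hb, mul_one]
  have ha0 : a ≠ 0 := by
    rintro rfl
    rw [zero_pow two_ne_zero, map_zero] at hva2
    exact zero_ne_one hva2
  rcases h with h | h | ⟨h, y, hy⟩
  · rw [h]; exact Sq.of_one (by rw [sub_self, map_zero]; exact zero_lt_one)
  · rw [h]
    apply Sq.of_near hb0 (u := a ^ 2 / (4 * b)) (c := a / 2)
    · field_simp
      ring
    · have e : a ^ 2 / (4 * b) - 1 = d / (4 * b) := by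
        rw [hdd]; field_simp
      rw [e, map_div₀, map_mul, h4, hb, mul_one, div_one]
      exact hd
  · rcases lt_trichotomy (v z) 1 with h1 | h1 | h1
    · apply Sq.of_near h (u := (z ^ 2 + a * z + b) / (a / 2) ^ 2) (c := y / (a / 2))
      · rw [div_pow y, hy]
        field_simp
      · have e : (z ^ 2 + a * z + b) / (a / 2) ^ 2 - 1 = (4 * (z ^ 2 + a * z) - d) / a ^ 2 := by
          rw [hdd]; field_simp; ring
        rw [e, map_div₀, hva2, div_one]
        refine lt_of_le_of_lt (v.map_sub _ _) (max_lt ?_ hd)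
        have e2 : 4 * (z ^ 2 + a * z) = 4 * (z * (z + a)) := by ring
        rw [e2, map_mul, h4, one_mul, map_mul]
        have h3 : v (z + a) ≤ 1 := (v.map_add _ _).trans (max_le h1.le ha)
        exact lt_of_le_of_lt (mul_le_mul_right h3 (v z)) (by rw [mul_one]; exact h1)
    · obtain ⟨s, hs⟩ : ∃ s, s = z + a / 2 := ⟨_, rfl⟩
      obtain ⟨e, he⟩ : ∃ e, e = d / 4 := ⟨_, rfl⟩
      have hve : v e = v d := by rw [he, map_div₀, h4, div_one]
      have hy' : y ^ 2 = z * (s ^ 2 - e) := by
        rw [hy, hs, he, hdd]; field_simp; ring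
      have hvy : v y * v y = v (s ^ 2 - e) := by
        rw [← map_mul, ← pow_two, hy', map_mul, h1, one_mul]
      rcases lt_trichotomy (v (s ^ 2)) (v e) with h3 | h3 | h3
      · exfalso
        apply hn
        rw [← hve, ← v.map_sub_eq_of_lt_right h3]
        exact ⟨v y, hvy.symm⟩
      · exfalso
        apply hn
        rw [← hve, ← h3, map_pow, pow_two]
        exact ⟨_, rfl⟩
      · have hs0 : s ≠ 0 := by
          rintro rfl
          rw [zero_pow two_ne_zero, map_zero] at h3
          exact not_lt_zero' h3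
        apply Sq.of_near h (u := (s ^ 2 - e) / s ^ 2) (c := y / s)
        · rw [div_pow, hy']
          field_simp
        · have e3 : (s ^ 2 - e) / s ^ 2 - 1 = -(e / s ^ 2) := by field_simp; ring
          rw [e3, v.map_neg, map_div₀]
          exact (div_lt_one₀ (lt_of_le_of_lt zero_le' h3)).2 h3
    · have hz0 : v z ≠ 0 := (v.ne_zero_iff).2 h
      apply Sq.of_near h (u := 1 + a / z + b / z ^ 2) (c := y / z)
      · rw [div_pow, hy]
        field_simp
      · have e : 1 + a / z + b / z ^ 2 - 1 = a / z + b / z ^ 2 := by ring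
        rw [e]
        refine lt_of_le_of_lt (v.map_add _ _) (max_lt ?_ ?_)
        · rw [map_div₀]
          exact (div_lt_one₀ (zero_lt_iff.2 hz0)).2 (lt_of_le_of_lt ha h1)
        · rw [map_div₀, hb, map_pow]
          exact (div_lt_one₀ (zero_lt_iff.2 (pow_ne_zero 2 hz0))).2 (one_lt_pow₀ h1 two_ne_zero)

/-- The curve `y ^ 2 = x (x ^ 2 + b)` at the places where `b` has odd positive order. -/
theorem zc_zero {b z : F} (hb : v b < 1) (hn : ¬ IsSquare (v b)) (h : Zc 0 b z) :
    Sq v z ∨ Sq v (z * b) := by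
  have hb0 : b ≠ 0 := by
    rintro rfl
    apply hn
    rw [map_zero]
    exact ⟨0, (mul_zero 0).symm⟩
  rcases h with h | h | ⟨h, y, hy⟩
  · left
    rw [h]; exact Sq.of_one (by rw [sub_self, map_zero]; exact zero_lt_one)
  · right
    rw [h, ← pow_two]; exact Sq.sq hb0
  · rcases lt_trichotomy (v (z ^ 2)) (v b) with h3 | h3 | h3
    · right
      apply Sq.of_near (mul_ne_zero h hb0) (u := (z ^ 2 + b) / b) (c := y)
      · rw [hy]
        field_simp
        ring
      · have e : (z ^ 2 + b) / b - 1 = z ^ 2 / b := by field_simp; ring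
        rw [e, map_div₀]
        exact (div_lt_one₀ (lt_of_le_of_lt zero_le' h3)).2 h3
    · exfalso
      apply hn
      rw [← h3, map_pow, pow_two]
      exact ⟨_, rfl⟩
    · left
      apply Sq.of_near h (u := (z ^ 2 + b) / z ^ 2) (c := y / z)
      · rw [div_pow, hy]
        field_simp
        ring
      · have e : (z ^ 2 + b) / z ^ 2 - 1 = b / z ^ 2 := by field_simp; ring
        rw [e, map_div₀]
        exact (div_lt_one₀ (lt_of_le_of_lt zero_le' h3)).2 h3

end zc

section full

variable {F : Type*} [Field F] {Γ : Type*} [LinearOrderedCommGroupWithZero Γ]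
  {v : Valuation F Γ} {W : Affine F} {a b : F} (h : IsE W a b)

include h

/-- The places which divide `b`. -/
theorem sqB (ha : v a = 1) (hb : v b < 1) (hn : ¬ IsSquare (v b)) (Q : W.Point)
    (he : IsSquare (v (d0 a b Q))) : Sq v (d1 a b Q) := by
  rcases Q with _ | ⟨x, y, hxy⟩
  · simp only [d1]
    exact Sq.of_one (by rw [sub_self, map_zero]; exact zero_lt_one)
  have heq := h.nonsingular.1 hxy
  simp only [d0] at he
  simp only [d1]
  have ha0 := h.nea
  have hb0 := h.neb
  by_cases xa : x = a
  · rw [if_pos xa]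
    apply Sq.of_near (mul_ne_zero ha0 (sub_ne_zero.2 h.neab)) (u := a / (a - b)) (c := a)
    · have := sub_ne_zero.2 h.neab
      field_simp
    · have h3 : v (a - b) = 1 := by rw [v.map_sub_eq_of_lt_left (by rw [ha]; exact hb), ha]
      have h4 := sub_ne_zero.2 h.neab
      have e : a / (a - b) - 1 = b / (a - b) := by field_simp; ring
      rw [e, map_div₀, h3, div_one]
      exact hb
  rw [if_neg xa]
  by_cases x0 : x = 0
  · exfalso
    rw [if_pos x0, map_mul, ha, one_mul] at he
    exact hn he
  rw [if_neg x0] at he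
  have hxa : x - a ≠ 0 := sub_ne_zero.2 xa
  rcases lt_trichotomy (v x) (v b) with h3 | h3 | h3
  · exfalso
    have e1 : v (x - a) = 1 := by
      rw [v.map_sub_swap, v.map_sub_eq_of_lt_left (by rw [ha]; exact h3.trans hb), ha]
    have e2 : v (x - b) = v b := by rw [v.map_sub_swap, v.map_sub_eq_of_lt_left h3]
    have hve : v y * v y = v x * v (x - a) * v (x - b) := by
      rw [← map_mul, ← map_mul, ← map_mul, ← heq, pow_two]
    rw [e1, e2, mul_one] at hve
    obtain ⟨r, hr⟩ := he
    have hr0 : r ≠ 0 := by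
      rintro rfl
      rw [mul_zero] at hr
      exact (v.ne_zero_iff.2 x0) hr
    apply hn
    refine ⟨v y / r, ?_⟩
    rw [div_mul_div_comm, hve, hr, mul_div_cancel_left₀ _ (mul_ne_zero hr0 hr0)]
  · exfalso
    rw [h3] at he
    exact hn he
  · apply Sq.of_near hxa (u := (x - b) / x) (c := y / x)
    · rw [div_pow, heq]
      field_simp
    · have e : (x - b) / x - 1 = -(b / x) := by field_simp; ring
      rw [e, v.map_neg, map_div₀]
      exact (div_lt_one₀ (lt_of_le_of_lt zero_le' h3)).2 h3

/-- The places which divide `a - b`. -/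
theorem sqC (ha : v a = 1) (hc : v (a - b) < 1) (hn : ¬ IsSquare (v (a - b))) (Q : W.Point)
    (he : IsSquare (v (d1 a b Q))) : Sq v (d0 a b Q) := by
  rcases Q with _ | ⟨x, y, hxy⟩
  · simp only [d0]
    exact Sq.of_one (by rw [sub_self, map_zero]; exact zero_lt_one)
  have heq := h.nonsingular.1 hxy
  simp only [d1] at he
  simp only [d0]
  have ha0 := h.nea
  have hb0 := h.neb
  have hab := sub_ne_zero.2 h.neab
  by_cases x0 : x = 0
  · rw [if_pos x0]
    apply Sq.of_near (mul_ne_zero ha0 hb0) (u := a / b) (c := a)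
    · field_simp
    · have h3 : v b = 1 := by
        have e : v (a - b) < v a := by rw [ha]; exact hc
        have e2 := v.map_eq_of_sub_lt (x := a) (y := b) (by rw [v.map_sub_swap]; exact e)
        rw [e2, ha]
      have e : a / b - 1 = (a - b) / b := by field_simp
      rw [e, map_div₀, h3, div_one]
      exact hc
  rw [if_neg x0]
  by_cases xa : x = a
  · exfalso
    rw [if_pos xa, map_mul, ha, one_mul] at he
    exact hn he
  rw [if_neg xa] at he
  have hxa : x - a ≠ 0 := sub_ne_zero.2 xa
  rcases lt_trichotomy (v (x - a)) (v (a - b)) with h3 | h3 | h3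
  · exfalso
    have e1 : v x = 1 := by
      have e2 := v.map_eq_of_sub_lt (x := a) (y := x) (by rw [ha]; exact h3.trans hc)
      rw [e2, ha]
    have e2 : v (x - b) = v (a - b) := by
      have e : x - b = (x - a) + (a - b) := by ring
      rw [e, v.map_add_eq_of_lt_right h3]
    have hve : v y * v y = v x * v (x - a) * v (x - b) := by
      rw [← map_mul, ← map_mul, ← map_mul, ← heq, pow_two]
    rw [e1, e2, one_mul] at hve
    obtain ⟨r, hr⟩ := he
    have hr0 : r ≠ 0 := by
      rintro rfl
      rw [mul_zero] at hr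
      exact (v.ne_zero_iff.2 hxa) hr
    apply hn
    refine ⟨v y / r, ?_⟩
    rw [div_mul_div_comm, hve, hr, mul_div_cancel_left₀ _ (mul_ne_zero hr0 hr0)]
  · exfalso
    rw [h3] at he
    exact hn he
  · apply Sq.of_near x0 (u := (x - b) / (x - a)) (c := y / (x - a))
    · rw [div_pow, heq]
      field_simp
    · have e : (x - b) / (x - a) - 1 = (a - b) / (x - a) := by field_simp; ring
      rw [e, map_div₀]
      exact (div_lt_one₀ (lt_of_le_of_lt zero_le' h3)).2 h3

end full

end Pool.Agent.X243.CD
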